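import Pool.Agent.Lib.MP_b525bf_ag_P.TorStep
import Pool.Agent.Lib.MP_b525bf_ag_helper53.FamLoc

/-!
# P2a: smoothness of the toric modification
-/

set_option autoImplicit false

namespace Pool.Agent.MP_b525bf_ag_P

open Pool.Agent.MP_b525bf_ag Pool.Agent.MP_b525bf_ag_W TensorProduct

section Abstract

variable {R R' A A' S D : Type} [CommRing R] [CommRing R'] [CommRing A] [CommRing A'] [CommRing S]
  [CommRing D] [Algebra R A] [Algebra R R'] [Algebra R' A'] [Algebra R A'] [IsScalarTower R R' A']
  [Algebra R S] [Algebra R D]

theorem formallySmooth_of_bijective_lift (j : A →ₐ[R] A') [Algebra.FormallySmooth R A]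
    (h : Function.Bijective (Algebra.TensorProduct.lift (Algebra.ofId R' A') j
      fun _ _ => Commute.all _ _)) : Algebra.FormallySmooth R' A' :=
  Algebra.FormallySmooth.of_equiv (AlgEquiv.ofBijective _ h)

omit [CommRing A'] [Algebra R' A'] [Algebra R A'] [IsScalarTower R R' A'] in
theorem lift_injective_of_flat [Module.Flat R A] (i : R' →ₐ[R] S) (hi : Function.Injective i)
    (jA : A →ₐ[R] D) (jS : S →ₐ[R] D)
    (h : Function.Injective (Algebra.TensorProduct.lift jA jS fun _ _ => Commute.all _ _))
    (jR : R' →ₐ[R] D) (hj : ∀ x, jR x = jS (i x)) :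
    Function.Injective (Algebra.TensorProduct.lift jA jR fun _ _ => Commute.all _ _) := by
  have h1 : Algebra.TensorProduct.lift jA jR (fun _ _ => Commute.all _ _) =
      (Algebra.TensorProduct.lift jA jS fun _ _ => Commute.all _ _).comp
        (Algebra.TensorProduct.map (AlgHom.id R A) i) := by
    refine Algebra.TensorProduct.ext' fun x y => ?_
    rw [AlgHom.comp_apply, Algebra.TensorProduct.map_tmul, Algebra.TensorProduct.lift_tmul,
      Algebra.TensorProduct.lift_tmul, hj, AlgHom.id_apply]
  rw [h1]
  refine h.comp ?_
  exact Module.Flat.lTensor_preserves_injective_linearMap (M := A) i.toLinearMap hi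

end Abstract

section Laurent

variable {R A K ι : Type} [CommRing R] [CommRing A] [Field K] [AddCommGroup ι] [Algebra R A]
  [Algebra R (AddMonoidAlgebra K (ι × ℤ))]

omit [CommRing R] [CommRing A] [Algebra R A] [Algebra R (AddMonoidAlgebra K (ι × ℤ))] in
theorem coeff_inl_mul_single (F : AddMonoidAlgebra K ι) (m : ℤ) (d : ι) (n : ℤ) :
    (AddMonoidAlgebra.mapDomainRingHom K (AddMonoidHom.inl ι ℤ) F *
      AddMonoidAlgebra.single (0, m) 1).coeff (d, n) = if m = n then F.coeff d else 0 := by
  classical
  induction F using AddMonoidAlgebra.induction_linear with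
  | zero => simp
  | add x y hx hy =>
    rw [map_add, add_mul, AddMonoidAlgebra.coeff_add, Finsupp.add_apply, hx, hy]
    split_ifs
    · rfl
    · rw [add_zero]
  | single e x =>
    have h1 : AddMonoidAlgebra.mapDomainRingHom K (AddMonoidHom.inl ι ℤ)
        (AddMonoidAlgebra.single e x) = AddMonoidAlgebra.single (e, 0) x :=
      AddMonoidAlgebra.mapDomain_single
    rw [h1, AddMonoidAlgebra.single_mul_single, AddMonoidAlgebra.coeff_single,
      AddMonoidAlgebra.coeff_single, Finsupp.single_apply, Finsupp.single_apply, Prod.mk_add_mk,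
      add_zero, zero_add, mul_one]
    by_cases h : m = n <;> simp [h]

theorem lift_laurent_injective (val : A →+* AddMonoidAlgebra K ι) (hval : Function.Injective val)
    (jA : A →ₐ[R] AddMonoidAlgebra K (ι × ℤ))
    (hjA : ∀ a, jA a = AddMonoidAlgebra.mapDomainRingHom K (AddMonoidHom.inl ι ℤ) (val a))
    (jS : AddMonoidAlgebra R ℤ →ₐ[R] AddMonoidAlgebra K (ι × ℤ))
    (hjS : ∀ n : ℤ, jS (AddMonoidAlgebra.single n 1) = AddMonoidAlgebra.single (0, n) 1) :
    Function.Injective (Algebra.TensorProduct.lift jA jS fun _ _ => Commute.all _ _) := by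
  classical
  let β := Algebra.TensorProduct.basis A (AddMonoidAlgebra.basis ℤ R)
  have key : ∀ w : A ⊗[R] AddMonoidAlgebra R ℤ, ∀ (d : ι) (n : ℤ),
      (Algebra.TensorProduct.lift jA jS (fun _ _ => Commute.all _ _) w).coeff (d, n) =
        (val (β.repr w n)).coeff d := by
    intro w d n
    induction w with
    | zero => simp
    | add x y hx hy => simp [hx, hy]
    | tmul a s =>
      induction s using AddMonoidAlgebra.induction_linear with
      | zero => simp
      | add x y hx hy =>
        rw [TensorProduct.tmul_add, map_add, map_add, Finsupp.add_apply, map_add,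
          AddMonoidAlgebra.coeff_add, AddMonoidAlgebra.coeff_add, Finsupp.add_apply,
          Finsupp.add_apply, hx, hy]
      | single m r =>
        have h1 : a ⊗ₜ[R] AddMonoidAlgebra.single m r = (r • a) ⊗ₜ[R] AddMonoidAlgebra.single m 1 := by
          rw [TensorProduct.smul_tmul, AddMonoidAlgebra.smul_single, smul_eq_mul, mul_one]
        have h2 : β.repr ((r • a) ⊗ₜ[R] AddMonoidAlgebra.single m 1) n =
            if m = n then r • a else 0 := by
          have h3 : (r • a) ⊗ₜ[R] (AddMonoidAlgebra.single m (1 : R)) = (r • a) • β m := by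
            rw [Algebra.TensorProduct.basis_apply, AddMonoidAlgebra.basis_apply,
              TensorProduct.smul_tmul', smul_eq_mul, mul_one]
          rw [h3, map_smul, Module.Basis.repr_self, Finsupp.smul_apply, Finsupp.single_apply]
          split_ifs with h
          · rw [smul_eq_mul, mul_one]
          · rw [smul_zero]
        rw [h1, h2, Algebra.TensorProduct.lift_tmul, hjA, hjS, coeff_inl_mul_single]
        split_ifs with h
        · rfl
        · rw [map_zero]
          rfl
  rw [injective_iff_map_eq_zero]
  intro w hw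
  have h1 : ∀ n, β.repr w n = 0 := by
    intro n
    apply hval
    rw [map_zero]
    refine AddMonoidAlgebra.ext (Finsupp.ext fun d => ?_)
    rw [← key w d n, hw]
    rfl
  exact β.repr.map_eq_zero_iff.1 (Finsupp.ext h1)

end Laurent

section Poly

open MvPolynomial

variable {k T : Type} [Field k]

/-- The homomorphism `X_j ↦ X_j t ^ (v j)`, `X_none ↦ t ^ (-1)`. -/
noncomputable def polyHom (v : T → ℕ) :
    MvPolynomial (Option T) k →ₐ[k] AddMonoidAlgebra (MvPolynomial T k) ℤ :=
  aeval fun t => t.elim (AddMonoidAlgebra.single (-1) 1)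
    fun j => AddMonoidAlgebra.single (v j : ℤ) (X j)

/-- The homomorphism `X_j ↦ X_j t ^ (-v j)`, `t ↦ t`. -/
noncomputable def twistHom (v : T → ℕ) :
    AddMonoidAlgebra (MvPolynomial T k) ℤ →+* AddMonoidAlgebra (MvPolynomial T k) ℤ :=
  AddMonoidAlgebra.liftNCRingHom
    ((aeval fun j => AddMonoidAlgebra.single (-(v j : ℤ)) (X j) :
      MvPolynomial T k →ₐ[k] AddMonoidAlgebra (MvPolynomial T k) ℤ) : MvPolynomial T k →+* _)
    (AddMonoidAlgebra.of (MvPolynomial T k) ℤ) fun _ _ => Commute.all _ _

theorem twistHom_single (v : T → ℕ) (n : ℤ) (r : MvPolynomial T k) :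
    twistHom v (AddMonoidAlgebra.single n r) =
      (aeval fun j => AddMonoidAlgebra.single (-(v j : ℤ)) (X j) :
      MvPolynomial T k →ₐ[k] AddMonoidAlgebra (MvPolynomial T k) ℤ) r *
      AddMonoidAlgebra.single n 1 :=
  AddMonoidAlgebra.liftNC_single _ _ _ _

theorem polyHom_injective (v : T → ℕ) : Function.Injective (polyHom (k := k) v) := by
  have h1 : (twistHom v).comp (polyHom (k := k) v).toRingHom =
      ((LaurentPolynomial.invert (R := MvPolynomial T k)).toRingHom.comp
        Polynomial.toLaurent).comp (optionEquivLeft k T).toRingHom := by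
    refine MvPolynomial.ringHom_ext (fun r => ?_) fun t => ?_
    · change twistHom v (polyHom v (C r)) = LaurentPolynomial.invert (R := MvPolynomial T k)
        (Polynomial.toLaurent (optionEquivLeft k T (C r)))
      rw [polyHom, aeval_C, optionEquivLeft_C, Polynomial.toLaurent_C, LaurentPolynomial.invert_C]
      change twistHom v (AddMonoidAlgebra.single 0 (C r)) = AddMonoidAlgebra.single 0 (C r)
      rw [twistHom_single, aeval_C, ← AddMonoidAlgebra.one_def, mul_one]
      rfl
    · cases t with
      | none =>
        change twistHom v (polyHom v (X none)) = LaurentPolynomial.invert (R := MvPolynomial T k)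
          (Polynomial.toLaurent (optionEquivLeft k T (X none)))
        rw [polyHom, aeval_X, optionEquivLeft_X_none, Polynomial.toLaurent_X,
          LaurentPolynomial.invert_T]
        change twistHom v (AddMonoidAlgebra.single (-1) 1) = AddMonoidAlgebra.single (-1) 1
        rw [twistHom_single, map_one, one_mul]
      | some j =>
        change twistHom v (polyHom v (X (some j))) = LaurentPolynomial.invert (R := MvPolynomial T k)
          (Polynomial.toLaurent (optionEquivLeft k T (X (some j))))
        rw [polyHom, aeval_X, optionEquivLeft_X_some, Polynomial.toLaurent_C,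
          LaurentPolynomial.invert_C]
        change twistHom v (AddMonoidAlgebra.single (v j : ℤ) (X j)) =
          AddMonoidAlgebra.single 0 (X j)
        rw [twistHom_single, aeval_X, AddMonoidAlgebra.single_mul_single, neg_add_cancel, mul_one]
  have h2 : Function.Injective ((twistHom v).comp (polyHom (k := k) v).toRingHom) := by
    rw [h1]
    exact ((LaurentPolynomial.invert (R := MvPolynomial T k)).injective.comp
      Polynomial.toLaurent_injective).comp (optionEquivLeft k T).injective
  exact Function.Injective.of_comp (f := twistHom v) h2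

/-- The homomorphism of polynomial rings `X_j ↦ X_j X_none ^ (v j)`. -/
noncomputable def thetaHom (v : T → ℕ) : MvPolynomial T k →ₐ[k] MvPolynomial (Option T) k :=
  aeval fun j => X (some j) * X none ^ (v j)

theorem polyHom_thetaHom (v : T → ℕ) (r : MvPolynomial T k) :
    polyHom v (thetaHom v r) = AddMonoidAlgebra.single 0 r := by
  have h1 : ((polyHom (k := k) v).comp (thetaHom v)).toRingHom =
      AddMonoidAlgebra.singleZeroRingHom := by
    refine MvPolynomial.ringHom_ext (fun r => ?_) fun j => ?_
    · change polyHom v (thetaHom v (C r)) = AddMonoidAlgebra.single 0 (C r)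
      rw [thetaHom, aeval_C, AlgHom.commutes]
      rfl
    · change polyHom v (thetaHom v (X j)) = AddMonoidAlgebra.single 0 (X j)
      rw [thetaHom, aeval_X, map_mul, map_pow, polyHom, aeval_X, aeval_X]
      change AddMonoidAlgebra.single (v j : ℤ) (X j) * AddMonoidAlgebra.single (-1) 1 ^ (v j) = _
      rw [AddMonoidAlgebra.single_pow, AddMonoidAlgebra.single_mul_single, one_pow, mul_one]
      congr 1
      simp
  exact RingHom.congr_fun h1 r

end Poly

section Concrete

open MvPolynomial AddMonoidAlgebra

variable {k K ι J : Type} [Field k] [Field K] [Algebra k K] [AddCommGroup ι]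
  {C : Fam k K ι} {u : J → ι} {v : J → ℕ} {T : Set J}

/-- The inclusion of the algebra of a family into the algebra of its toric modification. -/
noncomputable def inclHom (C : Fam k K ι) (u : J → ι) (v : J → ℕ) :
    C.alg →ₐ[k] (torStep C u v).alg :=
  ((AddMonoidAlgebra.mapDomainAlgHom k K (AddMonoidHom.inl ι ℤ)).comp C.alg.val).codRestrict _ (by
    intro F
    change AddMonoidAlgebra.mapDomainRingHom K (AddMonoidHom.inl ι ℤ) (F : AddMonoidAlgebra K ι) ∈
      (torStep C u v).alg
    obtain ⟨F, hF⟩ := F
    change AddMonoidAlgebra.mapDomainRingHom K (AddMonoidHom.inl ι ℤ) F ∈ _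
    rw [H53.sum_single_coeff F, map_sum]
    refine Subalgebra.sum_mem _ fun d _ => ?_
    have h1 : AddMonoidAlgebra.mapDomainRingHom K (AddMonoidHom.inl ι ℤ)
        (AddMonoidAlgebra.single d (F.coeff d)) = AddMonoidAlgebra.single (d, 0) (F.coeff d) :=
      AddMonoidAlgebra.mapDomain_single
    rw [h1]
    exact Fam.single_mem_alg.2 (le_torStep d (hF d)))

theorem coe_inclHom (F : C.alg) : (inclHom C u v F : AddMonoidAlgebra K (ι × ℤ)) =
    AddMonoidAlgebra.mapDomainRingHom K (AddMonoidHom.inl ι ℤ) (F : AddMonoidAlgebra K ι) := rfl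

/-- The homomorphism from the polynomial ring in the new sections. -/
noncomputable def sigHom (T : Set J)
    (hsec' : ∀ j, (1 : K) ∈ (torStep C u v).s (-(torU u v j))) :
    MvPolynomial (Option T) k →ₐ[k] (torStep C u v).alg :=
  aeval fun t => (torStep C u v).el (hsec' (t.map Subtype.val))

theorem incl_secMap (hsec : ∀ j, (1 : K) ∈ C.s (-(u j)))
    (hsec' : ∀ j, (1 : K) ∈ (torStep C u v).s (-(torU u v j))) (r : MvPolynomial T k) :
    inclHom C u v (secMap C u T hsec r) =
      sigHom T hsec' (thetaHom (fun j : T => v j) r) := by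
  have h1 : (inclHom C u v).comp (secMap C u T hsec) =
      (sigHom T hsec').comp (thetaHom (fun j : T => v j)) := by
    refine MvPolynomial.algHom_ext fun j => Subtype.ext ?_
    have h2 : secMap C u T hsec (X j) = C.el (hsec j) := aeval_X _ _
    have h3 : sigHom T hsec' (X (some j)) = (torStep C u v).el (hsec' (some j)) := aeval_X _ _
    have h4 : sigHom T hsec' (X none) = (torStep C u v).el (hsec' none) := aeval_X _ _
    have h5 : thetaHom (k := k) (fun j : T => v j) (X j) = X (some j) * X none ^ (v j) :=
      aeval_X _ _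
    rw [AlgHom.comp_apply, AlgHom.comp_apply, h2, h5, map_mul, map_pow, h3, h4, coe_inclHom]
    change AddMonoidAlgebra.mapDomainRingHom K (AddMonoidHom.inl ι ℤ)
      (AddMonoidAlgebra.single (-(u j)) 1) =
      AddMonoidAlgebra.single (-(torU u v (some j))) 1 * AddMonoidAlgebra.single (-(torU u v none))
        1 ^ (v j)
    have h6 : AddMonoidAlgebra.mapDomainRingHom K (AddMonoidHom.inl ι ℤ)
        (AddMonoidAlgebra.single (-(u j)) (1 : K)) = AddMonoidAlgebra.single (-(u j), 0) 1 :=
      AddMonoidAlgebra.mapDomain_single
    rw [h6, AddMonoidAlgebra.single_pow, AddMonoidAlgebra.single_mul_single, one_pow, mul_one]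
    congr 1
    refine Prod.ext ?_ ?_
    · simp [torU]
    · simp [torU]
  exact AlgHom.congr_fun h1 r

/-- The homomorphism from the tensor product. -/
theorem smooth_torStep_aux [Finite J] (hfg : C.alg.FG)
    (hsec : ∀ j, (1 : K) ∈ C.s (-(u j)))
    (hsm : (secMap C u T hsec).toRingHom.FormallySmooth) (hT : ∀ j, 0 < v j → j ∈ T)
    (hsec' : ∀ j, (1 : K) ∈ (torStep C u v).s (-(torU u v j))) :
    (sigHom (v := v) T hsec').toRingHom.FormallySmooth := by
  let σ := sigHom (k := k) (C := C) (u := u) (v := v) T hsec'
  let θ := thetaHom (k := k) (fun j : T => v j)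
  let _ : Algebra (MvPolynomial T k) C.alg := (secMap C u T hsec).toRingHom.toAlgebra
  let _ : Algebra (MvPolynomial T k) (MvPolynomial (Option T) k) := θ.toRingHom.toAlgebra
  let _ : Algebra (MvPolynomial (Option T) k) (torStep C u v).alg := σ.toRingHom.toAlgebra
  let _ : Algebra (MvPolynomial T k) (torStep C u v).alg :=
    (σ.toRingHom.comp θ.toRingHom).toAlgebra
  let _ : Algebra (MvPolynomial T k) (AddMonoidAlgebra K (ι × ℤ)) :=
    ((torStep C u v).alg.val.toRingHom.comp (σ.toRingHom.comp θ.toRingHom)).toAlgebra
  have i1 : IsScalarTower (MvPolynomial T k) (MvPolynomial (Option T) k) (torStep C u v).alg :=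
    IsScalarTower.of_algebraMap_eq fun _ => rfl
  have i2 : IsScalarTower k (MvPolynomial T k) C.alg :=
    IsScalarTower.of_algebraMap_eq fun r => ((secMap C u T hsec).commutes r).symm
  have i3 : Algebra.FormallySmooth (MvPolynomial T k) C.alg := hsm
  have i4 : Algebra.FiniteType k C.alg := (Subalgebra.fg_iff_finiteType _).1 hfg
  have i5 : Algebra.FiniteType (MvPolynomial T k) C.alg :=
    Algebra.FiniteType.of_restrictScalars_finiteType k _ _
  have i6 : Algebra.FinitePresentation (MvPolynomial T k) C.alg :=
    Algebra.FinitePresentation.of_finiteType.1 i5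
  have i7 : Algebra.Smooth (MvPolynomial T k) C.alg := { }
  have i8 : Module.Flat (MvPolynomial T k) C.alg := inferInstance
  have i9 : IsScalarTower k (MvPolynomial T k) (AddMonoidAlgebra K (ι × ℤ)) :=
    IsScalarTower.of_algebraMap_eq fun r => by
      change _ = ((σ (θ (algebraMap k _ r)) : (torStep C u v).alg) : AddMonoidAlgebra K (ι × ℤ))
      rw [AlgHom.commutes, AlgHom.commutes]
      rfl
  -- the homomorphisms
  let j : C.alg →ₐ[MvPolynomial T k] (torStep C u v).alg :=
    { (inclHom C u v).toRingHom with
      commutes' := fun r => incl_secMap hsec hsec' r }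
  let jA : C.alg →ₐ[MvPolynomial T k] AddMonoidAlgebra K (ι × ℤ) :=
    { (torStep C u v).alg.val.toRingHom.comp (inclHom C u v).toRingHom with
      commutes' := fun r => congrArg Subtype.val (incl_secMap hsec hsec' r) }
  let jR : MvPolynomial (Option T) k →ₐ[MvPolynomial T k] AddMonoidAlgebra K (ι × ℤ) :=
    { (torStep C u v).alg.val.toRingHom.comp σ.toRingHom with
      commutes' := fun r => rfl }
  let i : MvPolynomial (Option T) k →ₐ[MvPolynomial T k] AddMonoidAlgebra (MvPolynomial T k) ℤ :=
    { (polyHom (k := k) (fun j : T => v j)).toRingHom with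
      commutes' := fun r => polyHom_thetaHom _ r }
  let g : Multiplicative ℤ →* AddMonoidAlgebra K (ι × ℤ) :=
    { toFun := fun n => AddMonoidAlgebra.single (0, n.toAdd) 1
      map_one' := rfl
      map_mul' := fun m n => by
        rw [AddMonoidAlgebra.single_mul_single, one_mul, Prod.mk_add_mk, add_zero]
        rfl }
  let jS : AddMonoidAlgebra (MvPolynomial T k) ℤ →ₐ[MvPolynomial T k]
      AddMonoidAlgebra K (ι × ℤ) := AddMonoidAlgebra.lift (MvPolynomial T k) _ ℤ g
  have hjS : ∀ n : ℤ, jS (AddMonoidAlgebra.single n 1) = AddMonoidAlgebra.single (0, n) 1 := by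
    intro n
    change AddMonoidAlgebra.lift (MvPolynomial T k) _ ℤ g (AddMonoidAlgebra.single n 1) = _
    rw [AddMonoidAlgebra.lift_single, one_smul]
    rfl
  have hθ : ∀ j, σ (θ (X j)) = (torStep C u v).el (hsec' (some j)) *
      (torStep C u v).el (hsec' none) ^ (v j) := by
    intro j
    have h5 : θ (X j) = X (some j) * X none ^ (v j) := aeval_X _ _
    have h3 : σ (X (some j)) = (torStep C u v).el (hsec' (some j)) := aeval_X _ _
    have h4 : σ (X none) = (torStep C u v).el (hsec' none) := aeval_X _ _
    rw [h5, map_mul, map_pow, h3, h4]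
  have hj : ∀ x, jR x = jS (i x) := by
    have h1 : jR.toRingHom = jS.toRingHom.comp i.toRingHom := by
      refine MvPolynomial.ringHom_ext (fun r => ?_) fun t => ?_
      · have h2 : (MvPolynomial.C r : MvPolynomial (Option T) k) = algebraMap (MvPolynomial T k) _ (MvPolynomial.C r) := by
          change _ = θ (MvPolynomial.C r)
          rw [← algebraMap_eq, ← algebraMap_eq, AlgHom.commutes]
        change jR (MvPolynomial.C r) = jS (i (MvPolynomial.C r))
        rw [h2, AlgHom.commutes, AlgHom.commutes, AlgHom.commutes]
      · cases t with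
        | none =>
          change ((σ (X none) : (torStep C u v).alg) : AddMonoidAlgebra K (ι × ℤ)) =
            jS (polyHom (fun j : T => v j) (X none))
          have h4 : σ (X none) = (torStep C u v).el (hsec' none) := aeval_X _ _
          have h5 : polyHom (k := k) (fun j : T => v j) (X none) = AddMonoidAlgebra.single (-1) 1 :=
            aeval_X _ _
          rw [h4, h5, hjS]
          change AddMonoidAlgebra.single (-(torU u v none)) (1 : K) = _
          congr 1
          simp [torU]
        | some j =>
          change ((σ (X (some j)) : (torStep C u v).alg) : AddMonoidAlgebra K (ι × ℤ)) =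
            jS (polyHom (fun j : T => v j) (X (some j)))
          have h4 : σ (X (some j)) = (torStep C u v).el (hsec' (some j)) := aeval_X _ _
          have h5 : polyHom (k := k) (fun j : T => v j) (X (some j)) =
              (X j : MvPolynomial T k) • AddMonoidAlgebra.single (v j : ℤ) 1 := by
            rw [AddMonoidAlgebra.smul_single, smul_eq_mul, mul_one]
            exact aeval_X _ _
          rw [h4, h5, map_smul, hjS, Algebra.smul_def]
          change AddMonoidAlgebra.single (-(torU u v (some j))) (1 : K) =
            ((σ (θ (X j)) : (torStep C u v).alg) : AddMonoidAlgebra K (ι × ℤ)) * _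
          rw [hθ]
          change _ = AddMonoidAlgebra.single (-(torU u v (some j))) (1 : K) *
            AddMonoidAlgebra.single (-(torU u v none)) (1 : K) ^ (v j) *
            AddMonoidAlgebra.single (0, (v j : ℤ)) 1
          rw [AddMonoidAlgebra.single_pow, AddMonoidAlgebra.single_mul_single,
            AddMonoidAlgebra.single_mul_single, one_pow, mul_one, mul_one]
          congr 1
          refine Prod.ext ?_ ?_
          · simp [torU]
          · simp [torU]
    exact fun x => RingHom.congr_fun h1 x
  have hinj : Function.Injective (Algebra.TensorProduct.lift jA jR fun _ _ => Commute.all _ _) := by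
    refine lift_injective_of_flat i (polyHom_injective _) jA jS ?_ jR hj
    exact lift_laurent_injective C.alg.val.toRingHom Subtype.val_injective jA (fun a => rfl) jS hjS
  refine formallySmooth_of_bijective_lift j ⟨?_, ?_⟩
  · have hcomm : ∀ z : MvPolynomial (Option T) k ⊗[MvPolynomial T k] C.alg,
        Algebra.TensorProduct.lift jA jR (fun _ _ => Commute.all _ _)
          (Algebra.TensorProduct.comm (MvPolynomial T k) _ _ z) =
        ((Algebra.TensorProduct.lift (Algebra.ofId (MvPolynomial (Option T) k)
          (torStep C u v).alg) j (fun _ _ => Commute.all _ _) z : (torStep C u v).alg) :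
          AddMonoidAlgebra K (ι × ℤ)) := by
      intro z
      induction z with
      | zero => simp
      | add x y hx hy => rw [map_add, map_add, map_add, hx, hy]; rfl
      | tmul x y =>
        rw [Algebra.TensorProduct.comm_tmul, Algebra.TensorProduct.lift_tmul,
          Algebra.TensorProduct.lift_tmul, mul_comm]
        rfl
    intro z w hzw
    apply (Algebra.TensorProduct.comm (MvPolynomial T k) _ _).injective
    apply hinj
    rw [hcomm, hcomm, hzw]
  · rintro ⟨F, hF⟩
    have hF' : F ∈ Algebra.adjoin k (tgens C u v) := torStep_alg (M := C) ▸ hF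
    suffices hs : ∃ z, ((Algebra.TensorProduct.lift (Algebra.ofId (MvPolynomial (Option T) k)
          (torStep C u v).alg) j (fun _ _ => Commute.all _ _) z : (torStep C u v).alg) :
          AddMonoidAlgebra K (ι × ℤ)) = F by
      obtain ⟨z, hz⟩ := hs
      exact ⟨z, Subtype.ext hz⟩
    clear hF
    induction hF' using Algebra.adjoin_induction with
    | mem F hF =>
      rcases hF with ((⟨d, x, hx, rfl⟩ | hF) | ⟨j₀, hj₀, rfl⟩)
      · refine ⟨1 ⊗ₜ C.el hx, ?_⟩
        rw [Algebra.TensorProduct.lift_tmul, map_one, one_mul]
        exact AddMonoidAlgebra.mapDomain_single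
      · rw [Set.mem_singleton_iff] at hF
        refine ⟨X none ⊗ₜ 1, ?_⟩
        rw [Algebra.TensorProduct.lift_tmul, map_one, mul_one, hF]
        change ((σ (X none) : (torStep C u v).alg) : AddMonoidAlgebra K (ι × ℤ)) = _
        have h4 : σ (X none) = (torStep C u v).el (hsec' none) := aeval_X _ _
        rw [h4]
        change AddMonoidAlgebra.single (-(torU u v none)) (1 : K) = _
        congr 1
        simp [torU]
      · refine ⟨X (some ⟨j₀, hT j₀ hj₀⟩) ⊗ₜ 1, ?_⟩
        rw [Algebra.TensorProduct.lift_tmul, map_one, mul_one]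
        change ((σ (X (some ⟨j₀, hT j₀ hj₀⟩)) : (torStep C u v).alg) :
          AddMonoidAlgebra K (ι × ℤ)) = _
        have h4 : σ (X (some ⟨j₀, hT j₀ hj₀⟩)) = (torStep C u v).el (hsec' (some j₀)) :=
          aeval_X _ _
        rw [h4]
        change AddMonoidAlgebra.single (-(torU u v (some j₀))) (1 : K) = _
        congr 1
        simp [torU]
    | algebraMap r =>
      refine ⟨algebraMap k (MvPolynomial (Option T) k) r ⊗ₜ 1, ?_⟩
      rw [Algebra.TensorProduct.lift_tmul, map_one, mul_one]
      change ((σ (algebraMap k _ r) : (torStep C u v).alg) : AddMonoidAlgebra K (ι × ℤ)) = _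
      rw [AlgHom.commutes]
      rfl
    | add F G _ _ hF hG =>
      obtain ⟨z, hz⟩ := hF
      obtain ⟨w, hw⟩ := hG
      refine ⟨z + w, ?_⟩
      rw [map_add, ← hz, ← hw]
      rfl
    | mul F G _ _ hF hG =>
      obtain ⟨z, hz⟩ := hF
      obtain ⟨w, hw⟩ := hG
      refine ⟨z * w, ?_⟩
      rw [map_mul, ← hz, ← hw]
      rfl

/-- The index set of the new sections. -/
theorem optionMap_mem (T : Set J) (t : Option T) :
    t.map Subtype.val ∈ ({none} ∪ some '' T : Set (Option J)) := by
  cases t with
  | none => exact Or.inl rfl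
  | some j => exact Or.inr ⟨j, j.2, rfl⟩

theorem optionMap_bijective (T : Set J) :
    Function.Bijective (fun t : Option T => (⟨t.map Subtype.val, optionMap_mem T t⟩ :
      ({none} ∪ some '' T : Set (Option J)))) := by
  constructor
  · intro s t hst
    exact Option.map_injective Subtype.val_injective (congrArg Subtype.val hst)
  · rintro ⟨x, hx⟩
    rcases hx with hx | ⟨j, hj, rfl⟩
    · rw [Set.mem_singleton_iff] at hx
      subst hx
      exact ⟨none, rfl⟩
    · exact ⟨some ⟨j, hj⟩, rfl⟩

/-- Base change: the toric modification of a family which is smooth over the polynomial ring in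
the sections `X_j`, `j ∈ T`, where `T` contains all `j` with `v j > 0`, is smooth over the
polynomial ring in the new sections. -/
theorem smooth_torStep [Finite J] {C : Fam k K ι} {T : Set J} (hfg : C.alg.FG)
    (hsec : ∀ j, (1 : K) ∈ C.s (-(u j)))
    (hsm : (secMap C u T hsec).toRingHom.FormallySmooth) (hT : ∀ j, 0 < v j → j ∈ T)
    (hsec' : ∀ j, (1 : K) ∈ (torStep C u v).s (-(torU u v j))) :
    (secMap (torStep C u v) (torU u v) ({none} ∪ some '' T) hsec').toRingHom.FormallySmooth := by
  let e : Option T ≃ ({none} ∪ some '' T : Set (Option J)) :=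
    Equiv.ofBijective _ (optionMap_bijective T)
  have h1 : (secMap (torStep C u v) (torU u v) ({none} ∪ some '' T) hsec').comp
      (renameEquiv k e).toAlgHom = sigHom T hsec' := by
    refine MvPolynomial.algHom_ext fun t => ?_
    change secMap (torStep C u v) (torU u v) ({none} ∪ some '' T) hsec'
      (renameEquiv k e (X t)) = _
    rw [renameEquiv_apply, rename_X, secMap, aeval_X, sigHom, aeval_X]
    rfl
  have h2 : (secMap (torStep C u v) (torU u v) ({none} ∪ some '' T) hsec').toRingHom =
      (sigHom T hsec').toRingHom.comp (renameEquiv k e).symm.toAlgHom.toRingHom := by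
    rw [← h1]
    refine RingHom.ext fun z => ?_
    change _ = secMap (torStep C u v) (torU u v) ({none} ∪ some '' T) hsec'
      (renameEquiv k e ((renameEquiv k e).symm z))
    rw [AlgEquiv.apply_symm_apply]
    rfl
  rw [h2]
  exact (RingHom.FormallySmooth.of_bijective (renameEquiv k e).symm.bijective).comp
    (smooth_torStep_aux hfg hsec hsm hT hsec')

end Concrete

end Pool.Agent.MP_b525bf_ag_P
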