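import Pool.Agent.Lib.MP_b525bf_ag_P.SmoothTor

/-!
# P2b, auxiliary: Laurent extensions of families
-/

set_option autoImplicit false

namespace Pool.Agent.MP_b525bf_ag_P

open Pool.Agent.MP_b525bf_ag Pool.Agent.MP_b525bf_ag_W

section Twist

open MvPolynomial

variable {k T : Type} [Field k]

/-- The homomorphism `X_j ↦ X_j t ^ (w j)`. -/
noncomputable def twA (w : T → ℤ) :
    MvPolynomial T k →ₐ[k] AddMonoidAlgebra (MvPolynomial T k) ℤ :=
  aeval fun j => AddMonoidAlgebra.single (w j) (X j)

/-- The twist of the ring of Laurent polynomials. -/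
noncomputable def tw (w : T → ℤ) :
    AddMonoidAlgebra (MvPolynomial T k) ℤ →+* AddMonoidAlgebra (MvPolynomial T k) ℤ :=
  AddMonoidAlgebra.liftNCRingHom (twA (k := k) w : MvPolynomial T k →+* _)
    (AddMonoidAlgebra.of (MvPolynomial T k) ℤ) fun _ _ => Commute.all _ _

theorem tw_single (w : T → ℤ) (n : ℤ) (r : MvPolynomial T k) :
    tw w (AddMonoidAlgebra.single n r) = twA w r * AddMonoidAlgebra.single n 1 :=
  AddMonoidAlgebra.liftNC_single _ _ _ _

theorem twA_X (w : T → ℤ) (j : T) :
    twA (k := k) w (X j) = AddMonoidAlgebra.single (w j) (X j) := aeval_X _ _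

theorem twA_C (w : T → ℤ) (r : k) :
    twA (k := k) w (C r) = AddMonoidAlgebra.single 0 (C r) := by
  rw [twA, aeval_C]
  rfl

theorem tw_twA (w w' : T → ℤ) (r : MvPolynomial T k) :
    tw w (twA w' r) = twA (fun j => w j + w' j) r := by
  have h : (tw (k := k) w).comp (twA (k := k) w').toRingHom =
      (twA (k := k) fun j => w j + w' j).toRingHom := by
    refine MvPolynomial.ringHom_ext (fun r => ?_) fun j => ?_
    · change tw w (twA w' (C r)) = twA (fun j => w j + w' j) (C r)
      rw [twA_C, tw_single, twA_C, twA_C, AddMonoidAlgebra.single_mul_single, mul_one, add_zero]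
    · change tw w (twA w' (X j)) = twA (fun j => w j + w' j) (X j)
      rw [twA_X, tw_single, twA_X, twA_X, AddMonoidAlgebra.single_mul_single, mul_one]
  exact RingHom.congr_fun h r

theorem twA_zero (r : MvPolynomial T k) :
    twA (fun _ : T => (0 : ℤ)) r = AddMonoidAlgebra.single 0 r := by
  have h : (twA (k := k) fun _ : T => (0 : ℤ)).toRingHom =
      AddMonoidAlgebra.singleZeroRingHom := by
    refine MvPolynomial.ringHom_ext (fun r => ?_) fun j => ?_
    · exact twA_C _ r
    · exact twA_X _ j
  exact RingHom.congr_fun h r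

theorem tw_tw_neg (w : T → ℤ) (z : AddMonoidAlgebra (MvPolynomial T k) ℤ) :
    tw w (tw (fun j => -w j) z) = z := by
  induction z using AddMonoidAlgebra.induction_linear with
  | zero => simp
  | add x y hx hy => rw [map_add, map_add, hx, hy]
  | single n r =>
    rw [tw_single, map_mul, tw_twA, tw_single]
    have e1 : (fun j => w j + -w j) = fun _ : T => (0 : ℤ) := by funext j; simp
    rw [e1, twA_zero, map_one, one_mul, AddMonoidAlgebra.single_mul_single, mul_one, zero_add]

theorem tw_bijective (w : T → ℤ) : Function.Bijective (tw (k := k) w) := by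
  refine ⟨fun x y hxy => ?_, fun y => ⟨_, tw_tw_neg w y⟩⟩
  have h1 : ∀ z, tw (k := k) (fun j => -w j) (tw w z) = z := by
    intro z
    have := tw_tw_neg (k := k) (fun j => -w j) z
    simpa only [neg_neg] using this
  rw [← h1 x, ← h1 y, hxy]

theorem smooth_laurent (R : Type) [CommRing R] :
    (AddMonoidAlgebra.singleZeroRingHom : R →+* AddMonoidAlgebra R ℤ).FormallySmooth := by
  have h1 : (Polynomial.C : R →+* Polynomial R).FormallySmooth := by
    have : Algebra.FormallySmooth R (Polynomial R) := inferInstance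
    exact RingHom.formallySmooth_algebraMap.2 this
  have h2 : (algebraMap (Polynomial R) (LaurentPolynomial R)).FormallySmooth := by
    have : Algebra.FormallySmooth (Polynomial R) (LaurentPolynomial R) :=
      Algebra.FormallySmooth.of_isLocalization (Submonoid.powers (Polynomial.X : Polynomial R))
    exact RingHom.formallySmooth_algebraMap.2 this
  have h3 := h1.comp h2
  convert h3 using 1
  refine RingHom.ext fun r => ?_
  change AddMonoidAlgebra.single 0 r = Polynomial.toLaurent (Polynomial.C r)
  rw [Polynomial.toLaurent_C]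
  rfl

theorem smooth_twA (w : T → ℤ) : (twA (k := k) w).toRingHom.FormallySmooth := by
  have h1 : (twA (k := k) w).toRingHom = (tw w).comp AddMonoidAlgebra.singleZeroRingHom := by
    refine RingHom.ext fun r => ?_
    change twA w r = tw w (AddMonoidAlgebra.single 0 r)
    rw [tw_single, ← AddMonoidAlgebra.one_def, mul_one]
  rw [h1]
  exact (smooth_laurent _).comp (RingHom.FormallySmooth.of_bijective (tw_bijective w))

end Twist

section Base

open TensorProduct

variable {k K ι J : Type} [Field k] [Field K] [Algebra k K] [AddCommGroup ι]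

/-- The family of Laurent polynomials over `N`. -/
def lau (N : Fam k K ι) : Fam k K (ι × ℤ) := N.comap (AddMonoidHom.fst ι ℤ)

theorem mem_lau {N : Fam k K ι} {c : ι × ℤ} {x : K} : x ∈ (lau N).s c ↔ x ∈ N.s c.1 := Iff.rfl

theorem le_lau (N : Fam k K ι) (d : ι) : N.s d ≤ (lau N).s (inlZ ι d) := le_refl _

theorem one_lau (N : Fam k K ι) (n : ℤ) : (1 : K) ∈ (lau N).s (0, n) := N.one'

/-- The homomorphism to the algebra of Laurent polynomials. -/
noncomputable def gamHom (N : Fam k K ι) {T : Type}
    (f : MvPolynomial T k →ₐ[k] N.alg) :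
    AddMonoidAlgebra (MvPolynomial T k) ℤ →+* (lau N).alg :=
  AddMonoidAlgebra.liftNCRingHom
    (((inclAlg (inlZ ι) (le_lau N)).comp f : MvPolynomial T k →ₐ[k] (lau N).alg) :
      MvPolynomial T k →+* _)
    ({ toFun := fun n => (lau N).el (one_lau N n.toAdd)
       map_one' := rfl
       map_mul' := fun m n => Subtype.ext (by
        change (AddMonoidAlgebra.single (0, (m * n).toAdd) 1 : AddMonoidAlgebra K (ι × ℤ)) =
          AddMonoidAlgebra.single (0, m.toAdd) 1 * AddMonoidAlgebra.single (0, n.toAdd) 1
        rw [AddMonoidAlgebra.single_mul_single, one_mul, Prod.mk_add_mk, add_zero]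
        rfl) } : Multiplicative ℤ →* (lau N).alg)
    fun _ _ => Commute.all _ _

theorem gamHom_single (N : Fam k K ι) {T : Type} (f : MvPolynomial T k →ₐ[k] N.alg) (n : ℤ)
    (r : MvPolynomial T k) : gamHom N f (AddMonoidAlgebra.single n r) =
      inclAlg (inlZ ι) (le_lau N) (f r) * (lau N).el (one_lau N n) :=
  AddMonoidAlgebra.liftNC_single _ _ _ _

/-- Base change. -/
theorem smooth_gamHom (N : Fam k K ι) {T : Type} (f : MvPolynomial T k →ₐ[k] N.alg)
    (hf : f.toRingHom.FormallySmooth) : (gamHom N f).FormallySmooth := by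
  let inc : N.alg →ₐ[k] (lau N).alg := inclAlg (inlZ ι) (le_lau N)
  let _ : Algebra (MvPolynomial T k) N.alg := f.toRingHom.toAlgebra
  let _ : Algebra (AddMonoidAlgebra (MvPolynomial T k) ℤ) (lau N).alg := (gamHom N f).toAlgebra
  let _ : Algebra (MvPolynomial T k) (lau N).alg :=
    ((inc.toRingHom).comp f.toRingHom).toAlgebra
  let _ : Algebra (MvPolynomial T k) (AddMonoidAlgebra K (ι × ℤ)) :=
    ((lau N).alg.val.toRingHom.comp (inc.toRingHom.comp f.toRingHom)).toAlgebra
  have hg0 : ∀ r : MvPolynomial T k, gamHom N f (AddMonoidAlgebra.single 0 r) = inc (f r) := by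
    intro r
    rw [gamHom_single]
    have : (lau N).el (one_lau N 0) = 1 := rfl
    rw [this, mul_one]
  have i1 : IsScalarTower (MvPolynomial T k) (AddMonoidAlgebra (MvPolynomial T k) ℤ)
      (lau N).alg := IsScalarTower.of_algebraMap_eq fun r => by
    change inc (f r) = gamHom N f (AddMonoidAlgebra.single 0 r)
    exact (hg0 r).symm
  have i3 : Algebra.FormallySmooth (MvPolynomial T k) N.alg := hf
  let j : N.alg →ₐ[MvPolynomial T k] (lau N).alg :=
    { inc.toRingHom with commutes' := fun r => rfl }
  let jA : N.alg →ₐ[MvPolynomial T k] AddMonoidAlgebra K (ι × ℤ) :=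
    { (lau N).alg.val.toRingHom.comp inc.toRingHom with commutes' := fun r => rfl }
  let jS : AddMonoidAlgebra (MvPolynomial T k) ℤ →ₐ[MvPolynomial T k]
      AddMonoidAlgebra K (ι × ℤ) :=
    { (lau N).alg.val.toRingHom.comp (gamHom N f) with
      commutes' := fun r => congrArg Subtype.val (hg0 r) }
  have hjS : ∀ n : ℤ, jS (AddMonoidAlgebra.single n 1) = AddMonoidAlgebra.single (0, n) 1 := by
    intro n
    change ((gamHom N f (AddMonoidAlgebra.single n 1) : (lau N).alg) :
      AddMonoidAlgebra K (ι × ℤ)) = _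
    rw [gamHom_single, map_one, map_one, one_mul]
    rfl
  have hinj : Function.Injective (Algebra.TensorProduct.lift jA jS fun _ _ => Commute.all _ _) :=
    lift_laurent_injective N.alg.val.toRingHom Subtype.val_injective jA (fun a => rfl) jS hjS
  refine formallySmooth_of_bijective_lift j ⟨?_, ?_⟩
  · have hcomm : ∀ z : AddMonoidAlgebra (MvPolynomial T k) ℤ ⊗[MvPolynomial T k] N.alg,
        Algebra.TensorProduct.lift jA jS (fun _ _ => Commute.all _ _)
          (Algebra.TensorProduct.comm (MvPolynomial T k) _ _ z) =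
        ((Algebra.TensorProduct.lift (Algebra.ofId (AddMonoidAlgebra (MvPolynomial T k) ℤ)
          (lau N).alg) j (fun _ _ => Commute.all _ _) z : (lau N).alg) :
          AddMonoidAlgebra K (ι × ℤ)) := by
      intro z
      induction z with
      | zero => simp
      | add x y hx hy => rw [map_add, map_add, map_add, hx, hy]; rfl
      | tmul x y =>
        rw [Algebra.TensorProduct.comm_tmul, Algebra.TensorProduct.lift_tmul,
          Algebra.TensorProduct.lift_tmul, mul_comm]
        rfl
    intro z w hzw
    apply (Algebra.TensorProduct.comm (MvPolynomial T k) _ _).injective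
    apply hinj
    rw [hcomm, hcomm, hzw]
  · intro F
    induction F using Fam.alg_induction with
    | h0 => exact ⟨0, map_zero _⟩
    | hadd F G hF hG =>
      obtain ⟨z, hz⟩ := hF
      obtain ⟨w, hw⟩ := hG
      exact ⟨z + w, by rw [map_add, hz, hw]⟩
    | hel c x hx =>
      obtain ⟨d, n⟩ := c
      refine ⟨AddMonoidAlgebra.single n 1 ⊗ₜ N.el (mem_lau.1 hx), ?_⟩
      rw [Algebra.TensorProduct.lift_tmul]
      change gamHom N f (AddMonoidAlgebra.single n 1) * inc (N.el (mem_lau.1 hx)) = _
      rw [gamHom_single, map_one, map_one, one_mul]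
      refine Subtype.ext ?_
      have h1 : inc (N.el (mem_lau.1 hx)) = (lau N).el (le_lau N d (mem_lau.1 hx)) :=
        inclAlg_el (le_lau N) _ _
      rw [h1]
      change (AddMonoidAlgebra.single (0, n) 1 : AddMonoidAlgebra K (ι × ℤ)) *
        AddMonoidAlgebra.single (d, 0) x = AddMonoidAlgebra.single (d, n) x
      rw [AddMonoidAlgebra.single_mul_single, one_mul, Prod.mk_add_mk, zero_add, add_zero]

theorem lau_fg {N : Fam k K ι} (hfg : N.alg.FG) : (lau N).alg.FG := by
  classical
  obtain ⟨r, δ, x, hx, hgen⟩ := N.exists_generators hfg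
  have hfin : (((Set.range fun i => (AddMonoidAlgebra.single (δ i, 0) (x i) :
      AddMonoidAlgebra K (ι × ℤ))) ∪ {AddMonoidAlgebra.single (0, 1) 1}) ∪
      {AddMonoidAlgebra.single (0, -1) 1}).Finite :=
    ((Set.finite_range _).union (Set.finite_singleton _)).union (Set.finite_singleton _)
  refine Subalgebra.fg_def.2 ⟨_, hfin, ?_⟩
  set R := Algebra.adjoin k (((Set.range fun i => (AddMonoidAlgebra.single (δ i, 0) (x i) :
      AddMonoidAlgebra K (ι × ℤ))) ∪ {AddMonoidAlgebra.single (0, 1) 1}) ∪
      {AddMonoidAlgebra.single (0, -1) 1}) with hR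
  have hM : ∀ (c : ι) (y : K), y ∈ N.s c →
      (AddMonoidAlgebra.single (c, 0) y : AddMonoidAlgebra K (ι × ℤ)) ∈ R := by
    intro c y hy
    have h1 : N.alg ≤ ((Fam.ofSub R).comap (inlZ ι)).alg := by
      rw [hgen]
      refine Algebra.adjoin_le ?_
      rintro _ ⟨i, rfl⟩
      refine Fam.single_mem_alg.2 ?_
      change AddMonoidAlgebra.single (δ i, 0) (x i) ∈ R
      exact Algebra.subset_adjoin (Or.inl (Or.inl ⟨i, rfl⟩))
    exact (Fam.single_mem_alg (M := (Fam.ofSub R).comap (inlZ ι))).1
      (h1 (Fam.single_mem_alg.2 hy))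
  have hpos : (AddMonoidAlgebra.single (0, 1) 1 : AddMonoidAlgebra K (ι × ℤ)) ∈ R :=
    Algebra.subset_adjoin (Or.inl (Or.inr rfl))
  have hneg : (AddMonoidAlgebra.single (0, -1) 1 : AddMonoidAlgebra K (ι × ℤ)) ∈ R :=
    Algebra.subset_adjoin (Or.inr rfl)
  have hn : ∀ n : ℤ, (AddMonoidAlgebra.single (0, n) 1 : AddMonoidAlgebra K (ι × ℤ)) ∈ R := by
    intro n
    obtain ⟨m, rfl | rfl⟩ := n.eq_nat_or_neg
    · have := R.pow_mem hpos m
      rw [AddMonoidAlgebra.single_pow, one_pow] at this
      convert this using 2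
      simp
    · have := R.pow_mem hneg m
      rw [AddMonoidAlgebra.single_pow, one_pow] at this
      convert this using 2
      simp
  refine le_antisymm (Algebra.adjoin_le ?_) ?_
  · rintro F ((⟨i, rfl⟩ | hF) | hF)
    · exact Fam.single_mem_alg.2 (hx i)
    · rw [Set.mem_singleton_iff] at hF
      rw [hF]
      exact Fam.single_mem_alg.2 (one_lau N 1)
    · rw [Set.mem_singleton_iff] at hF
      rw [hF]
      exact Fam.single_mem_alg.2 (one_lau N (-1))
  · intro F hF
    rw [H53.sum_single_coeff F]
    refine Subalgebra.sum_mem _ fun c _ => ?_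
    have h1 : (AddMonoidAlgebra.single c (F.coeff c) : AddMonoidAlgebra K (ι × ℤ)) =
        AddMonoidAlgebra.single (c.1, 0) (F.coeff c) * AddMonoidAlgebra.single (0, c.2) 1 := by
      rw [AddMonoidAlgebra.single_mul_single, mul_one, Prod.mk_add_mk, add_zero, zero_add]
    rw [h1]
    exact R.mul_mem (hM _ _ (hF c)) (hn _)

/-- The Laurent extension of a family which is smooth over the polynomial ring in the sections is
smooth over the polynomial ring in the twisted sections. -/
theorem smooth_lau {N : Fam k K ι} {u : J → ι} {v : J → ℕ} {T : Set J}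
    (hsec : ∀ j, (1 : K) ∈ N.s (-(u j))) (hsm : (secMap N u T hsec).toRingHom.FormallySmooth)
    (hsec' : ∀ j, (1 : K) ∈ (lau N).s (-(torU u v j))) :
    (secMap (lau N) (torU u v) (some '' T) hsec').toRingHom.FormallySmooth := by
  let w : T → ℤ := fun j => (v j : ℤ)
  have h1 := (smooth_twA (k := k) w).comp (smooth_gamHom N (secMap N u T hsec) hsm)
  have hbij : Function.Bijective (fun t : T => (⟨some t, t, t.2, rfl⟩ : (some '' T : Set (Option J))))
      := by
    constructor
    · intro s t hst
      have h2 : some (s : J) = some (t : J) := congrArg Subtype.val hst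
      exact Subtype.ext (Option.some_injective _ h2)
    · rintro ⟨_, j, hj, rfl⟩
      exact ⟨⟨j, hj⟩, rfl⟩
  let e : T ≃ (some '' T : Set (Option J)) := Equiv.ofBijective _ hbij
  have h2 : (secMap (lau N) (torU u v) (some '' T) hsec').toRingHom.comp
      (MvPolynomial.renameEquiv k e).toAlgHom.toRingHom =
      (gamHom N (secMap N u T hsec)).comp (twA (k := k) w).toRingHom := by
    refine MvPolynomial.ringHom_ext (fun r => ?_) fun j => ?_
    · change secMap (lau N) (torU u v) (some '' T) hsec'
        (MvPolynomial.renameEquiv k e (MvPolynomial.C r)) =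
        gamHom N (secMap N u T hsec) (twA w (MvPolynomial.C r))
      rw [twA_C, gamHom_single]
      have e1 : (lau N).el (one_lau N 0) = 1 := rfl
      rw [e1, mul_one, ← MvPolynomial.algebraMap_eq, AlgEquiv.commutes,
        AlgHom.commutes, AlgHom.commutes, AlgHom.commutes]
    · change secMap (lau N) (torU u v) (some '' T) hsec'
        (MvPolynomial.renameEquiv k e (MvPolynomial.X j)) =
        gamHom N (secMap N u T hsec) (twA w (MvPolynomial.X j))
      rw [twA_X, gamHom_single, MvPolynomial.renameEquiv_apply, MvPolynomial.rename_X]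
      rw [secMap, MvPolynomial.aeval_X, secMap, MvPolynomial.aeval_X]
      refine Subtype.ext ?_
      have h3 : inclAlg (inlZ ι) (le_lau N) (N.el (hsec j)) =
        (lau N).el (le_lau N _ (hsec j)) := inclAlg_el (le_lau N) _ _
      rw [h3]
      change (AddMonoidAlgebra.single (-(torU u v (some j))) (1 : K) :
        AddMonoidAlgebra K (ι × ℤ)) = AddMonoidAlgebra.single (-(u j), 0) 1 *
        AddMonoidAlgebra.single (0, (v j : ℤ)) 1
      rw [AddMonoidAlgebra.single_mul_single, mul_one]
      congr 1
      simp [torU]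
  have h3 : (secMap (lau N) (torU u v) (some '' T) hsec').toRingHom =
      ((gamHom N (secMap N u T hsec)).comp (twA (k := k) w).toRingHom).comp
        (MvPolynomial.renameEquiv k e).symm.toAlgHom.toRingHom := by
    rw [← h2]
    refine RingHom.ext fun z => ?_
    change _ = secMap (lau N) (torU u v) (some '' T) hsec'
      (MvPolynomial.renameEquiv k e ((MvPolynomial.renameEquiv k e).symm z))
    rw [AlgEquiv.apply_symm_apply]
    rfl
  rw [h3]
  exact (RingHom.FormallySmooth.of_bijective (MvPolynomial.renameEquiv k e).symm.bijective).comp h1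

end Base

end Pool.Agent.MP_b525bf_ag_P
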