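import Pool.Agent.Lib.MP_b525bf_ag_X.Linear

/-!
# The action of a group on a tensor product, and its invariants
-/

set_option autoImplicit false

namespace Pool.Agent.MP_b525bf_ag_P

open Pool.Agent.MP_b525bf_ag Pool.Agent.MP_b525bf_ag_X TensorProduct

variable {k G : Type} [Field k] [Group G]

theorem congr_one {κ : Type} (B : κ → Type) [∀ i, CommRing (B i)] [∀ i, Algebra k (B i)]
    (f : ∀ i, B i ≃ₐ[k] B i) :
    PiTensorProduct.congr (fun i => (f i).toLinearEquiv) (1 : ⨂[k] i, B i) = 1 := by
  change PiTensorProduct.congr _ (PiTensorProduct.tprod k 1) = PiTensorProduct.tprod k 1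
  rw [PiTensorProduct.congr_tprod]
  congr 1
  funext i
  exact map_one (f i)

theorem congr_mul {κ : Type} (B : κ → Type) [∀ i, CommRing (B i)] [∀ i, Algebra k (B i)]
    (f : ∀ i, B i ≃ₐ[k] B i) (x y : ⨂[k] i, B i) :
    PiTensorProduct.congr (fun i => (f i).toLinearEquiv) (x * y) =
      PiTensorProduct.congr (fun i => (f i).toLinearEquiv) x *
        PiTensorProduct.congr (fun i => (f i).toLinearEquiv) y := by
  induction x using PiTensorProduct.induction_on with
  | add x x' hx hx' => rw [add_mul, map_add, map_add, hx, hx', add_mul]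
  | smul_tprod r b =>
    induction y using PiTensorProduct.induction_on with
    | add y y' hy hy' => rw [mul_add, map_add, map_add, hy, hy', mul_add]
    | smul_tprod s c =>
      rw [smul_mul_smul_comm, PiTensorProduct.tprod_mul_tprod, map_smul, map_smul, map_smul,
        PiTensorProduct.congr_tprod, PiTensorProduct.congr_tprod, PiTensorProduct.congr_tprod,
        smul_mul_smul_comm, PiTensorProduct.tprod_mul_tprod]
      congr 2
      funext i
      exact map_mul (f i) _ _

/-- The automorphism `⨂ f i` of the tensor product of algebras. -/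
noncomputable def tensorAut {κ : Type} (B : κ → Type) [∀ i, CommRing (B i)]
    [∀ i, Algebra k (B i)] (f : ∀ i, B i ≃ₐ[k] B i) : (⨂[k] i, B i) ≃ₐ[k] ⨂[k] i, B i :=
  AlgEquiv.ofLinearEquiv (PiTensorProduct.congr fun i => (f i).toLinearEquiv)
    (congr_one B f) (congr_mul B f)

theorem tensorAut_tprod {κ : Type} (B : κ → Type) [∀ i, CommRing (B i)]
    [∀ i, Algebra k (B i)] (f : ∀ i, B i ≃ₐ[k] B i) (b : ∀ i, B i) :
    tensorAut B f (⨂ₜ[k] i, b i) = ⨂ₜ[k] i, f i (b i) :=
  PiTensorProduct.congr_tprod _ _

theorem tensorAut_one {κ : Type} (B : κ → Type) [∀ i, CommRing (B i)] [∀ i, Algebra k (B i)]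
    (ψ : ∀ i, G →* (B i ≃ₐ[k] B i)) : (tensorAut B fun i => ψ i 1) = 1 := by
  refine AlgEquiv.ext fun x => ?_
  induction x using PiTensorProduct.induction_on with
  | add x y hx hy => rw [map_add, map_add, hx, hy]
  | smul_tprod r b =>
    rw [map_smul, map_smul, tensorAut_tprod]
    simp

theorem tensorAut_mul {κ : Type} (B : κ → Type) [∀ i, CommRing (B i)] [∀ i, Algebra k (B i)]
    (ψ : ∀ i, G →* (B i ≃ₐ[k] B i)) (g h : G) : (tensorAut B fun i => ψ i (g * h)) =
      (tensorAut B fun i => ψ i g) * tensorAut B fun i => ψ i h := by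
  refine AlgEquiv.ext fun x => ?_
  induction x using PiTensorProduct.induction_on with
  | add x y hx hy => rw [map_add, map_add, hx, hy]
  | smul_tprod r b =>
    rw [map_smul, map_smul, AlgEquiv.mul_apply, tensorAut_tprod, tensorAut_tprod,
      tensorAut_tprod]
    simp

/-- The (diagonal) action of `G` on the tensor product of algebras `B i` on which `G` acts by
`ψ i`. -/
noncomputable def tensorAct {κ : Type} (B : κ → Type) [∀ i, CommRing (B i)]
    [∀ i, Algebra k (B i)] (ψ : ∀ i, G →* (B i ≃ₐ[k] B i)) :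
    G →* ((⨂[k] i, B i) ≃ₐ[k] ⨂[k] i, B i) where
  toFun g := tensorAut B fun i => ψ i g
  map_one' := tensorAut_one B ψ
  map_mul' := tensorAut_mul B ψ

theorem tensorAct_tprod {κ : Type} (B : κ → Type) [∀ i, CommRing (B i)]
    [∀ i, Algebra k (B i)] (ψ : ∀ i, G →* (B i ≃ₐ[k] B i)) (g : G) (b : ∀ i, B i) :
    tensorAct B ψ g (⨂ₜ[k] i, b i) = ⨂ₜ[k] i, ψ i g (b i) :=
  tensorAut_tprod B _ b

/-- The ring of invariants of a group action. -/
def invRing {B : Type} [CommRing B] [Algebra k B] (ψ : G →* (B ≃ₐ[k] B)) : Subalgebra k B where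
  carrier := {b | ∀ g, ψ g b = b}
  mul_mem' := fun {a b} ha hb g => by rw [map_mul, ha g, hb g]
  add_mem' := fun {a b} ha hb g => by rw [map_add, ha g, hb g]
  algebraMap_mem' := fun r g => (ψ g).commutes r

/-- The subalgebra of the elements fixed by all elements of the set `S` of automorphisms. -/
def invOf {B : Type} [CommRing B] [Algebra k B] (S : Set (B ≃ₐ[k] B)) : Subalgebra k B where
  carrier := {b | ∀ g ∈ S, g b = b}
  mul_mem' := fun {a b} ha hb g hg => by rw [map_mul, ha g hg, hb g hg]
  add_mem' := fun {a b} ha hb g hg => by rw [map_add, ha g hg, hb g hg]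
  algebraMap_mem' := fun r g _ => g.commutes r

/-- Let `τ` be a map from the product of the algebras `B i` to an algebra `A`, and `G` a group of
tuples of automorphisms of the `B i`. The subalgebra of the elements of `A` fixed by all
automorphisms `φ` of `A` with `φ (τ b) = τ (g b)` for some `g ∈ G` and all `b`. -/
def invAlong {n : ℕ} {B : Fin n → Type} [∀ i, CommRing (B i)] [∀ i, Algebra k (B i)]
    {A : Type} [CommRing A] [Algebra k A] (τ : (∀ i, B i) → A)
    (G : Subgroup (∀ i, B i ≃ₐ[k] B i)) : Subalgebra k A :=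
  invOf {φ | ∃ g ∈ G, ∀ b, φ (τ b) = τ fun i => g i (b i)}

/-- The ring of invariants, in the tensor product of the algebras `B i`, of the automorphisms
`⨂ g i` (`⨂ b i ↦ ⨂ g i (b i)`) for `g` in a group `G` of tuples of automorphisms of the `B i`. -/
def tensorInv {n : ℕ} {B : Fin n → Type} [∀ i, CommRing (B i)]
    [∀ i, Algebra k (B i)] (G : Subgroup (∀ i, B i ≃ₐ[k] B i)) : Subalgebra k (⨂[k] i, B i) :=
  invAlong (PiTensorProduct.tprod k) G

/-- The automorphisms in the definition of `tensorInv` are the `tensorAut B g` for `g ∈ G`. -/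
theorem tensorInv_eq {n : ℕ} {B : Fin n → Type} [∀ i, CommRing (B i)]
    [∀ i, Algebra k (B i)] (G : Subgroup (∀ i, B i ≃ₐ[k] B i)) :
    tensorInv G = invOf (tensorAut B '' G) := by
  have h : {φ : (⨂[k] i, B i) ≃ₐ[k] ⨂[k] i, B i | ∃ g ∈ G, ∀ b : ∀ i, B i,
      φ (⨂ₜ[k] i, b i) = ⨂ₜ[k] i, g i (b i)} = tensorAut B '' G := by
    refine Set.ext fun φ => ⟨?_, ?_⟩
    · rintro ⟨g, hg, h⟩
      refine ⟨g, hg, AlgEquiv.ext fun x => ?_⟩
      induction x using PiTensorProduct.induction_on with
      | add x y hx hy => rw [map_add, map_add, hx, hy]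
      | smul_tprod r b =>
        rw [map_smul, map_smul, tensorAut_tprod]
        exact congrArg (r • ·) (h b).symm
    · rintro ⟨g, hg, rfl⟩
      exact ⟨g, hg, fun b => tensorAut_tprod B g b⟩
  rw [← h]
  rfl

/-- The projection to the `i`-th factor of a group of tuples of automorphisms: the group of the
automorphisms of `B i` which are the `i`-th component of a member of `G`. -/
def factorGroup {n : ℕ} {B : Fin n → Type} [∀ i, CommRing (B i)] [∀ i, Algebra k (B i)]
    (G : Subgroup (∀ i, B i ≃ₐ[k] B i)) (i : Fin n) : Subgroup (B i ≃ₐ[k] B i) :=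
  G.map (Pi.evalMonoidHom _ i)

/-- The conditions on the group `G` of automorphisms of a factor `B`: for every maximal ideal `P`
of `B`, the order of the inertia group `I` of `P` in `G` is not divisible by `p ^ 2`, and `k` is
algebraically closed and `B` of dimension at most one, or `I` acts linearly in suitable étale
coordinates near `P` if it is nontrivial (if `k` is algebraically closed, this is only assumed if
`p` divides the order of `I`). -/
def Admissible (p : ℕ) {B : Type} [CommRing B] [Algebra k B] (G : Subgroup (B ≃ₐ[k] B)) : Prop :=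
  ∀ P : Ideal B, P.IsMaximal → ¬ p ^ 2 ∣ Nat.card (inertiaGroup G P) ∧
    ((IsAlgClosed k ∧ Ring.DimensionLEOne B) ∨ (inertiaGroup G P ≠ ⊥ →
      (IsAlgClosed k → p ∣ Nat.card (inertiaGroup G P)) → LinearAt G P))

end Pool.Agent.MP_b525bf_ag_P
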