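import Pool.Agent.Lib.MP_b525bf_ag_P.CurveRam

/-!
# P8: the package of an action on a smooth curve
-/

set_option autoImplicit false
set_option linter.unusedSectionVars false

namespace Pool.Agent.MP_b525bf_ag_P.CurveP

open Pool.Agent.MP_b525bf_ag Pool.Agent.MP_b525bf_ag_W Pool.Agent.MP_b525bf_ag_X AddMonoidAlgebra
open Pool.Agent.MP_b525bf_ag.Fam

variable {k B : Type} [Field k] [CommRing B] [IsDomain B] [Algebra k B]

section Prime

variable {J : Ideal B} (q : Ideal (cfam k J).alg) [hq : q.IsPrime]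

theorem isU_zero_iff {b : B} :
    IsU (atP (cfam k J) q) 0 ((algebraMap B (FractionRing B)) b) ↔ b ∉ q.comap (inclB k J) := by
  rw [isU_atP_iff (cfam k J) q (mem_cfam_of_nonpos le_rfl b), Ideal.mem_comap, inclB_apply]

theorem isU_zpow {N : Fam k (FractionRing B) ℤ} {x : (FractionRing B)} (hx : IsU N 1 x) (d : ℤ) : IsU N d (x ^ d) := by
  have hn : ∀ n : ℕ, IsU N n (x ^ n) := by
    intro n
    induction n with
    | zero =>
      rw [pow_zero]
      exact ⟨one_ne_zero, N.one', by rw [inv_one]; simpa using N.one'⟩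
    | succ n ih =>
      rw [pow_succ]; push_cast
      exact ih.mul hx
  obtain ⟨n, rfl | rfl⟩ := d.eq_nat_or_neg
  · rw [zpow_natCast]; exact hn n
  · rw [zpow_neg, zpow_natCast]; exact (hn n).inv

variable {P : Ideal B} [hP : P.IsMaximal] {t h f : B} (H : Unif P t h)
  (hqP : q.comap (inclB k J) = P) (hJP : J ≤ P) (hfP : f ∉ P) (hf : ∀ b ∈ P, f * b ∈ J)

include H hJP

theorem mem_T_of_mem_cfam {n : ℤ} {y : (FractionRing B)} (hy : y ∈ (cfam k J).s n) : y ∈ T P t n := by
  obtain ⟨b, hb, rfl⟩ := hy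
  change b ∈ J ^ n.toNat at hb
  change (algebraMap B (FractionRing B)) b ∈ T P t n
  have key : ∀ m : ℕ, ∀ b ∈ P ^ m, (algebraMap B (FractionRing B)) b ∈ T P t m := by
    intro m
    induction m with
    | zero => intro b _; exact T_zero.2 (ι_mem b)
    | succ m ih =>
      intro b hb
      rw [pow_succ] at hb
      induction hb using Submodule.mul_induction_on' with
      | mem_mul_mem x hx y hy =>
        rw [map_mul]; push_cast
        exact T_mul H (ih x hx) (mem_T_one_of_mem H hy)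
      | add x _ y _ hx hy => rw [map_add]; exact AddSubgroup.add_mem _ hx hy
  exact T_anti H (Int.self_le_toNat n) (key _ b (Ideal.pow_right_mono hJP _ hb))

include hqP hfP hf

/-- The uniformizer is a unit of degree one at semistable primes. -/
theorem isU_t (hs : Semi (cfam k J) 1 q) : IsU (atP (cfam k J) q) 1 ((algebraMap B (FractionRing B)) t) := by
  obtain ⟨n, hn, x, hx, hxq⟩ := hs
  have hn1 : n • (1 : ℤ) = n := by rw [nsmul_eq_mul, mul_one]
  have hU : IsU (atP (cfam k J) q) (n • 1) x := (isU_atP_iff _ q hx).2 hxq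
  obtain ⟨z, ⟨g, c, hg, hz⟩, hxz⟩ := mem_T_of_mem_cfam H hJP hx
  have hUf : IsU (atP (cfam k J) q) 0 ((algebraMap B (FractionRing B)) f) := (isU_zero_iff q).2 (by rw [hqP]; exact hfP)
  have hUg : IsU (atP (cfam k J) q) 0 ((algebraMap B (FractionRing B)) g) := (isU_zero_iff q).2 (by rw [hqP]; exact hg)
  have hft : (algebraMap B (FractionRing B)) (f * t) ∈ (atP (cfam k J) q).s 1 :=
    le_atP _ q _ (mem_cfam_one (hf t H.mem))
  have hUfn : IsU (atP (cfam k J) q) 0 ((algebraMap B (FractionRing B)) f ^ n) := by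
    have : ∀ m : ℕ, IsU (atP (cfam k J) q) 0 ((algebraMap B (FractionRing B)) f ^ m) := by
      intro m
      induction m with
      | zero =>
        rw [pow_zero]
        exact ⟨one_ne_zero, (atP (cfam k J) q).one', by
          rw [inv_one, neg_zero]; exact (atP (cfam k J) q).one'⟩
      | succ m ih => rw [pow_succ]; simpa using ih.mul hUf
    exact this n
  -- f ^ n g x = (f t) ^ n c
  have h1 : IsU (atP (cfam k J) q) (n • 1) ((algebraMap B (FractionRing B)) f ^ n * ((algebraMap B (FractionRing B)) g * x)) := by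
    have := hUfn.mul (hUg.mul hU)
    rwa [zero_add, zero_add] at this
  have h2 : (algebraMap B (FractionRing B)) f ^ n * ((algebraMap B (FractionRing B)) g * x) = (algebraMap B (FractionRing B)) (f * t) * ((algebraMap B (FractionRing B)) (f * t) ^ (n - 1) * (algebraMap B (FractionRing B)) c) := by
    have h3 : (algebraMap B (FractionRing B)) (f * t) * ((algebraMap B (FractionRing B)) (f * t) ^ (n - 1) * (algebraMap B (FractionRing B)) c) = (algebraMap B (FractionRing B)) (f * t) ^ n * (algebraMap B (FractionRing B)) c := by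
      rw [← mul_assoc, ← pow_succ', Nat.sub_add_cancel hn]
    rw [h3, hxz, map_mul, ← hz, hn1, zpow_natCast]
    ring
  have h4 : (algebraMap B (FractionRing B)) (f * t) ^ (n - 1) * (algebraMap B (FractionRing B)) c ∈ (atP (cfam k J) q).s ((n - 1 : ℕ) : ℤ) := by
    have h5 := (atP (cfam k J) q).pow' hft (n - 1)
    have h6 := (atP (cfam k J) q).mul' h5 (le_atP (cfam k J) q _ (mem_cfam_of_nonpos le_rfl c))
    convert h6 using 1
    rw [nsmul_eq_mul, mul_one, add_zero]
  have h7 : n • (1 : ℤ) = 1 + ((n - 1 : ℕ) : ℤ) := by rw [hn1]; omega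
  rw [h2, h7] at h1
  have h8 := IsU.of_mul_left hft h4 h1
  have h9 := hUf.inv.mul h8
  rw [neg_zero, zero_add, map_mul, inv_mul_cancel_left₀ (ι_ne (ne_of_notMem hfP))] at h9
  exact h9

omit hJP hfP hf in
theorem O_le_atP {y : (FractionRing B)} (hy : y ∈ O P) : y ∈ (atP (cfam k J) q).s 0 := by
  obtain ⟨g, c, hg, hz⟩ := hy
  have hUg : IsU (atP (cfam k J) q) 0 ((algebraMap B (FractionRing B)) g) := (isU_zero_iff q).2 (by rw [hqP]; exact hg)
  have h1 : y = ((algebraMap B (FractionRing B)) g)⁻¹ * (algebraMap B (FractionRing B)) c := by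
    rw [← hz, inv_mul_cancel_left₀ (ι_ne (ne_of_notMem hg))]
  rw [h1]
  have h2 := (atP (cfam k J) q).mul' hUg.2.2
    (le_atP (cfam k J) q _ (mem_cfam_of_nonpos le_rfl c))
  rwa [neg_zero, add_zero] at h2

/-- The pieces of the localisation. -/
theorem mem_atP_iff (hs : Semi (cfam k J) 1 q) {d : ℤ} {y : (FractionRing B)} :
    y ∈ (atP (cfam k J) q).s d ↔ y ∈ T P t d := by
  have hU := isU_t q H hqP hJP hfP hf hs
  constructor
  · rintro ⟨c, F, hF, hFq, hy⟩
    have hUF := (isU_atP_iff _ q hF).2 hFq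
    obtain ⟨z, hz, hFz⟩ := mem_T_of_mem_cfam H hJP hF
    have hUz : IsU (atP (cfam k J) q) 0 z := by
      have h1 := (isU_zpow hU c).inv.mul hUF
      rw [neg_add_cancel, hFz, inv_mul_cancel_left₀ (zpow_ne_zero _ (tne H))] at h1
      exact h1
    have hzu : z⁻¹ ∈ O P := by
      rcases dich H hz with h1 | ⟨z', hz', h1⟩
      · exact h1.2
      · exfalso
        rw [zpow_one] at h1
        rw [h1] at hUz
        have h2 : IsU (atP (cfam k J) q) (0 + 0) ((algebraMap B (FractionRing B)) t * z') := by rwa [add_zero]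
        have h3 := IsU.of_mul_left (le_atP (cfam k J) q _ (mem_cfam_of_nonpos le_rfl t))
          (O_le_atP q H hqP hz') h2
        rw [isU_zero_iff, hqP] at h3
        exact h3 H.mem
    have h4 := mem_T_of_mem_cfam H hJP hy
    have h5 : y = F * y * ((algebraMap B (FractionRing B)) t ^ (-c) * z⁻¹) := by
      have h6 := zpow_ne_zero c (tne H)
      have h7 := hUz.1
      rw [hFz, zpow_neg]
      field_simp
    rw [h5]
    have h8 := T_mul H h4 (e := -c) ⟨z⁻¹, hzu, rfl⟩
    rwa [add_neg_cancel_comm] at h8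
  · rintro ⟨z, hz, rfl⟩
    have h1 := (atP (cfam k J) q).mul' (isU_zpow hU d).2.1 (O_le_atP q H hqP hz)
    rwa [add_zero] at h1

theorem isU_iff (hs : Semi (cfam k J) 1 q) {d : ℤ} {z : (FractionRing B)} :
    IsU (atP (cfam k J) q) d ((algebraMap B (FractionRing B)) t ^ d * z) ↔ IsUn P z := by
  have hU := isU_zpow (isU_t q H hqP hJP hfP hf hs) d
  have h0 : IsU (atP (cfam k J) q) d ((algebraMap B (FractionRing B)) t ^ d * z) ↔ IsU (atP (cfam k J) q) 0 z := by
    constructor
    · intro h1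
      have h2 := hU.inv.mul h1
      rwa [neg_add_cancel, inv_mul_cancel_left₀ (zpow_ne_zero _ (tne H))] at h2
    · intro h1
      have h2 := hU.mul h1
      rwa [add_zero] at h2
  rw [h0, IsU, IsUn, neg_zero, mem_atP_iff q H hqP hJP hfP hf hs,
    mem_atP_iff q H hqP hJP hfP hf hs, T_zero, T_zero]

end Prime

section Tor

variable [IsAlgClosed k] [Algebra.Smooth k B]
  (hdim : ∀ P : Ideal B, P.IsPrime → P ≠ ⊥ → P.IsMaximal) {G : Subgroup (B ≃ₐ[k] B)} [Finite G]

theorem formallySmooth_away (e : B) : Algebra.FormallySmooth k (Localization.Away e) := by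
  have h1 : Algebra.FormallySmooth B (Localization.Away e) :=
    Algebra.FormallySmooth.of_isLocalization (Submonoid.powers e)
  exact Algebra.FormallySmooth.comp k B (Localization.Away e)

/-- The chart defined by the elements `e` and `t`. -/
theorem exists_chart (q : Ideal (cfam k (ram G)).alg) [hq : q.IsPrime] {e t : B} (he : e ≠ 0)
    (ht : t ≠ 0) (h1 : e * t ∈ ram G) (h2 : ∀ b ∈ ram G, ∃ c, e * b = t * c)
    (hU : IsU (atP (cfam k (ram G)) q) 1 ((algebraMap B (FractionRing B)) (e * (e * t)))) (T : Set Unit)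
    (hunit : ∀ j, j ∉ T → (1 : (FractionRing B)) ∈ (atP (cfam k (ram G)) q).s ((fun _ => 1 : Unit → ℤ) j))
    (hT : (T = ∅ ∧ t = 1) ∨ (T = Set.univ ∧
      (MvPolynomial.aeval (fun _ => algebraMap B (Localization.Away e) t) :
        MvPolynomial (Fin 1) k →ₐ[k] Localization.Away e).toRingHom.FormallySmooth)) :
    ∃ C, Chart (cfam k (ram G)) (fun _ => 1) q T C := by
  have hx : (algebraMap B (FractionRing B)) (e * (e * t)) ∈ (cfam k (ram G)).s 1 :=
    mem_cfam_one (Ideal.mul_mem_left _ _ h1)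
  have hx0 : (algebraMap B (FractionRing B)) (e * (e * t)) ≠ 0 := ι_ne (mul_ne_zero he (mul_ne_zero he ht))
  have hxq := (isU_atP_iff _ q hx).1 hU
  have hmem := mem_chart (k := k) he ht h1 h2 hx
  have hsec : ∀ j : Unit, (1 : (FractionRing B)) ∈ ((cfam k (ram G)).loc hx).s (-((fun _ => 1 : Unit → ℤ) j)) :=
    fun j => (cfam k (ram G)).le_loc hx _ (one_mem_cfam (by norm_num))
  refine ⟨(cfam k (ram G)).loc hx, hunit, (cfam k (ram G)).le_loc hx, ?_, ?_, hsec, ?_⟩
  · rintro d y ⟨m, hm⟩
    refine ⟨m • 1, (algebraMap B (FractionRing B)) (e * (e * t)) ^ m, (cfam k (ram G)).pow' hx m, ?_, hm⟩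
    rw [← el_pow _ hx]
    exact fun h => hxq (hq.mem_of_pow_mem m h)
  · rw [Subalgebra.fg_iff_finiteType]
    exact (cfam k (ram G)).finiteType_loc cfam_fg hx hx0
  · rcases hT with ⟨rfl, rfl⟩ | ⟨rfl, hsm⟩
    · refine smooth_chart0 _ (awayIncl (k := k) e he) (awayIncl_injective e he) ?_
        (formallySmooth_away e) hsec _ rfl
      intro d y
      rw [hmem, map_one, one_zpow]
      simp only [one_mul]
    · have hj : awayIncl (k := k) e he (algebraMap B (Localization.Away e) t) = (algebraMap B (FractionRing B)) t :=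
        awayIncl_algebraMap e he t
      refine smooth_chart _ (awayIncl (k := k) e he) (awayIncl_injective e he)
        (algebraMap B (Localization.Away e) t) (by rw [hj]; exact ι_ne ht) ?_ hsm hsec _ rfl
      intro d y
      rw [hmem, hj]

include hdim in
/-- The family of the ramification ideal is a toric family. -/
theorem tor_cfam : Tor (cfam k (ram G)) 1 (fun _ : Unit => (1 : ℤ)) := by
  have hno : IsNoetherianRing B := Algebra.FiniteType.isNoetherianRing k B
  refine ⟨cfam_fg, fun _ => one_mem_cfam (by norm_num), fun n => one_mem_cfam (by simp), ?_, ?_,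
    ?_, ?_⟩
  · obtain ⟨x, hx, hx0⟩ := Submodule.exists_mem_ne_zero_of_ne_bot (ram_ne (G := G))
    refine ⟨1, one_pos, (algebraMap B (FractionRing B)) x, ?_, ι_ne hx0⟩
    rw [one_smul]
    exact mem_cfam_one hx
  · intro d
    exact ⟨-|d|, one_mem_cfam (by simp),
      one_mem_cfam (by have := le_abs_self d; omega)⟩
  · rintro q hq ⟨n, hn, hnq⟩ d
    refine ⟨(n * (d.natAbs + 1) - d : ℤ).toNat, ?_, 1, one_pos, ?_⟩
    · rw [Int.lt_toNat]
      push_cast
      have : (1 : ℤ) * (|d| + 1) ≤ n * (|d| + 1) :=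
        mul_le_mul_of_nonneg_right (by exact_mod_cast hn) (by positivity)
      have h2 := le_abs_self d
      omega
    · have h3 : (0 : ℤ) ≤ n * (d.natAbs + 1) - d := by
        push_cast
        have : (1 : ℤ) * (|d| + 1) ≤ n * (|d| + 1) :=
          mul_le_mul_of_nonneg_right (by exact_mod_cast hn) (by positivity)
        have h2 := le_abs_self d
        omega
      have h4 : 1 • (((n * (d.natAbs + 1) - d : ℤ).toNat) • (1 : ℤ) + d) =
          (d.natAbs + 1) • (n • (1 : ℤ)) := by
        rw [one_smul, nsmul_eq_mul, mul_one, Int.toNat_of_nonneg h3, nsmul_eq_mul, nsmul_eq_mul]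
        push_cast
        ring
      rw [h4]
      exact AddSubmonoid.nsmul_mem _ hnq _
  · intro q hq hs
    set P : Ideal B := q.comap (inclB k (ram G)) with hPdef
    have hPp : P.IsPrime := Ideal.IsPrime.comap _
    by_cases hle : ram G ≤ P
    · have hP0 : P ≠ ⊥ := by
        intro h
        rw [h] at hle
        exact ram_ne (G := G) (le_bot_iff.1 hle)
      have hPm : P.IsMaximal := hdim P hPp hP0
      obtain ⟨-, hloc⟩ := ram_local (G := G) hdim
      obtain ⟨-, f, hf, hfram⟩ := hloc P hPm hle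
      obtain ⟨t, ht, ht0, h, hh, hht, hsm⟩ := exists_unif (k := k) hdim P hP0
      have H : Unif P t h := ⟨ht, ht0, hh, hht⟩
      have hUt := isU_t q H rfl hle hf hfram hs
      have he : f * h ∉ P := hPp.mul_notMem hf hh
      have he0 := ne_of_notMem he
      have hUe : IsU (atP (cfam k (ram G)) q) 0 ((algebraMap B (FractionRing B)) (f * h)) := (isU_zero_iff q).2 he
      refine ⟨Set.univ, ?_⟩
      refine exists_chart q (e := f * h) (t := t) he0 ht0 ?_ ?_ ?_ Set.univ
        (fun j hj => absurd (Set.mem_univ j) hj) (Or.inr ⟨rfl, hsm _ (dvd_mul_left h f)⟩)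
      · rw [mul_right_comm]
        exact Ideal.mul_mem_right _ _ (hfram t ht)
      · intro b hb
        obtain ⟨c, hc⟩ := hht b (hle hb)
        exact ⟨f * c, by linear_combination f * hc⟩
      · have := hUe.mul (hUe.mul hUt)
        rwa [zero_add, zero_add, ← map_mul, ← map_mul] at this
    · obtain ⟨x, hx, hxP⟩ := SetLike.not_le_iff_exists.1 hle
      have hx0 := ne_of_notMem hxP
      have hU0 : IsU (atP (cfam k (ram G)) q) 0 ((algebraMap B (FractionRing B)) x) := (isU_zero_iff q).2 hxP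
      have h1 : (1 : (FractionRing B)) ∈ (atP (cfam k (ram G)) q).s (-1) :=
        le_atP _ q _ (one_mem_cfam (by norm_num))
      have h2 : (algebraMap B (FractionRing B)) x ∈ (atP (cfam k (ram G)) q).s 1 := le_atP _ q _ (mem_cfam_one hx)
      have hU1 : IsU (atP (cfam k (ram G)) q) 1 ((algebraMap B (FractionRing B)) x) := by
        refine IsU.of_mul_left h2 h1 ?_
        rw [mul_one, add_neg_cancel]
        exact hU0
      refine ⟨∅, ?_⟩
      refine exists_chart q (e := x) (t := 1) hx0 one_ne_zero (by rwa [mul_one])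
        (fun b _ => ⟨x * b, by rw [one_mul]⟩) ?_ ∅ ?_ (Or.inl ⟨rfl, rfl⟩)
      · rw [mul_one, map_mul]
        have := hU0.mul hU1
        rwa [zero_add] at this
      · intro j _
        have h3 := hU1.mul hU0.inv
        rw [mul_inv_cancel₀ (ι_ne hx0), neg_zero, add_zero] at h3
        exact h3.2.1

end Tor

section Grp

variable [IsAlgClosed k] [Algebra.Smooth k B]
  (hdim : ∀ P : Ideal B, P.IsPrime → P ≠ ⊥ → P.IsMaximal) {G : Subgroup (B ≃ₐ[k] B)} [Finite G]

/-- The conditions for trivial inertia. -/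
theorem grpAt_bot (p : ℕ) {φ : G →* ((FractionRing B) ≃ₐ[k] (FractionRing B))} {M : Fam k (FractionRing B) ℤ} {q : Ideal M.alg} [q.IsPrime]
    (hE : inertia φ M q = ⊥) (η : Unit → ℤ) : GrpAt p φ M q (fun _ : Unit => ⊥) η := by
  have h1 : ∀ g ∈ inertia φ M q, g = 1 := fun g hg => by rwa [hE, Subgroup.mem_bot] at hg
  refine ⟨fun i => Or.inl hE.le, fun g hg d x _ => ?_, fun i => ⟨0, 0, Submodule.zero_mem _,
    fun g _ => map_zero _, fun g hg hg' => absurd (h1 g hg) hg'⟩⟩
  rw [h1 g hg, map_one, AlgEquiv.one_apply, sub_self]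
  exact Submodule.zero_mem _

/-- The values which occur. -/
def vals (t : Ideal B → B) (P : Ideal B) (g : B ≃ₐ[k] B) :
    Set (Unit → ℤ) :=
  {w | ∃ (_ : P.IsMaximal) (v : ℕ) (u : (FractionRing B)), w () = v ∧ IsUn P u ∧
    fracEquiv g ((algebraMap B (FractionRing B)) (t P)) - (algebraMap B (FractionRing B)) (t P) = (algebraMap B (FractionRing B)) (t P) ^ (v + 1) * u}

theorem finite_vals (t h : Ideal B → B) (P : Ideal B) (g : B ≃ₐ[k] B)
    (H : ∀ P : Ideal B, P.IsMaximal → P ≠ ⊥ → Unif P (t P) (h P)) (hP0 : P ≠ ⊥) :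
    (vals t P g).Finite := by
  refine Set.Subsingleton.finite ?_
  rintro w ⟨hP, v, u, hw, hu, h1⟩ w' ⟨_, v', u', hw', hu', h1'⟩
  have H := H P hP hP0
  have h2 : v ≤ v' := by
    have := le_of_mem H hu' (n := v' + 1) (m := v + 1) (by
      have e : (algebraMap B (FractionRing B)) (t P) ^ ((v' : ℤ) + 1) = (algebraMap B (FractionRing B)) (t P) ^ (v' + 1) := by norm_cast
      rw [e, ← h1', h1]
      exact ⟨u, hu.2.1, by norm_cast⟩)
    omega
  have h3 : v' ≤ v := by
    have := le_of_mem H hu (n := v + 1) (m := v' + 1) (by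
      have e : (algebraMap B (FractionRing B)) (t P) ^ ((v : ℤ) + 1) = (algebraMap B (FractionRing B)) (t P) ^ (v + 1) := by norm_cast
      rw [e, ← h1, h1']
      exact ⟨u', hu'.2.1, by norm_cast⟩)
    omega
  funext x
  rw [Subsingleton.elim x (), hw, hw', le_antisymm h2 h3]

/-- The conditions at a point with nontrivial inertia. -/
theorem grpAt_ram (p : ℕ) [Fact p.Prime] [CharP k p] (q : Ideal (cfam k (ram G)).alg)
    [hq : q.IsPrime] (hs : Semi (cfam k (ram G)) 1 q) {P : Ideal B} [hP : P.IsMaximal]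
    (hqP : q.comap (inclB k (ram G)) = P) (hle : ram G ≤ P)
    (hp : ¬ p ^ 2 ∣ Nat.card (inertiaGroup G P)) {f t h : B} (H : Unif P t h) (hf : f ∉ P)
    (hfram : ∀ b ∈ P, f * b ∈ ram G)
    (hE : inertia (fracHom.comp G.subtype) (cfam k (ram G)) q ≠ ⊥) :
    ∃ (g : B ≃ₐ[k] B) (v : ℕ) (u : (FractionRing B)), g ∈ G ∧ IsUn P u ∧
      fracEquiv g ((algebraMap B (FractionRing B)) t) - (algebraMap B (FractionRing B)) t = (algebraMap B (FractionRing B)) t ^ (v + 1) * u ∧
      GrpAt p (fracHom.comp G.subtype) (cfam k (ram G)) q (fun _ : Unit => ⊥)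
        (fun _ => (v : ℤ)) := by
  classical
  have hno : IsNoetherianRing B := Algebra.FiniteType.isNoetherianRing k B
  have hres := exists_sub_mem_of_isAlgClosed (k := k) P
  set φ : G →* ((FractionRing B) ≃ₐ[k] (FractionRing B)) := fracHom.comp G.subtype with hφ
  set E := inertia φ (cfam k (ram G)) q with hEdef
  have hφι : ∀ (g : G) (b : B), φ g ((algebraMap B (FractionRing B)) b) = (algebraMap B (FractionRing B)) ((g : B ≃ₐ[k] B) b) :=
    fun g b => fracEquiv_algebraMap _ b
  have hφ1 : ∀ g : G, (∀ b : B, φ g ((algebraMap B (FractionRing B)) b) = (algebraMap B (FractionRing B)) b) → g = 1 := by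
    intro g hg
    refine Subtype.ext (AlgEquiv.ext fun b => inj ?_)
    rw [← hφι, hg]; rfl
  -- inertia acts trivially modulo P
  have hin : ∀ g ∈ E, ∀ b : B, (g : B ≃ₐ[k] B) b - b ∈ P := by
    intro g hg b
    obtain ⟨h1, h2⟩ := hg 0 ((algebraMap B (FractionRing B)) b) (mem_cfam_of_nonpos le_rfl b)
    rw [← hqP, Ideal.mem_comap, inclB_apply]
    convert h2 using 2
    rw [map_sub, hφι]
  have hinert : ∀ g ∈ E, Inert P (φ g) := by
    intro g hg b
    exact ⟨(g : B ≃ₐ[k] B) b - b, hin g hg b, by rw [hφι]; congr 1; ring⟩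
  have hmem := fun {d : ℤ} {y : (FractionRing B)} => mem_atP_iff q H hqP hle hf hfram hs (d := d) (y := y)
  have hunit := fun {d : ℤ} {y : (FractionRing B)} => isU_iff q H hqP hle hf hfram hs (d := d) (z := y)
  have htq : (algebraMap B (FractionRing B)) t ∈ (atP (cfam k (ram G)) q).s 1 := hmem.2 t_mem
  -- the effect on the uniformizer
  have hT2 : ∀ g ∈ E, φ g ((algebraMap B (FractionRing B)) t) - (algebraMap B (FractionRing B)) t ∈ T P t 2 := by
    intro g hg
    have h1 : φ g ((algebraMap B (FractionRing B)) t) - (algebraMap B (FractionRing B)) t ∈ (atP (cfam k (ram G)) q).s 1 :=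
      Submodule.sub_mem _ (inertia_mem φ _ q hg htq) htq
    have h2 := inertia_not_isU φ _ q hg htq
    obtain ⟨z, hz, h3⟩ := hmem.1 h1
    rw [h3] at h2 ⊢
    rcases dich H hz with h4 | h4
    · exact absurd (hunit.2 ⟨h4.1, hz, h4.2⟩) h2
    · exact T_mul H (d := 1) ⟨1, (O P).one_mem, by rw [mul_one]⟩ h4
  have hval : ∀ g ∈ E, g ≠ 1 → ∃ v : ℕ, 1 ≤ v ∧ ∃ u, IsUn P u ∧
      φ g ((algebraMap B (FractionRing B)) t) - (algebraMap B (FractionRing B)) t = (algebraMap B (FractionRing B)) t ^ (v + 1) * u := by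
    intro g hg hg1
    refine exists_value H hres (hinert g hg) (hT2 g hg) ?_
    intro h1
    exact hg1 (hφ1 g fun b => eq_one_of_fix H hres (hinert g hg) h1 b)
  -- orders
  have hord : ∀ g ∈ E, g ≠ 1 → ∀ m : ℕ, g ^ m = 1 → p ∣ m := by
    intro g hg hg1 m hm
    obtain ⟨v, hv, u, hu, h1⟩ := hval g hg hg1
    have h2 : φ g ^ m = 1 := by rw [← map_pow, hm, map_one]
    exact (CharP.cast_eq_zero_iff k p m).1 (order_eq_zero H hres (hinert g hg) hv hu h1 h2)
  have hcardE : Nat.card E ∣ Nat.card (inertiaGroup G P) := by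
    have h1 : E.map G.subtype ≤ inertiaGroup G P := by
      rintro _ ⟨g, hg, rfl⟩
      exact ⟨g.2, hin g hg⟩
    have h2 := Subgroup.card_dvd_of_le h1
    rwa [Subgroup.card_map_of_injective G.subtype_injective] at h2
  have hpp : p.Prime := Fact.out
  have hpow : Nat.card E = p ^ (Nat.card E).primeFactorsList.length := by
    refine Nat.eq_prime_pow_of_unique_prime_dvd Nat.card_pos.ne' fun {ℓ} hℓ hd => ?_
    have : Fact ℓ.Prime := ⟨hℓ⟩
    obtain ⟨g, hg⟩ := exists_prime_orderOf_dvd_card' ℓ hd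
    have hg1 : (g : G) ≠ 1 := by
      intro h
      have : g = 1 := Subtype.ext h
      rw [this, orderOf_one] at hg
      exact hℓ.one_lt.ne hg
    have h2 := hord g g.2 hg1 ℓ (by
      have h3 := pow_orderOf_eq_one g
      rw [hg] at h3
      exact congrArg Subtype.val h3)
    exact ((Nat.prime_dvd_prime_iff_eq hpp hℓ).1 h2).symm
  have hcard : Nat.card E = p := by
    set n := (Nat.card E).primeFactorsList.length with hn
    have h0 : n ≠ 0 := by
      intro h0
      rw [h0, pow_zero] at hpow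
      exact hE (Subgroup.card_eq_one.1 hpow)
    have h1 : n < 2 := by
      by_contra h1
      push Not at h1
      exact hp ((pow_dvd_pow p h1).trans (hpow ▸ hcardE))
    have h2 : n = 1 := by omega
    rw [hpow, h2, pow_one]
  -- a generator
  obtain ⟨g, hg, hg1⟩ := Subgroup.bot_or_exists_ne_one E |>.resolve_left hE
  obtain ⟨v, hv, u, hu, hgt⟩ := hval g hg hg1
  have hpowg : ∀ a ∈ E, a ≠ 1 → ∀ b ∈ E, ∃ j : ℕ, b = a ^ j := by
    intro a ha ha1 b hb
    have h1 : Nat.card E = p := hcard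
    have h2 : (⟨a, ha⟩ : E) ≠ 1 := fun h => ha1 (congrArg Subtype.val h)
    have h3 := mem_powers_of_prime_card (G := E) (p := p) h1 (g := ⟨a, ha⟩) (g' := ⟨b, hb⟩) h2
    obtain ⟨j, hj⟩ := h3
    exact ⟨j, (congrArg Subtype.val hj).symm⟩
  have hTv : ∀ a ∈ E, a ≠ 1 → ∃ u, IsUn P u ∧ φ a ((algebraMap B (FractionRing B)) t) - (algebraMap B (FractionRing B)) t = (algebraMap B (FractionRing B)) t ^ (v + 1) * u := by
    intro a ha ha1
    obtain ⟨v', hv', u', hu', h1⟩ := hval a ha ha1
    obtain ⟨j, hj⟩ := hpowg g hg hg1 a ha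
    obtain ⟨j', hj'⟩ := hpowg a ha ha1 g hg
    have h2 : v ≤ v' := value_le H hres (hinert g hg) hv
      (⟨u, hu.2.1, by rw [hgt]; norm_cast⟩) hu' (j := j) (by rw [← map_pow, ← hj]; exact h1)
    have h3 : v' ≤ v := value_le H hres (hinert a ha) hv'
      (⟨u', hu'.2.1, by rw [h1]; norm_cast⟩) hu (j := j') (by rw [← map_pow, ← hj']; exact hgt)
    obtain rfl := le_antisymm h2 h3
    exact ⟨u', hu', h1⟩
  refine ⟨g, v, u, g.2, hu, hgt, ⟨fun i => Or.inr ?_, ?_, ?_⟩⟩
  · rw [Subgroup.relIndex_bot_left]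
    exact hcard
  · intro a ha d x hx
    by_cases ha1 : a = 1
    · rw [ha1, map_one, AlgEquiv.one_apply, sub_self]
      exact Submodule.zero_mem _
    · have hnot : a ∉ (⊥ : Subgroup G) := fun h => ha1 (Subgroup.mem_bot.1 h)
      obtain ⟨u', hu', h1⟩ := hTv a ha ha1
      have h2 : φ a x - x ∈ T P t (d + v) := diff_T H hres (hinert a ha) hv
        (⟨u', hu'.2.1, by rw [h1]; norm_cast⟩) (hmem.1 hx)
      exact Submodule.mem_iSup_of_mem () (Submodule.mem_iSup_of_mem hnot (hmem.2 h2))
  · intro i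
    refine ⟨1, (algebraMap B (FractionRing B)) t, htq, ?_, ?_⟩
    · intro a ha
      rw [Subgroup.mem_bot.1 ha, map_one, AlgEquiv.one_apply]
    · intro a ha hna
      have ha1 : a ≠ 1 := fun h => hna (Subgroup.mem_bot.2 h)
      obtain ⟨u', hu', h1⟩ := hTv a ha ha1
      rw [h1]
      have h2 : ((algebraMap B (FractionRing B)) t ^ (v + 1) * u' : (FractionRing B)) = (algebraMap B (FractionRing B)) t ^ (1 + (v : ℤ)) * u' := by
        rw [add_comm (1 : ℤ)]; norm_cast
      rw [h2]
      exact hunit.2 hu'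

end Grp

end Pool.Agent.MP_b525bf_ag_P.CurveP

namespace Pool.Agent.MP_b525bf_ag_P

open Pool.Agent.MP_b525bf_ag Pool.Agent.MP_b525bf_ag_W Pool.Agent.MP_b525bf_ag_X AddMonoidAlgebra
open CurveP

/-- The package of an action on a smooth affine curve. -/
theorem hasPkg_curve {k B : Type} [Field k] [IsAlgClosed k] [CommRing B] [IsDomain B] [Algebra k B]
    (p : ℕ) [Fact p.Prime] [CharP k p] [Algebra.Smooth k B]
    (hdim : ∀ P : Ideal B, P.IsPrime → P ≠ ⊥ → P.IsMaximal) (G : Subgroup (B ≃ₐ[k] B))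
    [Finite G] (hp : ∀ P : Ideal B, P.IsMaximal → ¬ p ^ 2 ∣ Nat.card (inertiaGroup G P)) :
    HasPkg p (copy k B) (fracHom.comp G.subtype) ⊥ := by
  classical
  have hno : IsNoetherianRing B := Algebra.FiniteType.isNoetherianRing k B
  have hch : ∀ P : Ideal B, ∃ t h : B, P.IsMaximal → P ≠ ⊥ → Unif P t h := by
    intro P
    by_cases h1 : P.IsMaximal
    · by_cases h2 : P = ⊥
      · exact ⟨0, 0, fun _ h => absurd h2 h⟩
      · obtain ⟨t, ht, ht0, h, hh, hht, -⟩ := exists_unif (k := k) hdim P h2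
        exact ⟨t, h, fun _ _ => ⟨ht, ht0, hh, hht⟩⟩
    · exact ⟨0, 0, fun h => absurd h h1⟩
  choose t h H using hch
  obtain ⟨hfin, hloc⟩ := ram_local (G := G) hdim
  let HH : Set (Unit → ℤ) := {0} ∪ ⋃ P ∈ (ram G).minimalPrimes, ⋃ g ∈ (G : Set (B ≃ₐ[k] B)),
    vals t P g
  refine ⟨ℤ, inferInstance, inferInstance, inferInstance, Unit, inferInstance, Unit,
    inferInstance, cfam k (ram G), 1, fun _ => 1, fun _ => ⊥, HH, ⟨tor_cfam hdim, ?_,
      fun _ => inferInstance, ?_, ?_⟩, cfam_zero, iInf_le _ ()⟩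
  · intro g d x hx
    exact cfam_stab (fun b hb => ram_stab g.2 b hb) d x hx
  · refine (Set.finite_singleton _).union (hfin.biUnion fun P hP => ?_)
    refine Set.Finite.biUnion (Set.toFinite _) fun g _ => ?_
    refine finite_vals t h P g H ?_
    rintro rfl
    exact ram_ne (G := G) (le_bot_iff.1 hP.1.2)
  · intro q hq hs
    by_cases hE : inertia (fracHom.comp G.subtype) (cfam k (ram G)) q = ⊥
    · exact ⟨fun _ => 0, fun _ => Or.inl rfl, grpAt_bot p hE _⟩
    · set P : Ideal B := q.comap (inclB k (ram G)) with hPdef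
      have hPp : P.IsPrime := Ideal.IsPrime.comap _
      have hle : ram G ≤ P := by
        obtain ⟨g, hg, hg1⟩ := (Subgroup.bot_or_exists_ne_one _).resolve_left hE
        refine ram_le (g := (g : B ≃ₐ[k] B)) g.2 (fun h => hg1 (Subtype.ext h)) fun b => ?_
        obtain ⟨h1, h2⟩ := hg 0 (algebraMap B (FractionRing B) b) (mem_cfam_of_nonpos le_rfl b)
        rw [hPdef, Ideal.mem_comap, inclB_apply]
        convert h2 using 2
        rw [map_sub]
        exact congrArg (· - _) (fracEquiv_algebraMap _ b).symm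
      have hP0 : P ≠ ⊥ := by
        intro h
        rw [h] at hle
        exact ram_ne (G := G) (le_bot_iff.1 hle)
      have hPm : P.IsMaximal := hdim P hPp hP0
      obtain ⟨hmin, f, hf, hfram⟩ := hloc P hPm hle
      obtain ⟨g, v, u, hg, hu, hgt, hgrp⟩ := grpAt_ram p q hs rfl hle (hp P hPm) (H P hPm hP0) hf
        hfram hE
      refine ⟨fun _ _ => v, fun _ => Or.inr ?_, ?_⟩
      · exact Set.mem_biUnion hmin (Set.mem_biUnion hg ⟨hPm, v, u, rfl, hu, hgt⟩)
      · convert hgrp using 2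
        simp [wdeg]

end Pool.Agent.MP_b525bf_ag_P
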