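import Mathlib

/-!
# P8, third part: the local ring of a curve at a point
-/

set_option autoImplicit false
set_option linter.unusedSectionVars false

namespace Pool.Agent.MP_b525bf_ag_P.CurveP

variable {k B : Type} [Field k] [CommRing B] [IsDomain B] [Algebra k B]

/-- `t` is a uniformizer at `P`. -/
structure Unif (P : Ideal B) (t h : B) : Prop where
  mem : t ∈ P
  ne : t ≠ 0
  hP : h ∉ P
  loc : ∀ b ∈ P, ∃ c, h * b = t * c

theorem inj : Function.Injective (algebraMap B (FractionRing B)) := IsFractionRing.injective B (FractionRing B)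

theorem ι_ne {f : B} (hf : f ≠ 0) : (algebraMap B (FractionRing B)) f ≠ 0 := (map_ne_zero_iff _ inj).2 hf

theorem ne_of_notMem {P : Ideal B} {f : B} (hf : f ∉ P) : f ≠ 0 := by
  rintro rfl; exact hf P.zero_mem

/-- The local ring at `P`. -/
def O (P : Ideal B) [hP : P.IsPrime] : Subring (FractionRing B) where
  carrier := {y | ∃ f b : B, f ∉ P ∧ (algebraMap B (FractionRing B)) f * y = (algebraMap B (FractionRing B)) b}
  mul_mem' := by
    rintro x y ⟨f, b, hf, h⟩ ⟨f', b', hf', h'⟩
    refine ⟨f * f', b * b', hP.mul_notMem hf hf', ?_⟩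
    rw [map_mul, map_mul, ← h, ← h']; ring
  one_mem' := ⟨1, 1, (Ideal.ne_top_iff_one P).1 hP.ne_top, mul_one _⟩
  add_mem' := by
    rintro x y ⟨f, b, hf, h⟩ ⟨f', b', hf', h'⟩
    refine ⟨f * f', f' * b + f * b', hP.mul_notMem hf hf', ?_⟩
    rw [map_add, map_mul, map_mul, map_mul, ← h, ← h']; ring
  zero_mem' := ⟨1, 0, (Ideal.ne_top_iff_one P).1 hP.ne_top, by simp⟩
  neg_mem' := by
    rintro x ⟨f, b, hf, h⟩
    exact ⟨f, -b, hf, by rw [map_neg, ← h]; ring⟩

section

variable {P : Ideal B} [hP : P.IsPrime]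

theorem mem_O {y : (FractionRing B)} : y ∈ O P ↔ ∃ f b : B, f ∉ P ∧ (algebraMap B (FractionRing B)) f * y = (algebraMap B (FractionRing B)) b := Iff.rfl

theorem ι_mem (b : B) : (algebraMap B (FractionRing B)) b ∈ O P :=
  ⟨1, b, (Ideal.ne_top_iff_one P).1 hP.ne_top, by rw [map_one, one_mul]⟩

theorem inv_mem {f : B} (hf : f ∉ P) : ((algebraMap B (FractionRing B)) f)⁻¹ ∈ O P :=
  ⟨f, 1, hf, by rw [mul_inv_cancel₀ (ι_ne (ne_of_notMem hf)), map_one]⟩

theorem algebraMap_mem (c : k) : algebraMap k (FractionRing B) c ∈ O P := by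
  rw [IsScalarTower.algebraMap_apply k B]; exact ι_mem _

/-- The elements of value at least `d`. -/
def T (P : Ideal B) [P.IsPrime] (t : B) (d : ℤ) : AddSubgroup (FractionRing B) where
  carrier := {y | ∃ z ∈ O P, y = (algebraMap B (FractionRing B)) t ^ d * z}
  add_mem' := by
    rintro _ _ ⟨z, hz, rfl⟩ ⟨z', hz', rfl⟩
    exact ⟨z + z', (O P).add_mem hz hz', by rw [mul_add]⟩
  zero_mem' := ⟨0, (O P).zero_mem, by rw [mul_zero]⟩
  neg_mem' := by
    rintro _ ⟨z, hz, rfl⟩
    exact ⟨-z, (O P).neg_mem hz, by rw [mul_neg]⟩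

theorem mem_T {t : B} {d : ℤ} {y : (FractionRing B)} : y ∈ T P t d ↔ ∃ z ∈ O P, y = (algebraMap B (FractionRing B)) t ^ d * z := Iff.rfl

variable {t h : B} (H : Unif P t h)

include H

theorem tne : (algebraMap B (FractionRing B)) t ≠ 0 := ι_ne H.ne

omit H in
theorem T_mul_O {d : ℤ} {x y : (FractionRing B)} (hx : x ∈ T P t d) (hy : y ∈ O P) : x * y ∈ T P t d := by
  obtain ⟨z, hz, rfl⟩ := hx
  exact ⟨z * y, (O P).mul_mem hz hy, by rw [mul_assoc]⟩

theorem T_mul {d e : ℤ} {x y : (FractionRing B)} (hx : x ∈ T P t d) (hy : y ∈ T P t e) :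
    x * y ∈ T P t (d + e) := by
  obtain ⟨z, hz, rfl⟩ := hx
  obtain ⟨z', hz', rfl⟩ := hy
  exact ⟨z * z', (O P).mul_mem hz hz', by rw [zpow_add₀ (tne H)]; ring⟩

theorem T_anti {d e : ℤ} (hde : d ≤ e) {x : (FractionRing B)} (hx : x ∈ T P t e) : x ∈ T P t d := by
  obtain ⟨z, hz, rfl⟩ := hx
  obtain ⟨n, hn⟩ := Int.eq_ofNat_of_zero_le (sub_nonneg.2 hde)
  refine ⟨(algebraMap B (FractionRing B)) t ^ n * z, (O P).mul_mem ((O P).pow_mem (ι_mem t) n) hz, ?_⟩
  have hn' : e = d + (n : ℤ) := by rw [← Int.ofNat_eq_natCast] at *; omega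
  rw [← mul_assoc, ← zpow_natCast, ← zpow_add₀ (tne H), hn']

omit H in
theorem T_zero {x : (FractionRing B)} : x ∈ T P t 0 ↔ x ∈ O P := by
  rw [mem_T]
  constructor
  · rintro ⟨z, hz, rfl⟩; rwa [zpow_zero, one_mul]
  · intro hx; exact ⟨x, hx, by rw [zpow_zero, one_mul]⟩

omit H in
theorem t_mem : (algebraMap B (FractionRing B)) t ∈ T P t 1 := ⟨1, (O P).one_mem, by rw [zpow_one, mul_one]⟩

theorem mem_T_one_of_mem {b : B} (hb : b ∈ P) : (algebraMap B (FractionRing B)) b ∈ T P t 1 := by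
  obtain ⟨c, hc⟩ := H.loc b hb
  refine ⟨(algebraMap B (FractionRing B)) c * ((algebraMap B (FractionRing B)) h)⁻¹, (O P).mul_mem (ι_mem c) (inv_mem H.hP), ?_⟩
  have h1 := ι_ne (ne_of_notMem H.hP)
  rw [zpow_one, ← mul_assoc, eq_mul_inv_iff_mul_eq₀ h1, ← map_mul, ← map_mul, ← hc, mul_comm]

theorem one_notMem : (1 : (FractionRing B)) ∉ T P t 1 := by
  rintro ⟨z, ⟨f, b, hf, hz⟩, h1⟩
  apply hf
  have h2 : (algebraMap B (FractionRing B)) f = (algebraMap B (FractionRing B)) (t * b) := by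
    rw [map_mul, ← hz]
    rw [zpow_one] at h1
    linear_combination ((algebraMap B (FractionRing B)) f) * h1
  rw [inj h2]
  exact P.mul_mem_right _ H.mem

theorem dich {y : (FractionRing B)} (hy : y ∈ O P) : (y ≠ 0 ∧ y⁻¹ ∈ O P) ∨ y ∈ T P t 1 := by
  obtain ⟨f, b, hf, h1⟩ := hy
  have hf0 := ι_ne (ne_of_notMem hf)
  have h2 : y = (algebraMap B (FractionRing B)) b * ((algebraMap B (FractionRing B)) f)⁻¹ := by
    rw [eq_mul_inv_iff_mul_eq₀ hf0, ← h1, mul_comm]
  by_cases hb : b ∈ P
  · right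
    rw [h2]
    exact T_mul_O (mem_T_one_of_mem H hb) (inv_mem hf)
  · left
    have hb0 := ι_ne (ne_of_notMem hb)
    refine ⟨?_, ?_⟩
    · rw [h2]; exact mul_ne_zero hb0 (inv_ne_zero hf0)
    · rw [h2, mul_inv, inv_inv]
      exact (O P).mul_mem (inv_mem hb) (ι_mem f)

/-- Units of the local ring. -/
def IsUn (P : Ideal B) [P.IsPrime] (u : (FractionRing B)) : Prop := u ≠ 0 ∧ u ∈ O P ∧ u⁻¹ ∈ O P

theorem unit_notMem {u : (FractionRing B)} (hu : IsUn P u) : u ∉ T P t 1 := fun h1 => one_notMem H (by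
  rw [← mul_inv_cancel₀ hu.1]
  exact T_mul_O h1 hu.2.2)

/-- Comparison of the value. -/
theorem le_of_mem {u : (FractionRing B)} (hu : IsUn P u) {n m : ℤ} (h1 : (algebraMap B (FractionRing B)) t ^ n * u ∈ T P t m) : m ≤ n := by
  by_contra hlt
  push Not at hlt
  obtain ⟨z, hz, h2⟩ := h1
  refine unit_notMem H hu ?_
  have h3 : u = (algebraMap B (FractionRing B)) t ^ (m - n) * z := by
    have h4 := zpow_ne_zero n (tne H)
    rw [zpow_sub₀ (tne H), div_mul_eq_mul_div, eq_div_iff h4, ← h2, mul_comm]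
  rw [h3]
  exact T_anti H (by omega) ⟨z, hz, rfl⟩

omit H [IsDomain B] in
theorem mem_pow_of_mul_mem {P : Ideal B} [P.IsMaximal] {g b : B} (hg : g ∉ P) {n : ℕ}
    (hgb : g * b ∈ P ^ n) : b ∈ P ^ n := by
  have h1 : Ideal.span {g} ⊔ P = ⊤ := by
    rw [sup_comm]
    refine (Ideal.IsMaximal.out : IsCoatom P).2 _ ?_
    refine lt_of_le_of_ne le_sup_left ?_
    intro h2
    apply hg
    rw [h2]
    exact Ideal.mem_sup_right (Ideal.mem_span_singleton_self g)
  have h2 : Ideal.span {g} ⊔ P ^ n = ⊤ := Ideal.sup_pow_eq_top h1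
  obtain ⟨x, hx, y, hy, hxy⟩ := Submodule.mem_sup.1 ((Ideal.eq_top_iff_one _).1 h2)
  obtain ⟨c, rfl⟩ := Ideal.mem_span_singleton'.1 hx
  have h3 : b = c * (g * b) + y * b := by linear_combination (-b) * hxy
  rw [h3]
  exact (P ^ n).add_mem ((P ^ n).mul_mem_left _ hgb) ((P ^ n).mul_mem_right _ hy)

end

section

variable {P : Ideal B} [hP : P.IsMaximal] [IsNoetherianRing B] {t h : B} (H : Unif P t h)

include H

theorem eq_zero_of_forall {y : (FractionRing B)} (hy : ∀ n : ℕ, y ∈ T P t n) : y = 0 := by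
  obtain ⟨f, b, hf, h1⟩ := T_zero.1 (hy 0)
  have h2 : ∀ n : ℕ, b ∈ P ^ n := by
    intro n
    obtain ⟨z, ⟨g, c, hg, h3⟩, h4⟩ := hy n
    refine mem_pow_of_mul_mem hg ?_
    have h5 : g * b = f * (t ^ n * c) := by
      apply inj
      rw [map_mul, map_mul, map_mul, map_pow, ← h1, ← h3, h4, zpow_natCast]
      ring
    rw [h5]
    exact (P ^ n).mul_mem_left _ ((P ^ n).mul_mem_right _ (Ideal.pow_mem_pow H.mem n))
  have h3 : b ∈ ⨅ n : ℕ, P ^ n := by
    rw [Ideal.mem_iInf]
    exact h2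
  rw [Ideal.iInf_pow_eq_bot_of_isDomain P hP.ne_top, Ideal.mem_bot] at h3
  rw [h3, map_zero] at h1
  exact (mul_eq_zero.1 h1).resolve_left (ι_ne (ne_of_notMem hf))

theorem exists_unit {y : (FractionRing B)} (hy : y ∈ O P) (hy0 : y ≠ 0) :
    ∃ (n : ℕ) (u : (FractionRing B)), IsUn P u ∧ y = (algebraMap B (FractionRing B)) t ^ n * u := by
  by_contra hcon
  apply hy0
  refine eq_zero_of_forall H fun n => ?_
  induction n with
  | zero => exact T_zero.2 hy
  | succ n ih =>
    obtain ⟨z, hz, h1⟩ := ih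
    rcases dich H hz with h2 | ⟨z', hz', h2⟩
    · exact absurd ⟨n, z, ⟨h2.1, hz, h2.2⟩, by rw [h1, zpow_natCast]⟩ hcon
    · refine ⟨z', hz', ?_⟩
      rw [h1, h2, ← mul_assoc, ← zpow_add₀ (tne H)]
      norm_cast

end

section Aut

variable {P : Ideal B} [hP : P.IsMaximal] [IsNoetherianRing B] {t h : B} (H : Unif P t h)
  (hres : ∀ b : B, ∃ c : k, b - algebraMap k B c ∈ P)

/-- The automorphism acts trivially modulo `P`. -/
def Inert (P : Ideal B) (σ : FractionRing B ≃ₐ[k] FractionRing B) : Prop :=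
  ∀ b : B, ∃ c ∈ P, σ ((algebraMap B (FractionRing B)) b) = (algebraMap B (FractionRing B)) (b + c)

variable {σ : FractionRing B ≃ₐ[k] FractionRing B} (hσ : Inert P σ)

include hσ in
theorem σ_mem {y : (FractionRing B)} (hy : y ∈ O P) : σ y ∈ O P := by
  obtain ⟨f, b, hf, h1⟩ := hy
  obtain ⟨c, hc, h2⟩ := hσ f
  obtain ⟨c', hc', h3⟩ := hσ b
  refine ⟨f + c, b + c', ?_, ?_⟩
  · intro h4
    exact hf (by simpa using P.sub_mem h4 hc)
  · rw [← h2, ← h3, ← h1, map_mul]

include H hres

theorem exists_res {y : (FractionRing B)} (hy : y ∈ O P) : ∃ (c : k) (z : (FractionRing B)), z ∈ O P ∧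
    y = algebraMap k (FractionRing B) c + (algebraMap B (FractionRing B)) t * z := by
  obtain ⟨f, b, hf, h1⟩ := hy
  obtain ⟨f0, hf0⟩ := hres f
  obtain ⟨b0, hb0⟩ := hres b
  have hf00 : f0 ≠ 0 := by
    rintro rfl
    rw [map_zero, sub_zero] at hf0
    exact hf hf0
  have hfne := ι_ne (ne_of_notMem hf)
  have h2 : algebraMap k B f0 * (b - algebraMap k B b0) -
      algebraMap k B b0 * (f - algebraMap k B f0) ∈ P :=
    P.sub_mem (P.mul_mem_left _ hb0) (P.mul_mem_left _ hf0)
  obtain ⟨z, hz, h3⟩ := mem_T_one_of_mem H h2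
  refine ⟨b0 / f0, z * ((algebraMap B (FractionRing B)) f)⁻¹ * algebraMap k (FractionRing B) f0⁻¹, (O P).mul_mem ((O P).mul_mem hz
    (inv_mem hf)) (algebraMap_mem _), ?_⟩
  have h4 : y = (algebraMap B (FractionRing B)) b * ((algebraMap B (FractionRing B)) f)⁻¹ := by
    rw [eq_mul_inv_iff_mul_eq₀ hfne, ← h1, mul_comm]
  have h5 : algebraMap k (FractionRing B) f0 ≠ 0 := (map_ne_zero_iff _ (algebraMap k (FractionRing B)).injective).2 hf00
  have h6 : (algebraMap B (FractionRing B)) (algebraMap k B f0) = algebraMap k (FractionRing B) f0 :=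
    (IsScalarTower.algebraMap_apply k B (FractionRing B) f0).symm
  have h7 : (algebraMap B (FractionRing B)) (algebraMap k B b0) = algebraMap k (FractionRing B) b0 :=
    (IsScalarTower.algebraMap_apply k B (FractionRing B) b0).symm
  rw [zpow_one, map_sub, map_mul, map_mul, map_sub, map_sub, h6, h7] at h3
  rw [h4, map_div₀, map_inv₀]
  field_simp
  linear_combination h3

include hσ

/-- The estimate for elements of the local ring. -/
theorem diff_O {v : ℕ} (hv : σ ((algebraMap B (FractionRing B)) t) - (algebraMap B (FractionRing B)) t ∈ T P t (v + 1)) {y : (FractionRing B)} (hy : y ∈ O P) :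
    σ y - y ∈ T P t (v + 1) := by
  have key : ∀ m : ℕ, m ≤ v + 1 → ∀ y ∈ O P, σ y - y ∈ T P t m := by
    intro m
    induction m with
    | zero =>
      intro _ y hy
      exact T_zero.2 ((O P).sub_mem (σ_mem hσ hy) hy)
    | succ m ih =>
      intro hm y hy
      obtain ⟨c, z, hz, rfl⟩ := exists_res H hres hy
      have h1 : σ (algebraMap k (FractionRing B) c + (algebraMap B (FractionRing B)) t * z) - (algebraMap k (FractionRing B) c + (algebraMap B (FractionRing B)) t * z) =
          σ ((algebraMap B (FractionRing B)) t) * (σ z - z) + (σ ((algebraMap B (FractionRing B)) t) - (algebraMap B (FractionRing B)) t) * z := by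
        rw [map_add, map_mul, AlgEquiv.commutes]; ring
      rw [h1]
      refine AddSubgroup.add_mem _ ?_ ?_
      · have h2 : σ ((algebraMap B (FractionRing B)) t) ∈ T P t 1 := by
          rw [← add_sub_cancel ((algebraMap B (FractionRing B)) t) (σ ((algebraMap B (FractionRing B)) t))]
          exact AddSubgroup.add_mem _ t_mem (T_anti H (by omega) hv)
        have h3 := T_mul H h2 (ih (by omega) z hz)
        rw [add_comm] at h3
        exact_mod_cast h3
      · exact T_anti H (by push_cast; omega) (T_mul_O hv hz)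
  have := key (v + 1) le_rfl y hy
  exact_mod_cast this

theorem zpow_diff {v : ℕ} (hv0 : 1 ≤ v) (hv : σ ((algebraMap B (FractionRing B)) t) - (algebraMap B (FractionRing B)) t ∈ T P t (v + 1)) (d : ℤ) :
    IsUn P ((σ ((algebraMap B (FractionRing B)) t) / (algebraMap B (FractionRing B)) t) ^ d) ∧ (σ ((algebraMap B (FractionRing B)) t) / (algebraMap B (FractionRing B)) t) ^ d - 1 ∈ T P t v := by
  have ht0 := tne H
  have hw1 : σ ((algebraMap B (FractionRing B)) t) / (algebraMap B (FractionRing B)) t - 1 ∈ T P t v := by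
    obtain ⟨z, hz, h1⟩ := hv
    refine ⟨z, hz, ?_⟩
    have h2 : σ ((algebraMap B (FractionRing B)) t) / (algebraMap B (FractionRing B)) t - 1 = (σ ((algebraMap B (FractionRing B)) t) - (algebraMap B (FractionRing B)) t) / (algebraMap B (FractionRing B)) t := by field_simp
    rw [h2, h1, zpow_add_one₀ ht0]
    field_simp
  have hwO : σ ((algebraMap B (FractionRing B)) t) / (algebraMap B (FractionRing B)) t ∈ O P := by
    rw [← sub_add_cancel (σ ((algebraMap B (FractionRing B)) t) / (algebraMap B (FractionRing B)) t) 1]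
    exact (O P).add_mem (T_zero.1 (T_anti H (by omega) hw1)) (O P).one_mem
  have hwu : IsUn P (σ ((algebraMap B (FractionRing B)) t) / (algebraMap B (FractionRing B)) t) := by
    rcases dich H hwO with h1 | h1
    · exact ⟨h1.1, hwO, h1.2⟩
    · exfalso
      apply one_notMem H
      have h2 : (1 : (FractionRing B)) = σ ((algebraMap B (FractionRing B)) t) / (algebraMap B (FractionRing B)) t - (σ ((algebraMap B (FractionRing B)) t) / (algebraMap B (FractionRing B)) t - 1) := by ring
      rw [h2]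
      exact AddSubgroup.sub_mem _ h1 (T_anti H (by exact_mod_cast hv0) hw1)
  set w := σ ((algebraMap B (FractionRing B)) t) / (algebraMap B (FractionRing B)) t with hw
  have hn : ∀ n : ℕ, IsUn P (w ^ n) ∧ w ^ n - 1 ∈ T P t v := by
    intro n
    induction n with
    | zero =>
      rw [pow_zero, sub_self]
      exact ⟨⟨one_ne_zero, (O P).one_mem, by rw [inv_one]; exact (O P).one_mem⟩,
        AddSubgroup.zero_mem _⟩
    | succ n ih =>
      refine ⟨⟨pow_ne_zero _ hwu.1, (O P).pow_mem hwu.2.1 _, ?_⟩, ?_⟩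
      · rw [← inv_pow]; exact (O P).pow_mem hwu.2.2 _
      · have h1 : w ^ (n + 1) - 1 = (w ^ n - 1) * w + (w - 1) := by ring
        rw [h1]
        exact AddSubgroup.add_mem _ (T_mul_O ih.2 hwO) hw1
  obtain ⟨n, rfl | rfl⟩ := d.eq_nat_or_neg
  · rw [zpow_natCast]; exact hn n
  · rw [zpow_neg, zpow_natCast]
    obtain ⟨h1, h2⟩ := hn n
    refine ⟨⟨inv_ne_zero h1.1, h1.2.2, by rw [inv_inv]; exact h1.2.1⟩, ?_⟩
    have h3 : (w ^ n)⁻¹ - 1 = -((w ^ n - 1) * (w ^ n)⁻¹) := by
      rw [sub_mul, mul_inv_cancel₀ h1.1]; ring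
    rw [h3]
    exact AddSubgroup.neg_mem _ (T_mul_O h2 h1.2.2)

/-- The estimate for all degrees. -/
theorem diff_T {v : ℕ} (hv0 : 1 ≤ v) (hv : σ ((algebraMap B (FractionRing B)) t) - (algebraMap B (FractionRing B)) t ∈ T P t (v + 1)) {d : ℤ} {y : (FractionRing B)}
    (hy : y ∈ T P t d) : σ y - y ∈ T P t (d + v) := by
  have ht0 := tne H
  obtain ⟨z, hz, rfl⟩ := hy
  obtain ⟨h1, h2⟩ := zpow_diff H hres hσ hv0 hv d
  have h3 : σ ((algebraMap B (FractionRing B)) t ^ d * z) - (algebraMap B (FractionRing B)) t ^ d * z = (algebraMap B (FractionRing B)) t ^ d * ((σ ((algebraMap B (FractionRing B)) t) / (algebraMap B (FractionRing B)) t) ^ d * (σ z - z)) +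
      (algebraMap B (FractionRing B)) t ^ d * (((σ ((algebraMap B (FractionRing B)) t) / (algebraMap B (FractionRing B)) t) ^ d - 1) * z) := by
    have h4 : σ ((algebraMap B (FractionRing B)) t) ^ d = (algebraMap B (FractionRing B)) t ^ d * (σ ((algebraMap B (FractionRing B)) t) / (algebraMap B (FractionRing B)) t) ^ d := by
      rw [← mul_zpow, mul_div_cancel₀ _ ht0]
    rw [map_mul, map_zpow₀, h4]; ring
  have ht : (algebraMap B (FractionRing B)) t ^ d ∈ T P t d := ⟨1, (O P).one_mem, by rw [mul_one]⟩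
  rw [h3]
  refine AddSubgroup.add_mem _ (T_mul H ht ?_) (T_mul H ht (T_mul_O h2 hz))
  rw [mul_comm]
  exact T_mul_O (T_anti H (by omega) (diff_O H hres hσ hv hz)) h1.2.1

/-- Powers of an automorphism. -/
theorem diff_pow {v : ℕ} (hv0 : 1 ≤ v) (hv : σ ((algebraMap B (FractionRing B)) t) - (algebraMap B (FractionRing B)) t ∈ T P t (v + 1)) (j : ℕ) :
    (σ ^ j) ((algebraMap B (FractionRing B)) t) - (algebraMap B (FractionRing B)) t - j • (σ ((algebraMap B (FractionRing B)) t) - (algebraMap B (FractionRing B)) t) ∈ T P t (v + 2) := by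
  induction j with
  | zero =>
    rw [pow_zero, AlgEquiv.one_apply, sub_self, zero_smul, sub_self]
    exact AddSubgroup.zero_mem _
  | succ j ih =>
    have h1 : (σ ^ j) ((algebraMap B (FractionRing B)) t) - (algebraMap B (FractionRing B)) t ∈ T P t (v + 1) := by
      rw [← sub_add_cancel ((σ ^ j) ((algebraMap B (FractionRing B)) t) - (algebraMap B (FractionRing B)) t) (j • (σ ((algebraMap B (FractionRing B)) t) - (algebraMap B (FractionRing B)) t))]
      exact AddSubgroup.add_mem _ (T_anti H (by omega) ih) (AddSubgroup.nsmul_mem _ hv j)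
    have h2 := diff_T H hres hσ hv0 hv h1
    have h3 : (σ ^ (j + 1)) ((algebraMap B (FractionRing B)) t) - (algebraMap B (FractionRing B)) t - (j + 1) • (σ ((algebraMap B (FractionRing B)) t) - (algebraMap B (FractionRing B)) t) =
        (σ ((σ ^ j) ((algebraMap B (FractionRing B)) t) - (algebraMap B (FractionRing B)) t) - ((σ ^ j) ((algebraMap B (FractionRing B)) t) - (algebraMap B (FractionRing B)) t)) +
        ((σ ^ j) ((algebraMap B (FractionRing B)) t) - (algebraMap B (FractionRing B)) t - j • (σ ((algebraMap B (FractionRing B)) t) - (algebraMap B (FractionRing B)) t)) := by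
      rw [pow_succ', AlgEquiv.mul_apply, map_sub, succ_nsmul]; ring
    rw [h3]
    exact AddSubgroup.add_mem _ (T_anti H (by omega) h2) ih

theorem diff_pow' {v : ℕ} (hv0 : 1 ≤ v) (hv : σ ((algebraMap B (FractionRing B)) t) - (algebraMap B (FractionRing B)) t ∈ T P t (v + 1)) (j : ℕ) :
    (σ ^ j) ((algebraMap B (FractionRing B)) t) - (algebraMap B (FractionRing B)) t ∈ T P t (v + 1) := by
  rw [← sub_add_cancel ((σ ^ j) ((algebraMap B (FractionRing B)) t) - (algebraMap B (FractionRing B)) t) (j • (σ ((algebraMap B (FractionRing B)) t) - (algebraMap B (FractionRing B)) t))]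
  exact AddSubgroup.add_mem _ (T_anti H (by omega) (diff_pow H hres hσ hv0 hv j))
    (AddSubgroup.nsmul_mem _ hv j)

/-- The value of an automorphism with nontrivial effect on `t`. -/
theorem exists_value (h2 : σ ((algebraMap B (FractionRing B)) t) - (algebraMap B (FractionRing B)) t ∈ T P t 2) (hne : σ ((algebraMap B (FractionRing B)) t) ≠ (algebraMap B (FractionRing B)) t) :
    ∃ v : ℕ, 1 ≤ v ∧ ∃ u, IsUn P u ∧ σ ((algebraMap B (FractionRing B)) t) - (algebraMap B (FractionRing B)) t = (algebraMap B (FractionRing B)) t ^ (v + 1) * u := by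
  have hO : σ ((algebraMap B (FractionRing B)) t) - (algebraMap B (FractionRing B)) t ∈ O P := T_zero.1 (T_anti H (by omega) h2)
  obtain ⟨n, u, hu, h3⟩ := exists_unit H hO (sub_ne_zero.2 hne)
  have h4 : (2 : ℤ) ≤ n := by
    refine le_of_mem H hu (n := n) ?_
    rw [zpow_natCast, ← h3]
    exact h2
  refine ⟨n - 1, by omega, u, hu, ?_⟩
  rw [h3]
  congr 2
  omega

/-- An inert automorphism which fixes a uniformizer is trivial. -/
theorem eq_one_of_fix (hfix : σ ((algebraMap B (FractionRing B)) t) = (algebraMap B (FractionRing B)) t) (b : B) : σ ((algebraMap B (FractionRing B)) b) = (algebraMap B (FractionRing B)) b := by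
  rw [← sub_eq_zero]
  refine eq_zero_of_forall H fun n => ?_
  have h1 : σ ((algebraMap B (FractionRing B)) t) - (algebraMap B (FractionRing B)) t ∈ T P t (n + 1) := by
    rw [hfix, sub_self]; exact AddSubgroup.zero_mem _
  exact T_anti H (by omega) (diff_O H hres hσ h1 (ι_mem b))

/-- The order of an inert automorphism is zero in `k`. -/
theorem order_eq_zero {v : ℕ} (hv0 : 1 ≤ v) {u : (FractionRing B)} (hu : IsUn P u)
    (hv : σ ((algebraMap B (FractionRing B)) t) - (algebraMap B (FractionRing B)) t = (algebraMap B (FractionRing B)) t ^ (v + 1) * u) {m : ℕ} (hm : σ ^ m = 1) : (m : k) = 0 := by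
  by_contra hne
  have h1 : σ ((algebraMap B (FractionRing B)) t) - (algebraMap B (FractionRing B)) t ∈ T P t (v + 1) := ⟨u, hu.2.1, by rw [hv]; norm_cast⟩
  have h2 := diff_pow H hres hσ hv0 h1 m
  rw [hm, AlgEquiv.one_apply, sub_self, zero_sub, neg_mem_iff, nsmul_eq_mul] at h2
  have h3 : ((m : (FractionRing B)))⁻¹ ∈ O P := by
    have h4 : ((m : (FractionRing B)))⁻¹ = algebraMap k (FractionRing B) ((m : k)⁻¹) := by
      rw [map_inv₀, map_natCast]
    rw [h4]
    exact algebraMap_mem _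
  have h5 : (m : (FractionRing B)) ≠ 0 := by
    have : (m : (FractionRing B)) = algebraMap k (FractionRing B) (m : k) := (map_natCast _ m).symm
    rw [this]
    exact (map_ne_zero_iff _ (algebraMap k (FractionRing B)).injective).2 hne
  have h6 := T_mul_O h2 h3
  rw [mul_comm (m : (FractionRing B)), mul_assoc, mul_inv_cancel₀ h5, mul_one, hv] at h6
  have h7 := le_of_mem H hu (n := v + 1) (m := v + 2) (by
    have e : (algebraMap B (FractionRing B)) t ^ ((v : ℤ) + 1) = (algebraMap B (FractionRing B)) t ^ (v + 1) := by norm_cast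
    rw [e]; exact h6)
  omega

/-- Comparison of values. -/
theorem value_le {v : ℕ} (hv0 : 1 ≤ v) (hv : σ ((algebraMap B (FractionRing B)) t) - (algebraMap B (FractionRing B)) t ∈ T P t (v + 1)) {j : ℕ} {v' : ℕ}
    {u : (FractionRing B)} (hu : IsUn P u) (hj : (σ ^ j) ((algebraMap B (FractionRing B)) t) - (algebraMap B (FractionRing B)) t = (algebraMap B (FractionRing B)) t ^ (v' + 1) * u) : v ≤ v' := by
  have h1 := diff_pow' H hres hσ hv0 hv j
  rw [hj] at h1
  have h7 := le_of_mem H hu (n := v' + 1) (m := v + 1) (by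
    have e : (algebraMap B (FractionRing B)) t ^ ((v' : ℤ) + 1) = (algebraMap B (FractionRing B)) t ^ (v' + 1) := by norm_cast
    rw [e]; exact h1)
  omega

end Aut

end Pool.Agent.MP_b525bf_ag_P.CurveP
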