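import Pool.Agent.Lib.MP_b525bf_ag_P.CurveLocal
import Pool.Agent.Lib.MP_b525bf_ag_P.CurveVal

/-!
# P8, fourth part: the family of an ideal of a curve
-/

set_option autoImplicit false
set_option linter.unusedSectionVars false

namespace Pool.Agent.MP_b525bf_ag_P.CurveP

open Pool.Agent.MP_b525bf_ag Pool.Agent.MP_b525bf_ag_W AddMonoidAlgebra

variable {k B : Type} [Field k] [CommRing B] [IsDomain B] [Algebra k B]

/-- The extended Rees family of the ideal `J`. -/
noncomputable def cfam (k : Type) [Field k] [Algebra k B] (J : Ideal B) :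
    Fam k (FractionRing B) ℤ where
  s n := ((J ^ n.toNat).restrictScalars k).map
    (IsScalarTower.toAlgHom k B (FractionRing B)).toLinearMap
  one' := ⟨1, by
    change (1 : B) ∈ J ^ (0 : ℤ).toNat
    rw [Int.toNat_zero, pow_zero, Ideal.one_eq_top]; trivial, map_one (algebraMap B (FractionRing B))⟩
  mul' := by
    rintro a b _ _ ⟨x, hx, rfl⟩ ⟨y, hy, rfl⟩
    refine ⟨x * y, ?_, map_mul (algebraMap B (FractionRing B)) x y⟩
    change x * y ∈ J ^ (a + b).toNat
    refine Ideal.pow_le_pow_right (m := (a + b).toNat) (n := a.toNat + b.toNat) (by omega) ?_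
    rw [pow_add]
    exact Ideal.mul_mem_mul hx hy

variable {J : Ideal B}

theorem mem_cfam {n : ℤ} {y : (FractionRing B)} : y ∈ (cfam k J).s n ↔ ∃ x ∈ J ^ n.toNat, (algebraMap B (FractionRing B)) x = y := Iff.rfl

theorem mem_cfam_of_nonpos {n : ℤ} (hn : n ≤ 0) (b : B) : (algebraMap B (FractionRing B)) b ∈ (cfam k J).s n :=
  ⟨b, by
    change b ∈ J ^ n.toNat
    rw [Int.toNat_of_nonpos hn, pow_zero, Ideal.one_eq_top]; trivial, rfl⟩

theorem mem_cfam_one {b : B} (hb : b ∈ J) : (algebraMap B (FractionRing B)) b ∈ (cfam k J).s 1 :=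
  ⟨b, by change b ∈ J ^ (1 : ℤ).toNat; rw [Int.toNat_one, pow_one]; exact hb, rfl⟩

theorem one_mem_cfam {n : ℤ} (hn : n ≤ 0) : (1 : (FractionRing B)) ∈ (cfam k J).s n := by
  rw [← map_one (algebraMap B (FractionRing B))]; exact mem_cfam_of_nonpos hn 1

theorem cfam_zero : (cfam k J).s 0 = Subalgebra.toSubmodule (copy k B) := by
  ext y
  rw [mem_cfam]
  constructor
  · rintro ⟨x, -, rfl⟩; exact ⟨x, rfl⟩
  · rintro ⟨x, rfl⟩; exact mem_cfam_of_nonpos (k := k) (J := J) le_rfl x

/-- The family is stable under automorphisms which preserve the ideal. -/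
theorem cfam_stab {σ : B ≃ₐ[k] B} (hσ : ∀ b ∈ J, σ b ∈ J) (n : ℤ) (x : (FractionRing B))
    (hx : x ∈ (cfam k J).s n) : fracEquiv σ x ∈ (cfam k J).s n := by
  obtain ⟨b, hb, rfl⟩ := hx
  refine ⟨σ b, ?_, (fracEquiv_algebraMap σ b).symm⟩
  change σ b ∈ J ^ n.toNat
  have h1 : J.map (σ : B →+* B) ≤ J := by
    rw [Ideal.map_le_iff_le_comap]
    intro b hb
    exact hσ b hb
  have h2 : (J ^ n.toNat).map (σ : B →+* B) ≤ J ^ n.toNat := by
    rw [Ideal.map_pow]
    exact Ideal.pow_right_mono h1 _
  exact h2 (Ideal.mem_map_of_mem (σ : B →+* B) hb)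

/-- The family is finitely generated. -/
theorem cfam_fg [Algebra.FiniteType k B] : (cfam k J).alg.FG := by
  classical
  have hno : IsNoetherianRing B := Algebra.FiniteType.isNoetherianRing k B
  obtain ⟨s, hs⟩ := (Algebra.FiniteType.out : (⊤ : Subalgebra k B).FG)
  obtain ⟨r, hr⟩ := (IsNoetherian.noetherian J : J.FG)
  let S : Finset (AddMonoidAlgebra (FractionRing B) ℤ) := s.image (fun b => single 0 ((algebraMap B (FractionRing B)) b)) ∪
    {single (-1) 1} ∪ r.image (fun b => single 1 ((algebraMap B (FractionRing B)) b))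
  refine ⟨S, le_antisymm ?_ ?_⟩
  · refine Algebra.adjoin_le ?_
    intro F hF
    simp only [S, Finset.coe_union, Finset.coe_image, Finset.coe_singleton, Set.mem_union,
      Set.mem_image, Set.mem_singleton_iff, Finset.mem_coe] at hF
    rcases hF with (⟨b, -, rfl⟩ | rfl) | ⟨b, hb, rfl⟩
    · exact Fam.single_mem_alg.2 (mem_cfam_of_nonpos le_rfl b)
    · exact Fam.single_mem_alg.2 (one_mem_cfam (by norm_num))
    · exact Fam.single_mem_alg.2 (mem_cfam_one (hr ▸ Ideal.subset_span hb))
  · set A := Algebra.adjoin k (S : Set (AddMonoidAlgebra (FractionRing B) ℤ)) with hA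
    have h0 : ∀ b : B, (single 0 ((algebraMap B (FractionRing B)) b) : AddMonoidAlgebra (FractionRing B) ℤ) ∈ A := by
      intro b
      have hb : b ∈ Algebra.adjoin k (s : Set B) := by rw [hs]; trivial
      induction hb using Algebra.adjoin_induction with
      | mem x hx =>
        refine Algebra.subset_adjoin ?_
        simp only [S, Finset.coe_union, Finset.coe_image]
        exact Or.inl (Or.inl ⟨x, hx, rfl⟩)
      | algebraMap c =>
        have : (single 0 ((algebraMap B (FractionRing B)) (algebraMap k B c)) : AddMonoidAlgebra (FractionRing B) ℤ) = algebraMap k _ c := by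
          rw [AddMonoidAlgebra.coe_algebraMap, ← IsScalarTower.algebraMap_apply k B]; rfl
        rw [this]
        exact A.algebraMap_mem c
      | add x y _ _ hx hy => rw [map_add, single_add]; exact A.add_mem hx hy
      | mul x y _ _ hx hy =>
        have : (single 0 ((algebraMap B (FractionRing B)) (x * y)) : AddMonoidAlgebra (FractionRing B) ℤ) =
            single 0 ((algebraMap B (FractionRing B)) x) * single 0 ((algebraMap B (FractionRing B)) y) := by
          rw [single_mul_single, map_mul]; rfl
        rw [this]
        exact A.mul_mem hx hy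
    have hneg : (single (-1) 1 : AddMonoidAlgebra (FractionRing B) ℤ) ∈ A := by
      refine Algebra.subset_adjoin ?_
      simp only [S, Finset.coe_union, Finset.coe_singleton]
      exact Or.inl (Or.inr rfl)
    have h1 : ∀ b ∈ J, (single 1 ((algebraMap B (FractionRing B)) b) : AddMonoidAlgebra (FractionRing B) ℤ) ∈ A := by
      intro b hb
      rw [← hr] at hb
      induction hb using Submodule.span_induction with
      | mem x hx =>
        refine Algebra.subset_adjoin ?_
        simp only [S, Finset.coe_union, Finset.coe_image]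
        exact Or.inr ⟨x, hx, rfl⟩
      | zero => rw [map_zero, single_zero]; exact A.zero_mem
      | add x y _ _ hx hy => rw [map_add, single_add]; exact A.add_mem hx hy
      | smul a x _ hx =>
        have : (single 1 ((algebraMap B (FractionRing B)) (a • x)) : AddMonoidAlgebra (FractionRing B) ℤ) =
            single 0 ((algebraMap B (FractionRing B)) a) * single 1 ((algebraMap B (FractionRing B)) x) := by
          rw [single_mul_single, smul_eq_mul, map_mul]; rfl
        rw [this]
        exact A.mul_mem (h0 a) hx
    have hn : ∀ n : ℕ, ∀ b ∈ J ^ n, (single (n : ℤ) ((algebraMap B (FractionRing B)) b) : AddMonoidAlgebra (FractionRing B) ℤ) ∈ A := by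
      intro n
      induction n with
      | zero => intro b _; exact h0 b
      | succ n ih =>
        intro b hb
        rw [pow_succ] at hb
        induction hb using Submodule.mul_induction_on' with
        | mem_mul_mem x hx y hy =>
          have : (single ((n + 1 : ℕ) : ℤ) ((algebraMap B (FractionRing B)) (x * y)) : AddMonoidAlgebra (FractionRing B) ℤ) =
              single (n : ℤ) ((algebraMap B (FractionRing B)) x) * single 1 ((algebraMap B (FractionRing B)) y) := by
            rw [single_mul_single, map_mul]; push_cast; rfl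
          rw [this]
          exact A.mul_mem (ih x hx) (h1 y hy)
        | add x _ y _ hx hy => rw [map_add, single_add]; exact A.add_mem hx hy
    intro F hF
    rw [Fam.eq_sum F]
    refine Subalgebra.sum_mem _ fun a _ => ?_
    obtain ⟨b, hb, hb'⟩ := hF a
    change (algebraMap B (FractionRing B)) b = _ at hb'
    rw [← hb']
    rcases le_or_gt 0 a with ha | ha
    · obtain ⟨n, rfl⟩ := Int.eq_ofNat_of_zero_le ha
      exact hn n b hb
    · obtain ⟨n, hn'⟩ := Int.eq_ofNat_of_zero_le (neg_nonneg.2 ha.le)
      have ha' : n • (-1 : ℤ) = a := by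
        rw [nsmul_eq_mul, mul_neg_one]
        change -a = n at hn'
        omega
      have : (single a ((algebraMap B (FractionRing B)) b) : AddMonoidAlgebra (FractionRing B) ℤ) = single 0 ((algebraMap B (FractionRing B)) b) * single (-1) 1 ^ n := by
        rw [single_pow, single_mul_single, ha', zero_add, one_pow, mul_one]
      rw [this]
      exact A.mul_mem (h0 b) (A.pow_mem hneg n)

/-- The contraction of a prime ideal. -/
noncomputable def inclB (k : Type) [Field k] [Algebra k B] (J : Ideal B) :
    B →+* (cfam k J).alg where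
  toFun b := (cfam k J).el (mem_cfam_of_nonpos le_rfl b)
  map_one' := Subtype.ext (by
    change (single 0 ((algebraMap B (FractionRing B)) 1) : AddMonoidAlgebra (FractionRing B) ℤ) = 1
    rw [map_one]; rfl)
  map_mul' x y := Subtype.ext (by
    change (single 0 ((algebraMap B (FractionRing B)) (x * y)) : AddMonoidAlgebra (FractionRing B) ℤ) = single 0 ((algebraMap B (FractionRing B)) x) * single 0 ((algebraMap B (FractionRing B)) y)
    rw [single_mul_single, map_mul]; rfl)
  map_zero' := Subtype.ext (by
    change (single 0 ((algebraMap B (FractionRing B)) 0) : AddMonoidAlgebra (FractionRing B) ℤ) = 0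
    rw [map_zero, single_zero])
  map_add' x y := Subtype.ext (by
    change (single 0 ((algebraMap B (FractionRing B)) (x + y)) : AddMonoidAlgebra (FractionRing B) ℤ) = single 0 ((algebraMap B (FractionRing B)) x) + single 0 ((algebraMap B (FractionRing B)) y)
    rw [map_add, single_add])

theorem inclB_apply (b : B) :
    inclB k J b = (cfam k J).el (mem_cfam_of_nonpos (k := k) (J := J) le_rfl b) := rfl

end Pool.Agent.MP_b525bf_ag_P.CurveP
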