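import Pool.Agent.Lib.MP_b525bf_ag_W.Sem

/-!
# Theorem P (products): toric families and packages

Blueprint: team-store `b525bf_P_blueprint.md`.
-/

set_option autoImplicit false

namespace Pool.Agent.MP_b525bf_ag_P

open Pool.Agent.MP_b525bf_ag Pool.Agent.MP_b525bf_ag_W AddMonoidAlgebra

section Toric

variable {k K ι J : Type} [Field k] [Field K] [Algebra k K] [AddCommGroup ι]

/-- The degree of a vector of exponents. -/
def wdeg [Fintype J] (u : J → ι) (c : J → ℤ) : ι := ∑ j, c j • u j

/-- The homomorphism `k[X_j : j ∈ T] → C.alg` which sends `X_j` to the element `1` of degree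
`-u j`. -/
noncomputable def secMap (C : Fam k K ι) (u : J → ι) (T : Set J)
    (h : ∀ j, (1 : K) ∈ C.s (-(u j))) : MvPolynomial T k →ₐ[k] C.alg :=
  MvPolynomial.aeval fun j : T => C.el (h j)

/-- A chart of `M` at the prime `q`: a family `C` between `M` and its localisation at `q` which is
smooth over the polynomial ring in the sections with index in `T`; the other sections are units
at `q`. -/
structure Chart (M : Fam k K ι) (u : J → ι) (q : Ideal M.alg) [q.IsPrime] (T : Set J)
    (C : Fam k K ι) : Prop where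
  unit : ∀ j, j ∉ T → (1 : K) ∈ (atP M q).s (u j)
  le : ∀ d, M.s d ≤ C.s d
  ge : ∀ d, C.s d ≤ (atP M q).s d
  fg : C.alg.FG
  sec : ∀ j, (1 : K) ∈ C.s (-(u j))
  smooth : (secMap C u T sec).toRingHom.FormallySmooth

/-- A family with sections `1` of degree `-u j` whose semistable points have charts. -/
structure Tor (M : Fam k K ι) (a : ι) (u : J → ι) : Prop where
  fg : M.alg.FG
  sec : ∀ j, (1 : K) ∈ M.s (-(u j))
  neg : ∀ n : ℕ, (1 : K) ∈ M.s (-(n • a))
  nontriv : ∃ n : ℕ, 0 < n ∧ ∃ x ∈ M.s (n • a), x ≠ 0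
  gen : ∀ d : ι, ∃ c : ι, (1 : K) ∈ M.s c ∧ (1 : K) ∈ M.s (c + d)
  int : ∀ (q : Ideal M.alg) [q.IsPrime], Semi M a q → IntA M a q
  chart : ∀ (q : Ideal M.alg) [q.IsPrime], Semi M a q → ∃ (T : Set J) (C : Fam k K ι),
    Chart M u q T C

/-- The generators of the toric modification with weights `v`. -/
def tgens (M : Fam k K ι) (u : J → ι) (v : J → ℕ) : Set (AddMonoidAlgebra K (ι × ℤ)) :=
  {F | ∃ (d : ι), ∃ x ∈ M.s d, F = single (d, 0) x} ∪ {single (0, -1) 1} ∪
    {F | ∃ j, 0 < v j ∧ F = single (-(u j), (v j : ℤ)) 1}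

/-- The toric modification of the family `M` with weights `v`. -/
noncomputable def torStep (M : Fam k K ι) (u : J → ι) (v : J → ℕ) : Fam k K (ι × ℤ) :=
  Fam.ofSub (Algebra.adjoin k (tgens M u v))

/-- The degrees of the sections of the toric modification. -/
def torU (u : J → ι) (v : J → ℕ) : Option J → ι × ℤ
  | none => (0, 1)
  | some j => (u j, -(v j : ℤ))

/-- The exponents of a monomial in the sections of the toric modification. -/
def torC [Fintype J] (v : J → ℕ) (c : J → ℤ) : Option J → ℤ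
  | none => ∑ j, v j * c j
  | some j => c j

end Toric

section Group

variable {k K ι J I G : Type} [Field k] [Field K] [Algebra k K] [AddCommGroup ι] [Group G]
  [Finite G]

/-- The conditions on the action of the inertia group at the prime `q`: `L i` are the kernels of
the actions on the factors, `η i` the degrees of the generators of the augmentation ideals. -/
structure GrpAt (p : ℕ) (φ : G →* (K ≃ₐ[k] K)) (M : Fam k K ι) (q : Ideal M.alg) [q.IsPrime]
    (L : I → Subgroup G) (η : I → ι) : Prop where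
  index : ∀ i, inertia φ M q ≤ L i ∨ (L i).relIndex (inertia φ M q) = p
  diff : ∀ g ∈ inertia φ M q, ∀ d, ∀ x ∈ (atP M q).s d,
    φ g x - x ∈ ⨆ i, ⨆ (_ : g ∉ L i), (atP M q).s (d + η i)
  good : ∀ i, ∃ d, ∃ y ∈ (atP M q).s d, (∀ g ∈ L i, φ g y = y) ∧
    ∀ g ∈ inertia φ M q, g ∉ L i → IsU (atP M q) (d + η i) (φ g y - y)

/-- A package: a toric family with a group action which satisfies the conditions `GrpAt`; the
degrees `η i` are combinations of the degrees of the sections, with exponents in the finite set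
`HH`. -/
structure Pkg [Fintype J] (p : ℕ) (φ : G →* (K ≃ₐ[k] K)) (M : Fam k K ι) (a : ι) (u : J → ι)
    (L : I → Subgroup G) (HH : Set (J → ℤ)) : Prop where
  tor : Tor M a u
  stab : ∀ g d x, x ∈ M.s d → φ g x ∈ M.s d
  normal : ∀ i, (L i).Normal
  fin : HH.Finite
  grp : ∀ (q : Ideal M.alg) [q.IsPrime], Semi M a q → ∃ w : I → J → ℤ, (∀ i, w i ∈ HH) ∧
    GrpAt p φ M q L fun i => wdeg u (w i)

/-- There is a package with piece of degree zero `B` such that the kernels `L i` meet in a
subgroup of `N`. -/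
def HasPkg (p : ℕ) (B : Subalgebra k K) (φ : G →* (K ≃ₐ[k] K)) (N : Subgroup G) : Prop :=
  ∃ (ι : Type) (_ : AddCommGroup ι) (_ : Module.Free ℤ ι) (_ : Module.Finite ℤ ι) (J : Type)
    (_ : Fintype J) (I : Type) (_ : Finite I) (M : Fam k K ι) (a : ι) (u : J → ι)
    (L : I → Subgroup G) (HH : Set (J → ℤ)), Pkg p φ M a u L HH ∧
    M.s 0 = Subalgebra.toSubmodule B ∧ (⨅ i, L i) ≤ N

end Group

end Pool.Agent.MP_b525bf_ag_P
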