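import Mathlib
import Pool.Agent.Lib.MP_b525bf_ag_P.Defs
import Pool.Agent.Lib.MP_b525bf_ag.Transfer

/-!
# P8, first part: Laurent polynomial charts
-/

set_option autoImplicit false

namespace Pool.Agent.MP_b525bf_ag_P.CurveP

open Pool.Agent.MP_b525bf_ag Pool.Agent.MP_b525bf_ag_W AddMonoidAlgebra

section Lift

variable {k A : Type} [Field k] [CommRing A] [Algebra k A]

/-- Homomorphisms from a Laurent polynomial ring. -/
noncomputable def lliftHom {R : Type} [CommRing R] [Algebra k R] (g : A →ₐ[k] R) (u : Rˣ) :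
    AddMonoidAlgebra A ℤ →ₐ[k] R :=
  AddMonoidAlgebra.liftNCAlgHom g
    ((Units.coeHom R).comp (zpowersHom Rˣ u)) (fun _ _ => Commute.all _ _)

theorem lliftHom_single {R : Type} [CommRing R] [Algebra k R] (g : A →ₐ[k] R) (u : Rˣ)
    (n : ℤ) (a : A) : lliftHom g u (single n a) = g a * ((u ^ n : Rˣ) : R) := by
  change AddMonoidAlgebra.liftNC _ _ (single n a) = _
  rw [AddMonoidAlgebra.liftNC_single]
  rfl

omit [Algebra k A] in
theorem eq_sum' (F : AddMonoidAlgebra A ℤ) :
    F = ∑ a ∈ F.coeff.support, single a (F.coeff a) := by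
  conv_lhs => rw [← AddMonoidAlgebra.sum_coeff_single F]
  rfl

theorem lalg_ext {R : Type} [CommRing R] [Algebra k R] {f g : AddMonoidAlgebra A ℤ →ₐ[k] R}
    (h0 : ∀ a, f (single 0 a) = g (single 0 a)) (h1 : f (single 1 1) = g (single 1 1)) :
    f = g := by
  have key : ∀ (n : ℤ), f (single n 1) = g (single n 1) := by
    have hu : ∀ F : AddMonoidAlgebra A ℤ →ₐ[k] R, F (single 1 1) * F (single (-1) 1) = 1 := by
      intro F
      rw [← map_mul, single_mul_single, add_neg_cancel, mul_one]
      exact map_one F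
    have hneg : f (single (-1) 1) = g (single (-1) 1) := by
      have hf := hu f
      have hg := hu g
      rw [← h1] at hg
      calc f (single (-1) 1) = f (single (-1) 1) * (f (single 1 1) * g (single (-1) 1)) := by
            rw [hg, mul_one]
        _ = (f (single 1 1) * f (single (-1) 1)) * g (single (-1) 1) := by ring
        _ = _ := by rw [hf, one_mul]
    intro n
    obtain ⟨m, rfl | rfl⟩ := n.eq_nat_or_neg
    · have : (single (m : ℤ) (1 : A) : AddMonoidAlgebra A ℤ) = single 1 1 ^ m := by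
        rw [single_pow]; simp
      rw [this, map_pow, map_pow, h1]
    · have : (single (-(m : ℤ)) (1 : A) : AddMonoidAlgebra A ℤ) = single (-1) 1 ^ m := by
        rw [single_pow]; simp
      rw [this, map_pow, map_pow, hneg]
  refine AlgHom.ext fun F => ?_
  rw [eq_sum' F, map_sum, map_sum]
  refine Finset.sum_congr rfl fun n _ => ?_
  have : (single n (F.coeff n) : AddMonoidAlgebra A ℤ) = single 0 (F.coeff n) * single n 1 := by
    rw [single_mul_single, zero_add, mul_one]
  rw [this, map_mul, map_mul, h0, key]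

/-- Relative smoothness of a Laurent polynomial ring over the polynomial ring in `t τ⁻¹`. -/
theorem smooth_laurent {σ : Type} [Unique σ] (t : A)
    (ht : (MvPolynomial.aeval (fun _ => t) : MvPolynomial (Fin 1) k →ₐ[k] A).toRingHom.FormallySmooth) :
    (MvPolynomial.aeval (fun _ => (single (-1) t : AddMonoidAlgebra A ℤ)) :
      MvPolynomial σ k →ₐ[k] AddMonoidAlgebra A ℤ).toRingHom.FormallySmooth := by
  let ψ : MvPolynomial σ k →ₐ[k] AddMonoidAlgebra A ℤ :=
    MvPolynomial.aeval (fun _ => (single (-1) t : AddMonoidAlgebra A ℤ))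
  let _ : Algebra (MvPolynomial σ k) (AddMonoidAlgebra A ℤ) := ψ.toRingHom.toAlgebra
  have hψ : ∀ z, algebraMap (MvPolynomial σ k) (AddMonoidAlgebra A ℤ) z = ψ z := fun _ => rfl
  change Algebra.FormallySmooth (MvPolynomial σ k) (AddMonoidAlgebra A ℤ)
  refine Algebra.FormallySmooth.of_comp_surjective fun R _ _ I hI f => ?_
  let _ : Algebra k R := ((algebraMap (MvPolynomial σ k) R).comp MvPolynomial.C).toAlgebra
  have : IsScalarTower k (MvPolynomial σ k) R := IsScalarTower.of_algebraMap_eq fun _ => rfl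
  have hsc : IsScalarTower k (MvPolynomial σ k) (AddMonoidAlgebra A ℤ) :=
    IsScalarTower.of_algebraMap_eq fun c => by rw [hψ]; exact (ψ.commutes c).symm
  let fk : AddMonoidAlgebra A ℤ →ₐ[k] R ⧸ I := f.restrictScalars k
  have hf : ∀ z, f z = fk z := fun _ => rfl
  -- lift of the unit
  obtain ⟨τ, hτ⟩ := Ideal.Quotient.mk_surjective (fk (single 1 1))
  obtain ⟨τ', hτ'⟩ := Ideal.Quotient.mk_surjective (fk (single (-1) 1))
  have h1 : τ * τ' - 1 ∈ I := by
    rw [← Ideal.Quotient.eq_zero_iff_mem, map_sub, map_mul, hτ, hτ', ← map_mul,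
      single_mul_single, add_neg_cancel, mul_one, map_one, sub_eq_zero]
    exact map_one fk
  have h2 : (τ * τ' - 1) * (τ * τ' - 1) = 0 := by
    have : (τ * τ' - 1) * (τ * τ' - 1) ∈ I ^ 2 := by
      rw [pow_two]; exact Ideal.mul_mem_mul h1 h1
    rwa [hI] at this
  let u : Rˣ := ⟨τ, τ' * (2 - τ * τ'), by linear_combination (-1) * h2,
    by linear_combination (-1) * h2⟩
  -- lift on the coefficients
  let x : R := algebraMap (MvPolynomial σ k) R (MvPolynomial.X default)
  let _ : Algebra (MvPolynomial (Fin 1) k) R :=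
    (MvPolynomial.aeval (fun _ => x * τ) : MvPolynomial (Fin 1) k →ₐ[k] R).toRingHom.toAlgebra
  let _ : Algebra (MvPolynomial (Fin 1) k) A :=
    (MvPolynomial.aeval (fun _ => t) : MvPolynomial (Fin 1) k →ₐ[k] A).toRingHom.toAlgebra
  have hsm : Algebra.FormallySmooth (MvPolynomial (Fin 1) k) A := ht
  have hm1 : ∀ z, algebraMap (MvPolynomial (Fin 1) k) R z =
    (MvPolynomial.aeval (fun _ => x * τ) : MvPolynomial (Fin 1) k →ₐ[k] R) z := fun _ => rfl
  have hm2 : ∀ z, algebraMap (MvPolynomial (Fin 1) k) A z =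
    (MvPolynomial.aeval (fun _ => t) : MvPolynomial (Fin 1) k →ₐ[k] A) z := fun _ => rfl
  have s1 : IsScalarTower k (MvPolynomial (Fin 1) k) R :=
    IsScalarTower.of_algebraMap_eq fun c => by rw [hm1]; exact (AlgHom.commutes _ c).symm
  have s2 : IsScalarTower k (MvPolynomial (Fin 1) k) A :=
    IsScalarTower.of_algebraMap_eq fun c => by rw [hm2]; exact (AlgHom.commutes _ c).symm
  let incl0 : A →ₐ[k] AddMonoidAlgebra A ℤ :=
    { toRingHom := AddMonoidAlgebra.singleZeroRingHom
      commutes' := fun c => rfl }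
  have hincl : ∀ a, incl0 a = single 0 a := fun _ => rfl
  have hfx : fk (single (-1) t) = Ideal.Quotient.mk I x := by
    have h3 : f (algebraMap (MvPolynomial σ k) (AddMonoidAlgebra A ℤ) (MvPolynomial.X default)) =
        algebraMap (MvPolynomial σ k) (R ⧸ I) (MvPolynomial.X default) := f.commutes _
    rw [hψ, MvPolynomial.aeval_X] at h3
    exact h3
  have hcomp : (fk.comp incl0).comp (MvPolynomial.aeval (fun _ => t) : MvPolynomial (Fin 1) k →ₐ[k] A) =
      (Ideal.Quotient.mkₐ k I).comp
        (MvPolynomial.aeval (fun _ => x * τ) : MvPolynomial (Fin 1) k →ₐ[k] R) := by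
    refine MvPolynomial.algHom_ext fun i => ?_
    rw [AlgHom.comp_apply, AlgHom.comp_apply, AlgHom.comp_apply, MvPolynomial.aeval_X,
      MvPolynomial.aeval_X, hincl, map_mul]
    have h4 : (single 0 t : AddMonoidAlgebra A ℤ) = single (-1) t * single 1 1 := by
      rw [single_mul_single, mul_one]; rfl
    rw [h4, map_mul, hfx, ← hτ]
    rfl
  let f0 : A →ₐ[MvPolynomial (Fin 1) k] R ⧸ I :=
    { toRingHom := (fk.comp incl0).toRingHom
      commutes' := fun z => AlgHom.congr_fun hcomp z }
  obtain ⟨g, hg⟩ := Algebra.FormallySmooth.comp_surjective (MvPolynomial (Fin 1) k) A I hI f0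
  let gk : A →ₐ[k] R := g.restrictScalars k
  have hgk : ∀ a, Ideal.Quotient.mk I (gk a) = fk (single 0 a) := fun a => by
    have := AlgHom.congr_fun hg a
    exact this
  have hgt : gk t = x * τ := by
    have h5 := g.commutes (MvPolynomial.X 0)
    rw [hm1, hm2, MvPolynomial.aeval_X, MvPolynomial.aeval_X] at h5
    exact h5
  let F : AddMonoidAlgebra A ℤ →ₐ[k] R := lliftHom gk u
  have hF : F.comp ψ = IsScalarTower.toAlgHom k (MvPolynomial σ k) R := by
    refine MvPolynomial.algHom_ext fun i => ?_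
    rw [AlgHom.comp_apply, MvPolynomial.aeval_X]
    change lliftHom gk u (single (-1) t) = algebraMap (MvPolynomial σ k) R (MvPolynomial.X i)
    rw [lliftHom_single, hgt, zpow_neg_one, Subsingleton.elim i default]
    change x * (u : R) * ((u⁻¹ : Rˣ) : R) = _
    rw [mul_assoc, Units.mul_inv, mul_one]
  refine ⟨{ toRingHom := F.toRingHom, commutes' := fun z => AlgHom.congr_fun hF z }, ?_⟩
  have hfin : (Ideal.Quotient.mkₐ k I).comp F = fk := by
    refine lalg_ext (fun a => ?_) ?_
    · change Ideal.Quotient.mk I (lliftHom gk u (single 0 a)) = _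
      rw [lliftHom_single, zpow_zero, Units.val_one, mul_one, hgk]
    · change Ideal.Quotient.mk I (lliftHom gk u (single 1 1)) = _
      rw [lliftHom_single, zpow_one, map_one, one_mul]
      exact hτ
  refine AlgHom.ext fun z => ?_
  exact AlgHom.congr_fun hfin z

/-- A family of the form `t ^ d A` is a Laurent polynomial ring. -/
theorem exists_equiv {K : Type} [Field K] [Algebra k K] (C : Fam k K ℤ) (j : A →ₐ[k] K)
    (hj : Function.Injective j) (t : K) (ht : t ≠ 0)
    (hC : ∀ (d : ℤ) (y : K), y ∈ C.s d ↔ ∃ a : A, y = t ^ d * j a) :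
    ∃ e : AddMonoidAlgebra A ℤ ≃ₐ[k] C.alg, ∀ (n : ℤ) (a : A) (h : t ^ n * j a ∈ C.s n),
      e (single n a) = C.el h := by
  let φ0 : A →ₐ[k] AddMonoidAlgebra K ℤ :=
    { toRingHom := AddMonoidAlgebra.singleZeroRingHom.comp j.toRingHom
      commutes' := fun c => by
        change (single 0 (j (algebraMap k A c)) : AddMonoidAlgebra K ℤ) = _
        rw [AlgHom.commutes, AddMonoidAlgebra.coe_algebraMap]; rfl }
  have hφ0 : ∀ a, φ0 a = single 0 (j a) := fun _ => rfl
  let u : (AddMonoidAlgebra K ℤ)ˣ :=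
    ⟨single 1 t, single (-1) t⁻¹, by rw [single_mul_single, mul_inv_cancel₀ ht]; rfl,
      by rw [single_mul_single, inv_mul_cancel₀ ht]; rfl⟩
  have hu : ∀ n : ℤ, ((u ^ n : (AddMonoidAlgebra K ℤ)ˣ) : AddMonoidAlgebra K ℤ) =
      single n (t ^ n) := by
    intro n
    obtain ⟨m, rfl | rfl⟩ := n.eq_nat_or_neg
    · rw [zpow_natCast, Units.val_pow_eq_pow_val, zpow_natCast]
      change (single 1 t : AddMonoidAlgebra K ℤ) ^ m = _
      rw [single_pow]; simp
    · rw [zpow_neg, zpow_natCast, ← inv_pow, Units.val_pow_eq_pow_val, zpow_neg, zpow_natCast,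
        ← inv_pow]
      change (single (-1) t⁻¹ : AddMonoidAlgebra K ℤ) ^ m = _
      rw [single_pow]; simp
  let Φ := lliftHom φ0 u
  have hΦ : ∀ (n : ℤ) (a : A), Φ (single n a) = single n (t ^ n * j a) := by
    intro n a
    rw [lliftHom_single, hu, hφ0, single_mul_single, zero_add, mul_comm]
  have hΦc : ∀ (F : AddMonoidAlgebra A ℤ) (n : ℤ), (Φ F).coeff n = t ^ n * j (F.coeff n) := by
    classical
    intro F n
    conv_lhs => rw [eq_sum' F]
    rw [map_sum, AddMonoidAlgebra.coeff_sum, Finsupp.finsetSum_apply]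
    have h1 : ∀ a ∈ F.coeff.support, (Φ (single a (F.coeff a))).coeff n =
        if a = n then t ^ n * j (F.coeff n) else 0 := by
      intro a _
      rw [hΦ, AddMonoidAlgebra.coeff_single, Finsupp.single_apply]
      split_ifs with h
      · rw [h]
      · rfl
    rw [Finset.sum_congr rfl h1, Finset.sum_ite_eq']
    split_ifs with h
    · rfl
    · rw [Finsupp.notMem_support_iff.1 h, map_zero, mul_zero]
  have hinj : Function.Injective Φ := by
    intro F G hFG
    refine AddMonoidAlgebra.ext (Finsupp.ext fun n => hj ?_)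
    have h1 : (Φ F).coeff n = (Φ G).coeff n := by rw [hFG]
    rw [hΦc, hΦc] at h1
    exact mul_left_cancel₀ (zpow_ne_zero n ht) h1
  have hrange : Φ.range = C.alg := by
    refine le_antisymm ?_ ?_
    · rintro _ ⟨F, rfl⟩ n
      rw [hC]
      exact ⟨F.coeff n, hΦc F n⟩
    · intro F hF
      rw [eq_sum' F]
      refine Subalgebra.sum_mem _ fun n _ => ?_
      obtain ⟨a, ha⟩ := (hC n _).1 (hF n)
      exact ⟨single n a, by rw [ha]; exact hΦ n a⟩
  refine ⟨(AlgEquiv.ofInjective Φ hinj).trans (Subalgebra.equivOfEq _ _ hrange), ?_⟩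
  intro n a h
  exact Subtype.ext (hΦ n a)

/-- Relative smoothness of a chart. -/
theorem smooth_chart {K : Type} [Field K] [Algebra k K] (C : Fam k K ℤ) (j : A →ₐ[k] K)
    (hj : Function.Injective j) (t : A) (ht : j t ≠ 0)
    (hC : ∀ (d : ℤ) (y : K), y ∈ C.s d ↔ ∃ a : A, y = j t ^ d * j a)
    (hsm : (MvPolynomial.aeval (fun _ => t) :
      MvPolynomial (Fin 1) k →ₐ[k] A).toRingHom.FormallySmooth)
    (h1 : ∀ i : Unit, (1 : K) ∈ C.s (-((fun _ => 1 : Unit → ℤ) i))) (T : Set Unit)
    (hT : T = Set.univ) :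
    (secMap C (fun _ => 1) T h1).toRingHom.FormallySmooth := by
  subst hT
  obtain ⟨e, he⟩ := exists_equiv C j hj (j t) ht hC
  let _ : Unique (Set.univ : Set Unit) := ⟨⟨⟨(), trivial⟩⟩, fun _ => rfl⟩
  have h2 := smooth_laurent (σ := (Set.univ : Set Unit)) t hsm
  have h3 := h2.comp (RingHom.FormallySmooth.of_bijective (f := e.toRingEquiv.toRingHom)
    e.bijective)
  convert h3 using 1
  refine MvPolynomial.ringHom_ext (fun r => ?_) fun i => ?_
  · change secMap C (fun _ => 1) Set.univ h1 (MvPolynomial.C r) = e ((MvPolynomial.aeval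
      (fun _ => (single (-1) t : AddMonoidAlgebra A ℤ)) :
        MvPolynomial (Set.univ : Set Unit) k →ₐ[k] AddMonoidAlgebra A ℤ) (MvPolynomial.C r))
    rw [← MvPolynomial.algebraMap_eq, AlgHom.commutes, AlgHom.commutes, AlgEquiv.commutes]
  · change secMap C (fun _ => 1) Set.univ h1 (MvPolynomial.X i) = e ((MvPolynomial.aeval
      (fun _ => (single (-1) t : AddMonoidAlgebra A ℤ)) :
        MvPolynomial (Set.univ : Set Unit) k →ₐ[k] AddMonoidAlgebra A ℤ) (MvPolynomial.X i))
    rw [secMap, MvPolynomial.aeval_X, MvPolynomial.aeval_X]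
    have h4 : j t ^ (-1 : ℤ) * j t = 1 := by rw [zpow_neg_one, inv_mul_cancel₀ ht]
    have h5 : j t ^ (-1 : ℤ) * j t ∈ C.s (-1) := by rw [h4]; exact h1 ()
    rw [he (-1) t h5]
    exact C.el_eq _ _ rfl h4.symm

/-- Smoothness of a chart. -/
theorem smooth_chart0 {K : Type} [Field K] [Algebra k K] (C : Fam k K ℤ) (j : A →ₐ[k] K)
    (hj : Function.Injective j) (hC : ∀ (d : ℤ) (y : K), y ∈ C.s d ↔ ∃ a : A, y = j a)
    (hsm : Algebra.FormallySmooth k A)
    (h1 : ∀ i : Unit, (1 : K) ∈ C.s (-((fun _ => 1 : Unit → ℤ) i))) (T : Set Unit)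
    (hT : T = ∅) :
    (secMap C (fun _ => 1) T h1).toRingHom.FormallySmooth := by
  subst hT
  obtain ⟨e, he⟩ := exists_equiv C j hj 1 one_ne_zero (fun d y => by rw [hC]; simp)
  have h2 : (algebraMap k (AddMonoidAlgebra A ℤ)).FormallySmooth := by
    rw [RingHom.formallySmooth_algebraMap]
    have h3 : Algebra.FormallySmooth A (LaurentPolynomial A) := by
      have : Algebra.FormallySmooth A (Polynomial A) := inferInstance
      have h4 : IsLocalization.Away (Polynomial.X : Polynomial A) (LaurentPolynomial A) :=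
        LaurentPolynomial.isLocalization
      have h5 : Algebra.FormallySmooth (Polynomial A) (LaurentPolynomial A) :=
        Algebra.FormallySmooth.of_isLocalization (Submonoid.powers Polynomial.X)
      have h6 : IsScalarTower A (Polynomial A) (LaurentPolynomial A) :=
        IsScalarTower.of_algebraMap_eq fun r => (Polynomial.toLaurent_C r).symm
      exact Algebra.FormallySmooth.comp A (Polynomial A) (LaurentPolynomial A)
    exact Algebra.FormallySmooth.comp k A (LaurentPolynomial A)
  have h0 : Function.Bijective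
      (algebraMap k (MvPolynomial ((∅ : Set Unit) : Type) k)) :=
    (MvPolynomial.isEmptyAlgEquiv k ((∅ : Set Unit) : Type)).symm.bijective
  let e0 : k ≃+* MvPolynomial ((∅ : Set Unit) : Type) k :=
    RingEquiv.ofBijective (algebraMap k _) h0
  have h3 := (RingHom.FormallySmooth.of_bijective (f := e0.symm.toRingHom)
    e0.symm.bijective).comp (h2.comp (RingHom.FormallySmooth.of_bijective
      (f := e.toRingEquiv.toRingHom) e.bijective))
  convert h3 using 1
  refine MvPolynomial.ringHom_ext (fun r => ?_) fun i => ?_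
  · change secMap C (fun _ => 1) ∅ h1 (MvPolynomial.C r) = e (algebraMap k _ (e0.symm
      (MvPolynomial.C r)))
    have h4 : e0.symm (MvPolynomial.C r) = r := by
      rw [RingEquiv.symm_apply_eq]; rfl
    rw [h4, ← MvPolynomial.algebraMap_eq, AlgHom.commutes, AlgEquiv.commutes]
  · exact absurd i.2 (Set.notMem_empty _)

end Lift

end Pool.Agent.MP_b525bf_ag_P.CurveP
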