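import Pool.Agent.Lib.MP_b525bf_ag_P.CurveLaurent
import Pool.Agent.Lib.MP_b525bf_ag_X.Tame

/-!
# P8, second part: uniformizers of smooth curves
-/

set_option autoImplicit false

namespace Pool.Agent.MP_b525bf_ag_P.CurveP

open Pool.Agent.MP_b525bf_ag Pool.Agent.MP_b525bf_ag_X

variable {k B : Type} [Field k] [CommRing B] [IsDomain B] [Algebra k B]

/-- Étale coordinates at a nonzero prime of a curve: there is exactly one. -/
theorem card_coords [Algebra.Smooth k B]
    (hdim : ∀ P : Ideal B, P.IsPrime → P ≠ ⊥ → P.IsMaximal) (P : Ideal B) [P.IsMaximal]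
    (hP : P ≠ ⊥) (hfg : P.FG) {n : ℕ} (x : Fin n → B) (hx : ∀ i, x i ∈ P)
    (h1 : ∀ b ∈ P, ∃ c : Fin n → k, b - ∑ i, c i • x i ∈ P ^ 2)
    (h2 : ∀ c : Fin n → k, ∑ i, c i • x i ∈ P ^ 2 → c = 0) {f : B} (hf : f ∉ P)
    (het : (MvPolynomial.aeval (fun i => algebraMap B (Localization.Away f) (x i)) :
        MvPolynomial (Fin n) k →ₐ[k] Localization.Away f).toRingHom.Etale) : n = 1 := by
  rcases Nat.lt_or_ge n 1 with hn | hn
  · -- no coordinates
    exfalso
    obtain rfl : n = 0 := by omega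
    have h3 : P ≤ (⊥ : Ideal B) ⊔ P • P := by
      intro b hb
      obtain ⟨c, hc⟩ := h1 b hb
      rw [Finset.univ_eq_empty, Finset.sum_empty, sub_zero, pow_two] at hc
      exact Submodule.mem_sup_right hc
    obtain ⟨r, hr, hr'⟩ := Submodule.exists_sub_one_mem_and_smul_le_of_fg_of_le_sup hfg
      (le_refl P) h3
    obtain ⟨b, hb, hb0⟩ := Submodule.exists_mem_ne_zero_of_ne_bot hP
    have h4 : r • b ∈ (⊥ : Ideal B) := hr' (Submodule.smul_mem_pointwise_smul b r P hb)
    rw [Ideal.mem_bot, smul_eq_mul, mul_eq_zero] at h4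
    rcases h4 with h4 | h4
    · rw [h4, zero_sub, neg_mem_iff] at hr
      exact (Ideal.ne_top_iff_one P).1 (Ideal.IsMaximal.ne_top inferInstance) hr
    · exact hb0 h4
  rcases Nat.lt_or_ge 1 n with hn' | hn'
  swap
  · omega
  exfalso
  let i0 : Fin n := ⟨0, hn⟩
  let i1 : Fin n := ⟨1, hn'⟩
  have hi : i1 ≠ i0 := by
    intro h
    have := congrArg Fin.val h
    simp [i0, i1] at this
  let S := Localization.Away f
  let χ : MvPolynomial (Fin n) k →ₐ[k] S := MvPolynomial.aeval (fun i => algebraMap B S (x i))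
  let _ : Algebra (MvPolynomial (Fin n) k) S := χ.toRingHom.toAlgebra
  have hmap : ∀ z, algebraMap (MvPolynomial (Fin n) k) S z = χ z := fun _ => rfl
  have hχX : ∀ i, χ (MvPolynomial.X i) = algebraMap B S (x i) := fun i => by
    change MvPolynomial.aeval _ _ = _
    rw [MvPolynomial.aeval_X]
  have he : Algebra.Etale (MvPolynomial (Fin n) k) S := het
  have hflat : Module.Flat (MvPolynomial (Fin n) k) S := inferInstance
  have hdisj : Disjoint (Submonoid.powers f : Set B) (P : Set B) := by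
    rw [Set.disjoint_left]
    rintro _ ⟨m, rfl⟩ hm
    exact hf (Ideal.IsPrime.mem_of_pow_mem inferInstance m hm)
  have hPS : (P.map (algebraMap B S)).IsPrime :=
    IsLocalization.isPrime_of_isPrime_disjoint (Submonoid.powers f) S P inferInstance hdisj
  have hPc : (P.map (algebraMap B S)).comap (algebraMap B S) = P :=
    IsLocalization.under_map_of_isPrime_disjoint (Submonoid.powers f) S inferInstance hdisj
  let q : Ideal (MvPolynomial (Fin n) k) :=
    (P.map (algebraMap B S)).comap (algebraMap (MvPolynomial (Fin n) k) S)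
  have hqo : (P.map (algebraMap B S)).LiesOver q := ⟨rfl⟩
  let p : Ideal (MvPolynomial (Fin n) k) := Ideal.span {MvPolynomial.X i0}
  have hp : p.IsPrime := by
    rw [Ideal.span_singleton_prime (MvPolynomial.X_ne_zero i0)]
    exact MvPolynomial.X_prime
  have hpq : p ≤ q := by
    rw [Ideal.span_singleton_le_iff_mem, Ideal.mem_comap, hmap, hχX]
    exact Ideal.mem_map_of_mem _ (hx i0)
  obtain ⟨Q, hQle, hQ, hQp⟩ := Ideal.exists_ideal_le_liesOver_of_le (p := p) (q := q)
    (P.map (algebraMap B S)) hpq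
  let Q' : Ideal B := Q.comap (algebraMap B S)
  have hQ' : Q'.IsPrime := Ideal.IsPrime.comap _
  have hQ'P : Q' ≤ P := by
    rw [← hPc]
    exact Ideal.comap_mono hQle
  have hmem : ∀ i, x i ∈ Q' ↔ MvPolynomial.X i ∈ p := by
    intro i
    rw [hQp.over, Ideal.mem_comap, Ideal.under, Ideal.mem_comap, hmap, hχX]
  have hx0 : x i0 ≠ 0 := by
    intro h
    have h5 := h2 (Pi.single i0 1) (by
      rw [Finset.sum_eq_single i0 (fun j _ hj => by rw [Pi.single_eq_of_ne hj, zero_smul])
        (fun h => absurd (Finset.mem_univ _) h), h, smul_zero]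
      exact Ideal.zero_mem _)
    have h6 := congrFun h5 i0
    rw [Pi.single_eq_same] at h6
    exact one_ne_zero h6
  have hQ'0 : Q' ≠ ⊥ := by
    intro h
    have h7 : x i0 ∈ Q' := (hmem i0).2 (Ideal.mem_span_singleton_self _)
    rw [h, Ideal.mem_bot] at h7
    exact hx0 h7
  have hQ'm := hdim Q' hQ' hQ'0
  have heq : Q' = P := hQ'm.eq_of_le (Ideal.IsMaximal.ne_top inferInstance) hQ'P
  have h8 : MvPolynomial.X i1 ∈ p := (hmem i1).1 (by rw [heq]; exact hx i1)
  rw [Ideal.mem_span_singleton] at h8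
  have h9 := (MvPolynomial.X_dvd_X (R := k) (i := i0) (j := i1)).1 h8
  exact hi h9.symm

/-- Uniformizers at a nonzero prime of a curve. -/
theorem exists_unif [IsAlgClosed k] [Algebra.Smooth k B]
    (hdim : ∀ P : Ideal B, P.IsPrime → P ≠ ⊥ → P.IsMaximal) (P : Ideal B) [P.IsMaximal]
    (hP : P ≠ ⊥) : ∃ t ∈ P, t ≠ 0 ∧ ∃ h : B, h ∉ P ∧ (∀ b ∈ P, ∃ c, h * b = t * c) ∧
      ∀ f : B, h ∣ f → (MvPolynomial.aeval (fun _ => algebraMap B (Localization.Away f) t) :
        MvPolynomial (Fin 1) k →ₐ[k] Localization.Away f).toRingHom.FormallySmooth := by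
  have hft : Algebra.FiniteType k B := inferInstance
  have hno : IsNoetherianRing B := Algebra.FiniteType.isNoetherianRing k B
  have hfg : P.FG := IsNoetherian.noetherian P
  have hres := exists_sub_mem_of_isAlgClosed (k := k) P
  obtain ⟨n, x, hx, -, h1, h2⟩ := exists_equivariant_coords P (⊥ : Subgroup (B ≃ₐ[k] B))
    (fun g hg b => by
      rw [Subgroup.mem_bot] at hg
      rw [hg, AlgEquiv.one_apply, sub_self]
      exact P.zero_mem)
    (by rw [Subgroup.card_bot, Nat.cast_one]; exact one_ne_zero) hfg hres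
  obtain ⟨f, hfP, hf⟩ := exists_etale_of_coords P x hres hx h1 h2
  obtain rfl := card_coords hdim P hP hfg x hx h1 h2 hfP (hf f dvd_rfl)
  have h3 : P ≤ Ideal.span {x 0} ⊔ P • P := by
    intro b hb
    obtain ⟨c, hc⟩ := h1 b hb
    rw [Fin.sum_univ_one] at hc
    rw [show b = c 0 • x 0 + (b - c 0 • x 0) by ring]
    refine Submodule.add_mem_sup ?_ ?_
    · rw [Algebra.smul_def]
      exact Ideal.mul_mem_left _ _ (Ideal.mem_span_singleton_self _)
    · rw [smul_eq_mul, ← pow_two]; exact hc
  obtain ⟨r, hr, hr'⟩ := Submodule.exists_sub_one_mem_and_smul_le_of_fg_of_le_sup hfg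
    (le_refl P) h3
  have hrP : r ∉ P := by
    intro h
    have := P.sub_mem h hr
    rw [sub_sub_cancel] at this
    exact (Ideal.ne_top_iff_one P).1 (Ideal.IsMaximal.ne_top inferInstance) this
  refine ⟨x 0, hx 0, ?_, r * f, ?_, ?_, ?_⟩
  · intro h
    have h5 := h2 (fun _ => 1) (by
      rw [Fin.sum_univ_one, h, smul_zero]
      exact Ideal.zero_mem _)
    exact one_ne_zero (congrFun h5 0)
  · intro h
    rcases Ideal.IsPrime.mem_or_mem inferInstance h with h | h
    · exact hrP h
    · exact hfP h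
  · intro b hb
    have h4 : r • b ∈ Ideal.span {x 0} := hr' (Submodule.smul_mem_pointwise_smul b r P hb)
    obtain ⟨c, hc⟩ := Ideal.mem_span_singleton'.1 h4
    rw [smul_eq_mul] at hc
    exact ⟨f * c, by linear_combination (-f) * hc⟩
  · intro f' hf'
    have h5 := hf f' ((dvd_mul_left f r).trans hf')
    have h6 : (fun _ : Fin 1 => algebraMap B (Localization.Away f') (x 0)) =
        fun i => algebraMap B (Localization.Away f') (x i) :=
      funext fun i => by rw [Subsingleton.elim i 0]
    rw [h6]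
    algebraize [(MvPolynomial.aeval (fun i => algebraMap B (Localization.Away f') (x i)) :
        MvPolynomial (Fin 1) k →ₐ[k] Localization.Away f').toRingHom]
    exact (inferInstance : Algebra.FormallySmooth (MvPolynomial (Fin 1) k) (Localization.Away f'))

end Pool.Agent.MP_b525bf_ag_P.CurveP
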