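import Pool.Agent.Lib.MP_b525bf_ag_P.CurveCFam
import Pool.Agent.Lib.MP_b525bf_ag_X.Final

/-!
# P8, fifth part: the ramification ideal of a group acting on a curve
-/

set_option autoImplicit false
set_option linter.unusedSectionVars false

namespace Pool.Agent.MP_b525bf_ag_P.CurveP

open Pool.Agent.MP_b525bf_ag Pool.Agent.MP_b525bf_ag_W Pool.Agent.MP_b525bf_ag_X AddMonoidAlgebra
open Pool.Agent.MP_b525bf_ag.Fam

variable {k B : Type} [Field k] [CommRing B] [IsDomain B] [Algebra k B]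

/-- The ideal of the fixed points of an automorphism. -/
def dIdeal (g : B ≃ₐ[k] B) : Ideal B := Ideal.span (Set.range fun b => g b - b)

theorem dIdeal_ne {g : B ≃ₐ[k] B} (hg : g ≠ 1) : dIdeal g ≠ ⊥ := by
  intro h
  apply hg
  refine AlgEquiv.ext fun b => ?_
  have h1 : g b - b ∈ dIdeal g := Ideal.subset_span ⟨b, rfl⟩
  rw [h, Ideal.mem_bot, sub_eq_zero] at h1
  exact h1

theorem dIdeal_le {g : B ≃ₐ[k] B} {P : Ideal B} : dIdeal g ≤ P ↔ ∀ b, g b - b ∈ P := by
  rw [dIdeal, Ideal.span_le]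
  constructor
  · intro h b; exact h ⟨b, rfl⟩
  · rintro h _ ⟨b, rfl⟩; exact h b

theorem map_dIdeal (g σ : B ≃ₐ[k] B) {b : B} (hb : b ∈ dIdeal g) :
    σ b ∈ dIdeal (σ * g * σ⁻¹) := by
  induction hb using Submodule.span_induction with
  | mem x hx =>
    obtain ⟨c, rfl⟩ := hx
    refine Ideal.subset_span ⟨σ c, ?_⟩
    change σ (g (σ⁻¹ (σ c))) - σ c = _
    have h1 : σ⁻¹ (σ c) = c := by
      rw [← AlgEquiv.mul_apply, inv_mul_cancel, AlgEquiv.one_apply]
    rw [h1, map_sub]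
  | zero => rw [map_zero]; exact Ideal.zero_mem _
  | add x y _ _ hx hy => rw [map_add]; exact Ideal.add_mem _ hx hy
  | smul a x _ hx => rw [smul_eq_mul, map_mul]; exact Ideal.mul_mem_left _ _ hx

/-- The ramification ideal. -/
def ram (G : Subgroup (B ≃ₐ[k] B)) : Ideal B :=
  ⨅ g : {g : B ≃ₐ[k] B // g ∈ G ∧ g ≠ 1}, (dIdeal g.1).radical

variable {G : Subgroup (B ≃ₐ[k] B)}

theorem mem_ram {b : B} : b ∈ ram G ↔ ∀ g ∈ G, g ≠ 1 → b ∈ (dIdeal g).radical := by
  rw [ram, Ideal.mem_iInf]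
  exact ⟨fun h g hg hg1 => h ⟨g, hg, hg1⟩, fun h g => h g.1 g.2.1 g.2.2⟩

theorem ram_stab {σ : B ≃ₐ[k] B} (hσ : σ ∈ G) (b : B) (hb : b ∈ ram G) : σ b ∈ ram G := by
  rw [mem_ram] at *
  intro g hg hg1
  have h1 : σ⁻¹ * g * σ ∈ G := G.mul_mem (G.mul_mem (G.inv_mem hσ) hg) hσ
  have h2 : σ⁻¹ * g * σ ≠ 1 := by
    intro h
    apply hg1
    have h3 : g = σ * (σ⁻¹ * g * σ) * σ⁻¹ := by group
    rw [h3, h]; group
  obtain ⟨n, hn⟩ := hb _ h1 h2
  refine ⟨n, ?_⟩
  rw [← map_pow]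
  have h3 := map_dIdeal _ σ hn
  have h4 : σ * (σ⁻¹ * g * σ) * σ⁻¹ = g := by group
  rwa [h4] at h3

variable [Finite G]

instance : Finite {g : B ≃ₐ[k] B // g ∈ G ∧ g ≠ 1} :=
  Finite.of_injective (fun g => (⟨g.1, g.2.1⟩ : G)) fun a b h => by
    apply Subtype.ext
    exact congrArg (fun z : G => (z : B ≃ₐ[k] B)) h

theorem exists_of_ram_le {P : Ideal B} [hP : P.IsPrime] (h : ram G ≤ P) :
    ∃ g ∈ G, g ≠ 1 ∧ ∀ b, g b - b ∈ P := by
  classical
  by_contra hcon
  push Not at hcon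
  have h1 : ∀ g : {g : B ≃ₐ[k] B // g ∈ G ∧ g ≠ 1}, ∃ b, g.1 b - b ∉ P :=
    fun g => hcon g.1 g.2.1 g.2.2
  choose b hb using h1
  have := Fintype.ofFinite {g : B ≃ₐ[k] B // g ∈ G ∧ g ≠ 1}
  have h2 : (∏ g, (g.1 (b g) - b g)) ∈ ram G := by
    rw [ram, Ideal.mem_iInf]
    intro g
    refine Ideal.le_radical ?_
    refine Ideal.mem_of_dvd _ (Finset.dvd_prod_of_mem _ (Finset.mem_univ g)) ?_
    exact Ideal.subset_span ⟨b g, rfl⟩
  obtain ⟨g, -, hg⟩ := Ideal.IsPrime.prod_mem_iff.1 (h h2)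
  exact hb g hg

theorem ram_le {P : Ideal B} [hP : P.IsPrime] {g : B ≃ₐ[k] B} (hg : g ∈ G) (hg1 : g ≠ 1)
    (h : ∀ b, g b - b ∈ P) : ram G ≤ P := by
  intro b hb
  have h1 := mem_ram.1 hb g hg hg1
  have h2 : (dIdeal g).radical ≤ P := by
    rw [hP.isRadical.radical_le_iff]
    exact dIdeal_le.2 h
  exact h2 h1

theorem ram_ne : ram G ≠ ⊥ := by
  intro h
  obtain ⟨g, -, hg1, h1⟩ := exists_of_ram_le (G := G) (P := (⊥ : Ideal B)) h.le
  exact dIdeal_ne hg1 (le_bot_iff.1 (dIdeal_le.2 h1))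

theorem ram_radical {b : B} {n : ℕ} (hb : b ^ n ∈ ram G) : b ∈ ram G := by
  rw [mem_ram] at *
  intro g hg hg1
  exact Ideal.mem_radical_of_pow_mem (hb g hg hg1)

/-- Near a point of the ramification locus the ramification ideal is the ideal of the point. -/
theorem ram_local [IsNoetherianRing B]
    (hdim : ∀ P : Ideal B, P.IsPrime → P ≠ ⊥ → P.IsMaximal) :
    (ram G).minimalPrimes.Finite ∧ ∀ P : Ideal B, P.IsMaximal → ram G ≤ P →
      P ∈ (ram G).minimalPrimes ∧ ∃ f, f ∉ P ∧ ∀ b ∈ P, f * b ∈ ram G := by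
  classical
  have hfin : (ram G).minimalPrimes.Finite := Ideal.finite_minimalPrimes_of_isNoetherianRing B _
  have hmax : ∀ Q ∈ (ram G).minimalPrimes, Q.IsMaximal := by
    intro Q hQ
    refine hdim Q hQ.1.1 ?_
    rintro rfl
    exact ram_ne (G := G) (le_bot_iff.1 hQ.1.2)
  refine ⟨hfin, fun P hP hle => ?_⟩
  obtain ⟨Q, hQ, hQP⟩ := Ideal.exists_minimalPrimes_le hle
  have hQP' : Q = P := (hmax Q hQ).eq_of_le hP.ne_top hQP
  subst hQP'
  refine ⟨hQ, ?_⟩
  have h1 : ∀ P' ∈ (hfin.toFinset.erase Q), ∃ f ∈ P', f ∉ Q := by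
    intro P' hP'
    rw [Finset.mem_erase, Set.Finite.mem_toFinset] at hP'
    by_contra hcon
    push Not at hcon
    exact hP'.1 ((hmax P' hP'.2).eq_of_le hP.ne_top hcon)
  have h1' : ∀ P' : Ideal B, ∃ f : B, P' ∈ (hfin.toFinset.erase Q) → f ∈ P' ∧ f ∉ Q := by
    intro P'
    by_cases h : P' ∈ (hfin.toFinset.erase Q)
    · obtain ⟨f, hf, hf'⟩ := h1 P' h
      exact ⟨f, fun _ => ⟨hf, hf'⟩⟩
    · exact ⟨0, fun h' => absurd h' h⟩
  choose f hf using h1'
  refine ⟨∏ P' ∈ hfin.toFinset.erase Q, f P', ?_, ?_⟩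
  · intro h
    obtain ⟨P', hP', h2⟩ := Ideal.IsPrime.prod_mem_iff.1 h
    exact (hf P' hP').2 h2
  · intro b hb
    have h3 : (∏ P' ∈ hfin.toFinset.erase Q, f P') * b ∈ sInf (ram G).minimalPrimes := by
      rw [Ideal.mem_sInf]
      intro P' hP'
      by_cases h4 : P' = Q
      · rw [h4]; exact Ideal.mul_mem_left _ _ hb
      · have h5 : P' ∈ hfin.toFinset.erase Q :=
          Finset.mem_erase.2 ⟨h4, (Set.Finite.mem_toFinset hfin).2 hP'⟩
        refine Ideal.mul_mem_right _ _ ?_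
        exact Ideal.mem_of_dvd _ (Finset.dvd_prod_of_mem _ h5) (hf P' h5).1
    rw [Ideal.sInf_minimalPrimes] at h3
    obtain ⟨n, hn⟩ := h3
    exact ram_radical hn

/-- Membership in a chart of the family. -/
theorem mem_chart {J : Ideal B} {e t : B} (he : e ≠ 0) (ht : t ≠ 0) (h1 : e * t ∈ J)
    (h2 : ∀ b ∈ J, ∃ c, e * b = t * c) (hx : (algebraMap B (FractionRing B)) (e * (e * t)) ∈ (cfam k J).s 1) (d : ℤ) (y : (FractionRing B)) :
    y ∈ ((cfam k J).loc hx).s d ↔ ∃ a : Localization.Away e,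
      y = (algebraMap B (FractionRing B)) t ^ d * awayIncl (k := k) e he a := by
  have hte := ι_ne ht
  have hee := ι_ne he
  have h2n : ∀ n : ℕ, ∀ b ∈ J ^ n, ∃ c, e ^ n * b = t ^ n * c := by
    intro n b hb
    have h3 : Ideal.span {e} * J ≤ Ideal.span {t} := by
      rw [Ideal.mul_le]
      intro r hr s hs
      obtain ⟨r', rfl⟩ := Ideal.mem_span_singleton'.1 hr
      obtain ⟨c, hc⟩ := h2 s hs
      rw [mul_assoc, hc]
      exact Ideal.mul_mem_left _ _ (Ideal.mul_mem_right _ _ (Ideal.mem_span_singleton_self t))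
    have h4 := Ideal.pow_right_mono h3 n
    rw [mul_pow, Ideal.span_singleton_pow, Ideal.span_singleton_pow] at h4
    have h5 : e ^ n * b ∈ Ideal.span {t ^ n} :=
      h4 (Ideal.mul_mem_mul (Ideal.mem_span_singleton_self _) hb)
    obtain ⟨c, hc⟩ := Ideal.mem_span_singleton'.1 h5
    exact ⟨c, by rw [← hc, mul_comm]⟩
  rw [Fam.mem_loc]
  constructor
  · rintro ⟨m, b, hb, hy⟩
    change (algebraMap B (FractionRing B)) b = _ at hy
    obtain ⟨c, hc⟩ := h2n _ b hb
    set n := (m • (1 : ℤ) + d).toNat with hn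
    have hmn : m + d ≤ n := by
      rw [hn, nsmul_eq_mul, mul_one]
      exact Int.self_le_toNat _
    obtain ⟨l, hl⟩ := Int.eq_ofNat_of_zero_le (sub_nonneg.2 hmn)
    have hl' : (n : ℤ) = m + d + l := by
      change (n : ℤ) - (m + d) = (l : ℤ) at hl
      omega
    have hz : y * (algebraMap B (FractionRing B)) t ^ (-d) ∈ locSub (copy k B) (mem_copy_algebraMap e) := by
      refine ⟨n + 2 * m, t ^ l * c, ?_⟩
      change (algebraMap B (FractionRing B)) (t ^ l * c) = _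
      have h3 : (algebraMap B (FractionRing B)) (e ^ n * b) = (algebraMap B (FractionRing B)) (t ^ n * c) := by rw [hc]
      rw [map_mul, map_mul, hy, map_pow, map_pow, map_mul, map_mul] at h3
      have h4 : (algebraMap B (FractionRing B)) t ^ n = (algebraMap B (FractionRing B)) t ^ m * (algebraMap B (FractionRing B)) t ^ d * (algebraMap B (FractionRing B)) t ^ l := by
        rw [← zpow_natCast, hl', zpow_add₀ hte, zpow_add₀ hte, zpow_natCast, zpow_natCast]
      rw [h4] at h3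
      have h5 : (algebraMap B (FractionRing B)) t ^ (-d) * (algebraMap B (FractionRing B)) t ^ d = 1 := by
        rw [← zpow_add₀ hte, neg_add_cancel, zpow_zero]
      have h6 : (algebraMap B (FractionRing B)) t ^ m ≠ 0 := pow_ne_zero _ hte
      refine mul_left_cancel₀ h6 ?_
      rw [map_mul, map_pow, pow_add, pow_mul]
      linear_combination (-((algebraMap B (FractionRing B)) t ^ (-d))) * h3 + (-((algebraMap B (FractionRing B)) t ^ m * (algebraMap B (FractionRing B)) t ^ l * (algebraMap B (FractionRing B)) c)) * h5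
    obtain ⟨a, ha⟩ := exists_awayIncl (k := k) e he hz
    refine ⟨a, ?_⟩
    rw [ha, mul_comm y, ← mul_assoc, ← zpow_add₀ hte, add_neg_cancel, zpow_zero, one_mul]
  · rintro ⟨a, rfl⟩
    obtain ⟨m', b, hb⟩ := awayIncl_mem (k := k) e he a
    change (algebraMap B (FractionRing B)) b = _ at hb
    set z := awayIncl (k := k) e he a with hz
    -- choose m large
    obtain ⟨m, hm1, hm2⟩ : ∃ m : ℕ, 0 ≤ m + d ∧ (m' : ℤ) + (m + d) ≤ 2 * m :=
      ⟨m' + d.natAbs, by omega, by omega⟩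
    obtain ⟨n, hn⟩ := Int.eq_ofNat_of_zero_le hm1
    change (m : ℤ) + d = (n : ℤ) at hn
    refine ⟨m, (e * t) ^ n * (e ^ (2 * m - m' - n) * b), ?_, ?_⟩
    · change _ ∈ J ^ (m • (1 : ℤ) + d).toNat
      have h3 : (m • (1 : ℤ) + d).toNat = n := by
        rw [nsmul_eq_mul, mul_one, hn]; rfl
      rw [h3]
      exact Ideal.mul_mem_right _ _ (Ideal.pow_mem_pow h1 n)
    · change (algebraMap B (FractionRing B)) ((e * t) ^ n * (e ^ (2 * m - m' - n) * b)) = (algebraMap B (FractionRing B)) (e * (e * t)) ^ m * ((algebraMap B (FractionRing B)) t ^ d * z)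
      have h4 : (algebraMap B (FractionRing B)) t ^ d = (algebraMap B (FractionRing B)) t ^ n * ((algebraMap B (FractionRing B)) t ^ m)⁻¹ := by
        rw [← zpow_natCast, ← zpow_natCast, ← zpow_neg, ← zpow_add₀ hte]
        congr 1
        omega
      have h5 : (algebraMap B (FractionRing B)) t ^ m ≠ 0 := pow_ne_zero _ hte
      have h6 : (algebraMap B (FractionRing B)) e ^ (2 * m) = (algebraMap B (FractionRing B)) e ^ n * (algebraMap B (FractionRing B)) e ^ (2 * m - m' - n) * (algebraMap B (FractionRing B)) e ^ m' := by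
        rw [← pow_add, ← pow_add]
        congr 1
        omega
      rw [map_mul, map_mul, map_pow, map_pow, map_mul, map_mul, map_mul, hb, h4]
      have h7 : ((algebraMap B (FractionRing B)) e * ((algebraMap B (FractionRing B)) e * (algebraMap B (FractionRing B)) t)) ^ m = (algebraMap B (FractionRing B)) e ^ (2 * m) * (algebraMap B (FractionRing B)) t ^ m := by ring
      rw [h7, h6]
      field_simp
      ring

end Pool.Agent.MP_b525bf_ag_P.CurveP
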