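import Pool.Agent.Lib.MP_b525bf_ag_W.ThmE

/-!
# Étale descent of smoothness
-/

set_option autoImplicit false

namespace Pool.Agent.MP_b525bf_ag_P

open TensorProduct Algebra Polynomial

/-- Base change of the first cotangent homology along an étale map which lifts to a formally
smooth extension. -/
theorem subsingleton_tensor_h1 {k P P₁ S T : Type} [CommRing k] [CommRing P] [CommRing P₁]
    [CommRing S] [CommRing T] [Algebra k P] [Algebra k P₁] [Algebra k S] [Algebra k T]
    [Algebra P P₁] [Algebra P S] [Algebra P₁ T] [Algebra S T]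
    [IsScalarTower k P P₁] [IsScalarTower k P S] [IsScalarTower k P₁ T] [IsScalarTower k S T]
    (hcomm : (algebraMap P₁ T).comp (algebraMap P P₁) = (algebraMap S T).comp (algebraMap P S))
    (hsurj : Function.Surjective (algebraMap P S)) (hsurj' : Function.Surjective (algebraMap P₁ T))
    (hker : RingHom.ker (algebraMap P₁ T) ≤ (RingHom.ker (algebraMap P S)).map (algebraMap P P₁))
    [FormallySmooth k P] [FormallyEtale P P₁] [Module.Flat P P₁] [Module.Flat S T]
    [Subsingleton (H1Cotangent k T)] : Subsingleton (T ⊗[S] H1Cotangent k S) := by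
  let E : Extension k S := { Ring := P, σ := _, algebraMap_σ := Function.surjInv_eq hsurj }
  let E₁ : Extension k T := { Ring := P₁, σ := _, algebraMap_σ := Function.surjInv_eq hsurj' }
  have i1 : FormallySmooth k E.Ring := inferInstanceAs (FormallySmooth k P)
  have i2 : FormallySmooth k E₁.Ring := by
    have : FormallySmooth k P₁ := FormallySmooth.comp k P P₁
    exact this
  let f : E.Hom E₁ :=
    { toRingHom := algebraMap P P₁
      toRingHom_algebraMap := fun x => (IsScalarTower.algebraMap_apply k P P₁ x).symm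
      algebraMap_toRingHom := fun x => DFunLike.congr_fun hcomm x }
  let i3 : Algebra E.Ring E₁.Ring := inferInstanceAs (Algebra P P₁)
  have H₁ : f.toRingHom.FormallyEtale := RingHom.formallyEtale_algebraMap.mpr ‹_›
  have H₂ : Function.Bijective ((f.mapKer rfl).liftBaseChange E₁.Ring) := by
    constructor
    · have h1 : Function.Injective ((Submodule.subtype E.ker).lTensor P₁) :=
        Module.Flat.lTensor_preserves_injective_linearMap _ Subtype.val_injective
      have h2 : ∀ x : P₁ ⊗[P] E.ker, (((f.mapKer rfl).liftBaseChange E₁.Ring x : E₁.ker) : P₁) =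
          TensorProduct.rid P P₁ ((Submodule.subtype E.ker).lTensor P₁ x) := by
        intro x
        induction x with
        | zero => simp
        | add x y hx hy =>
          rw [map_add, map_add, map_add, Submodule.coe_add, hx, hy]
        | tmul a b =>
          rw [LinearMap.liftBaseChange_tmul, LinearMap.lTensor_tmul, TensorProduct.rid_tmul]
          change a * algebraMap P P₁ b = (b : P) • a
          rw [Algebra.smul_def, mul_comm]
      intro x y hxy
      apply h1
      apply (TensorProduct.rid P P₁).injective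
      rw [← h2, ← h2, hxy]
    · rintro ⟨z, hz⟩
      have hz' : z ∈ (RingHom.ker (algebraMap P S)).map (algebraMap P P₁) := hker hz
      refine Submodule.span_induction (p := fun z _ => ∀ hz : z ∈ E₁.ker,
        ∃ x, (f.mapKer rfl).liftBaseChange E₁.Ring x = ⟨z, hz⟩) ?_ ?_ ?_ ?_ hz' hz
      · rintro _ ⟨b, hb, rfl⟩ hz
        refine ⟨1 ⊗ₜ ⟨b, hb⟩, ?_⟩
        rw [LinearMap.liftBaseChange_tmul, one_smul]
        rfl
      · intro hz
        exact ⟨0, by rw [map_zero]; rfl⟩
      · intro x y hx hy ihx ihy hz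
        have hx' : x ∈ E₁.ker := Ideal.map_le_iff_le_comap.2 (fun b hb => by
          change algebraMap P₁ T (algebraMap P P₁ b) = 0
          have := DFunLike.congr_fun hcomm b
          change algebraMap P₁ T (algebraMap P P₁ b) = algebraMap S T (algebraMap P S b) at this
          rw [this]
          have hb' : algebraMap P S b = 0 := hb
          rw [hb', map_zero]) hx
        have hy' : y ∈ E₁.ker := by
          have := Submodule.sub_mem _ hz hx'
          rwa [add_sub_cancel_left] at this
        obtain ⟨s, hs⟩ := ihx hx'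
        obtain ⟨t, ht⟩ := ihy hy'
        exact ⟨s + t, by rw [map_add, hs, ht]; rfl⟩
      · intro a x hx ihx hz
        have hx' : x ∈ E₁.ker := Ideal.map_le_iff_le_comap.2 (fun b hb => by
          change algebraMap P₁ T (algebraMap P P₁ b) = 0
          have := DFunLike.congr_fun hcomm b
          change algebraMap P₁ T (algebraMap P P₁ b) = algebraMap S T (algebraMap P S b) at this
          rw [this]
          have hb' : algebraMap P S b = 0 := hb
          rw [hb', map_zero]) hx
        obtain ⟨s, hs⟩ := ihx hx'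
        exact ⟨a • s, by rw [map_smul, hs]; rfl⟩
  let e1 := Extension.tensorH1CotangentOfFormallyEtale f rfl H₁ H₂
  let e2 := Extension.equivH1CotangentOfFormallySmooth E
  let e3 := Extension.equivH1CotangentOfFormallySmooth E₁
  have h3 : Subsingleton E₁.H1Cotangent := e3.toEquiv.subsingleton
  have h4 : Subsingleton (T ⊗[S] E.H1Cotangent) := e1.toEquiv.subsingleton
  exact (LinearEquiv.lTensor T e2).symm.toEquiv.subsingleton

/-- Descent of smoothness at a point along an étale map, given the vanishing of the base change of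
the first cotangent homology. -/
theorem isSmoothAt_of_etale {k S T : Type} [CommRing k] [CommRing S] [CommRing T] [Algebra k S]
    [Algebra k T] [Algebra S T] [IsScalarTower k S T] [IsNoetherianRing S] [EssFiniteType k S]
    [FormallyEtale S T] [Module.Flat S T] [FormallySmooth k T]
    [Subsingleton (T ⊗[S] H1Cotangent k S)] (Q : Ideal T) [hQ : Q.IsPrime]
    (q : Ideal S) [hq : q.IsPrime] (hqQ : q = Q.comap (algebraMap S T)) :
    IsSmoothAt k q := by
  let Sq := Localization.AtPrime q
  let TQ := Localization.AtPrime Q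
  let i1 : Algebra Sq TQ := (Localization.localRingHom q Q (algebraMap S T) hqQ).toAlgebra
  have hloc : IsLocalHom (algebraMap Sq TQ) :=
    Localization.isLocalHom_localRingHom q Q (algebraMap S T) hqQ
  have i2 : IsScalarTower S Sq TQ := IsScalarTower.of_algebraMap_eq' (by
    refine RingHom.ext fun x => ?_
    change algebraMap S TQ x = Localization.localRingHom q Q (algebraMap S T) hqQ
      (algebraMap S Sq x)
    rw [Localization.localRingHom_to_map]
    exact IsScalarTower.algebraMap_apply S T TQ x)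
  have i3 : IsScalarTower k Sq TQ := IsScalarTower.of_algebraMap_eq' (by
    refine RingHom.ext fun x => ?_
    rw [RingHom.comp_apply, IsScalarTower.algebraMap_apply k S Sq,
      ← IsScalarTower.algebraMap_apply S Sq TQ, ← IsScalarTower.algebraMap_apply k S TQ])
  have f1 : Module.Flat T TQ := IsLocalization.flat TQ Q.primeCompl
  have f2 : Module.Flat S TQ := Module.Flat.trans S T TQ
  have f3 : Module.Flat Sq TQ := (Module.flat_iff_of_isLocalization Sq q.primeCompl TQ).2 f2
  have f4 : Module.FaithfullyFlat Sq TQ := Module.FaithfullyFlat.of_flat_of_isLocalHom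
  have e1 : FormallyEtale T TQ := FormallyEtale.of_isLocalization Q.primeCompl
  have e2 : FormallyEtale S TQ := FormallyEtale.comp S T TQ
  have e3 : FormallyEtale Sq TQ := FormallyEtale.localization_base q.primeCompl
  have e4 : FormallySmooth k TQ := FormallySmooth.comp k T TQ
  change FormallySmooth k Sq
  rw [formallySmooth_iff]
  constructor
  · have h1 : Module.Flat TQ (TQ ⊗[Sq] Ω[Sq⁄k]) :=
      Module.Flat.of_linearEquiv (KaehlerDifferential.tensorKaehlerEquivOfFormallyEtale k Sq TQ)
    have h2 : Module.Flat Sq Ω[Sq⁄k] := Module.Flat.of_flat_tensorProduct _ _ TQ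
    have h3 : EssFiniteType S Sq := EssFiniteType.of_isLocalization Sq q.primeCompl
    have h4 : EssFiniteType k Sq := EssFiniteType.comp k S Sq
    have h5 : IsNoetherianRing Sq := IsLocalization.isNoetherianRing q.primeCompl Sq inferInstance
    have h6 : Module.Finite Sq Ω[Sq⁄k] := inferInstance
    have h7 : Module.FinitePresentation Sq Ω[Sq⁄k] := Module.finitePresentation_of_finite Sq _
    exact Module.Flat.projective_of_finitePresentation
  · have h1 : Subsingleton (TQ ⊗[T] (T ⊗[S] H1Cotangent k S)) := inferInstance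
    have h2 : Subsingleton (TQ ⊗[S] H1Cotangent k S) :=
      (AlgebraTensorModule.cancelBaseChange S T TQ TQ (H1Cotangent k S)).symm.toEquiv.subsingleton
    have h3 : Subsingleton (TQ ⊗[Sq] (Sq ⊗[S] H1Cotangent k S)) :=
      (AlgebraTensorModule.cancelBaseChange S Sq TQ TQ (H1Cotangent k S)).toEquiv.subsingleton
    have h4 : Subsingleton (TQ ⊗[Sq] H1Cotangent k Sq) :=
      (LinearEquiv.lTensor TQ
        (tensorH1CotangentOfIsLocalization k Sq q.primeCompl)).symm.toEquiv.subsingleton
    exact Module.FaithfullyFlat.lTensor_reflects_triviality Sq TQ (H1Cotangent k Sq)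

/-- A standard étale presentation of a localisation of a ring which is monogenic after
localisation. -/
theorem lift_bijective_of_monogenic {S R : Type} [CommRing S] [CommRing R] [IsDomain R]
    [Algebra S R] (𝓟 : StandardEtalePair S) (y w : R) (hw : w ≠ 0) (hF : aeval y 𝓟.f = 0)
    (hg : aeval y 𝓟.g = w) (hdiv : ∀ p : S[X], aeval y p = 0 → 𝓟.f ∣ p)
    (hgen : ∀ z : R, ∃ (p : S[X]) (v : R), aeval y p = z * v ∧ v ∣ w)
    (hgen' : ∀ v : R, v ∣ w → ∃ (h : S[X]) (n : ℕ), aeval y h * v = w ^ n) :
    ∃ hm : 𝓟.HasMap (algebraMap R (Localization.Away w) y),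
      Function.Bijective (𝓟.lift (algebraMap R (Localization.Away w) y) hm) := by
  have hunit : IsUnit (algebraMap R (Localization.Away w) w) :=
    IsLocalization.Away.algebraMap_isUnit w
  have hae : ∀ p : S[X], aeval (algebraMap R (Localization.Away w) y) p =
      algebraMap R (Localization.Away w) (aeval y p) := fun p =>
    aeval_algebraMap_apply (Localization.Away w) y p
  have hinj : Function.Injective (algebraMap R (Localization.Away w)) :=
    IsLocalization.injective _ (powers_le_nonZeroDivisors_of_noZeroDivisors hw)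
  have hm : 𝓟.HasMap (algebraMap R (Localization.Away w) y) := by
    refine ⟨?_, ?_⟩
    · rw [hae, hF, map_zero]
    · rw [hae, hg]; exact hunit
  have hlift : ∀ p : S[X], 𝓟.lift (algebraMap R (Localization.Away w) y) hm (aeval 𝓟.X p) =
      algebraMap R (Localization.Away w) (aeval y p) := by
    intro p
    rw [← aeval_algHom_apply, StandardEtalePair.lift_X, hae]
  have hgu : IsUnit (aeval 𝓟.X 𝓟.g) := 𝓟.hasMap_X.2
  refine ⟨hm, ?_, ?_⟩
  · let P' : StandardEtalePresentation S 𝓟.Ring := ⟨𝓟, 𝓟.X, 𝓟.hasMap_X, by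
      simpa [StandardEtalePair.lift_X_left] using Function.bijective_id⟩
    rw [injective_iff_map_eq_zero]
    intro r hr
    obtain ⟨p, n, hp⟩ := P'.exists_mul_aeval_x_g_pow_eq_aeval_x r
    have hp' : r * aeval 𝓟.X 𝓟.g ^ n = aeval 𝓟.X p := hp
    have h1 : algebraMap R (Localization.Away w) (aeval y p) = 0 := by
      rw [← hlift, ← hp', map_mul, hr, zero_mul]
    have h2 : aeval y p = 0 := hinj (by rw [h1, map_zero])
    obtain ⟨c, hc⟩ := hdiv p h2
    rw [hc, map_mul, 𝓟.hasMap_X.1, zero_mul] at hp'
    exact ((hgu.pow n).mul_left_eq_zero).1 hp'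
  · intro t
    obtain ⟨n, z, hz⟩ := IsLocalization.Away.surj w t
    obtain ⟨p, v, hp, hv⟩ := hgen z
    obtain ⟨h, m, hh⟩ := hgen' v hv
    obtain ⟨g', hg'⟩ := hgu
    refine ⟨aeval 𝓟.X p * aeval 𝓟.X h * ((g'⁻¹ : 𝓟.Ringˣ) : 𝓟.Ring) ^ (n + m), ?_⟩
    have h3 : 𝓟.lift (algebraMap R (Localization.Away w) y) hm (g' : 𝓟.Ring) =
        algebraMap R (Localization.Away w) w := by
      rw [hg', hlift, hg]
    have h4 : 𝓟.lift (algebraMap R (Localization.Away w) y) hm ((g'⁻¹ : 𝓟.Ringˣ) : 𝓟.Ring) *
        algebraMap R (Localization.Away w) w = 1 := by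
      rw [← h3, ← map_mul, Units.inv_mul, map_one]
    rw [map_mul, map_mul, map_pow, hlift, hlift, hp]
    have h5 : t * algebraMap R (Localization.Away w) w ^ (n + m) =
        algebraMap R (Localization.Away w) (z * v) * algebraMap R (Localization.Away w) (aeval y h) := by
      rw [pow_add, ← mul_assoc, hz, ← map_pow, ← hh, map_mul, map_mul]
      ring
    rw [← h5, mul_assoc, ← mul_pow, mul_comm (algebraMap R (Localization.Away w) w), h4, one_pow,
      mul_one]


/-- Smoothness descends from a localisation of a ring which is monogenic after localisation. -/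
theorem isSmoothAt_of_monogenic {k S R : Type} [Field k] [CommRing S] [CommRing R]
    [IsDomain R] [Algebra k S] [Algebra k R] [Algebra S R] [IsScalarTower k S R]
    [FiniteType k S] (y D f : R) (F : S[X]) (hF : F.Monic) (hFy : aeval y F = 0)
    (hD : aeval y F.derivative = D) (hdiv : ∀ p : S[X], aeval y p = 0 → F ∣ p)
    (hgen : ∀ z : R, ∃ p : S[X], aeval y p = z * D) (hD0 : D ≠ 0) (hf0 : f ≠ 0)
    (hs : FormallySmooth k (Localization.Away (D * (f * D)))) (Q : Ideal R) [hQp : Q.IsPrime]
    (hQ : D * (f * D) ∉ Q) (q : Ideal S) [q.IsPrime] (hq : q = Q.comap (algebraMap S R)) :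
    IsSmoothAt k q := by
  set w := D * (f * D) with hwdef
  have hw0 : w ≠ 0 := mul_ne_zero hD0 (mul_ne_zero hf0 hD0)
  obtain ⟨h, hh⟩ := hgen f
  obtain ⟨n, φ, hφ⟩ := (Algebra.FiniteType.iff_quotient_mvPolynomial'' (R := k) (S := S)).1
    inferInstance
  let P0 := MvPolynomial (Fin n) k
  let i1 : Algebra P0 S := φ.toAlgebra
  have i2 : IsScalarTower k P0 S := IsScalarTower.of_algebraMap_eq' φ.comp_algebraMap.symm
  have hφ' : Function.Surjective (algebraMap P0 S) := hφ
  obtain ⟨F', hF'map, -, hF'⟩ := Polynomial.lifts_and_natDegree_eq_and_monic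
    (f := algebraMap P0 S) (p := F)
    ((Polynomial.lifts_iff_coeff_lifts _).2 fun n => hφ' _) hF
  obtain ⟨h', hh'map⟩ := (Polynomial.map_surjective (algebraMap P0 S) hφ') h
  let 𝓟 : StandardEtalePair P0 :=
    { f := F'
      monic_f := hF'
      g := F'.derivative * h'
      cond := ⟨h', 0, 1, by ring⟩ }
  let 𝓟S : StandardEtalePair S := 𝓟.map (algebraMap P0 S)
  have hf1 : 𝓟S.f = F := hF'map
  have hg1 : 𝓟S.g = F.derivative * h := by
    change (F'.derivative * h').map (algebraMap P0 S) = _
    rw [Polynomial.map_mul, ← Polynomial.derivative_map, hF'map, hh'map]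
  obtain ⟨hm, hbij⟩ := lift_bijective_of_monogenic 𝓟S y w hw0 (by rw [hf1, hFy])
    (by rw [hg1, map_mul, hD, hh]) (fun p hp => by rw [hf1]; exact hdiv p hp)
    (fun z => by
      obtain ⟨p, hp⟩ := hgen z
      exact ⟨p, D, hp, dvd_mul_right _ _⟩)
    (fun v hv => by
      obtain ⟨c, hc⟩ := hv
      obtain ⟨p, hp⟩ := hgen (c * f * D)
      refine ⟨p, 2, ?_⟩
      rw [hp]
      have : c * f * D * D * v = (v * c) * (D * (f * D)) := by ring
      rw [this, ← hc, hwdef, pow_two])
  let W := Localization.Away w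
  let P1 := 𝓟.Ring
  let presW : StandardEtalePresentation S W := ⟨𝓟S, _, hm, hbij⟩
  let pres1 : StandardEtalePresentation P0 P1 := ⟨𝓟, 𝓟.X, 𝓟.hasMap_X, by
      rw [StandardEtalePair.lift_X_left]; exact Function.bijective_id⟩
  let j1 : Algebra k P1 := Algebra.compHom P1 (algebraMap k P0)
  have j2 : IsScalarTower k P0 P1 := IsScalarTower.of_algebraMap_eq' rfl
  have j3 : IsNoetherianRing S := Algebra.FiniteType.isNoetherianRing k S
  let T := S ⊗[P0] P1
  let presT : StandardEtalePresentation S T := pres1.baseChange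
  let e : W ≃ₐ[S] T := presW.equivRing.trans presT.equivRing.symm
  let i3 : Algebra P1 T := TensorProduct.rightAlgebra
  have i4 : FormallySmooth k W := hs
  have i5 : FormallySmooth k T := FormallySmooth.of_equiv (e.restrictScalars k)
  have i6 : Algebra.Etale P0 P1 := inferInstance
  have i7 : Algebra.Etale S T := inferInstance
  have i8 : Module.Flat P0 P1 := inferInstance
  have i9 : Module.Flat S T := inferInstance
  have i10 : IsScalarTower k P1 T := IsScalarTower.of_algebraMap_eq' (by
    refine RingHom.ext fun r => ?_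
    change algebraMap k S r ⊗ₜ[P0] (1 : P1) = (1 : S) ⊗ₜ[P0] algebraMap k P1 r
    rw [IsScalarTower.algebraMap_apply k P0 S, IsScalarTower.algebraMap_apply k P0 P1,
      Algebra.algebraMap_eq_smul_one, Algebra.algebraMap_eq_smul_one (A := P1),
      TensorProduct.smul_tmul])
  have hsub : Subsingleton (T ⊗[S] H1Cotangent k S) := by
    refine subsingleton_tensor_h1 (P := P0) (P₁ := P1) ?_ hφ' ?_ ?_
    · refine RingHom.ext fun r => ?_
      change (1 : S) ⊗ₜ[P0] algebraMap P0 P1 r = algebraMap P0 S r ⊗ₜ[P0] (1 : P1)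
      rw [Algebra.algebraMap_eq_smul_one, Algebra.algebraMap_eq_smul_one (A := S),
        TensorProduct.smul_tmul]
    · intro t
      refine TensorProduct.induction_on (motive := fun t => ∃ a, algebraMap P1 T a = t) t
        ⟨0, map_zero _⟩ (fun s p => ?_) (fun x y hx hy => ?_)
      · obtain ⟨r, rfl⟩ := hφ' s
        refine ⟨r • p, ?_⟩
        change (1 : S) ⊗ₜ[P0] (r • p) = _
        rw [Algebra.algebraMap_eq_smul_one, TensorProduct.smul_tmul]
      · obtain ⟨a, ha⟩ := hx
        obtain ⟨b, hb⟩ := hy
        exact ⟨a + b, by rw [map_add, ha, hb]⟩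
    · intro z hz
      have hz' : (1 : S) ⊗ₜ[P0] z = 0 := hz
      let J : Ideal P1 := (RingHom.ker (algebraMap P0 S)).map (algebraMap P0 P1)
      let π : P1 →ₐ[P0] P1 ⧸ J := Ideal.Quotient.mkₐ P0 J
      let σ : S →ₐ[P0] P1 ⧸ J := by
        refine (Ideal.Quotient.liftₐ (RingHom.ker (algebraMap P0 S))
          (Algebra.ofId P0 (P1 ⧸ J)) ?_).comp
          (AlgEquiv.symm (Ideal.quotientKerAlgEquivOfSurjective
            (f := Algebra.ofId P0 S) hφ')).toAlgHom
        intro a ha
        have : algebraMap P0 P1 a ∈ J := Ideal.mem_map_of_mem _ ha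
        exact Ideal.Quotient.eq_zero_iff_mem.2 this
      let Ψ : T →ₐ[P0] P1 ⧸ J := Algebra.TensorProduct.lift σ π fun _ _ => Commute.all _ _
      have h1 : Ψ ((1 : S) ⊗ₜ[P0] z) = π z := by
        rw [Algebra.TensorProduct.lift_tmul, map_one, one_mul]
      rw [hz', map_zero] at h1
      exact Ideal.Quotient.eq_zero_iff_mem.1 h1.symm
  have hdisj : Disjoint (Submonoid.powers w : Set R) (Q : Set R) := by
    rw [Set.disjoint_left]
    rintro _ ⟨n, rfl⟩ hn
    exact hQ (hQp.mem_of_pow_mem n hn)
  have hQW : (Q.map (algebraMap R W)).IsPrime :=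
    IsLocalization.isPrime_of_isPrime_disjoint (Submonoid.powers w) W Q hQp hdisj
  let QW : Ideal W := Q.map (algebraMap R W)
  let QT : Ideal T := QW.comap (e.symm : T →+* W)
  have hQT : QT.IsPrime := Ideal.comap_isPrime _ _
  refine isSmoothAt_of_etale (T := T) QT q ?_
  have hcm : QW.comap (algebraMap R W) = Q :=
    IsLocalization.under_map_of_isPrime_disjoint (Submonoid.powers w) W hQp hdisj
  rw [hq, ← hcm, Ideal.comap_comap, Ideal.comap_comap]
  congr 1
  refine RingHom.ext fun x => ?_
  change algebraMap R W (algebraMap S R x) = e.symm (algebraMap S T x)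
  rw [AlgEquiv.commutes, ← IsScalarTower.algebraMap_apply]


section inertia

open Pool.Agent.MP_b525bf_ag_W

theorem exists_avoid {k V ι : Type} [Field k] [Infinite k] [AddCommGroup V] [Module k V] [Finite ι]
    (W : ι → Submodule k V) (hW : ∀ i, W i ≠ ⊤) : ∃ v, ∀ i, v ∉ W i := by
  classical
  have := Fintype.ofFinite ι
  have h1 := Subspace.biUnion_ne_univ_of_top_notMem (k := k) (E := V)
    (s := Finset.univ.image W) (by
      simp only [Finset.mem_image, Finset.mem_univ, true_and, not_exists]
      exact hW)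
  rw [Set.ne_univ_iff_exists_notMem] at h1
  obtain ⟨v, hv⟩ := h1
  refine ⟨v, fun i hi => hv ?_⟩
  simp only [Finset.mem_image, Finset.mem_univ, true_and, Set.mem_iUnion]
  exact ⟨W i, ⟨i, rfl⟩, hi⟩

variable {k A G : Type} [Field k] [CommRing A] [Algebra k A] [Group G] (ψ : G →* (A ≃ₐ[k] A))

theorem act_mul (g h : G) (x : A) : ψ (g * h) x = ψ g (ψ h x) := by
  rw [_root_.map_mul, AlgEquiv.mul_apply]

/-- The subspace of the elements which are fixed by `g` modulo `q`. -/
def fixMod (q : Ideal A) (g : G) : Submodule k A where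
  carrier := {x | ψ g x - x ∈ q}
  add_mem' := by
    intro x y hx hy
    have : ψ g (x + y) - (x + y) = (ψ g x - x) + (ψ g y - y) := by rw [_root_.map_add]; ring
    change ψ g (x + y) - (x + y) ∈ q
    rw [this]; exact q.add_mem hx hy
  zero_mem' := by
    change ψ g 0 - 0 ∈ q
    rw [_root_.map_zero, sub_zero]; exact q.zero_mem
  smul_mem' := by
    intro r x hx
    change ψ g (r • x) - r • x ∈ q
    rw [map_smul, ← smul_sub, Algebra.smul_def]
    exact q.mul_mem_left _ hx

theorem fixMod_ne_top {q : Ideal A} {g : G} (h : ¬ ∀ x, ψ g x - x ∈ q) : fixMod ψ q g ≠ ⊤ := by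
  intro h1
  apply h
  intro x
  have : x ∈ fixMod ψ q g := by rw [h1]; trivial
  exact this

/-- The polynomials which are fixed by the group have coefficients in the ring of invariants. -/
theorem exists_lift_poly {H : Subgroup G} {A1 : Subalgebra k A}
    (hA1 : ∀ x, x ∈ A1 ↔ ∀ g ∈ H, ψ g x = x) {p : A[X]}
    (hp : ∀ g ∈ H, p.map (ψ g : A →+* A) = p) : p ∈ Polynomial.lifts (algebraMap A1 A) := by
  rw [Polynomial.lifts_iff_coeff_lifts]
  intro n
  refine ⟨⟨p.coeff n, (hA1 _).2 fun g hg => ?_⟩, rfl⟩
  have := congrArg (fun r => Polynomial.coeff r n) (hp g hg)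
  simpa using this

/-- Every element outside the inertia group moves an invariant of the inertia group modulo `q`. -/
theorem exists_move [Infinite k] [Finite G] (q : Ideal A) [hq : q.IsPrime] (I : Subgroup G)
    (hI : ∀ g, g ∈ I ↔ ∀ x, ψ g x - x ∈ q) (A1 : Subalgebra k A)
    (hA1 : ∀ x, x ∈ A1 ↔ ∀ g ∈ I, ψ g x = x) {t : G} (ht : t ∉ I) :
    ∃ c ∈ A1, ψ t c - c ∉ q := by
  classical
  have := Fintype.ofFinite G
  obtain ⟨x, hx⟩ := exists_avoid (fun i : I => fixMod ψ q (t * i)) fun i => by
    refine fixMod_ne_top ψ fun h => ?_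
    have h1 : t * i ∈ I := (hI _).2 h
    exact ht ((Subgroup.mul_mem_cancel_right I i.2).1 h1)
  by_contra hcon
  push Not at hcon
  let P : A[X] := ∏ i : I, (X - C (ψ i x))
  have hP : ∀ g ∈ I, P.map (ψ g : A →+* A) = P := by
    intro g hg
    change Polynomial.map _ (∏ i : I, (X - C (ψ i x))) = _
    rw [Polynomial.map_prod]
    refine Fintype.prod_equiv (Equiv.mulLeft (⟨g, hg⟩ : I)) _ _ fun i => ?_
    rw [Polynomial.map_sub, Polynomial.map_X, Polynomial.map_C]
    change X - C (ψ g (ψ i x)) = X - C (ψ (g * i) x)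
    rw [act_mul]
  obtain ⟨P1, hP1⟩ := (Polynomial.mem_lifts _).1 (exists_lift_poly ψ hA1 hP)
  have h1 : (P.map (ψ t : A →+* A)).map (Ideal.Quotient.mk q) = P.map (Ideal.Quotient.mk q) := by
    ext n
    rw [Polynomial.coeff_map, Polynomial.coeff_map, Polynomial.coeff_map, ← hP1,
      Polynomial.coeff_map, Ideal.Quotient.eq]
    exact hcon _ (P1.coeff n).2
  have h2 : P.eval x = 0 := by
    change Polynomial.eval x (∏ i : I, (X - C (ψ i x))) = 0
    rw [Polynomial.eval_prod]
    refine Finset.prod_eq_zero (Finset.mem_univ 1) ?_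
    rw [Polynomial.eval_sub, Polynomial.eval_X, Polynomial.eval_C]
    change x - ψ ((1 : I) : G) x = 0
    rw [Subgroup.coe_one, _root_.map_one, AlgEquiv.one_apply, sub_self]
  have h3 : (P.map (ψ t : A →+* A)).eval x ∈ q := by
    rw [← Ideal.Quotient.eq_zero_iff_mem, ← Polynomial.eval_map_apply, h1,
      Polynomial.eval_map_apply, h2, _root_.map_zero]
  have h4 : (P.map (ψ t : A →+* A)).eval x = ∏ i : I, (x - ψ (t * i) x) := by
    change Polynomial.eval x (Polynomial.map _ (∏ i : I, (X - C (ψ i x)))) = _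
    rw [Polynomial.map_prod, Polynomial.eval_prod]
    refine Finset.prod_congr rfl fun i _ => ?_
    rw [Polynomial.map_sub, Polynomial.map_X, Polynomial.map_C, Polynomial.eval_sub,
      Polynomial.eval_X, Polynomial.eval_C, act_mul]
    rfl
  rw [h4] at h3
  obtain ⟨i, -, hi⟩ := (Ideal.IsPrime.prod_mem_iff).1 h3
  apply hx i
  change ψ (t * i) x - x ∈ q
  rw [← neg_sub]
  exact q.neg_mem hi

/-- An invariant of the inertia group which is moved modulo `q` by all other elements. -/
theorem exists_move_all [Infinite k] [Finite G] (q : Ideal A) [hq : q.IsPrime] (I : Subgroup G)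
    (hI : ∀ g, g ∈ I ↔ ∀ x, ψ g x - x ∈ q) (A1 : Subalgebra k A)
    (hA1 : ∀ x, x ∈ A1 ↔ ∀ g ∈ I, ψ g x = x) :
    ∃ y : A1, ∀ t ∉ I, ψ t y - y ∉ q := by
  obtain ⟨y, hy⟩ := exists_avoid
    (fun t : {t : G // t ∉ I} => (fixMod ψ q t.1).comap A1.val.toLinearMap) fun t h => by
    obtain ⟨c, hc, hc'⟩ := exists_move ψ q I hI A1 hA1 t.2
    apply hc'
    have : (⟨c, hc⟩ : A1) ∈ (fixMod ψ q t.1).comap A1.val.toLinearMap := by rw [h]; trivial
    exact this
  exact ⟨y, fun t ht h => hy ⟨t, ht⟩ h⟩

/-- The values of an invariant of `I` on the cosets of `I`. -/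
noncomputable def orb (I : Subgroup G) (z : A) (c : G ⧸ I) : A := ψ c.out z

theorem orb_mk {I : Subgroup G} {z : A} (hz : ∀ g ∈ I, ψ g z = z) (g : G) :
    orb ψ I z (g : G ⧸ I) = ψ g z := by
  obtain ⟨h, hh⟩ := QuotientGroup.mk_out_eq_mul I g
  change ψ (g : G ⧸ I).out z = _
  rw [hh, act_mul, hz _ h.2]

theorem act_orb {I : Subgroup G} {z : A} (hz : ∀ g ∈ I, ψ g z = z) (g : G) (c : G ⧸ I) :
    ψ g (orb ψ I z c) = orb ψ I z (g • c) := by
  obtain ⟨c, rfl⟩ := QuotientGroup.mk_surjective c
  rw [orb_mk ψ hz, ← act_mul, ← orb_mk ψ hz]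
  rfl

end inertia

open Pool.Agent.MP_b525bf_ag_W in
/-- Étale descent of smoothness to the ring of invariants, from the invariants of the inertia
group. -/
theorem exists_smooth_of_inertia {k A G : Type} [Field k] [Infinite k] [CommRing A] [IsDomain A]
    [Algebra k A] [Algebra.FiniteType k A] [Group G] [Finite G]
    (ψ : G →* (A ≃ₐ[k] A)) (A0 : Subalgebra k A) (hA0 : ∀ x, x ∈ A0 ↔ ∀ g, ψ g x = x)
    (q : Ideal A) [q.IsPrime] (I : Subgroup G) (hI : ∀ g, g ∈ I ↔ ∀ x, ψ g x - x ∈ q)
    (A1 : Subalgebra k A) (hA1 : ∀ x, x ∈ A1 ↔ ∀ g ∈ I, ψ g x = x)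
    (f : A1) (hf : (f : A) ∉ q) (hs : Algebra.FormallySmooth k (Localization.Away f)) :
    ∃ h : A0, (h : A) ∉ q ∧ Algebra.FormallySmooth k (Localization.Away h) := by
  classical
  have := Fintype.ofFinite G
  have hle : A0 ≤ A1 := fun x hx => (hA1 x).2 fun g _ => (hA0 x).1 hx g
  obtain ⟨-, hft0⟩ := finiteType_fixed ψ A0 hA0
  obtain ⟨-, hft1⟩ := finiteType_fixed (ψ.comp I.subtype) A1 fun x => by
    rw [hA1]
    exact ⟨fun h g => h g g.2, fun h g hg => h ⟨g, hg⟩⟩
  have hfp1 : Algebra.FinitePresentation k A1 :=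
    Algebra.FinitePresentation.of_finiteType.1 inferInstance
  have hfp0 : Algebra.FinitePresentation k A0 :=
    Algebra.FinitePresentation.of_finiteType.1 inferInstance
  let i1 : Algebra A0 A1 := (Subalgebra.inclusion hle).toAlgebra
  have i2 : IsScalarTower k A0 A1 := IsScalarTower.of_algebraMap_eq fun _ => rfl
  have i3 : IsScalarTower A0 A1 A := IsScalarTower.of_algebraMap_eq fun _ => rfl
  obtain ⟨y, hy⟩ := exists_move_all ψ q I hI A1 hA1
  have hyI : ∀ g ∈ I, ψ g (y : A) = y := (hA1 _).1 y.2
  have hinj : Function.Injective (orb ψ I (y : A)) := by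
    intro c c' hcc
    obtain ⟨g, rfl⟩ := QuotientGroup.mk_surjective c
    obtain ⟨g', rfl⟩ := QuotientGroup.mk_surjective c'
    change orb ψ I (y : A) (g : G ⧸ I) = orb ψ I (y : A) (g' : G ⧸ I) at hcc
    rw [orb_mk ψ hyI, orb_mk ψ hyI] at hcc
    change (g : G ⧸ I) = (g' : G ⧸ I)
    rw [QuotientGroup.eq]
    by_contra hng
    apply hy _ hng
    have h1 : ψ (g⁻¹ * g') (y : A) = y := by
      rw [act_mul, ← hcc, ← act_mul, inv_mul_cancel, _root_.map_one, AlgEquiv.one_apply]
    rw [h1, sub_self]
    exact q.zero_mem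
  let P : A[X] := ∏ c : G ⧸ I, (X - C (orb ψ I (y : A) c))
  let P₁ : A[X] := ∏ c ∈ Finset.univ.erase ((1 : G) : G ⧸ I), (X - C (orb ψ I (y : A) c))
  have horb1 : ∀ z : A1, orb ψ I (z : A) ((1 : G) : G ⧸ I) = z := fun z => by
    rw [orb_mk ψ ((hA1 _).1 z.2), _root_.map_one, AlgEquiv.one_apply]
  have hPP₁ : P = (X - C (y : A)) * P₁ := by
    change (∏ c : G ⧸ I, (X - C (orb ψ I (y : A) c))) = _
    rw [← Finset.mul_prod_erase Finset.univ _ (Finset.mem_univ ((1 : G) : G ⧸ I)), horb1]
  have hPmonic : P.Monic := Polynomial.monic_prod_of_monic _ _ fun c _ => Polynomial.monic_X_sub_C _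
  have hPdeg : P.natDegree = Fintype.card (G ⧸ I) := by
    change Polynomial.natDegree (∏ c : G ⧸ I, (X - C (orb ψ I (y : A) c))) = _
    rw [Polynomial.natDegree_prod_of_monic _ _ fun c _ => Polynomial.monic_X_sub_C _]
    simp
  have hA0' : ∀ x, x ∈ A0 ↔ ∀ g ∈ (⊤ : Subgroup G), ψ g x = x := fun x => by
    rw [hA0]; simp
  have hPinv : ∀ g ∈ (⊤ : Subgroup G), P.map (ψ g : A →+* A) = P := by
    intro g _
    change Polynomial.map _ (∏ c : G ⧸ I, (X - C (orb ψ I (y : A) c))) = _
    rw [Polynomial.map_prod]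
    refine Fintype.prod_equiv (MulAction.toPerm g) _ _ fun c => ?_
    rw [Polynomial.map_sub, Polynomial.map_X, Polynomial.map_C]
    change X - C (ψ g (orb ψ I (y : A) c)) = X - C (orb ψ I (y : A) (g • c))
    rw [act_orb ψ hyI]
  obtain ⟨F, hFmap, hFdeg, hFmonic⟩ := Polynomial.lifts_and_natDegree_eq_and_monic
    (exists_lift_poly ψ hA0' hPinv) hPmonic
  have hval : ∀ p : A0[X], ((aeval y p : A1) : A) = (p.map (algebraMap A0 A)).eval (y : A) := by
    intro p
    rw [Polynomial.eval_map_algebraMap]
    change algebraMap A1 A (aeval y p) = _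
    rw [← Polynomial.aeval_algebraMap_apply]
    rfl
  have hA1inj : Function.Injective (algebraMap A1 A) := Subtype.val_injective
  have hD1 : ((aeval y F.derivative : A1) : A) = P₁.eval (y : A) := by
    rw [hval, ← Polynomial.derivative_map, hFmap, hPP₁]
    simp
  have hDq : ((aeval y F.derivative : A1) : A) ∉ q := by
    rw [hD1]
    change Polynomial.eval (y : A)
      (∏ c ∈ Finset.univ.erase ((1 : G) : G ⧸ I), (X - C (orb ψ I (y : A) c))) ∉ q
    rw [Polynomial.eval_prod]
    intro h
    obtain ⟨c, hc, h⟩ := (Ideal.IsPrime.prod_mem_iff).1 h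
    obtain ⟨g, rfl⟩ := QuotientGroup.mk_surjective c
    change Polynomial.eval (y : A) (X - C (orb ψ I (y : A) (g : G ⧸ I))) ∈ q at h
    rw [Polynomial.eval_sub, Polynomial.eval_X, Polynomial.eval_C, orb_mk ψ hyI] at h
    refine hy g (fun hg => (Finset.mem_erase.1 hc).1 ?_) ?_
    · rw [QuotientGroup.eq]
      simpa using hg
    · rw [← neg_sub]
      exact q.neg_mem h
  have hf0 : f ≠ 0 := by
    rintro rfl
    exact hf q.zero_mem
  have hD0 : (aeval y F.derivative : A1) ≠ 0 := by
    intro h
    rw [h] at hDq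
    exact hDq q.zero_mem
  have key : Algebra.IsSmoothAt k (q.comap (algebraMap A0 A)) := by
    refine isSmoothAt_of_monogenic (R := A1) y (aeval y F.derivative) f F hFmonic ?_ rfl ?_ ?_ hD0
      hf0 ?_ (q.comap (algebraMap A1 A)) ?_ _ ?_
    · apply hA1inj
      change ((aeval y F : A1) : A) = _
      rw [hval, hFmap, hPP₁]
      simp
    · intro p hp
      rw [← Polynomial.modByMonic_eq_zero_iff_dvd hFmonic]
      have h1 : (aeval y (p %ₘ F) : A1) = 0 := by
        have h2 := Polynomial.modByMonic_add_div p F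
        have h3 : (aeval y F : A1) = 0 := by
          apply hA1inj
          change ((aeval y F : A1) : A) = _
          rw [hval, hFmap, hPP₁]
          simp
        have h4 := congrArg (aeval y) h2
        rwa [_root_.map_add, _root_.map_mul, h3, zero_mul, add_zero, hp] at h4
      have h2 : (p %ₘ F).map (algebraMap A0 A) = 0 := by
        refine Polynomial.eq_zero_of_natDegree_lt_card_of_eval_eq_zero _ hinj (fun c => ?_) ?_
        · obtain ⟨g, rfl⟩ := QuotientGroup.mk_surjective c
          change Polynomial.eval (orb ψ I (y : A) (g : G ⧸ I)) _ = 0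
          rw [orb_mk ψ hyI]
          have h3 : ((p %ₘ F).map (algebraMap A0 A)).map (ψ g : A →+* A) =
              (p %ₘ F).map (algebraMap A0 A) := by
            rw [Polynomial.map_map]
            congr 1
            refine RingHom.ext fun x => ?_
            exact (hA0 _).1 x.2 g
          rw [← h3]
          have h4 : ψ g (y : A) = (ψ g : A →+* A) (y : A) := rfl
          rw [h4, Polynomial.eval_map_apply, ← hval, h1]
          simp
        · rw [← hPdeg, ← hFdeg]
          by_cases hn : F.natDegree = 0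
          · exfalso
            rw [hFdeg, hPdeg] at hn
            exact Fintype.card_ne_zero hn
          · exact lt_of_le_of_lt (Polynomial.natDegree_map_le) (Polynomial.natDegree_modByMonic_lt p hFmonic
              (fun h => hn (by rw [h, Polynomial.natDegree_one])))
      exact (Polynomial.map_injective _ (Subtype.val_injective : Function.Injective
        (algebraMap A0 A))) (by rw [h2, Polynomial.map_zero])
    · intro z
      have hzI : ∀ g ∈ I, ψ g (z : A) = z := (hA1 _).1 z.2
      let N : A[X] := ∑ c : G ⧸ I, C (orb ψ I (z : A) c) *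
        ∏ c' ∈ Finset.univ.erase c, (X - C (orb ψ I (y : A) c'))
      have hN : ∀ g ∈ (⊤ : Subgroup G), N.map (ψ g : A →+* A) = N := by
        intro g _
        change Polynomial.map _ (∑ c : G ⧸ I, C (orb ψ I (z : A) c) *
          ∏ c' ∈ Finset.univ.erase c, (X - C (orb ψ I (y : A) c'))) = _
        rw [Polynomial.map_sum]
        refine Fintype.sum_equiv (MulAction.toPerm g) _ _ fun c => ?_
        rw [Polynomial.map_mul, Polynomial.map_C, Polynomial.map_prod]
        congr 1
        · change C (ψ g (orb ψ I (z : A) c)) = C (orb ψ I (z : A) (g • c))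
          rw [act_orb ψ hzI]
        · refine Finset.prod_bij (fun c' _ => g • c') ?_ ?_ ?_ ?_
          · intro c' hc'
            rw [Finset.mem_erase] at hc' ⊢
            refine ⟨fun h => hc'.1 ?_, Finset.mem_univ _⟩
            exact MulAction.injective g h
          · intro c' _ c'' _ h
            exact MulAction.injective g h
          · intro c' hc'
            refine ⟨g⁻¹ • c', ?_, smul_inv_smul g c'⟩
            rw [Finset.mem_erase] at hc' ⊢
            refine ⟨fun h => hc'.1 ?_, Finset.mem_univ _⟩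
            change c' = g • c
            rw [← h, smul_inv_smul]
          · intro c' _
            rw [Polynomial.map_sub, Polynomial.map_X, Polynomial.map_C]
            change X - C (ψ g (orb ψ I (y : A) c')) = _
            rw [act_orb ψ hyI]
      obtain ⟨N', hN'⟩ := (Polynomial.mem_lifts _).1 (exists_lift_poly ψ hA0' hN)
      refine ⟨N', ?_⟩
      apply hA1inj
      change ((aeval y N' : A1) : A) = ((z * aeval y F.derivative : A1) : A)
      rw [hval, hN', MulMemClass.coe_mul, hD1]
      change Polynomial.eval (y : A) (∑ c : G ⧸ I, C (orb ψ I (z : A) c) *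
        ∏ c' ∈ Finset.univ.erase c, (X - C (orb ψ I (y : A) c'))) = _
      rw [Polynomial.eval_finsetSum, Finset.sum_eq_single ((1 : G) : G ⧸ I)]
      · rw [Polynomial.eval_mul, Polynomial.eval_C, horb1]
      · intro c _ hc
        rw [Polynomial.eval_mul, Polynomial.eval_prod,
          Finset.prod_eq_zero (i := ((1 : G) : G ⧸ I)), mul_zero]
        · exact Finset.mem_erase.2 ⟨Ne.symm hc, Finset.mem_univ _⟩
        · rw [horb1]; simp
      · intro h
        exact absurd (Finset.mem_univ _) h
    · rw [← Algebra.basicOpen_subset_smoothLocus_iff] at hs ⊢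
      refine Set.Subset.trans ?_ hs
      intro x hx
      have hx' : (aeval y F.derivative * (f * aeval y F.derivative) : A1) ∉ x.asIdeal := hx
      change f ∉ x.asIdeal
      exact fun h => hx' (x.asIdeal.mul_mem_left _ (x.asIdeal.mul_mem_right _ h))
    · intro h
      have h' : ((aeval y F.derivative : A1) : A) * ((f : A) * ((aeval y F.derivative : A1) : A)) ∈ q :=
        h
      rcases Ideal.IsPrime.mem_or_mem inferInstance h' with h | h
      · exact hDq h
      · rcases Ideal.IsPrime.mem_or_mem inferInstance h with h | h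
        · exact hf h
        · exact hDq h
    · rw [Ideal.comap_comap]
      rfl
  obtain ⟨h, hh, hsm⟩ := Algebra.IsSmoothAt.exists_notMem_smooth k (q.comap (algebraMap A0 A))
  exact ⟨h, hh, hsm.formallySmooth⟩

end Pool.Agent.MP_b525bf_ag_P
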