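import Pool.Agent.Lib.MP_b525bf_ag_P.Tower_aux

/-!
# P4b, auxiliary: fixed subalgebras, groups of prime index, transfer of smoothness
-/

set_option autoImplicit false

namespace Pool.Agent.MP_b525bf_ag_P

open Pool.Agent.MP_b525bf_ag Pool.Agent.MP_b525bf_ag_W

section Grp

variable {G : Type} [Group G]

theorem prime_index (H H' : Subgroup G)
    (hn : ∀ g ∈ H', ∀ h ∈ H, g * h * g⁻¹ ∈ H) (hi : (H.relIndex H').Prime)
    (g : G) (hg : g ∈ H') (hgH : g ∉ H) :
    g ^ (H.relIndex H') ∈ H ∧ (∀ g' ∈ H', ∃ i : ℕ, ∃ h ∈ H, g' = g ^ i * h) ∧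
      ∀ i, 0 < i → i < H.relIndex H' → g ^ i ∉ H := by
  let K : Subgroup H' := H.subgroupOf H'
  have hK : K.Normal := ⟨fun h hh g => by
    rw [Subgroup.mem_subgroupOf] at hh ⊢
    exact hn g g.2 h hh⟩
  have hcard : Nat.card (H' ⧸ K) = H.relIndex H' := rfl
  have hfact : Fact (H.relIndex H').Prime := ⟨hi⟩
  let γ : H' ⧸ K := QuotientGroup.mk (⟨g, hg⟩ : H')
  have hγ : γ ≠ 1 := by
    intro h
    rw [QuotientGroup.eq_one_iff, Subgroup.mem_subgroupOf] at h
    exact hgH h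
  have hmem : ∀ i : ℕ, γ ^ i = 1 ↔ g ^ i ∈ H := by
    intro i
    have : γ ^ i = QuotientGroup.mk ((⟨g, hg⟩ : H') ^ i) := rfl
    rw [this, QuotientGroup.eq_one_iff, Subgroup.mem_subgroupOf]
    rfl
  refine ⟨?_, ?_, ?_⟩
  · rw [← hmem, ← hcard]
    exact pow_card_eq_one'
  · intro g' hg'
    obtain ⟨i, hi'⟩ := mem_powers_of_prime_card hcard hγ
      (g' := QuotientGroup.mk (⟨g', hg'⟩ : H'))
    have h1 : (QuotientGroup.mk ((⟨g, hg⟩ : H') ^ i) : H' ⧸ K) =
        QuotientGroup.mk (⟨g', hg'⟩ : H') := hi'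
    rw [QuotientGroup.eq, Subgroup.mem_subgroupOf] at h1
    refine ⟨i, (g ^ i)⁻¹ * g', h1, by group⟩
  · intro i hi0 hip h
    rw [← hmem] at h
    have h2 := orderOf_dvd_of_pow_eq_one h
    have h3 : orderOf γ ∣ H.relIndex H' := hcard ▸ orderOf_dvd_natCard γ
    rcases (Nat.dvd_prime hi).1 h3 with h4 | h4
    · exact hγ (orderOf_eq_one_iff.1 h4)
    · rw [h4] at h2
      have := Nat.le_of_dvd hi0 h2
      omega

end Grp

section Transfer

/-- transfer of smoothness of a localization along an isomorphism -/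
theorem away_equiv {k R1 R2 : Type} [Field k] [CommRing R1] [CommRing R2] [Algebra k R1]
    [Algebra k R2] (e : R1 ≃ₐ[k] R2) (f1 : R1) (f2 : R2) (hf : e f1 = f2)
    (h : Algebra.FormallySmooth k (Localization.Away f1)) :
    Algebra.FormallySmooth k (Localization.Away f2) := by
  have H : (Submonoid.powers f1).map e = Submonoid.powers f2 := by
    rw [Submonoid.map_powers]
    rw [← hf]
  let e' : Localization.Away f1 ≃ₐ[k] Localization.Away f2 :=
    IsLocalization.algEquivOfAlgEquiv (Localization.Away f1) (Localization.Away f2) e H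
  exact Algebra.FormallySmooth.of_equiv e'

/-- smoothness of a smaller localization -/
theorem away_mul {k R : Type} [Field k] [CommRing R] [Algebra k R] [Algebra.FiniteType k R]
    (f g : R) (h : Algebra.FormallySmooth k (Localization.Away f)) :
    Algebra.FormallySmooth k (Localization.Away (f * g)) := by
  have : Algebra.FinitePresentation k R := Algebra.FinitePresentation.of_finiteType.1 inferInstance
  rw [← Algebra.basicOpen_subset_smoothLocus_iff] at h ⊢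
  refine Set.Subset.trans ?_ h
  rw [PrimeSpectrum.basicOpen_mul]
  exact Set.inter_subset_left

end Transfer

section Fix

variable {k A G : Type} [Field k] [CommRing A] [Algebra k A] [Group G]
  (ψ : G →* (A ≃ₐ[k] A))

/-- The elements fixed by `H`. -/
def fixS (H : Subgroup G) : Subalgebra k A where
  carrier := {x | ∀ g ∈ H, ψ g x = x}
  mul_mem' := by
    intro x y hx hy g hg
    rw [map_mul, hx g hg, hy g hg]
  add_mem' := by
    intro x y hx hy g hg
    rw [map_add, hx g hg, hy g hg]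
  algebraMap_mem' := by
    intro r g _
    exact (ψ g).commutes r

theorem mem_fixS {H : Subgroup G} {x : A} : x ∈ fixS ψ H ↔ ∀ g ∈ H, ψ g x = x := Iff.rfl

theorem finiteType_fixS [Algebra.FiniteType k A] [Finite G] (H : Subgroup G) :
    Algebra.FiniteType k (fixS ψ H) :=
  (finiteType_fixed (ψ.comp H.subtype) (fixS ψ H) (by
    intro x
    exact ⟨fun h g => h g g.2, fun h g hg => h ⟨g, hg⟩⟩)).2

theorem map_mem_fixS {H H' : Subgroup G} (hn : ∀ g ∈ H', ∀ h ∈ H, g * h * g⁻¹ ∈ H) {g : G}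
    (hg : g ∈ H') {x : A} (hx : x ∈ fixS ψ H) : ψ g x ∈ fixS ψ H := by
  intro h hh
  have h1 := hn g⁻¹ (H'.inv_mem hg) h hh
  rw [inv_inv] at h1
  have h2 : h * g = g * (g⁻¹ * h * g) := by group
  rw [← ψ_mul, h2, ψ_mul, hx _ h1]

/-- The restriction of an automorphism to the fixed elements. -/
def resS {H H' : Subgroup G} (hn : ∀ g ∈ H', ∀ h ∈ H, g * h * g⁻¹ ∈ H) {g : G}
    (hg : g ∈ H') : fixS ψ H →ₐ[k] fixS ψ H :=
  ((ψ g : A →ₐ[k] A).comp (fixS ψ H).val).codRestrict (fixS ψ H)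
    fun x => map_mem_fixS ψ hn hg x.2

theorem resS_coe {H H' : Subgroup G} (hn : ∀ g ∈ H', ∀ h ∈ H, g * h * g⁻¹ ∈ H) {g : G}
    (hg : g ∈ H') (x : fixS ψ H) : (resS ψ hn hg x : A) = ψ g x := rfl

theorem resS_iterate {H H' : Subgroup G} (hn : ∀ g ∈ H', ∀ h ∈ H, g * h * g⁻¹ ∈ H) {g : G}
    (hg : g ∈ H') (i : ℕ) (x : fixS ψ H) : (((resS ψ hn hg)^[i] x : fixS ψ H) : A)
      = ψ (g ^ i) x := by
  induction i with
  | zero => rw [pow_zero, ψ_one]; rfl
  | succ i ih => rw [Function.iterate_succ_apply', resS_coe, ih, ← ψ_mul, pow_succ']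

/-- Choice of the denominator. -/
theorem exists_denom [IsDomain A] [Algebra.FiniteType k A] [Finite G]
    (hfaith : Function.Injective ψ)
    (q : Ideal A) [q.IsPrime] (I : Subgroup G) (hI : ∀ g ∈ I, ∀ x, ψ g x - x ∈ q)
    (H H' : Subgroup G) (hle : H ≤ H') (hH' : H' ≤ I)
    (hn : ∀ g ∈ H', ∀ h ∈ H, g * h * g⁻¹ ∈ H)
    (z : A) (hz : ∀ h ∈ H, ψ h z = z)
    (hd : ∀ g ∈ H', g ∉ H → ∀ x, ∃ f ∉ q, ∃ w, f * (ψ g x - x) = w * (ψ g z - z)) :
    ∃ N : A, N ∉ q ∧ (∀ g ∈ I, ψ g N = N) ∧ ∀ g ∈ H', g ∉ H → ∀ x ∈ fixS ψ H, ∃ n : ℕ,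
      ∃ c ∈ fixS ψ H, N ^ n * (ψ g x - x) = c * (ψ g z - z) := by
  classical
  cases nonempty_fintype G
  obtain ⟨T, hT⟩ := (finiteType_fixS ψ H).out
  have hF : ∀ (g : G) (b : fixS ψ H), ∃ f : A, f ∉ q ∧ (g ∈ H' → g ∉ H →
      ∃ w, f * (ψ g b - b) = w * (ψ g z - z)) := by
    intro g b
    by_cases h : g ∈ H' ∧ g ∉ H
    · obtain ⟨f, hf, w, hw⟩ := hd g h.1 h.2 b
      exact ⟨f, hf, fun _ _ => ⟨w, hw⟩⟩
    · exact ⟨1, (Ideal.ne_top_iff_one q).1 (Ideal.IsPrime.ne_top inferInstance),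
        fun h1 h2 => absurd ⟨h1, h2⟩ h⟩
  choose F hFq hF using hF
  let P : A := ∏ g : G, ∏ b ∈ T, F g b
  have hP : P ∉ q := by
    intro h
    obtain ⟨g, -, hg⟩ := (Ideal.IsPrime.prod_mem_iff (p := q)).1 h
    obtain ⟨b, -, hb⟩ := (Ideal.IsPrime.prod_mem_iff (p := q)).1 hg
    exact hFq g b hb
  let N : A := ∏ t : I, ψ (t : G) P
  have hN : N ∉ q := by
    intro h
    obtain ⟨t, -, ht⟩ := (Ideal.IsPrime.prod_mem_iff (p := q)).1 h
    have h1 := q.sub_mem ht (hI t t.2 P)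
    rw [sub_sub_cancel] at h1
    exact hP h1
  have hNI : ∀ g ∈ I, ψ g N = N := by
    intro g hg
    change ψ g (∏ t : I, ψ (t : G) P) = ∏ t : I, ψ (t : G) P
    rw [map_prod]
    refine Fintype.prod_equiv (Equiv.mulLeft (⟨g, hg⟩ : I)) _ _ fun t => ?_
    rw [← ψ_mul]
    rfl
  have hPN : P ∣ N := by
    have := Finset.dvd_prod_of_mem (fun t : I => ψ (t : G) P) (Finset.mem_univ 1)
    rw [show ψ ((1 : I) : G) P = P from ψ_one ψ P] at this
    exact this
  have hNS : N ∈ fixS ψ H := fun g hg => hNI g (hH' (hle hg))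
  refine ⟨N, hN, hNI, fun g hg hgH x hx => ?_⟩
  have hz0 : ψ g z - z ≠ 0 := by
    intro h0
    apply hgH
    have : g = 1 := by
      apply hfaith
      rw [map_one]
      ext x
      obtain ⟨f, hf, w, hw⟩ := hd g hg hgH x
      rw [h0, mul_zero] at hw
      rcases mul_eq_zero.1 hw with h1 | h1
      · exact absurd (h1 ▸ q.zero_mem) hf
      · exact sub_eq_zero.1 h1
    rw [this]
    exact H.one_mem
  have hgz : ψ g z ∈ fixS ψ H := map_mem_fixS ψ hn hg hz
  suffices hmain : ∀ x : fixS ψ H, ∃ n : ℕ, ∃ c ∈ fixS ψ H,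
      N ^ n * (ψ g x - x) = c * (ψ g z - z) from hmain ⟨x, hx⟩
  intro x
  have hxT : x ∈ Algebra.adjoin k (T : Set (fixS ψ H)) := by rw [hT]; trivial
  induction hxT using Algebra.adjoin_induction with
  | mem b hb =>
    obtain ⟨w, hw⟩ := hF g b hg hgH
    have hdvd : F g b ∣ N := by
      refine dvd_trans ?_ hPN
      exact dvd_trans (Finset.dvd_prod_of_mem (fun b => F g b) hb)
        (Finset.dvd_prod_of_mem (fun g => ∏ b ∈ T, F g b) (Finset.mem_univ g))
    obtain ⟨M, hM⟩ := hdvd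
    have h1 : N * (ψ g b - b) = (M * w) * (ψ g z - z) := by
      rw [hM]
      linear_combination M * hw
    refine ⟨1, M * w, ?_, by rw [pow_one]; exact h1⟩
    intro h hh
    have h2 := congrArg (ψ h) h1
    rw [map_mul, map_mul, map_sub, map_sub, hNS h hh, map_mem_fixS ψ hn hg b.2 h hh, b.2 h hh,
      hgz h hh, hz h hh, h1] at h2
    exact (mul_right_cancel₀ hz0 h2).symm
  | algebraMap r =>
    refine ⟨0, 0, (fixS ψ H).zero_mem, ?_⟩
    have : ψ g ((algebraMap k (fixS ψ H) r : fixS ψ H) : A) = algebraMap k (fixS ψ H) r :=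
      (ψ g).commutes r
    rw [this]
    simp
  | add x y _ _ ihx ihy =>
    obtain ⟨n, c, hc, h1⟩ := ihx
    obtain ⟨m, d, hd, h2⟩ := ihy
    refine ⟨n + m, N ^ m * c + N ^ n * d, ?_, ?_⟩
    · exact (fixS ψ H).add_mem ((fixS ψ H).mul_mem ((fixS ψ H).pow_mem hNS _) hc)
        ((fixS ψ H).mul_mem ((fixS ψ H).pow_mem hNS _) hd)
    · have e : ψ g ((x + y : fixS ψ H) : A) - ((x + y : fixS ψ H) : A)
          = (ψ g x - x) + (ψ g y - y) := by
        rw [Subalgebra.coe_add, map_add]; ring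
      rw [e, pow_add]
      linear_combination N ^ m * h1 + N ^ n * h2
  | mul x y _ _ ihx ihy =>
    obtain ⟨n, c, hc, h1⟩ := ihx
    obtain ⟨m, d, hd, h2⟩ := ihy
    refine ⟨n + m, N ^ m * c * y + N ^ n * d * ψ g x, ?_, ?_⟩
    · exact (fixS ψ H).add_mem ((fixS ψ H).mul_mem ((fixS ψ H).mul_mem
        ((fixS ψ H).pow_mem hNS _) hc) y.2) ((fixS ψ H).mul_mem ((fixS ψ H).mul_mem
        ((fixS ψ H).pow_mem hNS _) hd) (map_mem_fixS ψ hn hg x.2))
    · have e : ψ g ((x * y : fixS ψ H) : A) - ((x * y : fixS ψ H) : A)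
          = ψ g x * (ψ g y - y) + y * (ψ g x - x) := by
        rw [Subalgebra.coe_mul, map_mul]; ring
      rw [e, pow_add]
      linear_combination N ^ m * y * h1 + N ^ n * ψ g x * h2

end Fix

end Pool.Agent.MP_b525bf_ag_P
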