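import Pool.Agent.Lib.MP_b525bf_ag_W.ThmE
import Pool.Agent.Lib.MP_b525bf_ag_P.Tower_aux2
import Pool.Agent.Lib.MP_b525bf_ag_P.Descent

/-!
# P4: invariants of a group whose inertia groups have towers with principal augmentation ideals
-/

set_option autoImplicit false

namespace Pool.Agent.MP_b525bf_ag_P

open Pool.Agent.MP_b525bf_ag Pool.Agent.MP_b525bf_ag_W

/-- The subgroup `H` has a filtration with quotients of prime order or trivial such that the
augmentation ideal of each step is locally at `q` generated by `g z - z`. -/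
inductive Tower {k A G : Type} [Field k] [CommRing A] [Algebra k A] [Group G]
    (ψ : G →* (A ≃ₐ[k] A)) (q : Ideal A) : Subgroup G → Prop
  | bot : Tower ψ q ⊥
  | step (H H' : Subgroup G) (h : Tower ψ q H) (hle : H ≤ H')
      (hn : ∀ g ∈ H', ∀ h ∈ H, g * h * g⁻¹ ∈ H) (hi : H.relIndex H' = 1 ∨ (H.relIndex H').Prime)
      (z : A) (hz : ∀ h ∈ H, ψ h z = z)
      (hd : ∀ g ∈ H', g ∉ H → ∀ x, ∃ f ∉ q, ∃ w, f * (ψ g x - x) = w * (ψ g z - z)) :
      Tower ψ q H'

/-- The step of the induction in `exists_smooth_of_tower`. -/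
theorem exists_smooth_step {k A G : Type} [Field k] [Infinite k] [CommRing A] [IsDomain A]
    [Algebra k A] [Algebra.FiniteType k A] [Group G] [Finite G]
    (ψ : G →* (A ≃ₐ[k] A)) (hfaith : Function.Injective ψ)
    (q : Ideal A) [q.IsPrime] (I : Subgroup G) (hI : ∀ g ∈ I, ∀ x, ψ g x - x ∈ q)
    (H H' : Subgroup G) (hle : H ≤ H') (hH' : H' ≤ I)
    (hn : ∀ g ∈ H', ∀ h ∈ H, g * h * g⁻¹ ∈ H) (hi : (H.relIndex H').Prime)
    (z : A) (hz : ∀ h ∈ H, ψ h z = z)
    (hd : ∀ g ∈ H', g ∉ H → ∀ x, ∃ f ∉ q, ∃ w, f * (ψ g x - x) = w * (ψ g z - z))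
    (f : fixS ψ H) (hfq : (f : A) ∉ q) (hfI : ∀ g ∈ I, ψ g f = f)
    (hs : Algebra.FormallySmooth k (Localization.Away f)) :
    ∃ f : fixS ψ H', (f : A) ∉ q ∧ (∀ g ∈ I, ψ g f = f) ∧
      Algebra.FormallySmooth k (Localization.Away f) := by
  classical
  obtain ⟨N, hNq, hNI, hN⟩ := exists_denom ψ hfaith q I hI H H' hle hH' hn z hz hd
  obtain ⟨g, hg, hgH⟩ : ∃ g ∈ H', g ∉ H := by
    by_contra hcon
    push Not at hcon
    have : H.relIndex H' = 1 := Subgroup.relIndex_eq_one.2 hcon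
    rw [this] at hi
    exact Nat.not_prime_one hi
  obtain ⟨hord, hgen, hpow⟩ := prime_index H H' hn hi g hg hgH
  have : Algebra.FiniteType k (fixS ψ H) := finiteType_fixS ψ H
  have hNS : N ∈ fixS ψ H := fun g hg => hNI g (hH' (hle hg))
  let A0 : Subalgebra k (fixS ψ H) := (fixS ψ H').comap (fixS ψ H).val
  have hmem0 : ∀ x : fixS ψ H, x ∈ A0 ↔ (x : A) ∈ fixS ψ H' := fun x => Iff.rfl
  let F : fixS ψ H := f * ⟨N, hNS⟩
  have hFA : (F : A) = f * N := rfl
  have hFI : ∀ g ∈ I, ψ g F = F := by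
    intro g hg
    rw [hFA, map_mul, hfI g hg, hNI g hg]
  have hFq : (F : A) ∉ q := by
    rw [hFA]
    exact fun h => (Ideal.IsPrime.mem_or_mem inferInstance h).elim hfq hNq
  have hF0 : F ∈ A0 := fun g hg => hFI g (hH' hg)
  let τ := resS ψ hn hg
  have hA0 : ∀ x, x ∈ A0 ↔ τ x = x := by
    intro x
    rw [hmem0]
    constructor
    · intro hx
      exact Subtype.ext (hx g hg)
    · intro hx g' hg'
      have h1 : ψ g x = x := congrArg (fun y : fixS ψ H => (y : A)) hx
      obtain ⟨i, h, hh, rfl⟩ := hgen g' hg'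
      rw [ψ_mul, x.2 h hh]
      clear hg'
      induction i with
      | zero => rw [pow_zero, ψ_one]
      | succ i ih => rw [pow_succ, ψ_mul, h1, ih]
  have hsm : Algebra.FormallySmooth k (Localization.Away (⟨F, hF0⟩ : A0)) := by
    refine step_smooth τ (H.relIndex H') hi ?_ A0 hA0 ⟨F, hF0⟩ ?_ ⟨z, hz⟩ ?_ ?_ ?_
    · intro x
      apply Subtype.ext
      rw [resS_iterate]
      exact x.2 _ hord
    · intro h
      have h1 : (F : A) = 0 := congrArg (fun y : A0 => ((y : fixS ψ H) : A)) h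
      exact hFq (h1 ▸ q.zero_mem)
    · intro h
      have h1 : ψ g z = z := congrArg (fun y : fixS ψ H => (y : A)) h
      apply hgH
      have : g = 1 := by
        apply hfaith
        rw [map_one]
        ext x
        obtain ⟨f, hf, w, hw⟩ := hd g hg hgH x
        rw [h1, sub_self, mul_zero] at hw
        rcases mul_eq_zero.1 hw with h1 | h1
        · exact absurd (h1 ▸ q.zero_mem) hf
        · exact sub_eq_zero.1 h1
      rw [this]
      exact H.one_mem
    · intro i hi0 hip x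
      obtain ⟨n, c, hc, h1⟩ := hN (g ^ i) (H'.pow_mem hg i) (hpow i hi0 hip) x x.2
      refine ⟨n, f ^ n * ⟨c, hc⟩, ?_⟩
      apply Subtype.ext
      simp only [Subalgebra.coe_mul, Subalgebra.coe_sub, Subalgebra.coe_pow]
      have e1 : (((τ^[i]) x : fixS ψ H) : A) = ψ (g ^ i) x := resS_iterate ψ hn hg i x
      have e2 : (((τ^[i]) ⟨z, hz⟩ : fixS ψ H) : A) = ψ (g ^ i) z :=
        resS_iterate ψ hn hg i ⟨z, hz⟩
      rw [e1, e2, hFA, mul_pow]
      linear_combination (f : A) ^ n * h1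
    · exact away_mul f ⟨N, hNS⟩ hs
  refine ⟨⟨F, fun g hg => hFI g (hH' hg)⟩, hFq, hFI, ?_⟩
  let e0 : A0 →ₐ[k] fixS ψ H' :=
    ((fixS ψ H).val.comp A0.val).codRestrict (fixS ψ H') fun x => x.2
  have he0 : Function.Bijective e0 := by
    constructor
    · intro x y hxy
      have h1 : ((x : fixS ψ H) : A) = ((y : fixS ψ H) : A) :=
        congrArg (fun y : fixS ψ H' => (y : A)) hxy
      exact Subtype.ext (Subtype.ext h1)
    · intro y
      exact ⟨⟨⟨y, fun g hg => y.2 g (hle hg)⟩, y.2⟩, rfl⟩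
  exact away_equiv (AlgEquiv.ofBijective e0 he0) ⟨F, hF0⟩ _ rfl hsm

/-- Smoothness of the invariants of a tower, locally at `q`. -/
theorem exists_smooth_of_tower {k A G : Type} [Field k] [Infinite k] [CommRing A] [IsDomain A]
    [Algebra k A] [Algebra.FiniteType k A] [Algebra.FormallySmooth k A] [Group G] [Finite G]
    (ψ : G →* (A ≃ₐ[k] A)) (hfaith : Function.Injective ψ)
    (q : Ideal A) [q.IsPrime] (I : Subgroup G) (hI : ∀ g ∈ I, ∀ x, ψ g x - x ∈ q)
    {H : Subgroup G} (hT : Tower ψ q H) (hH : H ≤ I)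
    (A1 : Subalgebra k A) (hA1 : ∀ x, x ∈ A1 ↔ ∀ g ∈ H, ψ g x = x) :
    ∃ f : A1, (f : A) ∉ q ∧ (∀ g ∈ I, ψ g f = f) ∧
      Algebra.FormallySmooth k (Localization.Away f) := by
  have hA1' : A1 = fixS ψ H := by
    ext x
    exact hA1 x
  subst hA1'
  clear hA1
  induction hT with
  | bot =>
    refine ⟨1, (Ideal.ne_top_iff_one q).1 (Ideal.IsPrime.ne_top inferInstance),
      fun g _ => map_one (ψ g), ?_⟩
    have htop : fixS ψ (⊥ : Subgroup G) = ⊤ := by
      rw [eq_top_iff]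
      intro x _ g hg
      rw [Subgroup.mem_bot.1 hg, ψ_one]
    have : Algebra.FormallySmooth k (fixS ψ (⊥ : Subgroup G)) := by
      rw [htop]
      exact Algebra.FormallySmooth.of_equiv (Subalgebra.topEquiv (R := k) (A := A)).symm
    have : Algebra.FormallySmooth (fixS ψ (⊥ : Subgroup G))
        (Localization.Away (1 : fixS ψ (⊥ : Subgroup G))) :=
      Algebra.FormallySmooth.of_isLocalization (Submonoid.powers (1 : fixS ψ (⊥ : Subgroup G)))
    exact Algebra.FormallySmooth.comp k (fixS ψ (⊥ : Subgroup G)) _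
  | step H H' h hle hn hi z hz hd ih =>
    obtain ⟨f, hfq, hfI, hfs⟩ := ih (hle.trans hH)
    rcases hi with hi | hi
    · have : H = H' := le_antisymm hle (Subgroup.relIndex_eq_one.1 hi)
      subst this
      exact ⟨f, hfq, hfI, hfs⟩
    · exact exists_smooth_step ψ hfaith q I hI H H' hle hH hn hi z hz hd f hfq hfI hfs

/-- Theorem E2. -/
theorem formallySmooth_fixed_tower {k A G : Type} [Field k] [Infinite k] [CommRing A]
    [IsDomain A] [Algebra k A] [Algebra.FiniteType k A] [Algebra.FormallySmooth k A] [Group G]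
    [Finite G] (ψ : G →* (A ≃ₐ[k] A)) (hfaith : Function.Injective ψ)
    (A0 : Subalgebra k A) (hA0 : ∀ x, x ∈ A0 ↔ ∀ g, ψ g x = x)
    (h : ∀ q : Ideal A, q.IsPrime → ∃ I : Subgroup G, (∀ g, g ∈ I ↔ ∀ x, ψ g x - x ∈ q) ∧
      Tower ψ q I) :
    Algebra.FormallySmooth k A0 := by
  obtain ⟨hfin, hft⟩ := finiteType_fixed ψ A0 hA0
  apply MP_b525bf_ag_W.formallySmooth_of_cover
  intro q0 hq0
  have : Algebra.IsIntegral A0 A := inferInstance
  obtain ⟨q, -, hq, hqc⟩ := Ideal.exists_ideal_over_prime_of_isIntegral q0 (⊥ : Ideal A)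
    (by
      intro a ha
      have h1 : (a : A) = 0 := ha
      have h2 : a = 0 := Subtype.ext h1
      rw [h2]
      exact q0.zero_mem)
  obtain ⟨I, hI, hT⟩ := h q hq
  obtain ⟨f, hfq, -, hfs⟩ := exists_smooth_of_tower ψ hfaith q I (fun g hg => (hI g).1 hg) hT
    le_rfl (fixS ψ I) (fun x => mem_fixS ψ)
  obtain ⟨h, hh, hsm⟩ := exists_smooth_of_inertia ψ A0 hA0 q I hI (fixS ψ I)
    (fun x => mem_fixS ψ) f hfq hfs
  refine ⟨h, ?_, hsm⟩
  rw [← hqc]
  exact hh

end Pool.Agent.MP_b525bf_ag_P
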