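import Pool.Agent.Lib.MP_b525bf_ag_P.TorGrp
import Pool.Agent.Lib.MP_b525bf_ag_P.Tower
import Pool.Agent.Lib.MP_b525bf_ag_W.Inv
import Pool.Agent.Lib.MP_b525bf_ag_W.Destack

/-!
# P5: invariants of a totally ordered package
-/

set_option autoImplicit false

namespace Pool.Agent.MP_b525bf_ag_P

open Pool.Agent.MP_b525bf_ag Pool.Agent.MP_b525bf_ag_W AddMonoidAlgebra

variable {k K ι J I G : Type} [Field k] [Field K] [Algebra k K] [AddCommGroup ι] [Group G]
  [Finite G] {p : ℕ} {φ : G →* (K ≃ₐ[k] K)} {M : Fam k K ι} {a : ι} {u : J → ι}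
  {L : I → Subgroup G} {HH : Set (J → ℤ)}

/-- Smoothness of the localisations of a toric family. -/
theorem smooth_of_tor [Module.Free ℤ ι] [Module.Finite ℤ ι] (hT : Tor M a u) :
    ∀ n : ℕ, 0 < n → ∀ (x : K) (hx : x ∈ M.s (n • a)), x ≠ 0 →
      Algebra.FormallySmooth k (M.loc hx).alg := by
  intro n hn x hx hx0
  refine M.formallySmooth_loc_of_cover hT.fg hx hx0 fun q _ hq => ?_
  obtain ⟨T, C, hC⟩ := hT.chart q ⟨n, hn, x, hx, hq⟩
  have hCsm : Algebra.FormallySmooth k C.alg := by
    have h1 := hC.smooth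
    let _ : Algebra (MvPolynomial T k) C.alg := (secMap C u T hC.sec).toRingHom.toAlgebra
    have h2 : Algebra.FormallySmooth (MvPolynomial T k) C.alg := h1
    have : IsScalarTower k (MvPolynomial T k) C.alg :=
      IsScalarTower.of_algebraMap_eq fun z => ((secMap C u T hC.sec).commutes z).symm
    exact Algebra.FormallySmooth.comp k (MvPolynomial T k) C.alg
  obtain ⟨c, f, hf, hfq, hf'⟩ := exists_loc_le M q C hC.fg hC.ge
  refine ⟨c, f, hf, hfq, ?_⟩
  have hf0 : f ≠ 0 := by
    rintro rfl
    apply hfq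
    have : M.el hf = 0 := Subtype.ext (by simp)
    rw [this]; exact Ideal.zero_mem _
  have h1 : Algebra.FormallySmooth k (M.loc hf).alg := by
    rw [← loc_eq_of_le (C := C) hf hC.le hf']
    exact Fam.formallySmooth_loc _ _ hf0 hCsm
  rw [loc_congr M (M.mul' hx hf) (M.mul' hf hx) (add_comm _ _) (mul_comm _ _)]
  exact Fam.formallySmooth_loc_mul M hf hx hx0 h1

/-- The group acts faithfully on every localisation. -/
theorem eq_one_of_trivial [Fintype J] [Module.Free ℤ ι] (h : Pkg p φ M a u L HH)
    (hL : (⨅ i, L i) = ⊥) {g : G} (hg : ∀ d, ∀ y ∈ M.s d, φ g y = y) : g = 1 := by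
  have := isDomain_alg M
  have hbot : (⊥ : Ideal M.alg).IsPrime := Ideal.isPrime_bot
  have hsemi : Semi M a (⊥ : Ideal M.alg) := by
    obtain ⟨n, hn, x, hx, hx0⟩ := h.tor.nontriv
    refine ⟨n, hn, x, hx, fun h => hx0 ?_⟩
    have h1 : ((M.el hx : M.alg) : AddMonoidAlgebra K ι) = 0 := by
      rw [(Ideal.mem_bot).1 h]
      rfl
    rw [Fam.coe_el] at h1
    exact (AddMonoidAlgebra.single_eq_zero).1 h1
  obtain ⟨w, -, hgrp⟩ := h.grp ⊥ hsemi
  have hin : g ∈ inertia φ M (⊥ : Ideal M.alg) := by
    intro d y hy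
    have h0 : φ g y - y = 0 := by rw [hg d y hy, sub_self]
    have h1 : φ g y - y ∈ M.s d := by rw [h0]; exact Submodule.zero_mem _
    refine ⟨h1, ?_⟩
    have h2 : M.el h1 = 0 := by
      apply Subtype.ext
      show single d (φ g y - y) = 0
      rw [h0, single_zero]
    rw [h2]
    exact Ideal.zero_mem _
  have hall : g ∈ ⨅ i, L i := by
    rw [Subgroup.mem_iInf]
    intro i
    by_contra hgi
    obtain ⟨d, y, hy, -, hyU⟩ := hgrp.good i
    obtain ⟨c, f, hf, hfq, hf0, hfy⟩ := exists_frac M _ hy
    apply (hyU g hin hgi).1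
    have h1 := hg _ _ hfy
    rw [map_mul, hg _ _ hf] at h1
    rw [mul_left_cancel₀ hf0 h1, sub_self]
  rwa [hL, Subgroup.mem_bot] at hall

/-- A total transitive relation on a nonempty finite set has a least element. -/
theorem exists_least {R : I → I → Prop} (X : Finset I) (hX : X.Nonempty)
    (htot : ∀ i j, R i j ∨ R j i) (htr : ∀ i j l, R i j → R j l → R i l) :
    ∃ i0 ∈ X, ∀ i ∈ X, R i0 i := by
  classical
  induction X using Finset.induction_on with
  | empty => exact absurd hX (by simp)
  | insert b s hb ih =>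
    by_cases hs : s.Nonempty
    · obtain ⟨i0, hi0, hmin⟩ := ih hs
      rcases htot i0 b with h1 | h1
      · refine ⟨i0, Finset.mem_insert_of_mem hi0, fun i hi => ?_⟩
        rcases Finset.mem_insert.1 hi with rfl | hi
        · exact h1
        · exact hmin i hi
      · refine ⟨b, Finset.mem_insert_self _ _, fun i hi => ?_⟩
        rcases Finset.mem_insert.1 hi with rfl | hi
        · rcases htot i i with h | h <;> exact h
        · exact htr _ _ _ h1 (hmin i hi)
    · rw [Finset.not_nonempty_iff_eq_empty] at hs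
      subst hs
      refine ⟨b, Finset.mem_insert_self _ _, fun i hi => ?_⟩
      rcases Finset.mem_insert.1 hi with rfl | hi
      · rcases htot i i with h | h <;> exact h
      · simp at hi

/-- The good element may be chosen in the family itself. -/
theorem good_in_M {q : Ideal M.alg} [q.IsPrime] (hst : ∀ g d x, x ∈ M.s d → φ g x ∈ M.s d)
    {η : I → ι} (hgrp : GrpAt p φ M q L η) (i : I) :
    ∃ d, ∃ y ∈ M.s d, (∀ g ∈ inertia φ M q, g ∈ L i → φ g y = y) ∧
      ∀ g ∈ inertia φ M q, g ∉ L i → IsU (atP M q) (d + η i) (φ g y - y) := by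
  classical
  obtain ⟨d, y, hy, hfix, hyU⟩ := hgrp.good i
  obtain ⟨c, f, hf, hfq, hf0, hfy⟩ := exists_frac M q hy
  have := Fintype.ofFinite (inertia φ M q)
  -- the norm of `f`
  have key : ∀ s : Finset (inertia φ M q), ∃ h : (∏ g ∈ s, φ g f) ∈ M.s (s.card • c),
      M.el h ∉ q := by
    intro s
    induction s using Finset.induction_on with
    | empty =>
      refine ⟨by simpa using M.one', ?_⟩
      rw [Fam.el_eq M _ M.one' (by simp) (by simp), M.el_one]
      exact (Ideal.ne_top_iff_one q).1 (Ideal.IsPrime.ne_top inferInstance)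
    | insert g s hg ih =>
      obtain ⟨h1, h2⟩ := ih
      have h3 : φ g f ∈ M.s c := hst g c f hf
      have h4 : IsU (atP M q) c (φ g f) := by
        have hfU : IsU (atP M q) c f := (isU_atP_iff M q hf).2 hfq
        have h5 : IsU (atP M q) c (φ g f) ∨ IsU (atP M q) c (-(φ g f - f)) := by
          apply isU_add M q (le_atP M q c h3) (Submodule.neg_mem _ (le_atP M q c
            (Submodule.sub_mem _ h3 hf)))
          rw [show φ g f + -(φ g f - f) = f by ring]
          exact hfU
        rcases h5 with h5 | h5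
        · exact h5
        · exfalso
          apply inertia_not_isU φ M q g.2 (le_atP M q c hf)
          refine ⟨fun h0 => h5.1 (by rw [h0, neg_zero]),
            le_atP M q c (Submodule.sub_mem _ h3 hf), ?_⟩
          have h6 := Submodule.neg_mem _ h5.2.2
          rwa [inv_neg, neg_neg] at h6
      have h6 : M.el h3 ∉ q := (isU_atP_iff M q h3).1 h4
      have h7 := M.mul' h3 h1
      have e1 : c + s.card • c = (insert g s).card • c := by
        rw [Finset.card_insert_of_notMem hg, succ_nsmul']
      have e2 : φ g f * ∏ g ∈ s, φ g f = ∏ g ∈ insert g s, φ g f := by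
        rw [Finset.prod_insert hg]
      have h8 : (∏ g ∈ insert g s, φ g f) ∈ M.s ((insert g s).card • c) := by
        rw [← e1, ← e2]; exact h7
      refine ⟨h8, ?_⟩
      rw [Fam.el_eq M h8 h7 e1.symm e2.symm, ← Fam.el_mul M h3 h1]
      exact Ideal.IsPrime.mul_notMem inferInstance h6 h2
  obtain ⟨hN, hNq⟩ := key Finset.univ
  set N : K := ∏ g : inertia φ M q, φ g f with hNdef
  set c' : ι := (Finset.univ : Finset (inertia φ M q)).card • c with hc'
  have hNfix : ∀ g ∈ inertia φ M q, φ g N = N := by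
    intro g hg
    rw [hNdef, map_prod]
    have h4 : ∀ g' : inertia φ M q, φ g (φ g' f) = φ (((⟨g, hg⟩ : inertia φ M q) * g' :
        inertia φ M q) : G) f := by
      intro g'
      rw [Subgroup.coe_mul, map_mul, AlgEquiv.mul_apply]
    simp_rw [h4]
    exact Equiv.prod_comp (Equiv.mulLeft (⟨g, hg⟩ : inertia φ M q)) (fun g' => φ g' f)
  have hNU : IsU (atP M q) c' N := (isU_atP_iff M q hN).2 hNq
  -- the product `N y` is in the family
  have hNy : N * y ∈ M.s (c' + d) := by
    have hone : (1 : G) ∈ inertia φ M q := one_mem _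
    obtain ⟨h1, -⟩ := key (Finset.univ.erase (⟨1, hone⟩ : inertia φ M q))
    have h2 := M.mul' h1 hfy
    have e1 : N = (∏ g ∈ Finset.univ.erase (⟨1, hone⟩ : inertia φ M q), φ g f) * f := by
      rw [hNdef, ← Finset.prod_erase_mul _ _ (Finset.mem_univ (⟨1, hone⟩ : inertia φ M q))]
      congr 1
      change φ 1 f = f
      rw [map_one]
      rfl
    have e2 : c' = (Finset.univ.erase (⟨1, hone⟩ : inertia φ M q)).card • c + c := by
      rw [hc', ← succ_nsmul, Finset.card_erase_add_one (Finset.mem_univ _)]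
    rw [e1, e2, mul_assoc, add_assoc]
    exact h2
  refine ⟨c' + d, N * y, hNy, ?_, ?_⟩
  · intro g hg hgL
    rw [map_mul, hNfix g hg, hfix g hgL]
  · intro g hg hgL
    have h1 : φ g (N * y) - N * y = N * (φ g y - y) := by
      rw [map_mul, hNfix g hg]; ring
    rw [h1, add_assoc]
    exact hNU.mul (hyU g hg hgL)

/-- Smoothness of the localisations of the invariants. -/
theorem smooth_fixFam [Infinite k] [Fintype J] [Finite I] [Module.Free ℤ ι] [Module.Finite ℤ ι]
    (hp : p.Prime) (h : Pkg p φ M a u L HH) (hL : (⨅ i, L i) = ⊥)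
    (htot : ∀ (q : Ideal M.alg) [q.IsPrime], Semi M a q → ∀ w ∈ HH, ∀ w' ∈ HH,
        (1 : K) ∈ (atP M q).s (wdeg u w - wdeg u w') ∨
        (1 : K) ∈ (atP M q).s (wdeg u w' - wdeg u w)) :
    ∀ n : ℕ, 0 < n → ∀ (x : K) (hx : x ∈ (fixFam φ M).s (n • a)), x ≠ 0 →
      Algebra.FormallySmooth k ((fixFam φ M).loc hx).alg := by
  intro n hn x hx hx0
  rw [loc_fixFam hx hx0]
  have hxM : x ∈ M.s (n • a) := hx.1
  have hst := h.stab
  have hst' := loc_stable (φ := φ) hst hxM hx.2
  have := isDomain_alg (M.loc hxM)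
  have := M.finiteType_loc h.tor.fg hxM hx0
  have := smooth_of_tor h.tor n hn x hxM hx0
  suffices h : Algebra.FormallySmooth k (fixA φ (M.loc hxM)) from
    Algebra.FormallySmooth.of_equiv (A := fixA φ (M.loc hxM)) (B := (fixFam φ (M.loc hxM)).alg)
      (fixEquiv φ (M.loc hxM)).symm
  have hinj : Function.Injective (act φ (M.loc hxM) hst') := by
    classical
    rw [injective_iff_map_eq_one]
    intro g hg
    refine eq_one_of_trivial h hL fun d y hy => ?_
    have h0 : y ∈ (M.loc hxM).s d := M.le_loc hxM d hy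
    have h1 := coeff_act (M.loc hxM) hst' g ((M.loc hxM).el h0) d
    rw [hg] at h1
    have h2 : (((M.loc hxM).el h0 : (M.loc hxM).alg) : AddMonoidAlgebra K ι).coeff d = y := by
      rw [Fam.coe_el, AddMonoidAlgebra.coeff_single, Finsupp.single_eq_same]
    have h3 : y = φ g y := by
      rw [h2] at h1
      rw [← h1]
      exact h2.symm
    exact h3.symm
  refine formallySmooth_fixed_tower (act φ (M.loc hxM) hst') hinj _ (mem_fixA _ hst') ?_
  intro q hq
  -- the prime below
  set q₁ : Ideal M.alg := q.comap (M.toLoc hxM) with hq₁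
  have hq₁p : q₁.IsPrime := Ideal.comap_isPrime _ _
  have hmem : ∀ {d : ι} {y : K} (hy : y ∈ M.s d),
      M.el hy ∈ q₁ ↔ (M.loc hxM).el (M.le_loc hxM d hy) ∈ q := fun hy => Iff.rfl
  have hunit : ∀ m : ℕ, (M.loc hxM).el (M.le_loc hxM _ (M.pow' hxM m)) ∉ q := by
    intro m hmem
    refine hq.ne_top (Ideal.eq_top_of_isUnit_mem _ hmem ?_)
    refine IsUnit.of_mul_eq_one ((M.loc hxM).el ((M.loc hxM).pow' (M.inv_mem_loc hxM hx0) m)) ?_
    rw [Fam.el_mul, ← Fam.el_one]
    refine Fam.el_eq _ _ _ (by simp) ?_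
    rw [inv_pow, mul_inv_cancel₀ (pow_ne_zero m hx0)]
  have hsemi : Semi M a q₁ := by
    refine ⟨n, hn, x, hxM, fun h => ?_⟩
    apply hunit 1
    rw [hmem] at h
    rwa [Fam.el_eq _ (M.le_loc hxM _ (M.pow' hxM 1)) (M.le_loc hxM _ hxM) (one_nsmul _)
      (pow_one x)]
  obtain ⟨w, hw, hgrp⟩ := h.grp q₁ hsemi
  -- inertia
  have hact : ∀ (g : G) (b : ι) (z : K) (hz : z ∈ (M.loc hxM).s b)
      (h1 : φ g z - z ∈ (M.loc hxM).s b),
      act φ (M.loc hxM) hst' g ((M.loc hxM).el hz) - (M.loc hxM).el hz = (M.loc hxM).el h1 := by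
    intro g b z hz h1
    rw [act_el]
    apply Subtype.ext
    show single b (φ g z) - single b z = single b (φ g z - z)
    rw [single_sub]
  have hinert : ∀ g : G, g ∈ inertia φ M q₁ ↔ ∀ F, act φ (M.loc hxM) hst' g F - F ∈ q := by
    intro g
    constructor
    · intro hg F
      refine Fam.alg_induction (M.loc hxM)
        (p := fun F => act φ (M.loc hxM) hst' g F - F ∈ q) ?_ ?_ ?_ F
      · simp
      · intro F F' hF hF'
        rw [map_add, add_sub_add_comm]
        exact Ideal.add_mem _ hF hF'
      · intro b z hz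
        obtain ⟨m, hm⟩ := id hz
        obtain ⟨h1, h2⟩ := hg _ _ hm
        rw [hmem] at h2
        have h3 : φ g z - z ∈ (M.loc hxM).s b := Submodule.sub_mem _ (hst' g b z hz) hz
        have h4 : (M.loc hxM).el (M.le_loc hxM _ (M.pow' hxM m)) * (M.loc hxM).el h3 ∈ q := by
          rw [Fam.el_mul]
          rwa [Fam.el_eq (M.loc hxM) _ (M.le_loc hxM _ h1) rfl]
          rw [map_mul, map_pow, hx.2 g]
          ring
        rcases hq.mem_or_mem h4 with h5 | h5
        · exact absurd h5 (hunit m)
        · have h6 := hact g b z hz h3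
          exact h6 ▸ h5
    · intro hg d y hy
      have h1 : φ g y - y ∈ M.s d := Submodule.sub_mem _ (hst g d y hy) hy
      refine ⟨h1, ?_⟩
      rw [hmem]
      have h2 := hg ((M.loc hxM).el (M.le_loc hxM d hy))
      rwa [hact g d y (M.le_loc hxM d hy) (M.le_loc hxM d h1)] at h2
  refine ⟨inertia φ M q₁, hinert, ?_⟩
  classical
  have := Fintype.ofFinite I
  set E := inertia φ M q₁ with hE
  set η : I → ι := fun i => wdeg u (w i) with hη
  let EX : Finset I → Subgroup G := fun X => E ⊓ ⨅ i ∈ (Finset.univ \ X : Finset I), L i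
  have hEX : ∀ (X : Finset I) (g : G), g ∈ EX X ↔ g ∈ E ∧ ∀ i, i ∉ X → g ∈ L i := by
    intro X g
    simp only [EX, Subgroup.mem_inf, Subgroup.mem_iInf, Finset.mem_sdiff, Finset.mem_univ,
      true_and]
  have htower : ∀ (m : ℕ) (X : Finset I), X.card = m →
      Tower (act φ (M.loc hxM) hst') q (EX X) := by
    intro m
    induction m with
    | zero =>
      intro X hX
      rw [Finset.card_eq_zero] at hX
      subst hX
      have : EX ∅ = ⊥ := by
        rw [eq_bot_iff, ← hL]
        intro g hg
        rw [hEX] at hg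
        rw [Subgroup.mem_iInf]
        exact fun i => hg.2 i (by simp)
      rw [this]
      exact Tower.bot
    | succ m ih =>
      intro X hX
      have hXne : X.Nonempty := by
        rw [← Finset.card_pos]; omega
      obtain ⟨i0, hi0, hmin⟩ := exists_least
        (R := fun i j => (1 : K) ∈ (atP M q₁).s (η i - η j)) X hXne
        (fun i j => htot q₁ hsemi _ (hw i) _ (hw j))
        (fun i j l h1 h2 => by
          have h3 := (atP M q₁).mul' h1 h2
          rwa [one_mul, sub_add_sub_cancel] at h3)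
      have hX' : (X.erase i0).card = m := by
        rw [Finset.card_erase_of_mem hi0]; omega
      have hle : EX (X.erase i0) ≤ EX X := by
        intro g hg
        rw [hEX] at hg ⊢
        exact ⟨hg.1, fun i hi => hg.2 i fun h => hi (Finset.mem_of_mem_erase h)⟩
      have heq : ∀ g, g ∈ EX (X.erase i0) ↔ g ∈ EX X ∧ g ∈ L i0 := by
        intro g
        constructor
        · intro hg
          refine ⟨hle hg, ?_⟩
          rw [hEX] at hg
          exact hg.2 i0 (Finset.notMem_erase _ _)
        · rintro ⟨hg, hg'⟩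
          rw [hEX] at hg ⊢
          refine ⟨hg.1, fun i hi => ?_⟩
          by_cases h1 : i = i0
          · rw [h1]; exact hg'
          · exact hg.2 i fun h2 => hi (Finset.mem_erase.2 ⟨h1, h2⟩)
      obtain ⟨d', y', hy', hfix, hyU⟩ := good_in_M hst hgrp i0
      have hnorm := h.normal i0
      refine Tower.step (EX (X.erase i0)) (EX X) (ih _ hX') hle ?_ ?_
        ((M.loc hxM).el (M.le_loc hxM d' hy')) ?_ ?_
      · intro g hg g' hg'
        rw [heq] at hg' ⊢
        exact ⟨mul_mem (mul_mem hg hg'.1) (inv_mem hg), hnorm.conj_mem g' hg'.2 g⟩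
      · have h1 : (EX (X.erase i0)).relIndex (EX X) = (L i0).relIndex (EX X) := by
          have h2 : EX (X.erase i0) = EX X ⊓ L i0 := by
            ext g
            exact (heq g).trans Subgroup.mem_inf.symm
          rw [h2, Subgroup.inf_relIndex_left]
        rw [h1]
        have h3 : EX X ≤ E := fun g hg => ((hEX X g).1 hg).1
        rcases hgrp.index i0 with h4 | h4
        · left
          rw [Subgroup.relIndex_eq_one]
          exact h3.trans h4
        · have h5 : ((L i0).subgroupOf E).relIndex ((EX X).subgroupOf E) ∣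
              ((L i0).subgroupOf E).index := Subgroup.relIndex_dvd_index_of_normal _ _
          rw [Subgroup.relIndex_subgroupOf h3] at h5
          have h6 : (L i0).relIndex (EX X) ∣ p := by
            rw [← h4]
            exact h5
          rcases (Nat.dvd_prime hp).1 h6 with h7 | h7
          · exact Or.inl h7
          · right
            rw [h7]
            exact hp
      · intro g hg
        rw [heq] at hg
        rw [act_el]
        refine Fam.el_eq _ _ _ rfl ?_
        exact hfix g ((hEX X g).1 hg.1).1 hg.2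
      · intro g hgX hgX' F
        have hgE : g ∈ E := ((hEX X g).1 hgX).1
        have hgL : g ∉ L i0 := fun h1 => hgX' ((heq g).2 ⟨hgX, h1⟩)
        have hyU' := hyU g hgE hgL
        -- differences are of degree `η i0`
        have hdiff : ∀ d, ∀ y ∈ M.s d, φ g y - y ∈ (atP M q₁).s (d + η i0) := by
          intro d y hy
          have h1 := hgrp.diff g hgE d y (le_atP M q₁ d hy)
          refine (iSup₂_le fun i hi => ?_ : (⨆ i, ⨆ (_ : g ∉ L i), (atP M q₁).s (d + η i)) ≤
            (atP M q₁).s (d + η i0)) h1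
          intro z hz
          have hiX : i ∈ X := by
            by_contra hc
            exact hi (((hEX X g).1 hgX).2 i hc)
          have h2 := (atP M q₁).mul' hz (hmin i hiX)
          rw [mul_one] at h2
          have e1 : d + η i + (η i0 - η i) = d + η i0 := by abel
          rwa [e1] at h2
        set δ : (M.loc hxM).alg := act φ (M.loc hxM) hst' g
          ((M.loc hxM).el (M.le_loc hxM d' hy')) - (M.loc hxM).el (M.le_loc hxM d' hy') with hδ
        have hδ' : (δ : AddMonoidAlgebra K ι) = single d' (φ g y' - y') := by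
          rw [hδ, act_el]
          show single d' (φ g y') - single d' y' = _
          rw [← single_sub]
        refine Fam.alg_induction (M.loc hxM) (p := fun F => ∃ f ∉ q, ∃ z : (M.loc hxM).alg,
          f * (act φ (M.loc hxM) hst' g F - F) = z * δ) ?_ ?_ ?_ F
        · exact ⟨1, (Ideal.ne_top_iff_one q).1 hq.ne_top, 0, by simp⟩
        · rintro F F' ⟨f, hf, z, hz⟩ ⟨f', hf', z', hz'⟩
          refine ⟨f * f', hq.mul_notMem hf hf', f' * z + f * z', ?_⟩
          rw [map_add]
          linear_combination f' * hz + f * hz'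
        · intro b w hwb
          obtain ⟨m, hm⟩ := id hwb
          -- the difference of the numerator
          have h1 : φ g (x ^ m * w) - x ^ m * w ∈ (atP M q₁).s (m • n • a + b + η i0) :=
            hdiff _ _ hm
          have h2 : (φ g (x ^ m * w) - x ^ m * w) * (φ g y' - y')⁻¹ ∈
              (atP M q₁).s (m • n • a + b + η i0 + -(d' + η i0)) :=
            (atP M q₁).mul' h1 hyU'.2.2
          have e1 : m • n • a + b + η i0 + -(d' + η i0) = m • n • a + b - d' := by abel
          rw [e1] at h2
          obtain ⟨c, f, hf, hfq, hf0, hfz⟩ := exists_frac M q₁ h2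
          have h3 : (M.loc hxM).el (M.le_loc hxM c hf) ∉ q := fun h => hfq ((hmem hf).2 h)
          refine ⟨(M.loc hxM).el (M.le_loc hxM c hf) *
            (M.loc hxM).el (M.le_loc hxM _ (M.pow' hxM m)),
            hq.mul_notMem h3 (hunit m), (M.loc hxM).el (M.le_loc hxM _ hfz), ?_⟩
          apply Subtype.ext
          rw [MulMemClass.coe_mul, MulMemClass.coe_mul, MulMemClass.coe_mul, hδ', act_el]
          show single c f * single (m • n • a) (x ^ m) * (single b (φ g w) - single b w)
            = single (c + (m • n • a + b - d')) _ * single d' (φ g y' - y')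
          rw [← single_sub, single_mul_single, single_mul_single, single_mul_single]
          have e2 : c + m • n • a + b = c + (m • n • a + b - d') + d' := by abel
          rw [e2]
          congr 1
          rw [map_mul, map_pow, hx.2 g]
          have h4 : φ g y' - y' ≠ 0 := hyU'.1
          field_simp
  have huniv : EX Finset.univ = E := by
    ext g
    rw [hEX]
    exact ⟨fun h1 => h1.1, fun h1 => ⟨h1, fun i hi => absurd (Finset.mem_univ i) hi⟩⟩
  rw [← huniv]
  exact htower _ Finset.univ rfl

/-- The family of invariants satisfies the hypotheses of the destackification theorem. -/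
theorem goodM_fixFam [Infinite k] [Fintype J] [Finite I] [Module.Free ℤ ι] [Module.Finite ℤ ι]
    (hp : p.Prime) (h : Pkg p φ M a u L HH) (hL : (⨅ i, L i) = ⊥)
    (htot : ∀ (q : Ideal M.alg) [q.IsPrime], Semi M a q → ∀ w ∈ HH, ∀ w' ∈ HH,
        (1 : K) ∈ (atP M q).s (wdeg u w - wdeg u w') ∨
        (1 : K) ∈ (atP M q).s (wdeg u w' - wdeg u w)) :
    GoodM (fixFam φ M) a := by
  have hfg := fg_fixFam h.tor.fg h.stab
  have hone : ∀ d : ι, (1 : K) ∈ M.s d → (1 : K) ∈ (fixFam φ M).s d := fun d h =>
    ⟨h, fun g => map_one _⟩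
  have hcard : 0 < Nat.card G := Nat.card_pos
  have hint : ∀ (q0 : Ideal (fixFam φ M).alg) [q0.IsPrime], Semi (fixFam φ M) a q0 →
      IntA (fixFam φ M) a q0 := by
    intro q0 hq0 hs d
    obtain ⟨q, hq, hov⟩ := exists_over_fixFam h.stab q0
    have hs' : Semi M a q := by
      obtain ⟨n, hn, hna⟩ := hs
      exact ⟨n, hn, hov.degs (fun d => fix_le M d) hna⟩
    obtain ⟨m, hm, w, hw0, hmem⟩ := h.tor.int q hs' d
    refine ⟨m, hm, Nat.card G * w, Nat.mul_pos hcard hw0, ?_⟩
    rw [mul_nsmul']
    exact degs_fixFam h.stab q0 q hov hmem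
  refine ⟨hfg, smooth_fixFam hp h hL htot, exists_index _ a hfg hint, hint, ?_, ?_, ?_⟩
  · intro n
    exact hone _ (h.tor.neg n)
  · obtain ⟨n, hn, x, hx, hx0⟩ := h.tor.nontriv
    classical
    have := Fintype.ofFinite G
    have key : ∀ s : Finset G, (∏ g ∈ s, φ g x) ∈ M.s (s.card • n • a) := by
      intro s
      induction s using Finset.induction_on with
      | empty => simpa using M.one'
      | insert g s hg ih =>
        rw [Finset.prod_insert hg, Finset.card_insert_of_notMem hg, succ_nsmul']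
        exact M.mul' (h.stab g _ x hx) ih
    refine ⟨Nat.card G * n, Nat.mul_pos hcard hn, ∏ g, φ g x, ⟨?_, ?_⟩, ?_⟩
    · have h1 := key Finset.univ
      rw [Finset.card_univ, ← Nat.card_eq_fintype_card] at h1
      rwa [mul_nsmul']
    · intro g
      rw [map_prod]
      have h4 : ∀ g', φ g (φ g' x) = φ (g * g') x := by
        intro g'
        rw [map_mul, AlgEquiv.mul_apply]
      simp_rw [h4]
      exact Equiv.prod_comp (Equiv.mulLeft g) (fun g' => φ g' x)
    · rw [Finset.prod_ne_zero_iff]
      intro g _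
      exact (map_ne_zero_iff _ (φ g).injective).2 hx0
  · intro d
    obtain ⟨c, h1, h2⟩ := h.tor.gen d
    exact ⟨c, ⟨1, hone _ h1, one_ne_zero⟩, 1, hone _ h2, one_ne_zero⟩

/-- The abstract form of the theorem. -/
theorem exists_goodC [Infinite k] (hp : p.Prime) {B : Subalgebra k K}
    (h : HasPkg p B φ ⊥) :
    ∃ M : Fam k K ℤ, GoodC M 1 ∧ ∀ x, x ∈ M.s 0 ↔ x ∈ B ∧ ∀ g, φ g x = x := by
  obtain ⟨ι, i1, i2, i3, J, i4, I, i5, M, a, u, L, HH, hM, hM0, hL⟩ := h
  obtain ⟨ι', j1, j2, j3, J', j4, M', a', u', HH', hM', hM0', htot⟩ := exists_total hp hM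
  obtain ⟨M'', hM'', h0⟩ := (goodM_fixFam hp hM' (le_bot_iff.1 hL) htot).exists_goodC
  refine ⟨M'', hM'', fun x => ?_⟩
  rw [h0, mem_fixFam, hM0', hM0]
  rfl

end Pool.Agent.MP_b525bf_ag_P
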