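import Pool.Agent.Lib.MP_b525bf_ag_P.Defs
import Pool.Agent.Lib.MP_b525bf_ag_X.Final

/-!
# P7: the package of an étale-locally linear action (from Theorem X)
-/

set_option autoImplicit false

namespace Pool.Agent.MP_b525bf_ag_P

open Pool.Agent.MP_b525bf_ag Pool.Agent.MP_b525bf_ag_W Pool.Agent.MP_b525bf_ag_X AddMonoidAlgebra

variable {k K G ι : Type} [Field k] [Field K] [Algebra k K] [Group G] [Finite G] [AddCommGroup ι]

variable {B : Subalgebra k K} {φ : G →* (K ≃ₐ[k] K)} {F : Idx G → ℤ → Submodule k K} {p : ℕ}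
  {M : Fam k K ι} {a : ι} {EE : Set (Idx G)} {l : Idx G → ι →+ ℤ} {e : Idx G → ι}

/-- The final stage of Theorem X is a toric family; the sections are indexed by the degrees
`e E`, `E ∈ EE`. -/
theorem tor_of_fin [Module.Free ℤ ι] [Module.Finite ℤ ι] (hG : Glob B φ F M a EE l e)
    (hloc : ∀ (q : Ideal M.alg) [q.IsPrime], Semi M a q → ∃ (P : Ideal B) (H : Subgroup G)
      (Λ : LM p φ F P H) (S : Set (Idx G)), Loc Λ M EE l e q S) :
    Tor M a (fun j : e '' EE => (j : ι)) := by
  refine
    { fg := hG.fg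
      sec := ?_
      neg := hG.neg
      nontriv := hG.nontriv
      gen := hG.gen
      int := hG.int
      chart := ?_ }
  · rintro ⟨_, E, hE, rfl⟩
    exact hG.sec E hE
  · intro q hq hs
    obtain ⟨P, H, Λ, S, hS⟩ := hloc q hs
    have hd := dual_of_loc hG hS
    obtain ⟨C, hfg, -, hC1, hC2, hs1, hsm⟩ := Λ.smooth ι l e S hS.adm hS.adapt hd
    have hle : ∀ d, M.s d ≤ C.s d := fun d y hy =>
      hC2 d y (hG.leB d hy) fun E hE => hG.val E (hS.sub hE) d hy
    have hsec : ∀ j : e '' EE, (1 : K) ∈ C.s (-(j : ι)) := by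
      rintro ⟨_, E, hE, rfl⟩
      exact hle _ (hG.sec E hE)
    let T : Set (e '' EE) := {j | ∃ E ∈ S, e E = j}
    -- the indices
    let f : S → T := fun E => ⟨⟨e E, E, hS.sub E.2, rfl⟩, E, E.2, rfl⟩
    have hf : Function.Bijective f := by
      constructor
      · intro E E' h
        by_contra hne
        have h1 : e E = e E' := congrArg (fun j : T => ((j : e '' EE) : ι)) h
        have h2 := hd.self E E.2
        rw [h1, hd.ne E E.2 E' E'.2 (fun h => hne (Subtype.ext h))] at h2
        exact zero_ne_one h2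
      · rintro ⟨⟨_, _⟩, E, hE, hj⟩
        refine ⟨⟨E, hE⟩, Subtype.ext (Subtype.ext hj)⟩
    let σ : S ≃ T := Equiv.ofBijective f hf
    refine ⟨T, C,
      { unit := ?_
        le := hle
        ge := fun d y hy => hS.chart d (hC1 d y hy)
        fg := hfg
        sec := hsec
        smooth := ?_ }⟩
    · rintro ⟨_, E, hE, rfl⟩ hj
      exact hS.uni E hE fun g hg => hj ⟨E.cj g, hg, hG.ecj g E hE⟩
    · have h1 : (secMap C (fun j : e '' EE => (j : ι)) T hsec) =
          (MvPolynomial.aeval fun E : S => C.el (hs1 E)).comp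
            (MvPolynomial.renameEquiv k σ.symm).toAlgHom := by
        refine MvPolynomial.algHom_ext fun j => ?_
        rw [AlgHom.comp_apply]
        obtain ⟨E, rfl⟩ := σ.surjective j
        change MvPolynomial.aeval _ (MvPolynomial.X (σ E)) =
          MvPolynomial.aeval _ (MvPolynomial.rename σ.symm (MvPolynomial.X (σ E)))
        rw [MvPolynomial.rename_X, MvPolynomial.aeval_X, MvPolynomial.aeval_X,
          Equiv.symm_apply_apply]
        rfl
      have h2 : (secMap C (fun j : e '' EE => (j : ι)) T hsec).toRingHom =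
          ((MvPolynomial.aeval fun E : S => C.el (hs1 E) :
            MvPolynomial S k →ₐ[k] C.alg).toRingHom).comp
            (MvPolynomial.renameEquiv k σ.symm).toAlgHom.toRingHom := by
        rw [h1]
        rfl
      rw [h2]
      exact (RingHom.FormallySmooth.of_bijective
        (f := (MvPolynomial.renameEquiv k σ.symm).toAlgHom.toRingHom)
        (MvPolynomial.renameEquiv k σ.symm).bijective).comp hsm

/-- The difference operator of an element of the inertia group raises the degree by `eps`, on the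
localisation. -/
theorem diff_mem_atP (hG : Glob B φ F M a EE l e) {q : Ideal M.alg} [q.IsPrime] {P : Ideal B}
    {H : Subgroup G} {Λ : LM p φ F P H} {S : Set (Idx G)} (hS : Loc Λ M EE l e q S) {s : G}
    (hs : s ∈ inertia φ M q) {d : ι} {x : K} (hx : x ∈ (atP M q).s d) :
    φ s x - x ∈ (atP M q).s (d + epsS e S) := by
  obtain ⟨c, f, hf, hfq, hf0, hfx⟩ := exists_frac M q hx
  obtain ⟨hsf, hsfq⟩ := inertia_el φ M q hs hf hfq
  have hsfU : IsU (atP M q) c (φ s f) := (isU_atP_iff M q hsf).2 hsfq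
  have m1 : φ s (f * x) - f * x ∈ (atP M q).s (c + d + epsS e S) := diff_mem hG hS hs hfx
  have m2 : φ s f - f ∈ (atP M q).s (c + epsS e S) := diff_mem hG hS hs hf
  have m3 : x * (φ s f - f) ∈ (atP M q).s (c + d + epsS e S) := by
    have := (atP M q).mul' hx m2
    rwa [show d + (c + epsS e S) = c + d + epsS e S by abel] at this
  have m4 := (atP M q).mul' hsfU.2.2 (Submodule.sub_mem _ m1 m3)
  rw [show -c + (c + d + epsS e S) = d + epsS e S by abel] at m4
  have h1 : (φ s f)⁻¹ * (φ s (f * x) - f * x - x * (φ s f - f)) = φ s x - x := by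
    have h2 : φ s f ≠ 0 := hsfU.1
    rw [map_mul]
    field_simp
    ring
  rwa [h1] at m4

/-- One element which works for the whole inertia group. -/
theorem good_unif [CharP k p] (hp : p.Prime) (hG : Glob B φ F M a EE l e) {q : Ideal M.alg}
    [q.IsPrime] {P : Ideal B}
    {H : Subgroup G} {Λ : LM p φ F P H} {S : Set (Idx G)} (hS : Loc Λ M EE l e q S)
    (hin : inertia φ M q = ⊥ ∨ Nat.card (inertia φ M q) = p) (hgood : Good φ M e q S) :
    ∃ d, ∃ y ∈ (atP M q).s d, ∀ g ∈ inertia φ M q, g ≠ 1 →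
      IsU (atP M q) (d + epsS e S) (φ g y - y) := by
  by_cases hbot : inertia φ M q = ⊥
  · refine ⟨0, 0, Submodule.zero_mem _, fun g hg hg1 => ?_⟩
    rw [hbot, Subgroup.mem_bot] at hg
    exact absurd hg hg1
  have hcard := hin.resolve_left hbot
  obtain ⟨⟨s, hs⟩, hs0⟩ := Subgroup.ne_bot_iff_exists_ne_one.1 hbot
  have hs1 : s ≠ 1 := fun h => hs0 (Subtype.ext h)
  obtain ⟨d, y, hy, hyU⟩ := hgood s hs hs1
  refine ⟨d, y, hy, fun g hg hg1 => ?_⟩
  have hzle : Subgroup.zpowers s ≤ inertia φ M q := by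
    rw [Subgroup.zpowers_le]
    exact hs
  have hos : orderOf s = p := by
    have h1 : orderOf s ∣ p := by
      rw [← hcard]
      exact Subgroup.orderOf_dvd_natCard _ hs
    rcases (Nat.dvd_prime hp).1 h1 with h2 | h2
    · exact absurd (orderOf_eq_one_iff.1 h2) hs1
    · exact h2
  have hzeq : Subgroup.zpowers s = inertia φ M q := by
    refine Subgroup.eq_of_le_of_card_ge hzle ?_
    rw [Nat.card_zpowers, hos, hcard]
  have hgI := hg
  rw [← hzeq] at hg
  obtain ⟨n, hn⟩ := (mem_powers_iff_mem_zpowers.2 hg : g ∈ Submonoid.powers s)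
  have hn' : s ^ n = g := hn
  -- reduce modulo `p`
  obtain ⟨m, hmp, hm⟩ : ∃ m < p, s ^ m = g := by
    refine ⟨n % p, Nat.mod_lt _ hp.pos, ?_⟩
    rw [← hn', ← hos, pow_mod_orderOf]
  have hm0 : m ≠ 0 := by
    rintro rfl
    exact hg1 (by rw [← hm, pow_zero])
  set δ : K := φ s y - y with hδ
  have hpow : ∀ j : ℕ, φ (s ^ j) y - y = ∑ i ∈ Finset.range j, φ (s ^ i) δ := by
    intro j
    induction j with
    | zero => simp
    | succ j ih =>
      rw [Finset.sum_range_succ, ← ih, hδ, map_sub, pow_succ, map_mul, AlgEquiv.mul_apply]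
      ring
  have hmem : ∀ i : ℕ, φ (s ^ i) δ - δ ∈ (atP M q).s (d + epsS e S) := fun i => by
    have h1 : s ^ i ∈ inertia φ M q := Subgroup.pow_mem _ hs i
    obtain ⟨c, f, hf, hfq, hf0, hfx⟩ := exists_frac M q hyU.2.1
    obtain ⟨hsf, hsfq⟩ := inertia_el φ M q h1 hf hfq
    have hsfU : IsU (atP M q) c (φ (s ^ i) f) := (isU_atP_iff M q hsf).2 hsfq
    have m1 : φ (s ^ i) (f * δ) ∈ (atP M q).s (c + (d + epsS e S)) :=
      le_atP M q _ (hG.stable _ _ _ hfx)
    have m4 := (atP M q).mul' hsfU.2.2 m1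
    rw [show -c + (c + (d + epsS e S)) = d + epsS e S by abel] at m4
    have h2 : (φ (s ^ i) f)⁻¹ * φ (s ^ i) (f * δ) = φ (s ^ i) δ := by
      rw [map_mul, ← mul_assoc, inv_mul_cancel₀ hsfU.1, one_mul]
    rw [h2] at m4
    exact Submodule.sub_mem _ m4 hyU.2.1
  have hnon : ∀ j : ℕ, (∑ i ∈ Finset.range j, (φ (s ^ i) δ - δ)) ∈
      (atP M q).s (d + epsS e S) ∧ ¬ IsU (atP M q) (d + epsS e S)
        (∑ i ∈ Finset.range j, (φ (s ^ i) δ - δ)) := by
    intro j
    induction j with
    | zero => exact ⟨by simp, fun h => h.1 (by simp)⟩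
    | succ j ih =>
      rw [Finset.sum_range_succ]
      refine ⟨Submodule.add_mem _ ih.1 (hmem j), fun h => ?_⟩
      rcases isU_add M q ih.1 (hmem j) h with h1 | h1
      · exact ih.2 h1
      · exact inertia_not_isU φ M q (Subgroup.pow_mem _ hs j) hyU.2.1 h1
  have hmk : ((m : ℕ) : k) ≠ 0 := by
    rw [Ne, CharP.cast_eq_zero_iff k p]
    intro h
    exact absurd (Nat.le_of_dvd (Nat.pos_of_ne_zero hm0) h) (by omega)
  have hsum : φ g y - y + -∑ i ∈ Finset.range m, (φ (s ^ i) δ - δ) = ((m : ℕ) : k) • δ := by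
    rw [Nat.cast_smul_eq_nsmul k m δ, ← hm, hpow, Finset.sum_sub_distrib, Finset.sum_const,
      Finset.card_range, neg_sub, add_sub_cancel]
  have hU : IsU (atP M q) (d + epsS e S) (((m : ℕ) : k) • δ) := by
    refine ⟨smul_ne_zero hmk hyU.1, Submodule.smul_mem _ _ hyU.2.1, ?_⟩
    have h1 : (((m : ℕ) : k) • δ)⁻¹ = (((m : ℕ) : k))⁻¹ • δ⁻¹ := by
      rw [Algebra.smul_def, Algebra.smul_def, mul_inv, map_inv₀]
    rw [h1]
    exact Submodule.smul_mem _ _ hyU.2.2
  rw [← hsum] at hU
  have hgy : φ g y - y ∈ (atP M q).s (d + epsS e S) := diff_mem_atP hG hS hgI hy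
  rcases isU_add M q hgy (Submodule.neg_mem _ (hnon m).1) hU with h1 | h1
  · exact h1
  · exfalso
    apply (hnon m).2
    refine ⟨fun h0 => h1.1 (by rw [h0, neg_zero]), (hnon m).1, ?_⟩
    have h3 := Submodule.neg_mem _ h1.2.2
    rwa [inv_neg, neg_neg] at h3

/-- The exponents of the degree `epsS e S`. -/
noncomputable def wS (e : Idx G → ι) (EE S : Set (Idx G)) : (e '' EE) → ℤ := by
  classical
  exact fun j => ∑ᶠ E ∈ {E | E ∈ S ∧ E.wt = 1}, if e E = j then 1 else 0

theorem wdeg_wS [Fintype (e '' EE)] {S : Set (Idx G)} (hS : S ⊆ EE) :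
    wdeg (fun j : e '' EE => (j : ι)) (wS e EE S) = epsS e S := by
  classical
  have hf : {E | E ∈ S ∧ E.wt = 1}.Finite := finite_idx_set _
  unfold wdeg wS epsS
  rw [finsum_mem_eq_finite_toFinset_sum _ hf]
  have h1 : ∀ j : e '' EE, (∑ᶠ E ∈ {E | E ∈ S ∧ E.wt = 1}, if e E = j then (1 : ℤ) else 0) • (j : ι)
      = ∑ E ∈ hf.toFinset, (if e E = j then (j : ι) else 0) := by
    intro j
    rw [finsum_mem_eq_finite_toFinset_sum _ hf, Finset.sum_smul]
    refine Finset.sum_congr rfl fun E _ => ?_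
    split_ifs
    · rw [one_smul]
    · rw [zero_smul]
  simp only [h1]
  rw [Finset.sum_comm]
  refine Finset.sum_congr rfl fun E hE => ?_
  have hES : E ∈ S := ((hf.mem_toFinset).1 hE).1
  rw [Finset.sum_eq_single ⟨e E, E, hS hES, rfl⟩]
  · simp
  · intro j _ hj
    rw [if_neg]
    intro h
    exact hj (Subtype.ext h.symm)
  · intro h
    exact absurd (Finset.mem_univ _) h

/-- The final stage of Theorem X is a package. -/
theorem hasPkg_of_ctx [CharP k p] (hc : Ctx B φ F p) : HasPkg p B φ ⊥ := by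
  classical
  obtain ⟨ι, i1, i2, i3, M, a, EE, l, e, hG, hloc⟩ := hasFin hc
  have hfin : (e '' EE).Finite := (finite_idx_set EE).image e
  have : Fintype (e '' EE) := hfin.fintype
  refine ⟨ι, i1, i2, i3, e '' EE, this, Unit, inferInstance, M, a, fun j => (j : ι),
    fun _ => ⊥, Set.range fun S : Set (Idx G) => wS e EE S,
    { tor := tor_of_fin (p := p) hG fun q hq hs => ?_
      stab := hG.stable
      normal := fun _ => inferInstance
      fin := ?_
      grp := ?_ }, hG.zero, ?_⟩
  · obtain ⟨P, H, Λ, S, hS, -⟩ := hloc q hs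
    exact ⟨P, H, Λ, S, hS⟩
  · have h1 : (Set.univ : Set (Idx G)).Finite := finite_idx_set _
    have h2 : Finite (Idx G) := Set.finite_univ_iff.1 h1
    exact Set.finite_range _
  · intro q hq hs
    obtain ⟨P, H, Λ, S, hS, hin, hgood⟩ := hloc q hs
    refine ⟨fun _ => wS e EE S, fun _ => ⟨S, rfl⟩, ?_⟩
    show GrpAt p φ M q (fun _ : Unit => ⊥) fun _ => wdeg (fun j : e '' EE => (j : ι)) (wS e EE S)
    rw [wdeg_wS hS.sub]
    refine
      { index := fun _ => ?_
        diff := ?_
        good := fun _ => ?_ }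
    · rw [Subgroup.relIndex_bot_left]
      rcases hin with h | h
      · exact Or.inl h.le
      · exact Or.inr h
    · intro g hg d x hx
      by_cases hg1 : g = 1
      · rw [hg1, map_one, AlgEquiv.one_apply, sub_self]
        exact Submodule.zero_mem _
      · refine Submodule.mem_iSup_of_mem () (Submodule.mem_iSup_of_mem ?_ ?_)
        · rw [Subgroup.mem_bot]
          exact hg1
        · exact diff_mem_atP hG hS hg hx
    · obtain ⟨d, y, hy, hyU⟩ := good_unif hc.hp hG hS hin hgood
      refine ⟨d, y, hy, fun g hg => ?_, fun g hg hg1 => hyU g hg ?_⟩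
      · rw [Subgroup.mem_bot] at hg
        rw [hg, map_one, AlgEquiv.one_apply]
      · rwa [Subgroup.mem_bot] at hg1
  · exact iInf_le _ ()

/-- The package of an étale-locally linear action. -/
theorem hasPkg_etaleLinear {k B : Type} [Field k] [CommRing B] [IsDomain B] [Algebra k B] (p : ℕ)
    [Fact p.Prime] [Infinite k] [CharP k p] [Algebra.Smooth k B] (G : Subgroup (B ≃ₐ[k] B))
    [Finite G] (hlin : ∀ P : Ideal B, P.IsMaximal → inertiaGroup G P ≠ ⊥ → LinearAt G P)
    (hp : ∀ P : Ideal B, P.IsMaximal → ¬ p ^ 2 ∣ Nat.card (inertiaGroup G P)) :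
    HasPkg p (copy k B) (fracHom.comp G.subtype) ⊥ := by
  classical
  let φ : G →* (FractionRing B ≃ₐ[k] FractionRing B) := fracHom.comp G.subtype
  have hφ : ∀ (g : G) (b : B), φ g (algebraMap B (FractionRing B) b) =
      algebraMap B (FractionRing B) ((g : B ≃ₐ[k] B) b) := fun g b => fracEquiv_algebraMap _ b
  have hinjK := IsFractionRing.injective B (FractionRing B)
  have hinj : Function.Injective φ := by
    intro g h hgh
    refine Subtype.ext (AlgEquiv.ext fun b => hinjK ?_)
    rw [← hφ, ← hφ, hgh]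
  have hst : ∀ g, ∀ b ∈ copy k B, φ g b ∈ copy k B := fun g => copy_stable _
  have hfg : (copy k B).FG := copy_fg
  have hfr : ∀ z : FractionRing B, ∃ a ∈ copy k B, ∃ b ∈ copy k B, b ≠ 0 ∧ z * b = a :=
    exists_mul_eq
  have hsys := filSys_can hst hinj hfr
  have hc : Ctx (copy k B) φ (can (copy k B) φ) p :=
    { hp := Fact.out
      fg := hfg
      sys := hsys
      inj := hinj
      model := by
        intro P' hP'
        obtain ⟨P₁, hP₁, hle⟩ := Ideal.exists_le_maximal P' hP'.ne_top
        let P : Ideal B := P₁.comap (copyEquiv k B)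
        have hPm : P.IsMaximal := Ideal.comap_isMaximal_of_equiv (copyEquiv k B)
        have hcard : Nat.card ((inertiaGroup G P).subgroupOf G) =
            Nat.card (inertiaGroup G P) :=
          Nat.card_congr (Subgroup.subgroupOfEquivOfLe (H := inertiaGroup G P) (K := G)
            fun g hg => hg.1).toEquiv
        refine ⟨(inertiaGroup G P).subgroupOf G, by rw [hcard]; exact hp P hPm, ?_⟩
        have hlin' : LinearAt G P := by
          by_cases h : inertiaGroup G P = ⊥
          · exact linearAt_of_bot G P h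
          · exact hlin P hPm h
        have hmem : ∀ (b : B) (hb : algebraMap B (FractionRing B) b ∈ copy k B),
            (⟨_, hb⟩ : copy k B) ∈ P₁ ↔ b ∈ P := fun b hb => Iff.rfl
        obtain ⟨E⟩ := exists_etLin G P hlin' P₁ hmem
        have hdiff : ∀ (g : G) (b : B), φ g (algebraMap B (FractionRing B) b) -
            algebraMap B (FractionRing B) b =
            algebraMap B (FractionRing B) ((g : B ≃ₐ[k] B) b - b) := by
          intro g b
          rw [hφ, map_sub]
        have htriv : Triv φ P₁ ((inertiaGroup G P).subgroupOf G) := by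
          rintro g hg _ ⟨b, rfl⟩
          have h1 : φ g (algebraMap B (FractionRing B) b) - algebraMap B (FractionRing B) b ∈
              copy k B := ⟨_, (hdiff g b).symm⟩
          refine ⟨h1, ?_⟩
          have h2 := (hmem ((g : B ≃ₐ[k] B) b - b) ⟨_, rfl⟩).2 (hg.2 b)
          have h3 : (⟨_, h1⟩ : copy k B) = ⟨algebraMap B (FractionRing B)
              ((g : B ≃ₐ[k] B) b - b), ⟨_, rfl⟩⟩ := Subtype.ext (hdiff g b)
          rw [← h3] at h2
          exact h2
        have hmax : ∀ g, (∀ b ∈ copy k B, ∃ h : φ g b - b ∈ copy k B,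
            (⟨φ g b - b, h⟩ : copy k B) ∈ P₁) → g ∈ (inertiaGroup G P).subgroupOf G := by
          intro g hg
          refine ⟨g.2, fun b => ?_⟩
          obtain ⟨h1, h2⟩ := hg (algebraMap B (FractionRing B) b) ⟨b, rfl⟩
          refine (hmem ((g : B ≃ₐ[k] B) b - b) ⟨_, rfl⟩).1 ?_
          have h3 : (⟨_, h1⟩ : copy k B) = ⟨algebraMap B (FractionRing B)
              ((g : B ≃ₐ[k] B) b - b), ⟨_, rfl⟩⟩ := Subtype.ext (hdiff g b)
          rw [← h3]
          exact h2
        exact nonempty_LM_of_le hsys hle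
          (nonempty_LM Fact.out hst hinj hfg hfr htriv hmax E) }
  exact hasPkg_of_ctx hc

end Pool.Agent.MP_b525bf_ag_P
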