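import Pool.Agent.Lib.MP_b525bf_ag_P.Action

/-!
# Tensor products of families of algebras and group actions
-/

set_option autoImplicit false

namespace Pool.Agent.MP_b525bf_ag_P

open TensorProduct

section Succ

variable {k : Type} [Field k] {n : ℕ} (B : Fin (n + 1) → Type) [∀ i, CommRing (B i)]
  [∀ i, Algebra k (B i)]

/-- The multilinear map of `succHom`. -/
noncomputable def succMul : MultilinearMap k B (B 0 ⊗[k] (⨂[k] i : Fin n, B i.succ)) :=
  LinearMap.uncurryLeft
    { toFun := fun x => (TensorProduct.mk k (B 0) (⨂[k] i : Fin n, B i.succ) x).compMultilinearMap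
        (PiTensorProduct.tprod k)
      map_add' := fun x y => by
        ext c
        simp
      map_smul' := fun r x => by
        ext c
        simp [TensorProduct.smul_tmul'] }

theorem succMul_apply (b : ∀ i, B i) :
    succMul (k := k) B b = b 0 ⊗ₜ[k] (⨂ₜ[k] i : Fin n, b i.succ) := rfl

/-- The homomorphism which splits off the first factor of a tensor product. -/
noncomputable def succHom : (⨂[k] i, B i) →ₐ[k] B 0 ⊗[k] (⨂[k] i : Fin n, B i.succ) :=
  PiTensorProduct.liftAlgHom (succMul B) (by rw [succMul_apply]; rfl) (fun x y => by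
    rw [succMul_apply, succMul_apply, succMul_apply, Algebra.TensorProduct.tmul_mul_tmul,
      PiTensorProduct.tprod_mul_tprod]
    rfl)

theorem succHom_tprod (b : ∀ i, B i) :
    succHom (k := k) B (⨂ₜ[k] i, b i) = b 0 ⊗ₜ[k] (⨂ₜ[k] i : Fin n, b i.succ) := by
  change PiTensorProduct.lift (succMul B) (⨂ₜ[k] i, b i) = _
  rw [PiTensorProduct.lift.tprod, succMul_apply]

/-- The multilinear map of the inverse. -/
noncomputable def consMul : MultilinearMap k (fun i : Fin n => B i.succ) (⨂[k] i, B i) :=
  MultilinearMap.curryLeft (PiTensorProduct.tprod k) (1 : B 0)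

theorem consMul_apply (c : ∀ i : Fin n, B i.succ) :
    consMul (k := k) B c = PiTensorProduct.tprod k (Fin.cons 1 c : ∀ i, B i) := rfl

/-- The inverse on the second factor. -/
noncomputable def consHom : (⨂[k] i : Fin n, B i.succ) →ₐ[k] ⨂[k] i, B i :=
  PiTensorProduct.liftAlgHom (consMul B) (by
      rw [consMul_apply, PiTensorProduct.one_def]
      congr 1
      funext i
      refine Fin.cases ?_ (fun i => ?_) i <;> rfl) (fun x y => by
    rw [consMul_apply, consMul_apply, consMul_apply, PiTensorProduct.tprod_mul_tprod]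
    congr 1
    funext i
    refine Fin.cases ?_ (fun i => ?_) i
    · simp
    · simp)

theorem consHom_tprod (c : ∀ i : Fin n, B i.succ) :
    consHom (k := k) B (⨂ₜ[k] i, c i) = PiTensorProduct.tprod k (Fin.cons 1 c : ∀ i, B i) := by
  change PiTensorProduct.lift (consMul B) (⨂ₜ[k] i, c i) = _
  rw [PiTensorProduct.lift.tprod, consMul_apply]

/-- The inverse of `succHom`. -/
noncomputable def succInv : (B 0 ⊗[k] (⨂[k] i : Fin n, B i.succ)) →ₐ[k] ⨂[k] i, B i :=
  Algebra.TensorProduct.lift (PiTensorProduct.singleAlgHom 0) (consHom B) fun _ _ =>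
    Commute.all _ _

theorem succInv_tmul (x : B 0) (c : ∀ i : Fin n, B i.succ) :
    succInv (k := k) B (x ⊗ₜ[k] (⨂ₜ[k] i, c i)) = PiTensorProduct.tprod k (Fin.cons x c : ∀ i, B i) := by
  rw [succInv, Algebra.TensorProduct.lift_tmul, consHom_tprod]
  change PiTensorProduct.tprod k (Pi.mulSingle 0 x) * _ = _
  rw [PiTensorProduct.tprod_mul_tprod]
  congr 1
  funext i
  refine Fin.cases ?_ (fun i => ?_) i
  · simp
  · simp

/-- Splitting off the first factor. -/
noncomputable def succEquiv : (⨂[k] i, B i) ≃ₐ[k] B 0 ⊗[k] (⨂[k] i : Fin n, B i.succ) :=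
  AlgEquiv.ofAlgHom (succHom B) (succInv B)
    (by
      refine AlgHom.ext fun z => ?_
      induction z with
      | zero => simp
      | add x y hx hy => rw [map_add, map_add, hx, hy]
      | tmul x c =>
        induction c using PiTensorProduct.induction_on with
        | add c c' hc hc' => rw [TensorProduct.tmul_add, map_add, map_add, hc, hc']
        | smul_tprod r c =>
          rw [TensorProduct.tmul_smul, map_smul, map_smul]
          congr 1
          rw [AlgHom.comp_apply, succInv_tmul, succHom_tprod]
          simp)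
    (by
      refine AlgHom.ext fun z => ?_
      induction z using PiTensorProduct.induction_on with
      | add c c' hc hc' => rw [map_add, map_add, hc, hc']
      | smul_tprod r c =>
        rw [map_smul, map_smul]
        congr 1
        rw [AlgHom.comp_apply, succHom_tprod, succInv_tmul]
        change PiTensorProduct.tprod k (Fin.cons (c 0) (Fin.tail c) : ∀ i, B i) = _
        rw [Fin.cons_self_tail]
        rfl)

theorem succEquiv_tprod (b : ∀ i, B i) :
    succEquiv (k := k) B (⨂ₜ[k] i, b i) = b 0 ⊗ₜ[k] (⨂ₜ[k] i : Fin n, b i.succ) :=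
  succHom_tprod B b

theorem succEquiv_symm_tmul (x : B 0) (c : ∀ i : Fin n, B i.succ) :
    (succEquiv (k := k) B).symm (x ⊗ₜ[k] (⨂ₜ[k] i, c i)) =
      PiTensorProduct.tprod k (Fin.cons x c : ∀ i, B i) :=
  succInv_tmul B x c

end Succ

section Zero

variable {k : Type} [Field k] (B : Fin 0 → Type) [∀ i, CommRing (B i)] [∀ i, Algebra k (B i)]

/-- The empty tensor product. -/
theorem algebraMap_pi_bijective : Function.Bijective (algebraMap k (⨂[k] i, B i)) := by
  have h1 : ∀ r : k, algebraMap k (⨂[k] i, B i) r =
      (PiTensorProduct.isEmptyEquiv (R := k) (s := B) (Fin 0)).symm r := fun r => by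
    rw [LinearEquiv.eq_symm_apply, Algebra.algebraMap_eq_smul_one, map_smul,
      PiTensorProduct.one_def, PiTensorProduct.isEmptyEquiv_apply_tprod, smul_eq_mul, mul_one]
  have h2 : ⇑(algebraMap k (⨂[k] i, B i)) =
      ⇑(PiTensorProduct.isEmptyEquiv (R := k) (s := B) (Fin 0)).symm := funext h1
  rw [h2]
  exact LinearEquiv.bijective _

end Zero

section Dom

variable {k : Type} [Field k]

/-- Vanishing at the closed points. -/
theorem eq_zero_of_forall_hom [IsAlgClosed k] {A : Type} [CommRing A] [IsDomain A] [Algebra k A]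
    [Algebra.FiniteType k A] {a : A} (h : ∀ f : A →ₐ[k] k, f a = 0) : a = 0 := by
  have hJ : IsJacobsonRing A := isJacobsonRing_of_finiteType (A := k)
  have h1 : a ∈ Ideal.jacobson (⊥ : Ideal A) := by
    rw [Ideal.jacobson, Submodule.mem_sInf]
    rintro m ⟨-, hm⟩
    let _ := Ideal.Quotient.field m
    have hfin : Module.Finite k (A ⧸ m) := finite_of_finite_type_of_isJacobsonRing k (A ⧸ m)
    have hb : Function.Bijective (algebraMap k (A ⧸ m)) :=
      IsAlgClosed.algebraMap_bijective_of_isIntegral
    let e : k ≃ₐ[k] (A ⧸ m) := AlgEquiv.ofBijective (Algebra.ofId k _) hb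
    have h2 := h (e.symm.toAlgHom.comp (Ideal.Quotient.mkₐ k m))
    have h3 : (Ideal.Quotient.mkₐ k m) a = 0 := by
      have h4 : e.symm (Ideal.Quotient.mkₐ k m a) = 0 := h2
      exact (map_eq_zero_iff e.symm e.symm.injective).1 h4
    exact Ideal.Quotient.eq_zero_iff_mem.1 h3
  have h2 : (⊥ : Ideal A).IsRadical := Ideal.IsPrime.isRadical Ideal.isPrime_bot
  have h3 : Ideal.jacobson (⊥ : Ideal A) = ⊥ := by
    have := (isJacobsonRing_iff.1 hJ) ⊥ h2
    exact this
  rw [h3] at h1
  exact h1

/-- The tensor product of domains over an algebraically closed field is a domain. -/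
theorem isDomain_tensor [IsAlgClosed k] (A B : Type) [CommRing A] [IsDomain A] [Algebra k A]
    [Algebra.FiniteType k A] [CommRing B] [IsDomain B] [Algebra k B] : IsDomain (A ⊗[k] B) := by
  classical
  have : Nontrivial (A ⊗[k] B) := inferInstance
  have : NoZeroDivisors (A ⊗[k] B) := by
    refine ⟨fun {u v} huv => ?_⟩
    let b := Module.Free.chooseBasis k B
    let β := Algebra.TensorProduct.basis A b
    by_contra hne
    rw [not_or] at hne
    obtain ⟨i, hi⟩ : ∃ i, β.repr u i ≠ 0 := by
      by_contra h
      push Not at h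
      exact hne.1 (β.repr.map_eq_zero_iff.1 (Finsupp.ext h))
    obtain ⟨j, hj⟩ : ∃ j, β.repr v j ≠ 0 := by
      by_contra h
      push Not at h
      exact hne.2 (β.repr.map_eq_zero_iff.1 (Finsupp.ext h))
    apply mul_ne_zero hi hj
    refine eq_zero_of_forall_hom (k := k) fun f => ?_
    let F : A ⊗[k] B →ₐ[k] B := Algebra.TensorProduct.lift ((Algebra.ofId k B).comp f)
      (AlgHom.id k B) fun _ _ => Commute.all _ _
    have hF : ∀ w i, b.repr (F w) i = f (β.repr w i) := by
      intro w i
      induction w with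
      | zero => simp
      | add x y hx hy => simp [hx, hy]
      | tmul x y =>
        have : F (x ⊗ₜ y) = f x • y := by
          simp [F, Algebra.TensorProduct.lift_tmul, Algebra.ofId_apply, Algebra.smul_def]
        rw [this]
        simp [β, Algebra.TensorProduct.basis_repr_tmul]
    have h1 : F u * F v = 0 := by rw [← map_mul, huv, map_zero]
    rw [map_mul]
    rcases mul_eq_zero.1 h1 with h | h
    · rw [← hF u i, h]
      simp
    · rw [← hF v j, h]
      simp
  exact NoZeroDivisors.to_isDomain _

end Dom

end Pool.Agent.MP_b525bf_ag_P
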