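import Pool.Agent.Lib.MP_b525bf_ag_P.RPkg
import Pool.Agent.Lib.MP_b525bf_ag_P.FromX
import Pool.Agent.Lib.MP_b525bf_ag_P.Curve
import Pool.Agent.Lib.MP_b525bf_ag_P.Tens
import Pool.Agent.Lib.MP_b525bf_ag_X.FinalTame

/-!
# P9: the final theorem
-/

set_option autoImplicit false

namespace Pool.Agent.MP_b525bf_ag_P

open Pool.Agent.MP_b525bf_ag Pool.Agent.MP_b525bf_ag_W Pool.Agent.MP_b525bf_ag_X TensorProduct

variable {k G : Type} [Field k] [Group G]

/-- The tensor product of domains of finite type over an algebraically closed field is a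
domain. -/
theorem isDomain_pi [IsAlgClosed k] (n : ℕ) (B : Fin n → Type)
    [∀ i, CommRing (B i)] [∀ i, IsDomain (B i)] [∀ i, Algebra k (B i)]
    [∀ i, Algebra.FiniteType k (B i)] : IsDomain (⨂[k] i, B i) := by
  induction n with
  | zero =>
    have hbij : Function.Bijective (algebraMap k (⨂[k] i, B i)) := algebraMap_pi_bijective B
    exact (AlgEquiv.ofBijective (Algebra.ofId k (⨂[k] i, B i)) hbij).symm.toMulEquiv.isDomain
  | succ n ih =>
    have h1 := ih fun i => B i.succ
    have hd : IsDomain (B 0 ⊗[k] (⨂[k] i : Fin n, B i.succ)) := isDomain_tensor _ _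
    exact (succEquiv (k := k) B).toMulEquiv.isDomain

theorem isDomain_of_or (n : ℕ) (B : Fin n → Type)
    [∀ i, CommRing (B i)] [∀ i, IsDomain (B i)] [∀ i, Algebra k (B i)]
    [∀ i, Algebra.FiniteType k (B i)] (h : IsAlgClosed k ∨ IsDomain (⨂[k] i, B i)) :
    IsDomain (⨂[k] i, B i) := by
  rcases h with hk | hk
  · exact isDomain_pi n B
  · exact hk

/-- The tensor product of rings with packages has a package. -/
theorem rpkg_pi [Finite G] {p : ℕ} (hp : p.Prime) (n : ℕ) (B : Fin n → Type)
    [∀ i, CommRing (B i)] [∀ i, IsDomain (B i)] [∀ i, Algebra k (B i)]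
    [IsDomain (⨂[k] i, B i)]
    (ψ : ∀ i, G →* (B i ≃ₐ[k] B i)) (N : Fin n → Subgroup G) (h : ∀ i, RPkg p (B i) (ψ i) (N i)) :
    RPkg p (⨂[k] i, B i) (tensorAct B ψ) (⨅ i, N i) := by
  induction n with
  | zero =>
    have hbij : Function.Bijective (algebraMap k (⨂[k] i, B i)) := algebraMap_pi_bijective B
    let e : k ≃ₐ[k] ⨂[k] i, B i := AlgEquiv.ofBijective (Algebra.ofId k _) hbij
    have h1 : (⨅ i, N i) = ⊤ := by simp
    rw [h1]
    exact RPkg.equiv hp e (fun g b => by
      change e b = (tensorAct B ψ g) (algebraMap k _ b)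
      rw [AlgEquiv.commutes]
      rfl) (RPkg.base hp (1 : G →* (k ≃ₐ[k] k)))
  | succ n ih =>
    have hd : IsDomain (B 0 ⊗[k] (⨂[k] i : Fin n, B i.succ)) :=
      (succEquiv (k := k) B).symm.toMulEquiv.isDomain
    have hd' : IsDomain (⨂[k] i : Fin n, B i.succ) :=
      (Algebra.TensorProduct.includeRight_injective
        (R := k) (A := B 0) (B := ⨂[k] i : Fin n, B i.succ)
        (algebraMap k (B 0)).injective).isDomain
        (Algebra.TensorProduct.includeRight :
          (⨂[k] i : Fin n, B i.succ) →ₐ[k] B 0 ⊗[k] (⨂[k] i : Fin n, B i.succ)).toRingHom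
    have h3 := ih (fun i => B i.succ) (fun i => ψ i.succ) (fun i => N i.succ)
      fun i => h i.succ
    have hN : (⨅ i, N i) = N 0 ⊓ ⨅ i : Fin n, N i.succ := by
      refine le_antisymm (le_inf (iInf_le _ _) (le_iInf fun i => iInf_le _ _)) (le_iInf fun i => ?_)
      refine Fin.cases inf_le_left (fun i => inf_le_right.trans (iInf_le _ i)) i
    rw [hN]
    let ψ' : G →* ((B 0 ⊗[k] (⨂[k] i : Fin n, B i.succ)) ≃ₐ[k]
        (B 0 ⊗[k] (⨂[k] i : Fin n, B i.succ))) :=
      { toFun := fun g => Algebra.TensorProduct.congr (ψ 0 g)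
          (tensorAct (fun i : Fin n => B i.succ) (fun i => ψ i.succ) g)
        map_one' := by
          rw [map_one, map_one]
          refine AlgEquiv.ext fun x => ?_
          change (Algebra.TensorProduct.map (AlgHom.id k _) (AlgHom.id k _)) x = x
          rw [Algebra.TensorProduct.map_id]
          rfl
        map_mul' := fun g h => by
          rw [map_mul, map_mul]
          refine AlgEquiv.ext fun x => ?_
          induction x with
          | zero => simp
          | add x y hx hy => rw [map_add, map_add, hx, hy]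
          | tmul x y => rfl }
    have hψ' : ∀ g b₁ b₂, ψ' g (b₁ ⊗ₜ b₂) = ψ 0 g b₁ ⊗ₜ
        tensorAct (fun i : Fin n => B i.succ) (fun i => ψ i.succ) g b₂ := fun g b₁ b₂ => rfl
    refine RPkg.equiv hp (succEquiv (k := k) B).symm (fun g b => ?_)
      (RPkg.prod (ψ := ψ') hp hψ' (h 0) h3)
    induction b with
    | zero => simp
    | add x y hx hy => simp only [map_add, hx, hy]
    | tmul x c =>
      induction c using PiTensorProduct.induction_on with
      | add c c' hc hc' => simp only [TensorProduct.tmul_add, map_add, hc, hc']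
      | smul_tprod r c =>
        rw [TensorProduct.tmul_smul, map_smul, map_smul, map_smul, map_smul]
        congr 1
        rw [hψ', tensorAct_tprod, succEquiv_symm_tmul, succEquiv_symm_tmul, tensorAct_tprod]
        congr 1
        funext i
        refine Fin.cases ?_ (fun i => ?_) i
        · simp
        · simp

/-- The package of a factor. -/
theorem rpkg_factor {B : Type} [CommRing B] [IsDomain B] [Algebra k B] [Algebra.Smooth k B]
    (p : ℕ) [Fact p.Prime] [Infinite k] [CharP k p] [Finite G] (ψ : G →* (B ≃ₐ[k] B))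
    (h : Admissible p ψ.range) : RPkg p B ψ ψ.ker := by
  have hfinr : Finite ψ.range := Finite.of_surjective _ ψ.rangeRestrict_surjective
  have hp : ∀ P : Ideal B, P.IsMaximal → ¬ p ^ 2 ∣ Nat.card (inertiaGroup ψ.range P) :=
    fun P hP => (h P hP).1
  have h1 : HasPkg p (copy k B) (fracHom.comp ψ.range.subtype) ⊥ := by
    by_cases hc : IsAlgClosed k ∧ Ring.DimensionLEOne B
    · obtain ⟨hk, hdim⟩ := hc
      exact hasPkg_curve p (fun P hP hne => hdim.maximalOfPrime hne hP) ψ.range hp
    · have hlin : ∀ P : Ideal B, P.IsMaximal → inertiaGroup ψ.range P ≠ ⊥ →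
          (IsAlgClosed k → p ∣ Nat.card (inertiaGroup ψ.range P)) → LinearAt ψ.range P :=
        fun P hP => (h P hP).2.resolve_left hc
      refine hasPkg_etaleLinear p ψ.range (fun P hP hne => ?_) hp
      by_cases hk : IsAlgClosed k
      · by_cases h : p ∣ Nat.card (inertiaGroup ψ.range P)
        · exact hlin P hP hne fun _ => h
        · have hle : inertiaGroup ψ.range P ≤ ψ.range := fun g hg => hg.1
          have hfin : Finite (inertiaGroup ψ.range P) :=
            Finite.of_injective (Subgroup.inclusion hle) (Subgroup.inclusion_injective hle)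
          exact exists_linear_coords_of_tame P (inertiaGroup ψ.range P) (fun g hg => hg.2)
            (fun h0 => h ((CharP.cast_eq_zero_iff k p _).1 h0))
      · exact hlin P hP hne fun h => absurd h hk
  have h2 := hasPkg_comap (Fact.out : p.Prime) h1 ψ.rangeRestrict
  have h3 : (⊥ : Subgroup ψ.range).comap ψ.rangeRestrict = ψ.ker := by
    rw [← MonoidHom.ker_rangeRestrict]
    rfl
  rw [h3] at h2
  exact h2

/-- Theorem P: quotients of products. -/
theorem hasResolution_products (p : ℕ) [Fact p.Prime] [Infinite k] [CharP k p] [Finite G]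
    (n : ℕ) (B : Fin n → Type) [∀ i, CommRing (B i)] [∀ i, IsDomain (B i)]
    [∀ i, Algebra k (B i)] [∀ i, Algebra.Smooth k (B i)]
    (hk : IsAlgClosed k ∨ IsDomain (⨂[k] i, B i)) (ψ : ∀ i, G →* (B i ≃ₐ[k] B i))
    (h : ∀ i, Admissible p (ψ i).range) : HasResolution k (invRing (tensorAct B ψ)) := by
  have hdom : IsDomain (⨂[k] i, B i) := isDomain_of_or n B hk
  -- the image of `G` in the product of the automorphism groups
  let Ψ : G →* (∀ i, B i ≃ₐ[k] B i) := MonoidHom.pi ψ
  have hfinr : Finite Ψ.range := Finite.of_surjective _ Ψ.rangeRestrict_surjective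
  let ψ' : ∀ i, Ψ.range →* (B i ≃ₐ[k] B i) := fun i =>
    (Pi.evalMonoidHom (fun i => B i ≃ₐ[k] B i) i).comp Ψ.range.subtype
  have hrange : ∀ i, (ψ' i).range = (ψ i).range := by
    intro i
    have h4 : ((ψ' i).comp Ψ.rangeRestrict).range = (ψ' i).range := by
      rw [MonoidHom.range_comp, MonoidHom.range_eq_top.2 Ψ.rangeRestrict_surjective,
        ← MonoidHom.range_eq_map]
    exact h4.symm
  have h1 : RPkg p (⨂[k] i, B i) (tensorAct B ψ') (⨅ i, (ψ' i).ker) := by
    refine rpkg_pi Fact.out n B ψ' _ fun i => rpkg_factor p (ψ' i) ?_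
    rw [hrange]
    exact h i
  have h2 : (⨅ i, (ψ' i).ker) = ⊥ := by
    rw [eq_bot_iff]
    intro g hg
    rw [Subgroup.mem_iInf] at hg
    rw [Subgroup.mem_bot]
    refine Subtype.ext (funext fun i => ?_)
    exact hg i
  rw [h2] at h1
  have h3 : invRing (tensorAct B ψ) = invRing (tensorAct B ψ') := by
    refine SetLike.ext fun b => ?_
    constructor
    · rintro hb ⟨_, g, rfl⟩
      exact hb g
    · intro hb g
      exact hb (Ψ.rangeRestrict g)
  rw [h3]
  exact h1.hasResolution Fact.out

/-- Theorem P in terms of a group of tuples of automorphisms. -/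
theorem hasResolution_tensorInv (p : ℕ) [Fact p.Prime] [Infinite k] [CharP k p]
    (n : ℕ) (B : Fin n → Type) [∀ i, CommRing (B i)] [∀ i, IsDomain (B i)]
    [∀ i, Algebra k (B i)] [∀ i, Algebra.Smooth k (B i)]
    (hk : IsAlgClosed k ∨ IsDomain (⨂[k] i, B i))
    (G : Subgroup (∀ i, B i ≃ₐ[k] B i)) [Finite G] (h : ∀ i, Admissible p (factorGroup G i)) :
    HasResolution k (tensorInv G) := by
  let ψ : ∀ i, G →* (B i ≃ₐ[k] B i) := fun i =>
    (Pi.evalMonoidHom (fun i => B i ≃ₐ[k] B i) i).comp G.subtype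
  have hrange : ∀ i, (ψ i).range = factorGroup G i := fun i => by
    change ((Pi.evalMonoidHom (fun i => B i ≃ₐ[k] B i) i).comp G.subtype).range = _
    rw [MonoidHom.range_comp, Subgroup.range_subtype]
    rfl
  have h1 : invRing (tensorAct B ψ) = tensorInv G := by
    rw [tensorInv_eq]
    refine SetLike.ext fun b => ⟨?_, ?_⟩
    · rintro hb _ ⟨g, hg, rfl⟩
      exact hb ⟨g, hg⟩
    · intro hb g
      exact hb _ ⟨g.1, g.2, rfl⟩
  have h2 : HasResolution k (invRing (tensorAct B ψ)) :=
    hasResolution_products p n B hk ψ fun i => by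
      rw [hrange]
      exact h i
  rw [h1] at h2
  exact h2

end Pool.Agent.MP_b525bf_ag_P
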