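import Pool.Agent.Lib.MP_b525bf_ag_P.Defs

/-!
# P6: change of groups for packages
-/

set_option autoImplicit false

namespace Pool.Agent.MP_b525bf_ag_P

open Pool.Agent.MP_b525bf_ag Pool.Agent.MP_b525bf_ag_W AddMonoidAlgebra

variable {k K₁ G : Type} [Field k] [Field K₁] [Algebra k K₁]

namespace ProdComap

theorem relIndex_dvd_of_normal {G : Type} [Group G] {N E E' : Subgroup G} (hN : N.Normal)
    (hE : E' ≤ E) : N.relIndex E' ∣ N.relIndex E := by
  have h1 : (N.subgroupOf E).relIndex (E'.subgroupOf E) ∣ (N.subgroupOf E).index :=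
    Subgroup.relIndex_dvd_index_of_normal _ _
  rwa [Subgroup.relIndex_subgroupOf hE] at h1

theorem mem_inertia_comp {ι G₁ : Type} [AddCommGroup ι] [Group G₁] [Finite G₁] [Group G]
    [Finite G] (φ₁ : G₁ →* (K₁ ≃ₐ[k] K₁)) (f : G →* G₁) (M : Fam k K₁ ι) (q : Ideal M.alg)
    (g : G) : g ∈ inertia (φ₁.comp f) M q ↔ f g ∈ inertia φ₁ M q := Iff.rfl

theorem inertia_comp {ι G₁ : Type} [AddCommGroup ι] [Group G₁] [Finite G₁] [Group G]
    [Finite G] (φ₁ : G₁ →* (K₁ ≃ₐ[k] K₁)) (f : G →* G₁) (M : Fam k K₁ ι) (q : Ideal M.alg) :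
    inertia (φ₁.comp f) M q = (inertia φ₁ M q).comap f := by
  ext g
  rw [mem_inertia_comp, Subgroup.mem_comap]

theorem grpAt_comap {ι I G₁ : Type} [AddCommGroup ι] [Group G₁] [Finite G₁] [Group G]
    [Finite G] {p : ℕ} (hp : p.Prime) {φ₁ : G₁ →* (K₁ ≃ₐ[k] K₁)} (f : G →* G₁) {M : Fam k K₁ ι}
    {q : Ideal M.alg} [q.IsPrime] {L : I → Subgroup G₁} (hN : ∀ i, (L i).Normal) {η : I → ι}
    (h : GrpAt p φ₁ M q L η) : GrpAt p (φ₁.comp f) M q (fun i => (L i).comap f) η := by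
  refine ⟨?_, ?_, ?_⟩
  · intro i
    rw [inertia_comp]
    have hle : ((inertia φ₁ M q).comap f).map f ≤ inertia φ₁ M q := Subgroup.map_comap_le _ _
    rw [Subgroup.relIndex_comap]
    rcases h.index i with h1 | h1
    · exact Or.inl (Subgroup.comap_mono h1)
    · have h2 := relIndex_dvd_of_normal (hN i) hle
      rw [h1] at h2
      rcases (Nat.dvd_prime hp).1 h2 with h3 | h3
      · left
        rw [← Subgroup.map_le_iff_le_comap]
        exact Subgroup.relIndex_eq_one.1 h3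
      · exact Or.inr h3
  · intro g hg d x hx
    exact h.diff (f g) hg d x hx
  · intro i
    obtain ⟨d, y, hy, h1, h2⟩ := h.good i
    exact ⟨d, y, hy, fun g hg => h1 (f g) hg, fun g hg hgL => h2 (f g) hg hgL⟩

end ProdComap

open ProdComap

/-- Change of groups. -/
theorem hasPkg_comap {G₁ : Type} [Group G₁] [Finite G₁] [Group G] [Finite G] {p : ℕ}
    (hp : p.Prime) {B₁ : Subalgebra k K₁} {φ₁ : G₁ →* (K₁ ≃ₐ[k] K₁)} {N₁ : Subgroup G₁}
    (h : HasPkg p B₁ φ₁ N₁) (f : G →* G₁) : HasPkg p B₁ (φ₁.comp f) (N₁.comap f) := by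
  obtain ⟨ι, i1, i2, i3, J, i4, I, i5, M, a, u, L, HH, hP, hM, hL⟩ := h
  refine ⟨ι, i1, i2, i3, J, i4, I, i5, M, a, u, fun i => (L i).comap f, HH, ?_, hM, ?_⟩
  · refine ⟨hP.tor, fun g d x hx => hP.stab (f g) d x hx,
      fun i => (hP.normal i).comap f, hP.fin, ?_⟩
    intro q _ hs
    obtain ⟨w, hw, hG⟩ := hP.grp q hs
    exact ⟨w, hw, grpAt_comap hp f hP.normal hG⟩
  · rw [← Subgroup.comap_iInf]
    exact Subgroup.comap_mono hL

end Pool.Agent.MP_b525bf_ag_P
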