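import Pool.Agent.Lib.MP_b525bf_ag_P.TorChart

/-!
# P3: the group conditions under a toric modification; total order
-/

set_option autoImplicit false

namespace Pool.Agent.MP_b525bf_ag_P

open Pool.Agent.MP_b525bf_ag Pool.Agent.MP_b525bf_ag_W AddMonoidAlgebra

variable {k K ι J I G : Type} [Field k] [Field K] [Algebra k K] [AddCommGroup ι] [Group G]
  [Finite G] {p : ℕ} {φ : G →* (K ≃ₐ[k] K)} {M : Fam k K ι} {a : ι} {u : J → ι} {v : J → ℕ}
  {L : I → Subgroup G} {HH : Set (J → ℤ)}

/-- The index of the intersection with a normal subgroup. -/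
theorem relIndex_dvd_of_normal {N E E' : Subgroup G} (hN : N.Normal) (hE : E' ≤ E) :
    N.relIndex E' ∣ N.relIndex E := by
  have h1 : (N.subgroupOf E).relIndex (E'.subgroupOf E) ∣ (N.subgroupOf E).index :=
    Subgroup.relIndex_dvd_index_of_normal _ _
  rwa [Subgroup.relIndex_subgroupOf hE] at h1

/-- Products with elements of a sum of pieces. -/
theorem mul_mem_iSup_pieces {κ : Type} [AddCommGroup κ] (N : Fam k K κ) {P : I → Prop} {θ : I → κ}
    {b c : κ} {x z : K} (hx : x ∈ N.s b) (hz : z ∈ ⨆ i, ⨆ (_ : P i), N.s (c + θ i)) :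
    x * z ∈ ⨆ i, ⨆ (_ : P i), N.s (b + c + θ i) := by
  have key : (⨆ i, ⨆ (_ : P i), N.s (c + θ i)) ≤
      (⨆ i, ⨆ (_ : P i), N.s (b + c + θ i)).comap (LinearMap.mulLeft k x) := by
    refine iSup₂_le fun i hi y hy => ?_
    rw [Submodule.mem_comap, LinearMap.mulLeft_apply]
    refine Submodule.mem_iSup_of_mem i (Submodule.mem_iSup_of_mem hi ?_)
    rw [add_assoc]
    exact N.mul' hx hy
  exact key hz

/-- The elements `x` with `g x - x` in a sum of pieces form a family. -/
def diffFam {κ : Type} [AddCommGroup κ] (φ : G →* (K ≃ₐ[k] K)) (N : Fam k K κ) (g : G)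
    (hg : ∀ d y, y ∈ N.s d → φ g y ∈ N.s d) (P : I → Prop) (θ : I → κ) : Fam k K κ where
  s c := N.s c ⊓ (⨆ i, ⨆ (_ : P i), N.s (c + θ i)).comap
    ((φ g : K ≃ₐ[k] K).toLinearMap - LinearMap.id)
  one' := by
    refine ⟨N.one', ?_⟩
    rw [SetLike.mem_coe, Submodule.mem_comap]
    simp
  mul' := by
    rintro b c x y ⟨hx, hx'⟩ ⟨hy, hy'⟩
    refine ⟨N.mul' hx hy, ?_⟩
    rw [SetLike.mem_coe, Submodule.mem_comap] at hx' hy' ⊢
    simp only [LinearMap.sub_apply, AlgEquiv.toLinearMap_apply, LinearMap.id_apply] at hx' hy' ⊢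
    have e : φ g (x * y) - x * y = φ g x * (φ g y - y) + y * (φ g x - x) := by
      rw [map_mul]; ring
    rw [e]
    refine Submodule.add_mem _ (mul_mem_iSup_pieces N (hg b x hx) hy') ?_
    have h1 := mul_mem_iSup_pieces N hy hx'
    rwa [add_comm c b] at h1

theorem mem_diffFam {κ : Type} [AddCommGroup κ] {N : Fam k K κ} {g : G}
    {hg : ∀ d y, y ∈ N.s d → φ g y ∈ N.s d} {P : I → Prop} {θ : I → κ} {c : κ} {x : K} :
    x ∈ (diffFam φ N g hg P θ).s c ↔
      x ∈ N.s c ∧ φ g x - x ∈ ⨆ i, ⨆ (_ : P i), N.s (c + θ i) := Iff.rfl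

/-- The group conditions pass to the points of the toric modification. -/
theorem grpAt_torStep (hst : ∀ g d x, x ∈ M.s d → φ g x ∈ M.s d)
    (hsec : ∀ j, (1 : K) ∈ M.s (-(u j))) (hp : p.Prime) (hN : ∀ i, (L i).Normal)
    {q : Ideal M.alg} [q.IsPrime]
    {q' : Ideal (torStep M u v).alg} [q'.IsPrime] (hov : Over M (torStep M u v) (inlZ ι) q q')
    {η : I → ι} (h : GrpAt p φ M q L η) :
    GrpAt p φ (torStep M u v) q' L fun i => inlZ ι (η i) := by
  have hle : ∀ d, M.s d ≤ (torStep M u v).s (inlZ ι d) := le_torStep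
  have hEE : inertia φ (torStep M u v) q' ≤ inertia φ M q := Over.inertia_le φ hst hle hov
  refine ⟨?_, ?_, ?_⟩
  · intro i
    rcases h.index i with h1 | h1
    · exact Or.inl (hEE.trans h1)
    · have h2 := relIndex_dvd_of_normal (hN i) hEE
      rw [h1] at h2
      rcases (Nat.dvd_prime hp).1 h2 with h3 | h3
      · exact Or.inl (Subgroup.relIndex_eq_one.1 h3)
      · exact Or.inr h3
  · intro g hg c x hx
    have hgN : ∀ d y, y ∈ (atP (torStep M u v) q').s d → φ g y ∈ (atP (torStep M u v) q').s d :=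
      fun d y hy => inertia_mem φ _ q' hg hy
    have key : ∀ (b : ι × ℤ) (y : K), y ∈ (torStep M u v).s b →
        φ g y - y ∈ ⨆ i, ⨆ (_ : g ∉ L i), (atP (torStep M u v) q').s (b + inlZ ι (η i)) := by
      intro b y hy
      have h1 : (torStep M u v).s b ≤ (diffFam φ (atP (torStep M u v) q') g hgN
          (fun i => g ∉ L i) (fun i => inlZ ι (η i))).s b := by
        refine torStep_le_of ?_ ?_ ?_ b
        · intro d z hz
          refine ⟨le_atP _ _ _ (hle d hz), ?_⟩
          have h2 := h.diff g (hEE hg) d z (le_atP _ _ _ hz)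
          have h3 : (⨆ i, ⨆ (_ : g ∉ L i), (atP M q).s (d + η i)) ≤
              ⨆ i, ⨆ (_ : g ∉ L i), (atP (torStep M u v) q').s ((d, 0) + inlZ ι (η i)) := by
            refine iSup_mono fun i => iSup_mono fun _ => ?_
            have h4 := Over.atP hle hov (d + η i)
            rwa [map_add] at h4
          exact h3 h2
        · refine ⟨?_, ?_⟩
          · have h2 := le_atP _ q' _ (torStep_sec (v := v) hsec none)
            have h3 : -(torU u v none) = (0, -1) := by simp [torU]
            rwa [h3] at h2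
          · rw [SetLike.mem_coe, Submodule.mem_comap]
            simp
        · intro j hj
          refine ⟨?_, ?_⟩
          · have h2 := le_atP _ q' _ (torStep_sec (v := v) hsec (some j))
            have h3 : -(torU u v (some j)) = (-(u j), (v j : ℤ)) := by simp [torU]
            rwa [h3] at h2
          · rw [SetLike.mem_coe, Submodule.mem_comap]
            simp
      exact (h1 hy).2
    obtain ⟨b, f, hf, hfq, hf0, hfx⟩ := exists_frac _ q' hx
    obtain ⟨hgf, hgfq⟩ := inertia_el φ _ q' hg hf hfq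
    have hU : IsU (atP (torStep M u v) q') b (φ g f) := (isU_atP_iff _ q' hgf).2 hgfq
    have e : φ g x - x = (φ g f)⁻¹ * (φ g (f * x) - f * x) -
        (x * (φ g f)⁻¹) * (φ g f - f) := by
      have h0 := hU.1
      rw [map_mul]
      field_simp
      ring
    rw [e]
    refine Submodule.sub_mem _ ?_ ?_
    · have h1 := mul_mem_iSup_pieces (atP (torStep M u v) q') hU.2.2 (key (b + c) _ hfx)
      rwa [neg_add_cancel_left] at h1
    · have h1 := mul_mem_iSup_pieces (atP (torStep M u v) q')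
        ((atP (torStep M u v) q').mul' hx hU.2.2) (key b _ hf)
      rwa [neg_add_cancel_right] at h1
  · intro i
    obtain ⟨d, y, hy, hfix, hU⟩ := h.good i
    refine ⟨inlZ ι d, y, Over.atP hle hov d hy, hfix, ?_⟩
    intro g hg hgL
    have h1 := hU g (hEE hg) hgL
    have h2 := (Over.isU hle hov h1.2.1).1 h1
    rwa [map_add] at h2

/-- The package of a toric modification. -/
theorem pkg_torStep [Fintype J] [Module.Free ℤ ι] [Module.Finite ℤ ι] (hp : p.Prime)
    (h : Pkg p φ M a u L HH) (hv : ∃ j, 0 < v j) : ∃ a' : ι × ℤ,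
      Pkg p φ (torStep M u v) a' (torU u v) L (torC v '' HH) ∧
      ∀ (q' : Ideal (torStep M u v).alg) [q'.IsPrime], Semi (torStep M u v) a' q' →
        ∃ (q : Ideal M.alg) (_ : q.IsPrime), Over M (torStep M u v) (inlZ ι) q q' ∧ Semi M a q ∧
        ∃ j, 0 < v j ∧ (1 : K) ∈ (atP (torStep M u v) q').s (torU u v (some j)) := by
  obtain ⟨ρ₀, hρ⟩ := tor_torStep h.tor hv
  obtain ⟨htor, hpt⟩ := hρ ρ₀ le_rfl
  refine ⟨(ρ₀ • a, 1), ⟨htor, torStep_stab φ h.stab, h.normal, h.fin.image _, ?_⟩, hpt⟩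
  intro q' _ hs
  obtain ⟨q, hq, hov, hsq, -⟩ := hpt q' hs
  obtain ⟨w, hw, hG⟩ := h.grp q hsq
  refine ⟨fun i => torC v (w i), fun i => ⟨w i, hw i, rfl⟩, ?_⟩
  have h1 := grpAt_torStep (v := v) h.stab h.tor.sec hp h.normal hov hG
  have e : (fun i => wdeg (torU u v) (torC v (w i))) = fun i => inlZ ι (wdeg u (w i)) := by
    funext i
    exact wdeg_torC u v (w i)
  rw [e]
  exact h1

namespace Total

/-- The data of a toric family. -/
structure PD (k K : Type) [Field k] [Field K] [Algebra k K] where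
  ι : Type
  [acg : AddCommGroup ι]
  [free : Module.Free ℤ ι]
  [fin : Module.Finite ℤ ι]
  J : Type
  [fJ : Fintype J]
  M : Fam k K ι
  a : ι
  u : J → ι

attribute [instance] PD.acg PD.free PD.fin PD.fJ

variable {k K I G : Type} [Field k] [Field K] [Algebra k K] [Group G]
  [Finite G] {p : ℕ} {φ : G →* (K ≃ₐ[k] K)} {L : I → Subgroup G}

/-- `D` with exponents in `HH` is a package. -/
def PD.IsPkg (D : PD k K) (p : ℕ) (φ : G →* (K ≃ₐ[k] K)) (L : I → Subgroup G)
    (HH : Set (D.J → ℤ)) : Prop := Pkg p φ D.M D.a D.u L HH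

/-- At all semistable points the monomial with exponents `c` is comparable with `1`. -/
def PD.Ord (D : PD k K) (c : D.J → ℤ) : Prop :=
  ∀ (q : Ideal D.M.alg) [q.IsPrime], Semi D.M D.a q →
    (1 : K) ∈ (atP D.M q).s (wdeg D.u c) ∨ (1 : K) ∈ (atP D.M q).s (-(wdeg D.u c))

/-- At all semistable points one of the two sections is a unit. -/
def PD.UP (D : PD k K) (j j' : D.J) : Prop :=
  ∀ (q : Ideal D.M.alg) [q.IsPrime], Semi D.M D.a q →
    (1 : K) ∈ (atP D.M q).s (D.u j) ∨ (1 : K) ∈ (atP D.M q).s (D.u j')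

/-- Refinements. -/
structure Ref (D D' : PD k K) (T : (D.J → ℤ) → (D'.J → ℤ)) : Prop where
  sub : ∀ c c', T (c - c') = T c - T c'
  ord : ∀ c, D.Ord c → D'.Ord (T c)
  zero : (D'.M.s 0) = (D.M.s 0)

theorem Ref.refl (D : PD k K) : Ref D D id := ⟨fun _ _ => rfl, fun _ h => h, rfl⟩

theorem Ref.trans {D D' D'' : PD k K} {T : (D.J → ℤ) → (D'.J → ℤ)}
    {T' : (D'.J → ℤ) → (D''.J → ℤ)} (h : Ref D D' T) (h' : Ref D' D'' T') :
    Ref D D'' (T' ∘ T) :=
  ⟨fun c c' => by simp only [Function.comp_apply]; rw [h.sub, h'.sub],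
    fun c hc => h'.ord _ (h.ord _ hc), h'.zero.trans h.zero⟩

/-- The toric step. -/
noncomputable abbrev PD.step (D : PD k K) (v : D.J → ℕ) (a' : D.ι × ℤ) : PD k K where
  ι := D.ι × ℤ
  J := Option D.J
  M := torStep D.M D.u v
  a := a'
  u := torU D.u v

theorem wdeg_neg {ι J : Type} [AddCommGroup ι] [Fintype J] (u : J → ι) (c : J → ℤ) :
    wdeg u (-c) = -(wdeg u c) := by
  unfold wdeg
  simp [Finset.sum_neg_distrib]

theorem wdeg_sub {ι J : Type} [AddCommGroup ι] [Fintype J] (u : J → ι) (c c' : J → ℤ) :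
    wdeg u (c - c') = wdeg u c - wdeg u c' := by
  unfold wdeg
  simp [sub_smul]

theorem torC_sub {J : Type} [Fintype J] (v : J → ℕ) (c c' : J → ℤ) :
    torC v (c - c') = torC v c - torC v c' := by
  funext j
  cases j with
  | none => simp [torC, mul_sub]
  | some j => simp [torC]

/-- Products of powers of sections and units. -/
theorem one_mem_sum {ι J : Type} [AddCommGroup ι] [Fintype J] (N : Fam k K ι) (u : J → ι)
    (c : J → ℤ) (h : ∀ j, (1 : K) ∈ N.s (-(c j • u j))) : (1 : K) ∈ N.s (-(wdeg u c)) := by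
  classical
  have key : ∀ s : Finset J, (1 : K) ∈ N.s (-(∑ j ∈ s, c j • u j)) := by
    intro s
    induction s using Finset.induction_on with
    | empty => simpa using N.one'
    | insert j s hj ih =>
      rw [Finset.sum_insert hj, neg_add]
      have := N.mul' (h j) ih
      rwa [one_mul] at this
  exact key Finset.univ

/-- the toric step is a refinement -/
theorem step_ref (hp : p.Prime) (D : PD k K) {HH : Set (D.J → ℤ)}
    (h : D.IsPkg p φ L HH) (v : D.J → ℕ) (hv : ∃ j, 0 < v j) :
    ∃ a', (D.step v a').IsPkg p φ L (torC v '' HH) ∧ Ref D (D.step v a') (torC v) ∧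
      (∀ j j', D.UP j j' → (D.step v a').UP (some j) (some j')) ∧
      ∀ (q' : Ideal (D.step v a').M.alg) [q'.IsPrime], Semi (D.step v a').M (D.step v a').a q' →
        ∃ j, 0 < v j ∧ (1 : K) ∈ (atP (D.step v a').M q').s ((D.step v a').u (some j)) := by
  obtain ⟨a', h1, h2⟩ := pkg_torStep hp h hv
  have hle : ∀ d, D.M.s d ≤ (torStep D.M D.u v).s (inlZ D.ι d) := le_torStep
  refine ⟨a', h1, ⟨fun c c' => torC_sub v c c', ?_, ?_⟩, ?_, ?_⟩
  · intro c hc q' hq' hs
    obtain ⟨q, hq, hov, hsq, _⟩ := h2 q' hs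
    change (1 : K) ∈ (atP (torStep D.M D.u v) q').s (wdeg (torU D.u v) (torC v c)) ∨
      (1 : K) ∈ (atP (torStep D.M D.u v) q').s (-(wdeg (torU D.u v) (torC v c)))
    rw [wdeg_torC]
    rcases hc q hsq with h3 | h3
    · exact Or.inl (Over.atP hle hov _ h3)
    · right
      have := Over.atP hle hov _ h3
      rwa [map_neg] at this
  · exact torStep_zero h.tor.sec 0
  · intro j j' hjj q' hq' hs
    obtain ⟨q, hq, hov, hsq, _⟩ := h2 q' hs
    have key : ∀ j, (1 : K) ∈ (atP D.M q).s (D.u j) →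
        (1 : K) ∈ (atP (torStep D.M D.u v) q').s (torU D.u v (some j)) := by
      intro j h3
      have h4 := Over.atP hle hov _ h3
      have h5 : (1 : K) ∈ (atP (torStep D.M D.u v) q').s (-(torU D.u v none)) :=
        le_atP _ _ _ (torStep_sec h.tor.sec none)
      have h6 := (atP (torStep D.M D.u v) q').mul' h4
        ((atP (torStep D.M D.u v) q').pow' h5 (v j))
      rw [one_pow, one_mul] at h6
      convert h6 using 2
      ext
      · simp [torU]
      · simp [torU]
    rcases hjj q hsq with h3 | h3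
    · exact Or.inl (key j h3)
    · exact Or.inr (key j' h3)
  · intro q' hq' hs
    obtain ⟨q, hq, hov, hsq, h3⟩ := h2 q' hs
    exact h3

/-- the pairs which are not treated -/
def bad (D : PD k K) (c : D.J → ℤ) : Set (D.J × D.J) :=
  {x | 0 < c x.1 ∧ c x.2 < 0 ∧ ¬ D.UP x.1 x.2}

theorem bad_finite (D : PD k K) (c : D.J → ℤ) : (bad D c).Finite := Set.toFinite _

theorem ord_of_bad_empty (D : PD k K) {HH : Set (D.J → ℤ)} (h : D.IsPkg p φ L HH)
    (c : D.J → ℤ) (hb : bad D c = ∅) : D.Ord c := by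
  classical
  intro q hq hs
  have hsec : ∀ j, (1 : K) ∈ (atP D.M q).s (-(D.u j)) := fun j => le_atP _ _ _ (h.tor.sec j)
  by_cases h1 : ∃ j, 0 < c j ∧ (1 : K) ∉ (atP D.M q).s (D.u j)
  · -- all non-units have nonnegative exponents
    obtain ⟨j0, hj0, hn0⟩ := h1
    right
    apply one_mem_sum
    intro j
    rcases le_or_gt 0 (c j) with hj | hj
    · obtain ⟨m, hm⟩ := Int.eq_ofNat_of_zero_le hj
      rw [hm]
      have := (atP D.M q).pow' (hsec j) m
      rw [one_pow] at this
      convert this using 2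
      simp
    · have hu : (1 : K) ∈ (atP D.M q).s (D.u j) := by
        by_contra hcon
        have : (j0, j) ∈ bad D c := by
          refine ⟨hj0, hj, ?_⟩
          intro hUP
          rcases hUP q hs with h3 | h3
          · exact hn0 h3
          · exact hcon h3
        rw [hb] at this
        exact this
      obtain ⟨m, hm⟩ := Int.eq_ofNat_of_zero_le (show 0 ≤ -(c j) by omega)
      have := (atP D.M q).pow' hu m
      rw [one_pow] at this
      convert this using 2
      rw [← neg_smul, hm]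
      simp
  · push Not at h1
    left
    have : wdeg D.u c = -(wdeg D.u (-c)) := by rw [wdeg_neg, neg_neg]
    rw [this]
    apply one_mem_sum
    intro j
    rcases le_or_gt (c j) 0 with hj | hj
    · obtain ⟨m, hm⟩ := Int.eq_ofNat_of_zero_le (show 0 ≤ -(c j) by omega)
      have := (atP D.M q).pow' (hsec j) m
      rw [one_pow] at this
      convert this using 2
      rw [Pi.neg_apply, hm]
      simp
    · obtain ⟨m, hm⟩ := Int.eq_ofNat_of_zero_le hj.le
      have := (atP D.M q).pow' (h1 j hj) m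
      rw [one_pow] at this
      convert this using 2
      rw [Pi.neg_apply, hm]
      simp

/-- One vector. -/
theorem exists_ord_one (hp : p.Prime) (n : ℕ) : ∀ (D : PD k K) (HH : Set (D.J → ℤ))
    (_ : D.IsPkg p φ L HH) (c : D.J → ℤ) (_ : (bad D c).ncard = n),
    ∃ (D' : PD k K) (T : (D.J → ℤ) → (D'.J → ℤ)), D'.IsPkg p φ L (T '' HH) ∧ Ref D D' T ∧
      D'.Ord (T c) := by
  classical
  induction n using Nat.strong_induction_on with
  | _ n ih =>
  intro D HH h c hc
  by_cases hb : bad D c = ∅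
  · exact ⟨D, id, by simpa using h, Ref.refl D, ord_of_bad_empty D h c hb⟩
  obtain ⟨⟨i, i'⟩, hi, hi', hii⟩ := Set.nonempty_iff_ne_empty.2 hb
  simp only at hi hi' hii
  have hne : i ≠ i' := by rintro rfl; omega
  let v : D.J → ℕ := fun j => if j = i then (c i').natAbs else if j = i' then (c i).natAbs else 0
  have hvi : v i = (c i').natAbs := by simp [v]
  have hvi' : v i' = (c i).natAbs := by simp [v, hne.symm]
  have hv : ∃ j, 0 < v j := ⟨i, by rw [hvi]; omega⟩
  obtain ⟨a', h1, h2, h3, h4⟩ := step_ref hp D h v hv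
  have hc0 : torC v c none = 0 := by
    have h5 : torC v c none = ∑ j, (v j : ℤ) * c j := rfl
    rw [h5, ← Finset.sum_subset (Finset.subset_univ {i, i'}), Finset.sum_pair hne, hvi, hvi']
    · rw [Int.natAbs_of_nonneg hi.le, Int.ofNat_natAbs_of_nonpos hi'.le]
      ring
    · intro j _ hj
      simp only [Finset.mem_insert, Finset.mem_singleton, not_or] at hj
      have : v j = 0 := by simp [v, hj.1, hj.2]
      rw [this]
      simp
  have hlt : (bad (D.step v a') (torC v c)).ncard < n := by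
    rw [← hc]
    have hsub : bad (D.step v a') (torC v c) ⊆
        (fun x : D.J × D.J => (some x.1, some x.2)) '' (bad D c \ {(i, i')}) := by
      rintro ⟨x, y⟩ ⟨hx, hy, hxy⟩
      simp only at hx hy hxy
      cases x with
      | none => 
        change 0 < torC v c none at hx
        omega
      | some x =>
        cases y with
        | none =>
          change torC v c none < 0 at hy
          omega
        | some y =>
          refine ⟨(x, y), ⟨⟨hx, hy, fun hUP => hxy (h3 x y hUP)⟩, ?_⟩, rfl⟩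
          intro hxy'
          rw [Set.mem_singleton_iff, Prod.mk.injEq] at hxy'
          obtain ⟨rfl, rfl⟩ := hxy'
          apply hxy
          intro q' hq' hs
          obtain ⟨j, hj, hju⟩ := h4 q' hs
          by_cases hjx : j = x
          · left; rw [← hjx]; exact hju
          · by_cases hjy : j = y
            · right; rw [← hjy]; exact hju
            · exfalso
              have : v j = 0 := by simp [v, hjx, hjy]
              omega
    calc (bad (D.step v a') (torC v c)).ncard
        ≤ ((fun x : D.J × D.J => (some x.1, some x.2)) '' (bad D c \ {(i, i')})).ncard :=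
          Set.ncard_le_ncard hsub (Set.toFinite _)
      _ ≤ (bad D c \ {(i, i')}).ncard := Set.ncard_image_le (Set.toFinite _)
      _ < (bad D c).ncard := Set.ncard_sdiff_singleton_lt_of_mem (show (i, i') ∈ bad D c from ⟨hi, hi', hii⟩)
          (bad_finite D c)
  obtain ⟨D', T, h5, h6, h7⟩ := ih _ hlt (D.step v a') _ h1 (torC v c) rfl
  refine ⟨D', T ∘ torC v, ?_, h2.trans h6, h7⟩
  rwa [Set.image_comp]

/-- A list of vectors. -/
theorem exists_ord_list (hp : p.Prime) (n : ℕ) : ∀ (D : PD k K) (HH : Set (D.J → ℤ))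
    (_ : D.IsPkg p φ L HH) (cs : List (D.J → ℤ)) (_ : cs.length = n),
    ∃ (D' : PD k K) (T : (D.J → ℤ) → (D'.J → ℤ)), D'.IsPkg p φ L (T '' HH) ∧ Ref D D' T ∧
      ∀ c ∈ cs, D'.Ord (T c) := by
  induction n with
  | zero =>
    intro D HH h cs hcs
    rw [List.length_eq_zero_iff] at hcs
    subst hcs
    exact ⟨D, id, by simpa using h, Ref.refl D, by simp⟩
  | succ n ih =>
    intro D HH h cs hcs
    cases cs with
    | nil => simp at hcs
    | cons c cs =>
      obtain ⟨D1, T1, h1, h2, h3⟩ := exists_ord_one hp _ D HH h c rfl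
      obtain ⟨D2, T2, h4, h5, h6⟩ := ih D1 _ h1 (cs.map T1) (by simpa using hcs)
      refine ⟨D2, T2 ∘ T1, by rwa [Set.image_comp], h2.trans h5, ?_⟩
      intro c' hc'
      rw [List.mem_cons] at hc'
      rcases hc' with rfl | hc'
      · exact h5.ord _ h3
      · exact h6 _ (List.mem_map.2 ⟨c', hc', rfl⟩)

end Total

open Total

/-- After finitely many toric modifications the monomials with exponents in `HH` are totally
ordered by divisibility at every semistable point. -/
theorem exists_total [Fintype J] [Module.Free ℤ ι] [Module.Finite ℤ ι] (hp : p.Prime)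
    (h : Pkg p φ M a u L HH) :
    ∃ (ι' : Type) (_ : AddCommGroup ι') (_ : Module.Free ℤ ι') (_ : Module.Finite ℤ ι')
      (J' : Type) (_ : Fintype J') (M' : Fam k K ι') (a' : ι') (u' : J' → ι')
      (HH' : Set (J' → ℤ)), Pkg p φ M' a' u' L HH' ∧ M'.s 0 = M.s 0 ∧
      ∀ (q : Ideal M'.alg) [q.IsPrime], Semi M' a' q → ∀ w ∈ HH', ∀ w' ∈ HH',
        (1 : K) ∈ (atP M' q).s (wdeg u' w - wdeg u' w') ∨
        (1 : K) ∈ (atP M' q).s (wdeg u' w' - wdeg u' w) := by
  classical
  let D : PD k K := ⟨ι, J, M, a, u⟩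
  have hfin : ((fun x : (J → ℤ) × (J → ℤ) => x.1 - x.2) '' (HH ×ˢ HH)).Finite :=
    (h.fin.prod h.fin).image _
  obtain ⟨D', T, h1, h2, h3⟩ := exists_ord_list hp _ D HH h hfin.toFinset.toList rfl
  refine ⟨D'.ι, D'.acg, D'.free, D'.fin, D'.J, D'.fJ, D'.M, D'.a, D'.u, T '' HH, h1, h2.zero, ?_⟩
  rintro q hq hs _ ⟨w, hw, rfl⟩ _ ⟨w', hw', rfl⟩
  have h4 : D'.Ord (T (w - w')) := by
    apply h3
    rw [Finset.mem_toList, Set.Finite.mem_toFinset]
    exact ⟨(w, w'), ⟨hw, hw'⟩, rfl⟩
  have h5 := h4 q hs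
  rw [h2.sub, wdeg_sub, neg_sub] at h5
  exact h5

end Pool.Agent.MP_b525bf_ag_P
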