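import Pool.Agent.Lib.MP_b525bf_ag_P.ProdA
import Pool.Agent.Lib.MP_b525bf_ag_P.ProdComap
import Pool.Agent.Lib.MP_b525bf_ag_P.TorGrp

/-!
# P6: products of packages
-/

set_option autoImplicit false

namespace Pool.Agent.MP_b525bf_ag_P

open Pool.Agent.MP_b525bf_ag Pool.Agent.MP_b525bf_ag_W AddMonoidAlgebra TensorProduct

variable {k K K₁ K₂ ι₁ ι₂ J₁ J₂ I₁ I₂ G : Type} [Field k] [Field K] [Algebra k K]
  [Field K₁] [Algebra k K₁] [Field K₂] [Algebra k K₂] [AddCommGroup ι₁] [AddCommGroup ι₂]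

/-- The quotient rule for the condition `diff`. -/
theorem diff_of_alg {ι I : Type} [AddCommGroup ι] [Group G] [Finite G] (φ : G →* (K ≃ₐ[k] K))
    {M : Fam k K ι} {q : Ideal M.alg} [q.IsPrime] {P : I → Prop} {θ : I → ι} {g : G}
    (hg : g ∈ inertia φ M q)
    (key : ∀ (b : ι) (y : K), y ∈ M.s b → φ g y - y ∈ ⨆ i, ⨆ (_ : P i), (atP M q).s (b + θ i))
    {c : ι} {x : K} (hx : x ∈ (atP M q).s c) :
    φ g x - x ∈ ⨆ i, ⨆ (_ : P i), (atP M q).s (c + θ i) := by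
  obtain ⟨b, f, hf, hfq, hf0, hfx⟩ := exists_frac _ q hx
  obtain ⟨hgf, hgfq⟩ := inertia_el φ _ q hg hf hfq
  have hU : IsU (atP M q) b (φ g f) := (isU_atP_iff _ q hgf).2 hgfq
  have e : φ g x - x = (φ g f)⁻¹ * (φ g (f * x) - f * x) -
      (x * (φ g f)⁻¹) * (φ g f - f) := by
    have h0 := hU.1
    rw [map_mul]
    field_simp
    ring
  rw [e]
  refine Submodule.sub_mem _ ?_ ?_
  · have h1 := mul_mem_iSup_pieces (atP M q) hU.2.2 (key (b + c) _ hfx)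
    rwa [neg_add_cancel_left] at h1
  · have h1 := mul_mem_iSup_pieces (atP M q) ((atP M q).mul' hx hU.2.2) (key b _ hf)
    rwa [neg_add_cancel_right] at h1

section

variable [Group G] [Finite G] {p : ℕ} (α₁ : K₁ →ₐ[k] K) (α₂ : K₂ →ₐ[k] K)
  {φ : G →* (K ≃ₐ[k] K)} {φ₁ : G →* (K₁ ≃ₐ[k] K₁)} {φ₂ : G →* (K₂ ≃ₐ[k] K₂)}
  {M₁ : Fam k K₁ ι₁} {M₂ : Fam k K₂ ι₂} (q : Ideal (prodFam α₁ α₂ M₁ M₂).alg)

theorem el_left_mem_iff {d₁ : ι₁} {x₁ : K₁} (h₁ : x₁ ∈ M₁.s d₁)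
    (h : α₁ x₁ ∈ (prodFam α₁ α₂ M₁ M₂).s (d₁, 0)) :
    (prodFam α₁ α₂ M₁ M₂).el h ∈ q ↔ M₁.el h₁ ∈ qL α₁ α₂ q := by
  have h1 : (prodFam α₁ α₂ M₁ M₂).el h = prodL α₁ α₂ M₁ M₂ (M₁.el h₁) := by
    refine Subtype.ext ?_
    rw [coe_prodL_el]
    rfl
  rw [h1]
  rfl

theorem el_right_mem_iff {d₂ : ι₂} {x₂ : K₂} (h₂ : x₂ ∈ M₂.s d₂)
    (h : α₂ x₂ ∈ (prodFam α₁ α₂ M₁ M₂).s (0, d₂)) :
    (prodFam α₁ α₂ M₁ M₂).el h ∈ q ↔ M₂.el h₂ ∈ qR α₁ α₂ q := by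
  have h1 : (prodFam α₁ α₂ M₁ M₂).el h = prodR α₁ α₂ M₁ M₂ (M₂.el h₂) := by
    refine Subtype.ext ?_
    rw [coe_prodR_el]
    rfl
  rw [h1]
  rfl

theorem left_mem {d₁ : ι₁} {x₁ : K₁} (h₁ : x₁ ∈ M₁.s d₁) :
    α₁ x₁ ∈ (prodFam α₁ α₂ M₁ M₂).s (d₁, 0) := by
  have h := mem_prodFam α₁ α₂ h₁ M₂.one'
  rwa [map_one, mul_one] at h

theorem right_mem {d₂ : ι₂} {x₂ : K₂} (h₂ : x₂ ∈ M₂.s d₂) :
    α₂ x₂ ∈ (prodFam α₁ α₂ M₁ M₂).s (0, d₂) := by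
  have h := mem_prodFam α₁ α₂ M₁.one' h₂
  rwa [map_one, one_mul] at h

theorem left_mem_atP [hq : q.IsPrime] {d₁ : ι₁} {x₁ : K₁}
    (h₁ : x₁ ∈ (atP M₁ (qL α₁ α₂ q)).s d₁) :
    α₁ x₁ ∈ (atP (prodFam α₁ α₂ M₁ M₂) q).s (d₁, 0) := by
  have h := mem_atP_prod α₁ α₂ q h₁ (atP M₂ (qR α₁ α₂ q)).one'
  rwa [map_one, mul_one] at h

theorem right_mem_atP [hq : q.IsPrime] {d₂ : ι₂} {x₂ : K₂}
    (h₂ : x₂ ∈ (atP M₂ (qR α₁ α₂ q)).s d₂) :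
    α₂ x₂ ∈ (atP (prodFam α₁ α₂ M₁ M₂) q).s (0, d₂) := by
  have h := mem_atP_prod α₁ α₂ q (atP M₁ (qL α₁ α₂ q)).one' h₂
  rwa [map_one, one_mul] at h

theorem isU_left [hq : q.IsPrime] {d₁ : ι₁} {x₁ : K₁}
    (h : IsU (atP M₁ (qL α₁ α₂ q)) d₁ x₁) : IsU (atP (prodFam α₁ α₂ M₁ M₂) q) (d₁, 0) (α₁ x₁) := by
  refine ⟨(map_ne_zero α₁).2 h.1, left_mem_atP α₁ α₂ q h.2.1, ?_⟩
  have h1 := left_mem_atP α₁ α₂ q h.2.2
  rw [map_inv₀] at h1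
  rwa [Prod.neg_mk, neg_zero]

theorem isU_right [hq : q.IsPrime] {d₂ : ι₂} {x₂ : K₂}
    (h : IsU (atP M₂ (qR α₁ α₂ q)) d₂ x₂) : IsU (atP (prodFam α₁ α₂ M₁ M₂) q) (0, d₂) (α₂ x₂) := by
  refine ⟨(map_ne_zero α₂).2 h.1, right_mem_atP α₁ α₂ q h.2.1, ?_⟩
  have h1 := right_mem_atP α₁ α₂ q h.2.2
  rw [map_inv₀] at h1
  rwa [Prod.neg_mk, neg_zero]

theorem inertia_le_left [hq : q.IsPrime] (h₁ : ∀ g x, φ g (α₁ x) = α₁ (φ₁ g x))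
    (hst₁ : ∀ g d x, x ∈ M₁.s d → φ₁ g x ∈ M₁.s d) :
    inertia φ (prodFam α₁ α₂ M₁ M₂) q ≤ inertia φ₁ M₁ (qL α₁ α₂ q) := by
  intro g hg d x hx
  have hx' : φ₁ g x - x ∈ M₁.s d := Submodule.sub_mem _ (hst₁ g d x hx) hx
  obtain ⟨h2, h3⟩ := hg (d, 0) (α₁ x) (left_mem α₁ α₂ hx)
  refine ⟨hx', ?_⟩
  have h4 : φ g (α₁ x) - α₁ x = α₁ (φ₁ g x - x) := by rw [h₁, map_sub]
  rw [← el_left_mem_iff α₁ α₂ q hx' (left_mem α₁ α₂ hx')]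
  convert h3 using 2
  exact h4.symm

theorem inertia_le_right [hq : q.IsPrime] (h₂ : ∀ g x, φ g (α₂ x) = α₂ (φ₂ g x))
    (hst₂ : ∀ g d x, x ∈ M₂.s d → φ₂ g x ∈ M₂.s d) :
    inertia φ (prodFam α₁ α₂ M₁ M₂) q ≤ inertia φ₂ M₂ (qR α₁ α₂ q) := by
  intro g hg d x hx
  have hx' : φ₂ g x - x ∈ M₂.s d := Submodule.sub_mem _ (hst₂ g d x hx) hx
  obtain ⟨h2, h3⟩ := hg (0, d) (α₂ x) (right_mem α₁ α₂ hx)
  refine ⟨hx', ?_⟩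
  have h4 : φ g (α₂ x) - α₂ x = α₂ (φ₂ g x - x) := by rw [h₂, map_sub]
  rw [← el_right_mem_iff α₁ α₂ q hx' (right_mem α₁ α₂ hx')]
  convert h3 using 2
  exact h4.symm

theorem index_of_le {E E' N : Subgroup G} (hp : p.Prime) (hN : N.Normal) (hE : E' ≤ E)
    (h : E ≤ N ∨ N.relIndex E = p) : E' ≤ N ∨ N.relIndex E' = p := by
  rcases h with h | h
  · exact Or.inl (hE.trans h)
  · have h2 := relIndex_dvd_of_normal hN hE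
    rw [h] at h2
    rcases (Nat.dvd_prime hp).1 h2 with h3 | h3
    · exact Or.inl (Subgroup.relIndex_eq_one.1 h3)
    · exact Or.inr h3

/-- The group conditions for a product. -/
theorem grpAt_prod [hq : q.IsPrime] (hp : p.Prime)
    (h₁ : ∀ g x, φ g (α₁ x) = α₁ (φ₁ g x)) (h₂ : ∀ g x, φ g (α₂ x) = α₂ (φ₂ g x))
    (hst₁ : ∀ g d x, x ∈ M₁.s d → φ₁ g x ∈ M₁.s d) (hst₂ : ∀ g d x, x ∈ M₂.s d → φ₂ g x ∈ M₂.s d)
    {L₁ : I₁ → Subgroup G} {L₂ : I₂ → Subgroup G} (hN₁ : ∀ i, (L₁ i).Normal)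
    (hN₂ : ∀ i, (L₂ i).Normal) {η₁ : I₁ → ι₁} {η₂ : I₂ → ι₂}
    (hg₁ : GrpAt p φ₁ M₁ (qL α₁ α₂ q) L₁ η₁) (hg₂ : GrpAt p φ₂ M₂ (qR α₁ α₂ q) L₂ η₂) :
    GrpAt p φ (prodFam α₁ α₂ M₁ M₂) q (Sum.elim L₁ L₂)
      (Sum.elim (fun i => (η₁ i, 0)) fun i => (0, η₂ i)) := by
  have hE₁ := inertia_le_left (φ := φ) α₁ α₂ q h₁ hst₁
  have hE₂ := inertia_le_right (φ := φ) α₁ α₂ q h₂ hst₂
  refine ⟨?_, ?_, ?_⟩
  · rintro (i | i)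
    · exact index_of_le hp (hN₁ i) hE₁ (hg₁.index i)
    · exact index_of_le hp (hN₂ i) hE₂ (hg₂.index i)
  · intro g hg d x hx
    refine diff_of_alg φ hg (fun b y hy => ?_) hx
    refine prodFam_induction (C := fun y => φ g y - y ∈ ⨆ i, ⨆ (_ : g ∉ Sum.elim L₁ L₂ i),
      (atP (prodFam α₁ α₂ M₁ M₂) q).s (b + Sum.elim (fun i => (η₁ i, 0)) (fun i => (0, η₂ i)) i))
      ?_ ?_ hy
    · intro x₁ hx₁ x₂ hx₂
      have e : φ g (α₁ x₁ * α₂ x₂) - α₁ x₁ * α₂ x₂ = α₁ (φ₁ g x₁) * α₂ (φ₂ g x₂ - x₂) +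
          α₂ x₂ * α₁ (φ₁ g x₁ - x₁) := by
        rw [map_mul, h₁, h₂, map_sub, map_sub]
        ring
      rw [e]
      refine Submodule.add_mem _ ?_ ?_
      · have h3 := hg₂.diff g (hE₂ hg) b.2 x₂ (le_atP _ _ _ hx₂)
        have h4 : (⨆ i, ⨆ (_ : g ∉ L₂ i), (atP M₂ (qR α₁ α₂ q)).s (b.2 + η₂ i)) ≤
            (⨆ i, ⨆ (_ : g ∉ Sum.elim L₁ L₂ i), (atP (prodFam α₁ α₂ M₁ M₂) q).s
              (b + Sum.elim (fun i => (η₁ i, 0)) (fun i => (0, η₂ i)) i)).comap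
              ((LinearMap.mulLeft k (α₁ (φ₁ g x₁))).comp α₂.toLinearMap) := by
          refine iSup₂_le fun i hi y hy => ?_
          rw [Submodule.mem_comap]
          change α₁ (φ₁ g x₁) * α₂ y ∈ _
          refine Submodule.mem_iSup_of_mem (Sum.inr i) (Submodule.mem_iSup_of_mem hi ?_)
          have h5 := mem_atP_prod α₁ α₂ q (le_atP _ _ _ (hst₁ g _ _ hx₁)) hy
          convert h5 using 2
          refine Prod.ext ?_ ?_ <;> simp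
        exact h4 h3
      · have h3 := hg₁.diff g (hE₁ hg) b.1 x₁ (le_atP _ _ _ hx₁)
        have h4 : (⨆ i, ⨆ (_ : g ∉ L₁ i), (atP M₁ (qL α₁ α₂ q)).s (b.1 + η₁ i)) ≤
            (⨆ i, ⨆ (_ : g ∉ Sum.elim L₁ L₂ i), (atP (prodFam α₁ α₂ M₁ M₂) q).s
              (b + Sum.elim (fun i => (η₁ i, 0)) (fun i => (0, η₂ i)) i)).comap
              ((LinearMap.mulLeft k (α₂ x₂)).comp α₁.toLinearMap) := by
          refine iSup₂_le fun i hi y hy => ?_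
          rw [Submodule.mem_comap]
          change α₂ x₂ * α₁ y ∈ _
          refine Submodule.mem_iSup_of_mem (Sum.inl i) (Submodule.mem_iSup_of_mem hi ?_)
          have h5 := mem_atP_prod α₁ α₂ q hy (le_atP _ _ _ hx₂)
          rw [mul_comm]
          convert h5 using 2
          refine Prod.ext ?_ ?_ <;> simp
        exact h4 h3
    · intro x y hx hy
      have e : φ g (x + y) - (x + y) = (φ g x - x) + (φ g y - y) := by rw [map_add]; ring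
      change φ g (x + y) - (x + y) ∈ _
      rw [e]
      exact Submodule.add_mem _ hx hy
  · rintro (i | i)
    · obtain ⟨d, y, hy, hfix, hU⟩ := hg₁.good i
      refine ⟨(d, 0), α₁ y, left_mem_atP α₁ α₂ q hy, fun g hg => by rw [h₁, hfix g hg], ?_⟩
      intro g hg hgL
      have h5 := isU_left α₁ α₂ q (hU g (hE₁ hg) hgL)
      rw [map_sub] at h5
      rw [h₁]
      convert h5 using 1
      refine Prod.ext ?_ ?_ <;> simp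
    · obtain ⟨d, y, hy, hfix, hU⟩ := hg₂.good i
      refine ⟨(0, d), α₂ y, right_mem_atP α₁ α₂ q hy, fun g hg => by rw [h₂, hfix g hg], ?_⟩
      intro g hg hgL
      have h5 := isU_right α₁ α₂ q (hU g (hE₂ hg) hgL)
      rw [map_sub] at h5
      rw [h₂]
      convert h5 using 1
      refine Prod.ext ?_ ?_ <;> simp

end

/-- Degrees of products. -/
theorem wdeg_inl [Fintype J₁] [Fintype J₂] (u₁ : J₁ → ι₁) (u₂ : J₂ → ι₂) (c : J₁ → ℤ) :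
    wdeg (prodU u₁ u₂) (Sum.elim c 0) = (wdeg u₁ c, 0) := by
  rw [wdeg, Fintype.sum_sum_type]
  simp only [prodU, Sum.elim_inl, Sum.elim_inr, Pi.zero_apply, zero_smul, Finset.sum_const_zero,
    add_zero]
  refine Prod.ext ?_ ?_
  · rw [Prod.fst_sum]
    rfl
  · rw [Prod.snd_sum]
    simp

theorem wdeg_inr [Fintype J₁] [Fintype J₂] (u₁ : J₁ → ι₁) (u₂ : J₂ → ι₂) (c : J₂ → ℤ) :
    wdeg (prodU u₁ u₂) (Sum.elim 0 c) = (0, wdeg u₂ c) := by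
  rw [wdeg, Fintype.sum_sum_type]
  simp only [prodU, Sum.elim_inl, Sum.elim_inr, Pi.zero_apply, zero_smul, Finset.sum_const_zero,
    zero_add]
  refine Prod.ext ?_ ?_
  · rw [Prod.fst_sum]
    simp
  · rw [Prod.snd_sum]
    rfl

/-- The product of two packages. -/
theorem hasPkg_prod [Group G] [Finite G] {p : ℕ} (hp : p.Prime) (α₁ : K₁ →ₐ[k] K)
    (α₂ : K₂ →ₐ[k] K)
    (hα : Function.Injective (Algebra.TensorProduct.lift α₁ α₂ fun _ _ => Commute.all _ _))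
    (φ : G →* (K ≃ₐ[k] K)) (φ₁ : G →* (K₁ ≃ₐ[k] K₁)) (φ₂ : G →* (K₂ ≃ₐ[k] K₂))
    (h₁ : ∀ g x, φ g (α₁ x) = α₁ (φ₁ g x)) (h₂ : ∀ g x, φ g (α₂ x) = α₂ (φ₂ g x))
    {B₁ : Subalgebra k K₁} {B₂ : Subalgebra k K₂} {N₁ N₂ : Subgroup G}
    (hB₁ : HasPkg p B₁ φ₁ N₁) (hB₂ : HasPkg p B₂ φ₂ N₂) :
    HasPkg p (B₁.map α₁ ⊔ B₂.map α₂) φ (N₁ ⊓ N₂) := by
  obtain ⟨ι₁, i1, i2, i3, J₁, i4, I₁, i5, M₁, a₁, u₁, L₁, HH₁, hM₁, hM₁0, hL₁⟩ := hB₁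
  obtain ⟨ι₂, j1, j2, j3, J₂, j4, I₂, j5, M₂, a₂, u₂, L₂, HH₂, hM₂, hM₂0, hL₂⟩ := hB₂
  refine ⟨ι₁ × ι₂, inferInstance, inferInstance, inferInstance, J₁ ⊕ J₂, inferInstance,
    I₁ ⊕ I₂, inferInstance, prodFam α₁ α₂ M₁ M₂, (a₁, a₂), prodU u₁ u₂, Sum.elim L₁ L₂,
    (fun w => Sum.elim w 0) '' HH₁ ∪ (fun w => Sum.elim 0 w) '' HH₂, ⟨?_, ?_, ?_, ?_, ?_⟩, ?_, ?_⟩
  · exact tor_prod α₁ α₂ hα hM₁.tor hM₂.tor
  · intro g d x hx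
    refine prodFam_induction (C := fun x => φ g x ∈ (prodFam α₁ α₂ M₁ M₂).s d) ?_ ?_ hx
    · intro x₁ hx₁ x₂ hx₂
      rw [map_mul, h₁, h₂]
      exact mem_prodFam α₁ α₂ (hM₁.stab g _ _ hx₁) (hM₂.stab g _ _ hx₂)
    · intro x y hx hy
      rw [map_add]
      exact Submodule.add_mem _ hx hy
  · rintro (i | i)
    · exact hM₁.normal i
    · exact hM₂.normal i
  · exact (hM₁.fin.image _).union (hM₂.fin.image _)
  · intro q hq hs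
    obtain ⟨hs₁, hs₂⟩ := semi_prod α₁ α₂ q hs
    obtain ⟨w₁, hw₁, hg₁⟩ := hM₁.grp (qL α₁ α₂ q) hs₁
    obtain ⟨w₂, hw₂, hg₂⟩ := hM₂.grp (qR α₁ α₂ q) hs₂
    refine ⟨Sum.elim (fun i => Sum.elim (w₁ i) 0) (fun i => Sum.elim 0 (w₂ i)), ?_, ?_⟩
    · rintro (i | i)
      · exact Or.inl ⟨w₁ i, hw₁ i, rfl⟩
      · exact Or.inr ⟨w₂ i, hw₂ i, rfl⟩
    · have h3 := grpAt_prod α₁ α₂ q hp h₁ h₂ hM₁.stab hM₂.stab hM₁.normal hM₂.normal hg₁ hg₂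
      convert h3 using 1
      funext i
      rcases i with i | i
      · exact wdeg_inl u₁ u₂ (w₁ i)
      · exact wdeg_inr u₁ u₂ (w₂ i)
  · have h3 : (prodFam α₁ α₂ M₁ M₂).s 0 = (M₁.s 0).map α₁.toLinearMap *
        (M₂.s 0).map α₂.toLinearMap := rfl
    rw [h3, hM₁0, hM₂0]
    have h4 : (Subalgebra.toSubmodule B₁).map α₁.toLinearMap =
        Subalgebra.toSubmodule (B₁.map α₁) := rfl
    have h5 : (Subalgebra.toSubmodule B₂).map α₂.toLinearMap =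
        Subalgebra.toSubmodule (B₂.map α₂) := rfl
    rw [h4, h5, Subalgebra.mul_toSubmodule]
  · rw [iInf_sum]
    exact inf_le_inf hL₁ hL₂

end Pool.Agent.MP_b525bf_ag_P
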