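import Pool.Agent.Lib.MP_b525bf_ag_P.Defs

/-!
# P6a: products of toric families
-/

set_option autoImplicit false

namespace Pool.Agent.MP_b525bf_ag_P

open Pool.Agent.MP_b525bf_ag Pool.Agent.MP_b525bf_ag_W AddMonoidAlgebra TensorProduct

variable {k K K₁ K₂ ι₁ ι₂ J₁ J₂ I₁ I₂ G : Type} [Field k] [Field K] [Algebra k K]
  [Field K₁] [Algebra k K₁] [Field K₂] [Algebra k K₂] [AddCommGroup ι₁] [AddCommGroup ι₂]

/-- The product of two families. -/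
def prodFam (α₁ : K₁ →ₐ[k] K) (α₂ : K₂ →ₐ[k] K) (M₁ : Fam k K₁ ι₁) (M₂ : Fam k K₂ ι₂) :
    Fam k K (ι₁ × ι₂) where
  s d := (M₁.s d.1).map α₁.toLinearMap * (M₂.s d.2).map α₂.toLinearMap
  one' := by
    have h := Submodule.mul_mem_mul (Submodule.mem_map_of_mem (f := α₁.toLinearMap) M₁.one')
      (Submodule.mem_map_of_mem (f := α₂.toLinearMap) M₂.one')
    simpa using h
  mul' := by
    intro a b x y hx hy
    have h := Submodule.mul_mem_mul hx hy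
    rw [mul_mul_mul_comm] at h
    refine (mul_le_mul' ?_ ?_ : (M₁.s a.1).map α₁.toLinearMap *
      (M₁.s b.1).map α₁.toLinearMap * ((M₂.s a.2).map α₂.toLinearMap *
      (M₂.s b.2).map α₂.toLinearMap) ≤ _) h
    · rw [Submodule.mul_le]
      rintro _ ⟨z, hz, rfl⟩ _ ⟨w, hw, rfl⟩
      exact ⟨z * w, M₁.mul' hz hw, map_mul α₁ z w⟩
    · rw [Submodule.mul_le]
      rintro _ ⟨z, hz, rfl⟩ _ ⟨w, hw, rfl⟩
      exact ⟨z * w, M₂.mul' hz hw, map_mul α₂ z w⟩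

/-- The degrees of the sections of the product. -/
def prodU (u₁ : J₁ → ι₁) (u₂ : J₂ → ι₂) : J₁ ⊕ J₂ → ι₁ × ι₂ :=
  Sum.elim (fun j => (u₁ j, 0)) (fun j => (0, u₂ j))

section

variable (α₁ : K₁ →ₐ[k] K) (α₂ : K₂ →ₐ[k] K) (M₁ : Fam k K₁ ι₁) (M₂ : Fam k K₂ ι₂)

variable {M₁ M₂} in
theorem mem_prodFam {d₁ : ι₁} {x₁ : K₁} (h₁ : x₁ ∈ M₁.s d₁) {d₂ : ι₂} {x₂ : K₂}
    (h₂ : x₂ ∈ M₂.s d₂) : α₁ x₁ * α₂ x₂ ∈ (prodFam α₁ α₂ M₁ M₂).s (d₁, d₂) :=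
  Submodule.mul_mem_mul (Submodule.mem_map_of_mem (f := α₁.toLinearMap) h₁)
    (Submodule.mem_map_of_mem (f := α₂.toLinearMap) h₂)

variable {α₁ α₂ M₁ M₂} in
/-- Homogeneous elements are sums of products. -/
theorem prodFam_induction {d : ι₁ × ι₂} {C : K → Prop}
    (hm : ∀ x₁ ∈ M₁.s d.1, ∀ x₂ ∈ M₂.s d.2, C (α₁ x₁ * α₂ x₂)) (ha : ∀ x y, C x → C y → C (x + y))
    {x : K} (hx : x ∈ (prodFam α₁ α₂ M₁ M₂).s d) : C x := by
  refine Submodule.mul_induction_on hx ?_ ha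
  rintro _ ⟨z, hz, rfl⟩ _ ⟨w, hw, rfl⟩
  exact hm z hz w hw

/-- The first inclusion, on the level of the full group algebras. -/
noncomputable def bigL (ι₂ : Type) [AddCommGroup ι₂] :
    AddMonoidAlgebra K₁ ι₁ →ₐ[k] AddMonoidAlgebra K (ι₁ × ι₂) :=
  (mapDomainAlgHom k K (AddMonoidHom.inl ι₁ ι₂)).comp (mapAlgHom ι₁ α₁)

/-- The second inclusion, on the level of the full group algebras. -/
noncomputable def bigR (ι₁ : Type) [AddCommGroup ι₁] :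
    AddMonoidAlgebra K₂ ι₂ →ₐ[k] AddMonoidAlgebra K (ι₁ × ι₂) :=
  (mapDomainAlgHom k K (AddMonoidHom.inr ι₁ ι₂)).comp (mapAlgHom ι₂ α₂)

@[simp] theorem bigL_single (d : ι₁) (x : K₁) :
    bigL α₁ ι₂ (single d x) = single (d, (0 : ι₂)) (α₁ x) := by
  simp [bigL]

@[simp] theorem bigR_single (d : ι₂) (x : K₂) :
    bigR α₂ ι₁ (single d x) = single ((0 : ι₁), d) (α₂ x) := by
  simp [bigR]

theorem bigL_mem (F : M₁.alg) :
    bigL α₁ ι₂ (F : AddMonoidAlgebra K₁ ι₁) ∈ (prodFam α₁ α₂ M₁ M₂).alg := by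
  induction F using Fam.alg_induction with
  | h0 => rw [ZeroMemClass.coe_zero, map_zero]; exact zero_mem _
  | hadd F G hF hG => rw [AddMemClass.coe_add, map_add]; exact add_mem hF hG
  | hel a x hx =>
    rw [Fam.coe_el, bigL_single]
    refine Fam.single_mem_alg.2 ?_
    have := mem_prodFam α₁ α₂ hx M₂.one'
    simpa using this

theorem bigR_mem (F : M₂.alg) :
    bigR α₂ ι₁ (F : AddMonoidAlgebra K₂ ι₂) ∈ (prodFam α₁ α₂ M₁ M₂).alg := by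
  induction F using Fam.alg_induction with
  | h0 => rw [ZeroMemClass.coe_zero, map_zero]; exact zero_mem _
  | hadd F G hF hG => rw [AddMemClass.coe_add, map_add]; exact add_mem hF hG
  | hel a x hx =>
    rw [Fam.coe_el, bigR_single]
    refine Fam.single_mem_alg.2 ?_
    have := mem_prodFam α₁ α₂ M₁.one' hx
    simpa using this

/-- The first inclusion. -/
noncomputable def prodL : M₁.alg →ₐ[k] (prodFam α₁ α₂ M₁ M₂).alg :=
  ((bigL α₁ ι₂).comp M₁.alg.val).codRestrict _ fun F => bigL_mem α₁ α₂ M₁ M₂ F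

/-- The second inclusion. -/
noncomputable def prodR : M₂.alg →ₐ[k] (prodFam α₁ α₂ M₁ M₂).alg :=
  ((bigR α₂ ι₁).comp M₂.alg.val).codRestrict _ fun F => bigR_mem α₁ α₂ M₁ M₂ F

theorem coe_prodL (F : M₁.alg) : ((prodL α₁ α₂ M₁ M₂ F : (prodFam α₁ α₂ M₁ M₂).alg) :
    AddMonoidAlgebra K (ι₁ × ι₂)) = bigL α₁ ι₂ (F : AddMonoidAlgebra K₁ ι₁) := rfl

theorem coe_prodR (F : M₂.alg) : ((prodR α₁ α₂ M₁ M₂ F : (prodFam α₁ α₂ M₁ M₂).alg) :
    AddMonoidAlgebra K (ι₁ × ι₂)) = bigR α₂ ι₁ (F : AddMonoidAlgebra K₂ ι₂) := rfl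

theorem coe_prodL_el {d : ι₁} {x : K₁} (hx : x ∈ M₁.s d) :
    ((prodL α₁ α₂ M₁ M₂ (M₁.el hx) : (prodFam α₁ α₂ M₁ M₂).alg) :
      AddMonoidAlgebra K (ι₁ × ι₂)) = single (d, 0) (α₁ x) := by
  rw [coe_prodL, Fam.coe_el, bigL_single]

theorem coe_prodR_el {d : ι₂} {x : K₂} (hx : x ∈ M₂.s d) :
    ((prodR α₁ α₂ M₁ M₂ (M₂.el hx) : (prodFam α₁ α₂ M₁ M₂).alg) :
      AddMonoidAlgebra K (ι₁ × ι₂)) = single (0, d) (α₂ x) := by
  rw [coe_prodR, Fam.coe_el, bigR_single]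

/-- The product of the two inclusions of homogeneous elements. -/
theorem prodL_mul_prodR {d₁ : ι₁} {x₁ : K₁} (h₁ : x₁ ∈ M₁.s d₁) {d₂ : ι₂} {x₂ : K₂}
    (h₂ : x₂ ∈ M₂.s d₂) : prodL α₁ α₂ M₁ M₂ (M₁.el h₁) * prodR α₁ α₂ M₁ M₂ (M₂.el h₂) =
      (prodFam α₁ α₂ M₁ M₂).el (mem_prodFam α₁ α₂ h₁ h₂) := by
  refine Subtype.ext ?_
  rw [MulMemClass.coe_mul, coe_prodL_el, coe_prodR_el, single_mul_single, Fam.coe_el,
    Prod.mk_add_mk, add_zero, zero_add]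

/-- The map from the tensor product. -/
noncomputable def prodMap : M₁.alg ⊗[k] M₂.alg →ₐ[k] (prodFam α₁ α₂ M₁ M₂).alg :=
  Algebra.TensorProduct.lift (prodL α₁ α₂ M₁ M₂) (prodR α₁ α₂ M₁ M₂) fun _ _ => Commute.all _ _

@[simp] theorem prodMap_tmul (F : M₁.alg) (G : M₂.alg) :
    prodMap α₁ α₂ M₁ M₂ (F ⊗ₜ G) = prodL α₁ α₂ M₁ M₂ F * prodR α₁ α₂ M₁ M₂ G := by
  simp [prodMap]

theorem prodMap_surjective : Function.Surjective (prodMap α₁ α₂ M₁ M₂) := by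
  intro F
  induction F using Fam.alg_induction with
  | h0 => exact ⟨0, map_zero _⟩
  | hadd F G hF hG =>
    obtain ⟨x, rfl⟩ := hF
    obtain ⟨y, rfl⟩ := hG
    exact ⟨x + y, map_add _ _ _⟩
  | hel a x hx =>
    have key : ∀ y ∈ (prodFam α₁ α₂ M₁ M₂).s a, ∃ hy : y ∈ (prodFam α₁ α₂ M₁ M₂).s a,
        ∃ z, prodMap α₁ α₂ M₁ M₂ z = (prodFam α₁ α₂ M₁ M₂).el hy := by
      intro y hy
      refine prodFam_induction (C := fun y => ∃ hy : y ∈ (prodFam α₁ α₂ M₁ M₂).s a,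
        ∃ z, prodMap α₁ α₂ M₁ M₂ z = (prodFam α₁ α₂ M₁ M₂).el hy) ?_ ?_ hy
      · intro x₁ h₁ x₂ h₂
        refine ⟨mem_prodFam α₁ α₂ h₁ h₂, M₁.el h₁ ⊗ₜ M₂.el h₂, ?_⟩
        rw [prodMap_tmul, prodL_mul_prodR]
      · rintro x y ⟨hx, z, hz⟩ ⟨hy, w, hw⟩
        refine ⟨Submodule.add_mem _ hx hy, z + w, ?_⟩
        rw [map_add, hz, hw]
        exact Subtype.ext (single_add _ _ _).symm
    obtain ⟨_, h⟩ := key x hx
    exact h

/-- The big tensor product. -/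
noncomputable def bigMap :
    AddMonoidAlgebra K₁ ι₁ ⊗[k] AddMonoidAlgebra K₂ ι₂ →ₐ[k] AddMonoidAlgebra K (ι₁ × ι₂) :=
  Algebra.TensorProduct.lift (bigL α₁ ι₂) (bigR α₂ ι₁) fun _ _ => Commute.all _ _

theorem bigMap_injective
    (hα : Function.Injective (Algebra.TensorProduct.lift α₁ α₂ fun _ _ => Commute.all _ _)) :
    Function.Injective (bigMap (ι₁ := ι₁) (ι₂ := ι₂) α₁ α₂) := by
  classical
  let E : AddMonoidAlgebra K₁ ι₁ ⊗[k] AddMonoidAlgebra K₂ ι₂ ≃ₗ[k] (ι₁ × ι₂ →₀ K₁ ⊗[k] K₂) :=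
    (TensorProduct.congr (coeffLinearEquiv k) (coeffLinearEquiv k)).trans
      (finsuppTensorFinsupp k k K₁ K₂ ι₁ ι₂)
  let lam : K₁ ⊗[k] K₂ →ₗ[k] K :=
    (Algebra.TensorProduct.lift α₁ α₂ fun _ _ => Commute.all _ _).toLinearMap
  have hlam : Function.Injective lam := hα
  have key : (coeffLinearEquiv k).toLinearMap ∘ₗ (bigMap (ι₁ := ι₁) (ι₂ := ι₂) α₁ α₂).toLinearMap =
      Finsupp.mapRange.linearMap lam ∘ₗ E.toLinearMap := by
    refine TensorProduct.ext' fun F G => ?_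
    induction F using AddMonoidAlgebra.induction_linear with
    | zero => simp only [TensorProduct.zero_tmul, map_zero]
    | add F F' hF hF' => rw [TensorProduct.add_tmul, map_add, map_add, hF, hF']
    | single a x =>
      induction G using AddMonoidAlgebra.induction_linear with
      | zero => simp only [TensorProduct.tmul_zero, map_zero]
      | add F F' hF hF' => rw [TensorProduct.tmul_add, map_add, map_add, hF, hF']
      | single b y =>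
        have h1 : bigMap (ι₁ := ι₁) (ι₂ := ι₂) α₁ α₂ (single a x ⊗ₜ single b y) =
            single (a, b) (α₁ x * α₂ y) := by
          rw [bigMap, Algebra.TensorProduct.lift_tmul, bigL_single, bigR_single,
            single_mul_single, Prod.mk_add_mk, add_zero, zero_add]
        have h2 : E (single a x ⊗ₜ single b y) = Finsupp.single (a, b) (x ⊗ₜ y) := by
          change finsuppTensorFinsupp k k K₁ K₂ ι₁ ι₂
            (Finsupp.single a x ⊗ₜ Finsupp.single b y) = _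
          rw [finsuppTensorFinsupp_single]
        rw [LinearMap.comp_apply, LinearMap.comp_apply, AlgHom.toLinearMap_apply, h1]
        change (single (a, b) (α₁ x * α₂ y) : AddMonoidAlgebra K (ι₁ × ι₂)).coeff =
          Finsupp.mapRange.linearMap lam (E (single a x ⊗ₜ single b y))
        rw [h2, Finsupp.mapRange.linearMap_apply, Finsupp.mapRange_single]
        change _ = Finsupp.single (a, b)
          (Algebra.TensorProduct.lift α₁ α₂ (fun _ _ => Commute.all _ _) (x ⊗ₜ y))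
        rw [Algebra.TensorProduct.lift_tmul]
        rfl
  have h3 : Function.Injective (Finsupp.mapRange.linearMap (α := ι₁ × ι₂) lam ∘ₗ
      E.toLinearMap) := by
    rw [LinearMap.coe_comp]
    refine Function.Injective.comp ?_ E.injective
    exact Finsupp.mapRange_injective lam (map_zero lam) hlam
  rw [← key, LinearMap.coe_comp] at h3
  exact Function.Injective.of_comp h3

theorem prodMap_injective
    (hα : Function.Injective (Algebra.TensorProduct.lift α₁ α₂ fun _ _ => Commute.all _ _)) :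
    Function.Injective (prodMap α₁ α₂ M₁ M₂) := by
  have h1 : Function.Injective (TensorProduct.map M₁.alg.val.toLinearMap
      M₂.alg.val.toLinearMap) :=
    TensorProduct.map_injective_of_flat_flat _ _ Subtype.val_injective Subtype.val_injective
  have h2 := (bigMap_injective (ι₁ := ι₁) (ι₂ := ι₂) α₁ α₂ hα).comp h1
  have h3 : (prodFam α₁ α₂ M₁ M₂).alg.val ∘ prodMap α₁ α₂ M₁ M₂ =
      bigMap (ι₁ := ι₁) (ι₂ := ι₂) α₁ α₂ ∘ TensorProduct.map M₁.alg.val.toLinearMap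
      M₂.alg.val.toLinearMap := by
    funext z
    rw [Function.comp_apply, Function.comp_apply]
    induction z using TensorProduct.induction_on with
    | zero => simp only [map_zero]
    | add x y hx hy => rw [map_add, map_add, map_add, map_add, hx, hy]
    | tmul x y =>
      rw [prodMap_tmul, TensorProduct.map_tmul, bigMap, Algebra.TensorProduct.lift_tmul]
      rfl
  rw [← h3] at h2
  exact Function.Injective.of_comp h2

end

/-- The algebra of the product of two families is the tensor product. -/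
theorem exists_prodEquiv (α₁ : K₁ →ₐ[k] K) (α₂ : K₂ →ₐ[k] K)
    (hα : Function.Injective (Algebra.TensorProduct.lift α₁ α₂ fun _ _ => Commute.all _ _))
    (M₁ : Fam k K₁ ι₁) (M₂ : Fam k K₂ ι₂) :
    ∃ e : M₁.alg ⊗[k] M₂.alg ≃ₐ[k] (prodFam α₁ α₂ M₁ M₂).alg,
      ∀ (d₁ : ι₁) (x₁ : K₁) (h₁ : x₁ ∈ M₁.s d₁) (d₂ : ι₂) (x₂ : K₂) (h₂ : x₂ ∈ M₂.s d₂),
        ((e (M₁.el h₁ ⊗ₜ M₂.el h₂) : (prodFam α₁ α₂ M₁ M₂).alg) : AddMonoidAlgebra K (ι₁ × ι₂)) =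
          single (d₁, d₂) (α₁ x₁ * α₂ x₂) := by
  refine ⟨AlgEquiv.ofBijective (prodMap α₁ α₂ M₁ M₂)
    ⟨prodMap_injective α₁ α₂ M₁ M₂ hα, prodMap_surjective α₁ α₂ M₁ M₂⟩, ?_⟩
  intro d₁ x₁ h₁ d₂ x₂ h₂
  rw [AlgEquiv.ofBijective_apply, prodMap_tmul, prodL_mul_prodR, Fam.coe_el]

/-! ### Formal smoothness of products -/

/-- Formal smoothness in terms of ring homomorphisms. -/
theorem formallySmooth_iff_lift {R A : Type} [CommRing R] [CommRing A] (f : R →+* A) :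
    f.FormallySmooth ↔ ∀ (B : Type) [CommRing B] (b : R →+* B) (I : Ideal B), I ^ 2 = ⊥ →
      ∀ g : A →+* B ⧸ I, (∀ r, g (f r) = Ideal.Quotient.mk I (b r)) →
        ∃ g' : A →+* B, (∀ r, g' (f r) = b r) ∧ ∀ x, Ideal.Quotient.mk I (g' x) = g x := by
  letI := f.toAlgebra
  have h1 : f.FormallySmooth ↔ Algebra.FormallySmooth R A := Iff.rfl
  rw [h1, Algebra.FormallySmooth.iff_comp_surjective]
  constructor
  · intro H B _ b I hI g hg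
    letI := b.toAlgebra
    let g₀ : A →ₐ[R] B ⧸ I := { g with commutes' := fun r => hg r }
    obtain ⟨g', hg'⟩ := H I hI g₀
    exact ⟨g'.toRingHom, fun r => g'.commutes r, fun x => AlgHom.congr_fun hg' x⟩
  · intro H B _ _ I hI g
    obtain ⟨g', h1, h2⟩ := H B (algebraMap R B) I hI g.toRingHom fun r => g.commutes r
    exact ⟨{ g' with commutes' := fun r => h1 r }, AlgHom.ext fun x => h2 x⟩

/-- The tensor product of two formally smooth homomorphisms. -/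
theorem formallySmooth_tensor {k R₁ R₂ R A₁ A₂ A : Type} [CommRing k] [CommRing R₁] [CommRing R₂]
    [CommRing R] [CommRing A₁] [CommRing A₂] [CommRing A] [Algebra k R₁] [Algebra k R₂]
    [Algebra k R] [Algebra k A₁] [Algebra k A₂] [Algebra k A] (s₁ : R₁ →ₐ[k] A₁)
    (s₂ : R₂ →ₐ[k] A₂) (s : R →ₐ[k] A) (r₁ : R₁ →ₐ[k] R) (r₂ : R₂ →ₐ[k] R) (i₁ : A₁ →ₐ[k] A)
    (i₂ : A₂ →ₐ[k] A) (h₁ : ∀ x, s (r₁ x) = i₁ (s₁ x)) (h₂ : ∀ x, s (r₂ x) = i₂ (s₂ x))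
    (hA : Function.Bijective (Algebra.TensorProduct.lift i₁ i₂ fun _ _ => Commute.all _ _))
    (hR : ∀ (B : Type) [CommRing B] (f g : R →+* B), (∀ x, f (r₁ x) = g (r₁ x)) →
      (∀ x, f (r₂ x) = g (r₂ x)) → f = g)
    (sm₁ : s₁.toRingHom.FormallySmooth) (sm₂ : s₂.toRingHom.FormallySmooth) :
    s.toRingHom.FormallySmooth := by
  rw [formallySmooth_iff_lift] at sm₁ sm₂ ⊢
  intro B _ b I hI g hg
  have hg' : ∀ r, g (s r) = Ideal.Quotient.mk I (b r) := hg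
  obtain ⟨g₁, hg₁, hg₁'⟩ := sm₁ B (b.comp r₁.toRingHom) I hI (g.comp i₁.toRingHom) (by
    intro r
    change g (i₁ (s₁ r)) = Ideal.Quotient.mk I (b (r₁ r))
    rw [← h₁, hg'])
  obtain ⟨g₂, hg₂, hg₂'⟩ := sm₂ B (b.comp r₂.toRingHom) I hI (g.comp i₂.toRingHom) (by
    intro r
    change g (i₂ (s₂ r)) = Ideal.Quotient.mk I (b (r₂ r))
    rw [← h₂, hg'])
  replace hg₁ : ∀ r, g₁ (s₁ r) = b (r₁ r) := hg₁
  replace hg₂ : ∀ r, g₂ (s₂ r) = b (r₂ r) := hg₂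
  replace hg₁' : ∀ x, Ideal.Quotient.mk I (g₁ x) = g (i₁ x) := hg₁'
  replace hg₂' : ∀ x, Ideal.Quotient.mk I (g₂ x) = g (i₂ x) := hg₂'
  letI : Algebra k B := (b.comp (algebraMap k R)).toAlgebra
  have hk : ∀ c : k, algebraMap k B c = b (algebraMap k R c) := fun _ => rfl
  let G₁ : A₁ →ₐ[k] B := { g₁ with
    commutes' := by
      intro c
      change g₁ (algebraMap k A₁ c) = _
      rw [← s₁.commutes, hg₁, r₁.commutes, hk] }
  let G₂ : A₂ →ₐ[k] B := { g₂ with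
    commutes' := by
      intro c
      change g₂ (algebraMap k A₂ c) = _
      rw [← s₂.commutes, hg₂, r₂.commutes, hk] }
  have hG₁ : ∀ x, G₁ x = g₁ x := fun _ => rfl
  have hG₂ : ∀ x, G₂ x = g₂ x := fun _ => rfl
  let e := AlgEquiv.ofBijective _ hA
  have he : ∀ x y, e (x ⊗ₜ y) = i₁ x * i₂ y := fun x y => by
    rw [AlgEquiv.ofBijective_apply, Algebra.TensorProduct.lift_tmul]
  let G : A →ₐ[k] B := (Algebra.TensorProduct.lift G₁ G₂ fun _ _ => Commute.all _ _).comp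
    e.symm.toAlgHom
  have hG : ∀ x y, G (i₁ x * i₂ y) = g₁ x * g₂ y := by
    intro x y
    rw [← he, AlgHom.comp_apply, AlgEquiv.coe_toAlgHom, AlgEquiv.symm_apply_apply,
      Algebra.TensorProduct.lift_tmul, hG₁, hG₂]
  refine ⟨G.toRingHom, ?_, ?_⟩
  · have h3 : (G.comp s).toRingHom = b := by
      refine hR B _ _ ?_ ?_
      · intro x
        change G (s (r₁ x)) = b (r₁ x)
        have h4 := hG (s₁ x) 1
        rw [map_one, mul_one, map_one, mul_one, hg₁] at h4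
        rw [h₁, h4]
      · intro x
        change G (s (r₂ x)) = b (r₂ x)
        have h4 := hG 1 (s₂ x)
        rw [map_one, one_mul, map_one, one_mul, hg₂] at h4
        rw [h₂, h4]
    intro r
    exact congrArg (fun f : R →+* B => f r) h3
  · intro x
    change Ideal.Quotient.mk I (G x) = g x
    obtain ⟨z, rfl⟩ := e.surjective x
    induction z using TensorProduct.induction_on with
    | zero => simp only [map_zero]
    | add x y hx hy => rw [map_add, map_add, map_add, map_add, hx, hy]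
    | tmul x y => rw [he, hG, map_mul, map_mul, hg₁', hg₂']

/-! ### Primes of the product -/

section

variable (α₁ : K₁ →ₐ[k] K) (α₂ : K₂ →ₐ[k] K) {M₁ : Fam k K₁ ι₁} {M₂ : Fam k K₂ ι₂}
  (q : Ideal (prodFam α₁ α₂ M₁ M₂).alg)

/-- The prime of the first factor. -/
noncomputable def qL : Ideal M₁.alg := q.comap (prodL α₁ α₂ M₁ M₂)

/-- The prime of the second factor. -/
noncomputable def qR : Ideal M₂.alg := q.comap (prodR α₁ α₂ M₁ M₂)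

instance [q.IsPrime] : (qL α₁ α₂ q).IsPrime := inferInstanceAs (Ideal.comap _ q).IsPrime

instance [q.IsPrime] : (qR α₁ α₂ q).IsPrime := inferInstanceAs (Ideal.comap _ q).IsPrime

theorem el_prod_mem_iff [hq : q.IsPrime] {d₁ : ι₁} {x₁ : K₁} (h₁ : x₁ ∈ M₁.s d₁) {d₂ : ι₂}
    {x₂ : K₂} (h₂ : x₂ ∈ M₂.s d₂) :
    (prodFam α₁ α₂ M₁ M₂).el (mem_prodFam α₁ α₂ h₁ h₂) ∈ q ↔
      M₁.el h₁ ∈ qL α₁ α₂ q ∨ M₂.el h₂ ∈ qR α₁ α₂ q := by
  rw [← prodL_mul_prodR, hq.mul_mem_iff_mem_or_mem]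
  rfl

theorem mem_degs_prod [hq : q.IsPrime] {d₁ : ι₁} {d₂ : ι₂} :
    (d₁, d₂) ∈ (prodFam α₁ α₂ M₁ M₂).degs q ↔
      d₁ ∈ M₁.degs (qL α₁ α₂ q) ∧ d₂ ∈ M₂.degs (qR α₁ α₂ q) := by
  constructor
  · rintro ⟨x, hx, hxq⟩
    by_contra hcon
    refine hxq ?_
    have key : ∃ h : x ∈ (prodFam α₁ α₂ M₁ M₂).s (d₁, d₂), (prodFam α₁ α₂ M₁ M₂).el h ∈ q := by
      refine prodFam_induction (C := fun x => ∃ h : x ∈ (prodFam α₁ α₂ M₁ M₂).s (d₁, d₂),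
        (prodFam α₁ α₂ M₁ M₂).el h ∈ q) ?_ ?_ hx
      · intro x₁ h₁ x₂ h₂
        refine ⟨mem_prodFam α₁ α₂ h₁ h₂, ?_⟩
        rw [el_prod_mem_iff α₁ α₂ q h₁ h₂]
        by_contra hcon'
        rw [not_or] at hcon'
        exact hcon ⟨⟨x₁, h₁, hcon'.1⟩, ⟨x₂, h₂, hcon'.2⟩⟩
      · rintro x y ⟨hx, hx'⟩ ⟨hy, hy'⟩
        refine ⟨Submodule.add_mem _ hx hy, ?_⟩
        have : (prodFam α₁ α₂ M₁ M₂).el (Submodule.add_mem _ hx hy) =
            (prodFam α₁ α₂ M₁ M₂).el hx + (prodFam α₁ α₂ M₁ M₂).el hy :=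
          Subtype.ext (single_add _ _ _)
        rw [this]
        exact Ideal.add_mem _ hx' hy'
    obtain ⟨_, h⟩ := key
    exact h
  · rintro ⟨⟨x₁, h₁, hq₁⟩, ⟨x₂, h₂, hq₂⟩⟩
    refine ⟨α₁ x₁ * α₂ x₂, mem_prodFam α₁ α₂ h₁ h₂, ?_⟩
    rw [el_prod_mem_iff α₁ α₂ q h₁ h₂, not_or]
    exact ⟨hq₁, hq₂⟩

theorem mem_atP_prod [hq : q.IsPrime] {d₁ : ι₁} {d₂ : ι₂} {x₁ : K₁} {x₂ : K₂}
    (h₁ : x₁ ∈ (atP M₁ (qL α₁ α₂ q)).s d₁) (h₂ : x₂ ∈ (atP M₂ (qR α₁ α₂ q)).s d₂) :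
    α₁ x₁ * α₂ x₂ ∈ (atP (prodFam α₁ α₂ M₁ M₂) q).s (d₁, d₂) := by
  obtain ⟨c₁, f₁, hf₁, hfq₁, h₁⟩ := h₁
  obtain ⟨c₂, f₂, hf₂, hfq₂, h₂⟩ := h₂
  refine ⟨(c₁, c₂), α₁ f₁ * α₂ f₂, mem_prodFam α₁ α₂ hf₁ hf₂, ?_, ?_⟩
  · rw [el_prod_mem_iff α₁ α₂ q hf₁ hf₂, not_or]
    exact ⟨hfq₁, hfq₂⟩
  · have := mem_prodFam α₁ α₂ h₁ h₂
    rw [map_mul, map_mul, mul_mul_mul_comm] at this
    exact this

theorem semi_prod [hq : q.IsPrime] {a₁ : ι₁} {a₂ : ι₂}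
    (h : Semi (prodFam α₁ α₂ M₁ M₂) (a₁, a₂) q) :
    Semi M₁ a₁ (qL α₁ α₂ q) ∧ Semi M₂ a₂ (qR α₁ α₂ q) := by
  obtain ⟨n, hn, h⟩ := h
  obtain ⟨h1, h2⟩ := (mem_degs_prod α₁ α₂ q).1 h
  exact ⟨⟨n, hn, h1⟩, ⟨n, hn, h2⟩⟩

theorem intA_prod [hq : q.IsPrime] {a₁ : ι₁} {a₂ : ι₂}
    (h : Semi (prodFam α₁ α₂ M₁ M₂) (a₁, a₂) q)
    (h₁ : IntA M₁ a₁ (qL α₁ α₂ q)) (h₂ : IntA M₂ a₂ (qR α₁ α₂ q)) :
    IntA (prodFam α₁ α₂ M₁ M₂) (a₁, a₂) q := by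
  obtain ⟨n, hn, h⟩ := h
  obtain ⟨hn₁, hn₂⟩ := (mem_degs_prod α₁ α₂ q (d₁ := n • a₁) (d₂ := n • a₂)).1 h
  rintro ⟨d₁, d₂⟩
  obtain ⟨m₁, hm₁, w₁, hw₁, h₁⟩ := h₁ d₁
  obtain ⟨m₂, hm₂, w₂, hw₂, h₂⟩ := h₂ d₂
  refine ⟨m₁ + m₂, by positivity, n * (w₁ * w₂), by positivity, ?_⟩
  refine (mem_degs_prod α₁ α₂ q).2 ⟨?_, ?_⟩
  · have h3 := add_mem (nsmul_mem h₁ (n * w₂)) (nsmul_mem hn₁ (w₁ * w₂ * m₂))
    convert h3 using 1
    change (n * (w₁ * w₂)) • ((m₁ + m₂) • a₁ + d₁) = _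
    simp only [smul_add, smul_smul, add_smul]
    have e1 : n * (w₁ * w₂) = n * w₂ * w₁ := by ring
    have e2 : n * (w₁ * w₂) * m₁ = n * w₂ * (w₁ * m₁) := by ring
    have e3 : n * (w₁ * w₂) * m₂ = w₁ * w₂ * m₂ * n := by ring
    rw [e2, e3, e1]
    abel
  · have h3 := add_mem (nsmul_mem h₂ (n * w₁)) (nsmul_mem hn₂ (w₁ * w₂ * m₁))
    convert h3 using 1
    change (n * (w₁ * w₂)) • ((m₁ + m₂) • a₂ + d₂) = _
    simp only [smul_add, smul_smul, add_smul]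
    have e1 : n * (w₁ * w₂) = n * w₁ * w₂ := by ring
    have e2 : n * (w₁ * w₂) * m₂ = n * w₁ * (w₂ * m₂) := by ring
    have e3 : n * (w₁ * w₂) * m₁ = w₁ * w₂ * m₁ * n := by ring
    rw [e2, e3, e1]
    abel

end

/-! ### Toric families -/

theorem fg_prod (α₁ : K₁ →ₐ[k] K) (α₂ : K₂ →ₐ[k] K) {M₁ : Fam k K₁ ι₁} {M₂ : Fam k K₂ ι₂}
    (h₁ : M₁.alg.FG) (h₂ : M₂.alg.FG) : (prodFam α₁ α₂ M₁ M₂).alg.FG := by
  rw [Subalgebra.fg_iff_finiteType] at h₁ h₂ ⊢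
  have h3 : Algebra.FiniteType M₁.alg (M₁.alg ⊗[k] M₂.alg) := inferInstance
  have h4 : Algebra.FiniteType k (M₁.alg ⊗[k] M₂.alg) := Algebra.FiniteType.trans h₁ h3
  exact Algebra.FiniteType.of_surjective (prodMap α₁ α₂ M₁ M₂)
    (prodMap_surjective α₁ α₂ M₁ M₂)

theorem sec_prod (α₁ : K₁ →ₐ[k] K) (α₂ : K₂ →ₐ[k] K) {M₁ : Fam k K₁ ι₁} {M₂ : Fam k K₂ ι₂}
    {u₁ : J₁ → ι₁} {u₂ : J₂ → ι₂} (h₁ : ∀ j, (1 : K₁) ∈ M₁.s (-(u₁ j)))
    (h₂ : ∀ j, (1 : K₂) ∈ M₂.s (-(u₂ j))) (j : J₁ ⊕ J₂) :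
    (1 : K) ∈ (prodFam α₁ α₂ M₁ M₂).s (-(prodU u₁ u₂ j)) := by
  rcases j with j | j
  · have := mem_prodFam α₁ α₂ (h₁ j) M₂.one'
    rw [map_one, map_one, mul_one] at this
    simpa [prodU] using this
  · have := mem_prodFam α₁ α₂ M₁.one' (h₂ j)
    rw [map_one, map_one, mul_one] at this
    simpa [prodU] using this

theorem chart_prod (α₁ : K₁ →ₐ[k] K) (α₂ : K₂ →ₐ[k] K)
    (hα : Function.Injective (Algebra.TensorProduct.lift α₁ α₂ fun _ _ => Commute.all _ _))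
    {M₁ : Fam k K₁ ι₁} {M₂ : Fam k K₂ ι₂} {u₁ : J₁ → ι₁} {u₂ : J₂ → ι₂}
    (q : Ideal (prodFam α₁ α₂ M₁ M₂).alg) [hq : q.IsPrime] {T₁ : Set J₁} {T₂ : Set J₂}
    {C₁ : Fam k K₁ ι₁} {C₂ : Fam k K₂ ι₂} (h₁ : Chart M₁ u₁ (qL α₁ α₂ q) T₁ C₁)
    (h₂ : Chart M₂ u₂ (qR α₁ α₂ q) T₂ C₂) :
    Chart (prodFam α₁ α₂ M₁ M₂) (prodU u₁ u₂) q
      {j | Sum.elim (fun j => j ∈ T₁) (fun j => j ∈ T₂) j} (prodFam α₁ α₂ C₁ C₂) where
  unit := by
    rintro (j | j) hj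
    · have := mem_atP_prod α₁ α₂ q (h₁.unit j hj) (atP M₂ (qR α₁ α₂ q)).one'
      rw [map_one, map_one, mul_one] at this
      exact this
    · have := mem_atP_prod α₁ α₂ q (atP M₁ (qL α₁ α₂ q)).one' (h₂.unit j hj)
      rw [map_one, map_one, mul_one] at this
      exact this
  le := by
    rintro ⟨d₁, d₂⟩
    exact mul_le_mul' (Submodule.map_mono (h₁.le d₁)) (Submodule.map_mono (h₂.le d₂))
  ge := by
    rintro ⟨d₁, d₂⟩ x hx
    refine prodFam_induction ?_ ?_ hx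
    · intro x₁ hx₁ x₂ hx₂
      exact mem_atP_prod α₁ α₂ q (h₁.ge d₁ hx₁) (h₂.ge d₂ hx₂)
    · intro x y hx hy
      exact Submodule.add_mem _ hx hy
  fg := fg_prod α₁ α₂ h₁.fg h₂.fg
  sec := sec_prod α₁ α₂ h₁.sec h₂.sec
  smooth := by
    refine formallySmooth_tensor (secMap C₁ u₁ T₁ h₁.sec) (secMap C₂ u₂ T₂ h₂.sec) _
      (MvPolynomial.rename fun t : T₁ => ⟨Sum.inl t.1, t.2⟩)
      (MvPolynomial.rename fun t : T₂ => ⟨Sum.inr t.1, t.2⟩)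
      (prodL α₁ α₂ C₁ C₂) (prodR α₁ α₂ C₁ C₂) ?_ ?_
      ⟨prodMap_injective α₁ α₂ C₁ C₂ hα, prodMap_surjective α₁ α₂ C₁ C₂⟩ ?_ h₁.smooth h₂.smooth
    · intro x
      rw [← AlgHom.comp_apply, ← AlgHom.comp_apply]
      congr 1
      refine MvPolynomial.algHom_ext fun t => ?_
      rw [AlgHom.comp_apply, AlgHom.comp_apply, MvPolynomial.rename_X, secMap, secMap,
        MvPolynomial.aeval_X, MvPolynomial.aeval_X]
      refine Subtype.ext ?_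
      rw [coe_prodL_el, Fam.coe_el, map_one]
      simp [prodU]
    · intro x
      rw [← AlgHom.comp_apply, ← AlgHom.comp_apply]
      congr 1
      refine MvPolynomial.algHom_ext fun t => ?_
      rw [AlgHom.comp_apply, AlgHom.comp_apply, MvPolynomial.rename_X, secMap, secMap,
        MvPolynomial.aeval_X, MvPolynomial.aeval_X]
      refine Subtype.ext ?_
      rw [coe_prodR_el, Fam.coe_el, map_one]
      simp [prodU]
    · intro B _ f g hf hg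
      refine MvPolynomial.ringHom_ext ?_ ?_
      · intro c
        have := hf (MvPolynomial.C c)
        rwa [MvPolynomial.rename_C] at this
      · rintro ⟨j | j, hj⟩
        · have := hf (MvPolynomial.X ⟨j, hj⟩)
          rwa [MvPolynomial.rename_X] at this
        · have := hg (MvPolynomial.X ⟨j, hj⟩)
          rwa [MvPolynomial.rename_X] at this

/-- The product of two toric families. -/
theorem tor_prod [Module.Free ℤ ι₁] [Module.Finite ℤ ι₁] [Module.Free ℤ ι₂] [Module.Finite ℤ ι₂]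
    [Finite J₁] [Finite J₂] (α₁ : K₁ →ₐ[k] K) (α₂ : K₂ →ₐ[k] K)
    (hα : Function.Injective (Algebra.TensorProduct.lift α₁ α₂ fun _ _ => Commute.all _ _))
    {M₁ : Fam k K₁ ι₁} {M₂ : Fam k K₂ ι₂} {a₁ : ι₁} {a₂ : ι₂} {u₁ : J₁ → ι₁} {u₂ : J₂ → ι₂}
    (h₁ : Tor M₁ a₁ u₁) (h₂ : Tor M₂ a₂ u₂) :
    Tor (prodFam α₁ α₂ M₁ M₂) (a₁, a₂) (prodU u₁ u₂) where
  fg := fg_prod α₁ α₂ h₁.fg h₂.fg
  sec := sec_prod α₁ α₂ h₁.sec h₂.sec
  neg := by
    intro n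
    have := mem_prodFam α₁ α₂ (h₁.neg n) (h₂.neg n)
    rw [map_one, map_one, mul_one] at this
    exact this
  nontriv := by
    obtain ⟨n₁, hn₁, x₁, hx₁, h0₁⟩ := h₁.nontriv
    obtain ⟨n₂, hn₂, x₂, hx₂, h0₂⟩ := h₂.nontriv
    refine ⟨n₁ * n₂, by positivity, α₁ (x₁ ^ n₂) * α₂ (x₂ ^ n₁), ?_, ?_⟩
    · have h3 := M₁.pow' hx₁ n₂
      have h4 := M₂.pow' hx₂ n₁
      rw [smul_smul, mul_comm] at h3
      rw [smul_smul] at h4
      exact mem_prodFam α₁ α₂ h3 h4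
    · refine mul_ne_zero ?_ ?_
      · exact (map_ne_zero_iff _ α₁.toRingHom.injective).2 (pow_ne_zero _ h0₁)
      · exact (map_ne_zero_iff _ α₂.toRingHom.injective).2 (pow_ne_zero _ h0₂)
  gen := by
    rintro ⟨d₁, d₂⟩
    obtain ⟨c₁, h₁, h₁'⟩ := h₁.gen d₁
    obtain ⟨c₂, h₂, h₂'⟩ := h₂.gen d₂
    refine ⟨(c₁, c₂), ?_, ?_⟩
    · have := mem_prodFam α₁ α₂ h₁ h₂
      rwa [map_one, map_one, mul_one] at this
    · have := mem_prodFam α₁ α₂ h₁' h₂'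
      rw [map_one, map_one, mul_one] at this
      exact this
  int := by
    intro q _ h
    exact intA_prod α₁ α₂ q h (h₁.int _ (semi_prod α₁ α₂ q h).1)
      (h₂.int _ (semi_prod α₁ α₂ q h).2)
  chart := by
    intro q _ h
    obtain ⟨T₁, C₁, h₁⟩ := h₁.chart _ (semi_prod α₁ α₂ q h).1
    obtain ⟨T₂, C₂, h₂⟩ := h₂.chart _ (semi_prod α₁ α₂ q h).2
    exact ⟨_, _, chart_prod α₁ α₂ hα q h₁ h₂⟩

end Pool.Agent.MP_b525bf_ag_P
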