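import Pool.Agent.Lib.MP_b525bf_ag_P.Action
import Pool.Agent.Lib.MP_b525bf_ag_P.Final
import Pool.Agent.Lib.MP_b525bf_ag_P.Prod
import Pool.Agent.Lib.MP_b525bf_ag.GroupB
import Pool.Agent.Lib.MP_b525bf_ag_W.Final

/-!
# P9a: packages of rings
-/

set_option autoImplicit false

namespace Pool.Agent.MP_b525bf_ag_P

open Pool.Agent.MP_b525bf_ag Pool.Agent.MP_b525bf_ag_W TensorProduct AddMonoidAlgebra

variable {k G : Type} [Field k] [Group G]

/-- Packages for rings. -/
def RPkg [Finite G] (p : ℕ) (B : Type) [CommRing B] [IsDomain B] [Algebra k B]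
    (ψ : G →* (B ≃ₐ[k] B)) (N : Subgroup G) : Prop :=
  HasPkg p (copy k B) (fracHom.comp ψ) N

/-- The family of a point. -/
def trivFam (k : Type) [Field k] : Fam k k PUnit where
  s _ := ⊤
  one' := trivial
  mul' := fun _ _ => trivial

/-- The package of a point. -/
theorem hasPkg_triv [Finite G] (p : ℕ) :
    HasPkg p (⊤ : Subalgebra k k) (1 : G →* (k ≃ₐ[k] k)) ⊤ := by
  have hbot : (trivFam k).alg = ⊥ := by
    rw [eq_bot_iff]
    intro F _
    have h1 : F = algebraMap k (AddMonoidAlgebra k PUnit) (F.coeff 0) := by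
      ext
      simp
    rw [h1]
    exact Subalgebra.algebraMap_mem _ _
  have hfg : (trivFam k).alg.FG := by
    rw [hbot]
    exact Subalgebra.fg_bot
  have hsm : ∀ (u : PEmpty.{1} → PUnit.{1}) (h : ∀ j, (1 : k) ∈ (trivFam k).s (-(u j))),
      (secMap (trivFam k) u ∅ h).toRingHom.FormallySmooth := by
    intro u h
    refine RingHom.FormallySmooth.of_bijective ⟨?_, ?_⟩
    · have h1 : Function.Injective ((secMap (trivFam k) u ∅ h).comp
          (MvPolynomial.isEmptyAlgEquiv k (∅ : Set PEmpty.{1})).symm.toAlgHom) :=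
        RingHom.injective (((secMap (trivFam k) u ∅ h).comp
          (MvPolynomial.isEmptyAlgEquiv k (∅ : Set PEmpty.{1})).symm.toAlgHom).toRingHom)
      intro x y hxy
      apply (MvPolynomial.isEmptyAlgEquiv k (∅ : Set PEmpty.{1})).injective
      apply h1
      change secMap (trivFam k) u ∅ h ((MvPolynomial.isEmptyAlgEquiv k _).symm
        (MvPolynomial.isEmptyAlgEquiv k _ x)) = secMap (trivFam k) u ∅ h
        ((MvPolynomial.isEmptyAlgEquiv k _).symm (MvPolynomial.isEmptyAlgEquiv k _ y))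
      rw [AlgEquiv.symm_apply_apply, AlgEquiv.symm_apply_apply]
      exact hxy
    · rintro ⟨x, hx⟩
      have h1 : x ∈ (⊥ : Subalgebra k (AddMonoidAlgebra k PUnit)) := hbot ▸ hx
      obtain ⟨r, rfl⟩ := Algebra.mem_bot.1 h1
      refine ⟨MvPolynomial.C r, ?_⟩
      change (MvPolynomial.aeval _) (MvPolynomial.C r) = _
      rw [MvPolynomial.aeval_C]
      rfl
  have hdeg : ∀ (q : Ideal (trivFam k).alg) [q.IsPrime] (d : PUnit), d ∈ (trivFam k).degs q :=
    fun q _ _ => AddSubmonoid.zero_mem _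
  refine ⟨PUnit, inferInstance, inferInstance, inferInstance, PEmpty, inferInstance, PEmpty,
    inferInstance, trivFam k, PUnit.unit, PEmpty.elim, PEmpty.elim, ∅, ?_, ?_, ?_⟩
  · refine ⟨⟨hfg, fun j => j.elim, fun _ => trivial, ⟨1, Nat.one_pos, 1, trivial, one_ne_zero⟩,
      fun _ => ⟨PUnit.unit, trivial, trivial⟩, ?_, ?_⟩, fun _ _ _ _ => trivial, fun i => i.elim,
      Set.finite_empty, ?_⟩
    · intro q _ _ d
      exact ⟨1, Nat.one_pos, 1, Nat.one_pos, hdeg q _⟩
    · intro q _ _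
      exact ⟨∅, trivFam k, ⟨fun j => j.elim, fun _ => le_rfl, fun d => le_atP _ _ d, hfg,
        fun j => j.elim, hsm _ _⟩⟩
    · intro q _ _
      refine ⟨fun i => i.elim, fun i => i.elim, ⟨fun i => i.elim, ?_, fun i => i.elim⟩⟩
      intro g _ d x _
      have h1 : (1 : G →* (k ≃ₐ[k] k)) g x - x = 0 := sub_self x
      rw [h1]
      exact Submodule.zero_mem _
  · rfl
  · exact le_top

/-- Packages and extensions of fields. -/
theorem hasPkg_map [Finite G] {K K₁ : Type} [Field K] [Algebra k K] [Field K₁] [Algebra k K₁]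
    {p : ℕ} (hp : p.Prime) (α : K₁ →ₐ[k] K) (φ : G →* (K ≃ₐ[k] K)) (φ₁ : G →* (K₁ ≃ₐ[k] K₁))
    (h : ∀ g x, φ g (α x) = α (φ₁ g x)) {B : Subalgebra k K₁} {N : Subgroup G}
    (hB : HasPkg p B φ₁ N) : HasPkg p (B.map α) φ N := by
  have hα : Function.Injective (Algebra.TensorProduct.lift α (Algebra.ofId k K)
      fun _ _ => Commute.all _ _) := by
    have h1 : Algebra.TensorProduct.lift α (Algebra.ofId k K) (fun _ _ => Commute.all _ _) =
        α.comp (Algebra.TensorProduct.rid k k K₁).toAlgHom := by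
      refine Algebra.TensorProduct.ext' fun x y => ?_
      rw [Algebra.TensorProduct.lift_tmul, AlgHom.comp_apply]
      change _ = α (Algebra.TensorProduct.rid k k K₁ (x ⊗ₜ y))
      rw [Algebra.TensorProduct.rid_tmul, map_smul, Algebra.smul_def, mul_comm]
      rfl
    rw [h1]
    exact α.injective.comp (Algebra.TensorProduct.rid k k K₁).injective
  have h2 := hasPkg_prod hp α (Algebra.ofId k K) hα φ φ₁ (1 : G →* (k ≃ₐ[k] k)) h
    (fun g x => by
      change φ g (algebraMap k K x) = algebraMap k K x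
      exact (φ g).commutes x) hB (hasPkg_triv p)
  rw [inf_top_eq] at h2
  convert h2 using 1
  refine (sup_eq_left.2 ?_).symm
  rintro _ ⟨x, -, rfl⟩
  exact (B.map α).algebraMap_mem x

section fracMap

variable {B C : Type} [CommRing B] [IsDomain B] [Algebra k B] [CommRing C] [IsDomain C]
  [Algebra k C]

/-- The homomorphism of fraction fields induced by an injective homomorphism. -/
noncomputable def fracMap (f : B →ₐ[k] C) (hf : Function.Injective f) :
    FractionRing B →ₐ[k] FractionRing C :=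
  IsFractionRing.liftAlgHom (g := (IsScalarTower.toAlgHom k C (FractionRing C)).comp f)
    ((IsFractionRing.injective C (FractionRing C)).comp hf)

theorem fracMap_algebraMap (f : B →ₐ[k] C) (hf : Function.Injective f) (b : B) :
    fracMap f hf (algebraMap B _ b) = algebraMap C _ (f b) :=
  IsFractionRing.lift_algebraMap
    (g := ((IsScalarTower.toAlgHom k C (FractionRing C)).comp f).toRingHom)
    ((IsFractionRing.injective C (FractionRing C)).comp hf) b

theorem algHom_frac_ext {L : Type} [Field L] [Algebra k L] {f g : FractionRing B →ₐ[k] L}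
    (h : ∀ b, f (algebraMap B _ b) = g (algebraMap B _ b)) : f = g := by
  refine AlgHom.ext fun z => ?_
  obtain ⟨a, b, rfl⟩ := IsLocalization.exists_mk'_eq (nonZeroDivisors B) z
  rw [IsFractionRing.mk'_eq_div, map_div₀, map_div₀, h, h]

theorem map_copy (f : B →ₐ[k] C) (hf : Function.Injective f) :
    (copy k B).map (fracMap f hf) = f.range.map (IsScalarTower.toAlgHom k C (FractionRing C)) := by
  refine le_antisymm ?_ ?_
  · rintro _ ⟨_, ⟨b, rfl⟩, rfl⟩
    exact ⟨f b, ⟨b, rfl⟩, (fracMap_algebraMap f hf b).symm⟩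
  · rintro _ ⟨_, ⟨b, rfl⟩, rfl⟩
    exact ⟨algebraMap B _ b, ⟨b, rfl⟩, fracMap_algebraMap f hf b⟩

theorem fracMap_equivariant (f : B →ₐ[k] C) (hf : Function.Injective f) {σ : B ≃ₐ[k] B}
    {τ : C ≃ₐ[k] C} (h : ∀ b, f (σ b) = τ (f b)) (z : FractionRing B) :
    fracHom τ (fracMap f hf z) = fracMap f hf (fracHom σ z) := by
  have h1 : ((fracHom τ).toAlgHom.comp (fracMap f hf)) =
      (fracMap f hf).comp (fracHom σ).toAlgHom := by
    refine algHom_frac_ext fun b => ?_
    change fracEquiv τ (fracMap f hf (algebraMap B _ b)) =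
      fracMap f hf (fracEquiv σ (algebraMap B _ b))
    rw [fracMap_algebraMap, fracEquiv_algebraMap, fracEquiv_algebraMap, fracMap_algebraMap, h]
  exact AlgHom.congr_fun h1 z

end fracMap

section

variable [Finite G] {p : ℕ} {B B₁ B₂ : Type} [CommRing B] [IsDomain B] [Algebra k B]
  [CommRing B₁] [IsDomain B₁] [Algebra k B₁] [CommRing B₂] [IsDomain B₂] [Algebra k B₂]

theorem RPkg.equiv (hp : p.Prime) {ψ₁ : G →* (B₁ ≃ₐ[k] B₁)} {ψ₂ : G →* (B₂ ≃ₐ[k] B₂)}
    {N : Subgroup G}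
    (e : B₁ ≃ₐ[k] B₂) (he : ∀ g b, e (ψ₁ g b) = ψ₂ g (e b)) (h : RPkg p B₁ ψ₁ N) :
    RPkg p B₂ ψ₂ N := by
  have h1 := hasPkg_map hp (fracMap e.toAlgHom e.injective) (fracHom.comp ψ₂)
    (fracHom.comp ψ₁) (fun g x => fracMap_equivariant e.toAlgHom e.injective (he g) x) h
  have h3 := map_copy (k := k) e.toAlgHom e.injective
  rw [h3] at h1
  convert h1 using 1
  have h2 : e.toAlgHom.range = ⊤ := by
    rw [AlgHom.range_eq_top]
    exact e.surjective
  rw [h2, Algebra.map_top]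
  rfl

theorem RPkg.base (hp : p.Prime) (ψ : G →* (k ≃ₐ[k] k)) : RPkg p k ψ ⊤ := by
  have h1 := hasPkg_map hp (Algebra.ofId k (FractionRing k)) (fracHom.comp ψ)
    (1 : G →* (k ≃ₐ[k] k)) (fun g x => by
      change (fracHom (ψ g)) (algebraMap k _ x) = algebraMap k _ x
      exact AlgEquiv.commutes _ x) (hasPkg_triv p)
  have h2 : IsScalarTower.toAlgHom k k (FractionRing k) = Algebra.ofId k (FractionRing k) :=
    AlgHom.ext fun x => rfl
  rw [Algebra.map_top, ← h2] at h1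
  exact h1

theorem exists_denoms (z : FractionRing B₁ ⊗[k] FractionRing B₂) :
    ∃ b₁ : B₁, b₁ ≠ 0 ∧ ∃ b₂ : B₂, b₂ ≠ 0 ∧ ∃ w : B₁ ⊗[k] B₂,
      (algebraMap B₁ (FractionRing B₁) b₁ ⊗ₜ[k] algebraMap B₂ (FractionRing B₂) b₂) * z =
        Algebra.TensorProduct.map (IsScalarTower.toAlgHom k B₁ (FractionRing B₁))
          (IsScalarTower.toAlgHom k B₂ (FractionRing B₂)) w := by
  induction z with
  | zero => exact ⟨1, one_ne_zero, 1, one_ne_zero, 0, by rw [mul_zero, map_zero]⟩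
  | tmul x y =>
    obtain ⟨a, b, rfl⟩ := IsLocalization.exists_mk'_eq (nonZeroDivisors B₁) x
    obtain ⟨c, d, rfl⟩ := IsLocalization.exists_mk'_eq (nonZeroDivisors B₂) y
    refine ⟨b, nonZeroDivisors.coe_ne_zero b, d, nonZeroDivisors.coe_ne_zero d, a ⊗ₜ c, ?_⟩
    rw [Algebra.TensorProduct.tmul_mul_tmul, Algebra.TensorProduct.map_tmul,
      IsLocalization.mk'_spec', IsLocalization.mk'_spec']
    rfl
  | add x y hx hy =>
    obtain ⟨b₁, hb₁, b₂, hb₂, w, hw⟩ := hx
    obtain ⟨c₁, hc₁, c₂, hc₂, v, hv⟩ := hy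
    refine ⟨b₁ * c₁, mul_ne_zero hb₁ hc₁, b₂ * c₂, mul_ne_zero hb₂ hc₂,
      (c₁ ⊗ₜ c₂) * w + (b₁ ⊗ₜ b₂) * v, ?_⟩
    have h1 : ∀ (u₁ : B₁) (u₂ : B₂) (w : B₁ ⊗[k] B₂),
        Algebra.TensorProduct.map (IsScalarTower.toAlgHom k B₁ (FractionRing B₁))
          (IsScalarTower.toAlgHom k B₂ (FractionRing B₂)) ((u₁ ⊗ₜ u₂) * w) =
        (algebraMap B₁ (FractionRing B₁) u₁ ⊗ₜ[k] algebraMap B₂ (FractionRing B₂) u₂) *
          Algebra.TensorProduct.map (IsScalarTower.toAlgHom k B₁ (FractionRing B₁))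
          (IsScalarTower.toAlgHom k B₂ (FractionRing B₂)) w := by
      intro u₁ u₂ w
      rw [map_mul, Algebra.TensorProduct.map_tmul]
      rfl
    rw [map_add, h1, h1, ← hw, ← hv, map_mul, map_mul, ← Algebra.TensorProduct.tmul_mul_tmul]
    ring

/-- The product of the fields of fractions. -/
theorem lift_fracMap_injective {C : Type} [CommRing C] [IsDomain C] [Algebra k C]
    (f₁ : B₁ →ₐ[k] C) (f₂ : B₂ →ₐ[k] C) (hf₁ : Function.Injective f₁)
    (hf₂ : Function.Injective f₂)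
    (h : Function.Injective (Algebra.TensorProduct.lift f₁ f₂ fun _ _ => Commute.all _ _)) :
    Function.Injective (Algebra.TensorProduct.lift (fracMap f₁ hf₁) (fracMap f₂ hf₂)
      fun _ _ => Commute.all _ _) := by
  rw [injective_iff_map_eq_zero]
  intro z hz
  obtain ⟨b₁, hb₁, b₂, hb₂, w, hw⟩ := exists_denoms z
  have h3 : ∀ w, Algebra.TensorProduct.lift (fracMap f₁ hf₁) (fracMap f₂ hf₂)
      (fun _ _ => Commute.all _ _) (Algebra.TensorProduct.map
        (IsScalarTower.toAlgHom k B₁ (FractionRing B₁))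
        (IsScalarTower.toAlgHom k B₂ (FractionRing B₂)) w) =
      algebraMap C (FractionRing C)
        (Algebra.TensorProduct.lift f₁ f₂ (fun _ _ => Commute.all _ _) w) := by
    intro w
    induction w with
    | zero => simp
    | add x y hx hy => rw [map_add, map_add, map_add, hx, hy, map_add]
    | tmul x y =>
      rw [Algebra.TensorProduct.map_tmul, Algebra.TensorProduct.lift_tmul,
        IsScalarTower.toAlgHom_apply, IsScalarTower.toAlgHom_apply, fracMap_algebraMap,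
        fracMap_algebraMap, ← map_mul, Algebra.TensorProduct.lift_tmul]
  have h4 := h3 w
  rw [← hw, map_mul, hz, mul_zero] at h4
  have h5 : w = 0 := (map_eq_zero_iff _ h).1 ((map_eq_zero_iff _ (IsFractionRing.injective C
    (FractionRing C))).1 h4.symm)
  rw [h5, map_zero] at hw
  have h6 : ((algebraMap B₁ (FractionRing B₁) b₁)⁻¹ ⊗ₜ[k]
      (algebraMap B₂ (FractionRing B₂) b₂)⁻¹) *
      ((algebraMap B₁ (FractionRing B₁) b₁ ⊗ₜ[k] algebraMap B₂ (FractionRing B₂) b₂) * z) = 0 := by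
    rw [hw, mul_zero]
  rwa [← mul_assoc, Algebra.TensorProduct.tmul_mul_tmul, inv_mul_cancel₀, inv_mul_cancel₀,
    ← Algebra.TensorProduct.one_def, one_mul] at h6
  · exact (map_ne_zero_iff _ (IsFractionRing.injective B₂ (FractionRing B₂))).2 hb₂
  · exact (map_ne_zero_iff _ (IsFractionRing.injective B₁ (FractionRing B₁))).2 hb₁

theorem RPkg.prod' {C : Type} [CommRing C] [IsDomain C] [Algebra k C] (hp : p.Prime)
    (f₁ : B₁ →ₐ[k] C) (f₂ : B₂ →ₐ[k] C)
    (h : Function.Bijective (Algebra.TensorProduct.lift f₁ f₂ fun _ _ => Commute.all _ _))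
    {ψ₁ : G →* (B₁ ≃ₐ[k] B₁)} {ψ₂ : G →* (B₂ ≃ₐ[k] B₂)} {ψ : G →* (C ≃ₐ[k] C)}
    (hψ₁ : ∀ g b, f₁ (ψ₁ g b) = ψ g (f₁ b)) (hψ₂ : ∀ g b, f₂ (ψ₂ g b) = ψ g (f₂ b))
    {N₁ N₂ : Subgroup G} (h₁ : RPkg p B₁ ψ₁ N₁) (h₂ : RPkg p B₂ ψ₂ N₂) :
    RPkg p C ψ (N₁ ⊓ N₂) := by
  have hf₁ : Function.Injective f₁ := by
    have h3 : f₁ = (Algebra.TensorProduct.lift f₁ f₂ fun _ _ => Commute.all _ _).comp
        Algebra.TensorProduct.includeLeft := by
      refine AlgHom.ext fun x => ?_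
      rw [AlgHom.comp_apply, Algebra.TensorProduct.includeLeft_apply,
        Algebra.TensorProduct.lift_tmul, map_one, mul_one]
    rw [h3]
    exact h.1.comp (Algebra.TensorProduct.includeLeft_injective (S := k)
      (algebraMap k B₂).injective)
  have hf₂ : Function.Injective f₂ := by
    have h3 : f₂ = (Algebra.TensorProduct.lift f₁ f₂ fun _ _ => Commute.all _ _).comp
        Algebra.TensorProduct.includeRight := by
      refine AlgHom.ext fun x => ?_
      rw [AlgHom.comp_apply, Algebra.TensorProduct.includeRight_apply,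
        Algebra.TensorProduct.lift_tmul, map_one, one_mul]
    rw [h3]
    exact h.1.comp (Algebra.TensorProduct.includeRight_injective (algebraMap k B₁).injective)
  have h3 := hasPkg_prod hp (fracMap f₁ hf₁) (fracMap f₂ hf₂)
    (lift_fracMap_injective f₁ f₂ hf₁ hf₂ h.1) (fracHom.comp ψ) (fracHom.comp ψ₁)
    (fracHom.comp ψ₂)
    (fun g x => fracMap_equivariant (σ := ψ₁ g) (τ := ψ g) _ hf₁ (hψ₁ g) x)
    (fun g x => fracMap_equivariant (σ := ψ₂ g) (τ := ψ g) _ hf₂ (hψ₂ g) x) h₁ h₂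
  rw [map_copy, map_copy, ← Algebra.map_sup] at h3
  convert h3 using 1
  have h4 : f₁.range ⊔ f₂.range = ⊤ := by
    rw [← Algebra.TensorProduct.productMap_range, AlgHom.range_eq_top]
    exact h.2
  rw [h4, Algebra.map_top]
  rfl

theorem RPkg.prod [IsDomain (B₁ ⊗[k] B₂)] (hp : p.Prime) {ψ₁ : G →* (B₁ ≃ₐ[k] B₁)}
    {ψ₂ : G →* (B₂ ≃ₐ[k] B₂)} {ψ : G →* ((B₁ ⊗[k] B₂) ≃ₐ[k] (B₁ ⊗[k] B₂))}
    (hψ : ∀ g b₁ b₂, ψ g (b₁ ⊗ₜ b₂) = ψ₁ g b₁ ⊗ₜ ψ₂ g b₂) {N₁ N₂ : Subgroup G}
    (h₁ : RPkg p B₁ ψ₁ N₁) (h₂ : RPkg p B₂ ψ₂ N₂) : RPkg p (B₁ ⊗[k] B₂) ψ (N₁ ⊓ N₂) := by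
  refine RPkg.prod' hp (Algebra.TensorProduct.includeLeft : B₁ →ₐ[k] B₁ ⊗[k] B₂)
    (Algebra.TensorProduct.includeRight : B₂ →ₐ[k] B₁ ⊗[k] B₂) ?_
    (fun g b => ?_) (fun g b => ?_) h₁ h₂
  · have h3 : (Algebra.TensorProduct.lift (Algebra.TensorProduct.includeLeft : B₁ →ₐ[k] B₁ ⊗[k] B₂)
        (Algebra.TensorProduct.includeRight : B₂ →ₐ[k] B₁ ⊗[k] B₂)
        fun _ _ => Commute.all _ _) = AlgHom.id k (B₁ ⊗[k] B₂) := by
      refine Algebra.TensorProduct.ext' fun x y => ?_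
      rw [Algebra.TensorProduct.lift_tmul, Algebra.TensorProduct.includeLeft_apply,
        Algebra.TensorProduct.includeRight_apply, Algebra.TensorProduct.tmul_mul_tmul, one_mul,
        mul_one, AlgHom.id_apply]
    rw [h3]
    exact Function.bijective_id
  · rw [Algebra.TensorProduct.includeLeft_apply, Algebra.TensorProduct.includeLeft_apply, hψ,
      map_one]
  · rw [Algebra.TensorProduct.includeRight_apply, Algebra.TensorProduct.includeRight_apply, hψ,
      map_one]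

theorem RPkg.hasResolution [Infinite k] (hp : p.Prime) {ψ : G →* (B ≃ₐ[k] B)}
    (h : RPkg p B ψ ⊥) : HasResolution k (invRing ψ) := by
  obtain ⟨M, hM, h0⟩ := exists_goodC hp h
  have hinjK := IsFractionRing.injective B (FractionRing B)
  refine hasResolution_of_goodC_one k _ (FractionRing B) ?_ M hM ?_
  · exact hinjK.comp Subtype.val_injective
  · intro z
    rw [h0]
    constructor
    · rintro ⟨⟨b, rfl⟩, hz⟩
      refine ⟨⟨b, fun g => ?_⟩, rfl⟩
      exact hinjK ((fracEquiv_algebraMap (ψ g) b).symm.trans (hz g))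
    · rintro ⟨x, rfl⟩
      refine ⟨⟨x, rfl⟩, fun g => ?_⟩
      change fracEquiv (ψ g) (algebraMap B _ (x : B)) = algebraMap B _ (x : B)
      rw [fracEquiv_algebraMap]
      exact congrArg _ (x.2 g)

end

end Pool.Agent.MP_b525bf_ag_P
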