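import Pool.Agent.Lib.MP_b525bf_ag_P.TorStep
import Pool.Agent.Lib.MP_b525bf_ag_P.SmoothTor
import Pool.Agent.Lib.MP_b525bf_ag_P.Laur

/-!
# P2: charts of the toric modification
-/

set_option autoImplicit false

namespace Pool.Agent.MP_b525bf_ag_P

open Pool.Agent.MP_b525bf_ag Pool.Agent.MP_b525bf_ag_W AddMonoidAlgebra

variable {k K ι J : Type} [Field k] [Field K] [Algebra k K] [AddCommGroup ι]
  {M : Fam k K ι} {a : ι} {u : J → ι} {v : J → ℕ}

/-- Charts at the points over a point where all sections of positive weight are in `T`. -/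
theorem chart_torStep_in [Finite J] {q : Ideal M.alg} [q.IsPrime]
    {q' : Ideal (torStep M u v).alg} [q'.IsPrime] (hov : Over M (torStep M u v) (inlZ ι) q q')
    {T : Set J} {C : Fam k K ι} (hC : Chart M u q T C) (hT : ∀ j, 0 < v j → j ∈ T) :
    Chart (torStep M u v) (torU u v) q' ({none} ∪ some '' T) (torStep C u v) := by
  refine ⟨?_, ?_, ?_, torStep_fg hC.fg, torStep_sec hC.sec,
    smooth_torStep hC.fg hC.sec hC.smooth hT (torStep_sec hC.sec)⟩
  · intro j hj
    cases j with
    | none => exact absurd (Or.inl rfl) hj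
    | some j =>
      have hjT : j ∉ T := fun h => hj (Or.inr ⟨j, h, rfl⟩)
      have hv : v j = 0 := by
        by_contra hv
        exact hjT (hT j (Nat.pos_of_ne_zero hv))
      have h1 := Over.atP (le_torStep (u := u) (v := v)) hov (u j) (hC.unit j hjT)
      have h2 : torU u v (some j) = inlZ ι (u j) := by simp [torU, hv]
      rw [h2]
      exact h1
  · intro c
    refine torStep_le_of (fun d => ?_) one_torStep (fun j hj => one_torStep_some hj) c
    exact (hC.le d).trans (le_torStep d)
  · intro c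
    refine torStep_le_of (fun d => ?_) ?_ (fun j hj => ?_) c
    · exact (hC.ge d).trans (Over.atP (le_torStep (u := u) (v := v)) hov d)
    · exact le_atP _ _ _ one_torStep
    · exact le_atP _ _ _ (one_torStep_some hj)

/-- Charts at the points over a point where some section of positive weight is a unit. -/
theorem chart_torStep_out [Finite J] (hsec : ∀ j, (1 : K) ∈ M.s (-(u j))) {q : Ideal M.alg}
    [q.IsPrime] {q' : Ideal (torStep M u v).alg} [q'.IsPrime]
    (hov : Over M (torStep M u v) (inlZ ι) q q')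
    {T : Set J} {C : Fam k K ι} (hC : Chart M u q T C) {j : J} (hj : 0 < v j)
    (hjT : (1 : K) ∈ (atP M q).s (u j)) :
    ∃ C', Chart (torStep M u v) (torU u v) q' (some '' T) C' := by
  have hA : ∀ d, (atP M q).s d ≤ (atP (torStep M u v) q').s (inlZ ι d) :=
    Over.atP (le_torStep (u := u) (v := v)) hov
  have hneg : (1 : K) ∈ (atP (torStep M u v) q').s (0, -1) := le_atP _ _ _ one_torStep
  have hpos : (1 : K) ∈ (atP (torStep M u v) q').s (0, 1) := by
    have h1 := (atP (torStep M u v) q').mul' (hA _ hjT)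
      ((atP (torStep M u v) q').mul' (le_atP (torStep M u v) q' _ (one_torStep_some (M := M)
        (u := u) hj)) ((atP (torStep M u v) q').pow' hneg (v j - 1)))
    rw [one_pow, one_mul, one_mul] at h1
    convert h1 using 2
    refine Prod.ext ?_ ?_
    · simp only [inlZ_apply, Prod.smul_mk, Prod.mk_add_mk, smul_zero, add_zero, add_neg_cancel]
    · simp only [inlZ_apply, Prod.smul_mk, Prod.mk_add_mk, nsmul_eq_mul]
      have : ((v j - 1 : ℕ) : ℤ) = (v j : ℤ) - 1 := by omega
      rw [this]
      ring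
  have hall : ∀ n : ℤ, (1 : K) ∈ (atP (torStep M u v) q').s (0, n) := by
    intro n
    obtain ⟨m, rfl | rfl⟩ := n.eq_nat_or_neg
    · have := (atP (torStep M u v) q').pow' hpos m
      rw [one_pow] at this
      convert this using 2
      simp
    · have := (atP (torStep M u v) q').pow' hneg m
      rw [one_pow] at this
      convert this using 2
      simp
  let N : Fam k K ι := C.loc (hC.sec j)
  have hNsec : ∀ i, (1 : K) ∈ N.s (-(u i)) := fun i => C.le_loc _ _ (hC.sec i)
  have hsec' : ∀ i, (1 : K) ∈ (lau N).s (-(torU u v i)) := by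
    intro i
    cases i with
    | none =>
      refine mem_lau.2 ?_
      have : (-(torU u v none)).1 = 0 := by simp [torU]
      rw [this]
      exact N.one'
    | some i =>
      refine mem_lau.2 ?_
      have : (-(torU u v (some i))).1 = -(u i) := by simp [torU]
      rw [this]
      exact hNsec i
  refine ⟨lau N, ?_, ?_, ?_, ?_, hsec', ?_⟩
  · intro i hi
    cases i with
    | none => exact hpos
    | some i =>
      have hiT : i ∉ T := fun h => hi ⟨i, h, rfl⟩
      have h1 := (atP (torStep M u v) q').mul' (hA _ (hC.unit i hiT)) (hall (-(v i : ℤ)))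
      rw [one_mul] at h1
      convert h1 using 2
      simp [torU]
  · intro c x hx
    exact mem_lau.2 (C.le_loc _ _ (hC.le _ (torStep_le hsec c hx)))
  · rintro ⟨d, n⟩ x hx
    obtain ⟨m, hm⟩ := mem_lau.1 hx
    rw [one_pow, one_mul] at hm
    have h1 := (atP (torStep M u v) q').mul' ((atP (torStep M u v) q').mul'
      (hA _ ((atP M q).pow' hjT m)) (hA _ (hC.ge _ hm))) (hall n)
    rw [one_pow, one_mul, mul_one] at h1
    convert h1 using 2
    refine Prod.ext ?_ ?_
    · simp only [inlZ_apply, Prod.mk_add_mk, smul_neg, add_zero, add_neg_cancel_left]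
    · simp only [inlZ_apply, Prod.mk_add_mk, zero_add]
  · exact lau_fg ((Subalgebra.fg_iff_finiteType _).2 (C.finiteType_loc hC.fg (hC.sec j)
      one_ne_zero))
  · refine smooth_lau hNsec ?_ hsec'
    let _ := (C.toLoc (hC.sec j)).toRingHom.toAlgebra
    have hloc : IsLocalization.Away (C.el (hC.sec j)) (C.loc (hC.sec j)).alg :=
      C.isLocalization_loc (hC.sec j) one_ne_zero
    have h1 : (C.toLoc (hC.sec j)).toRingHom.FormallySmooth := by
      have : Algebra.FormallySmooth C.alg (C.loc (hC.sec j)).alg :=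
        Algebra.FormallySmooth.of_isLocalization (Submonoid.powers (C.el (hC.sec j)))
      exact RingHom.formallySmooth_algebraMap.2 this
    have h2 := hC.smooth.comp h1
    have h3 : (secMap N u T hNsec).toRingHom =
        (C.toLoc (hC.sec j)).toRingHom.comp (secMap C u T hC.sec).toRingHom := by
      have h4 : secMap N u T hNsec = (C.toLoc (hC.sec j)).comp (secMap C u T hC.sec) := by
        refine MvPolynomial.algHom_ext fun i => ?_
        rw [AlgHom.comp_apply, secMap, MvPolynomial.aeval_X, secMap, MvPolynomial.aeval_X]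
        rfl
      rw [h4]
      rfl
    rw [h3]
    exact h2

/-- The toric modification of a toric family is a toric family. -/
theorem tor_torStep [Module.Free ℤ ι] [Module.Finite ℤ ι] [Finite J] (hT : Tor M a u)
    (hv : ∃ j, 0 < v j) : ∃ ρ₀ : ℕ, ∀ ρ : ℕ, ρ₀ ≤ ρ →
      Tor (torStep M u v) (ρ • a, 1) (torU u v) ∧
      ∀ (q' : Ideal (torStep M u v).alg) [q'.IsPrime], Semi (torStep M u v) (ρ • a, 1) q' →
        ∃ (q : Ideal M.alg) (_ : q.IsPrime), Over M (torStep M u v) (inlZ ι) q q' ∧ Semi M a q ∧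
        ∃ j, 0 < v j ∧ (1 : K) ∈ (atP (torStep M u v) q').s (torU u v (some j)) := by
  obtain ⟨ρ₁, h1⟩ := torStep_semi (M := M) (v := v) hT.fg hT.sec a
  obtain ⟨ρ₂, h2⟩ := torStep_nontriv hT hv
  refine ⟨max ρ₁ ρ₂, fun ρ hρ => ?_⟩
  have hρ1 : ρ₁ ≤ ρ := (le_max_left _ _).trans hρ
  have hρ2 : ρ₂ ≤ ρ := (le_max_right _ _).trans hρ
  have hinj : Function.Injective (inlZ ι) := fun x y hxy => by
    simpa using hxy
  have hneg : ∀ (c : ι) (m : ℤ), m ≤ 0 → (1 : K) ∈ M.s c →
      (1 : K) ∈ (torStep M u v).s (c, m) := by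
    intro c m hm hc
    obtain ⟨n, rfl⟩ := Int.exists_eq_neg_ofNat hm
    have := (torStep M u v).mul' (le_torStep (u := u) (v := v) c hc)
      ((torStep M u v).pow' (one_torStep (M := M) (u := u) (v := v)) n)
    rw [one_pow, one_mul] at this
    convert this using 2
    simp
  refine ⟨⟨torStep_fg hT.fg, torStep_sec hT.sec, ?_, h2 ρ hρ2, ?_, ?_, ?_⟩, ?_⟩
  · intro n
    have := hneg (-((n * ρ) • a)) (-(n : ℤ)) (by omega) (hT.neg (n * ρ))
    convert this using 2
    refine Prod.ext ?_ ?_
    · simp [mul_smul]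
    · simp
  · rintro ⟨e, n⟩
    obtain ⟨c, hc1, hc2⟩ := hT.gen e
    refine ⟨(c, -|n|), hneg _ _ (by simp) hc1, ?_⟩
    rw [Prod.mk_add_mk]
    exact hneg _ _ (by have := le_abs_self n; omega) hc2
  · intro q' hq' hs
    obtain ⟨q, hq, hov⟩ := exists_over hinj (le_torStep (M := M) (u := u) (v := v)) q'
    obtain ⟨h3, -, h5⟩ := h1 ρ hρ1 q' q hov hs
    exact h5 (hT.int q h3)
  · intro q' hq' hs
    obtain ⟨q, hq, hov⟩ := exists_over hinj (le_torStep (M := M) (u := u) (v := v)) q'
    obtain ⟨h3, -, -⟩ := h1 ρ hρ1 q' q hov hs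
    obtain ⟨T, C, hC⟩ := hT.chart q h3
    by_cases hall : ∀ j, 0 < v j → j ∈ T
    · exact ⟨_, _, chart_torStep_in hov hC hall⟩
    · push Not at hall
      obtain ⟨j, hj, hjT⟩ := hall
      obtain ⟨C', hC'⟩ := chart_torStep_out hT.sec hov hC hj (hC.unit j hjT)
      exact ⟨_, _, hC'⟩
  · intro q' hq' hs
    obtain ⟨q, hq, hov⟩ := exists_over hinj (le_torStep (M := M) (u := u) (v := v)) q'
    obtain ⟨h3, h4, -⟩ := h1 ρ hρ1 q' q hov hs
    exact ⟨q, hq, hov, h3, h4⟩

end Pool.Agent.MP_b525bf_ag_P
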