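import Pool.Agent.Lib.MP_b525bf_ag_P.Defs
import Pool.Agent.Lib.MP_b525bf_ag_helper53.FamLoc

/-!
# P1: the toric modification: formal properties and semistability
-/

set_option autoImplicit false

namespace Pool.Agent.MP_b525bf_ag_P

open Pool.Agent.MP_b525bf_ag Pool.Agent.MP_b525bf_ag_W AddMonoidAlgebra

variable {k K ι J : Type} [Field k] [Field K] [Algebra k K] [AddCommGroup ι]
  {M : Fam k K ι} {a : ι} {u : J → ι} {v : J → ℕ}

/-- The algebra of the toric modification is generated by `tgens`. -/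
theorem torStep_alg : (torStep M u v).alg = Algebra.adjoin k (tgens M u v) := by
  refine H53.alg_ofSub_adjoin _ ?_
  rintro F ((⟨d, x, hx, rfl⟩ | hF) | ⟨j, hj, rfl⟩)
  · exact ⟨_, _, rfl⟩
  · exact ⟨_, _, hF⟩
  · exact ⟨_, _, rfl⟩

theorem mem_torStep {c : ι × ℤ} {x : K} : x ∈ (torStep M u v).s c ↔
    single c x ∈ Algebra.adjoin k (tgens M u v) := Iff.rfl

theorem le_torStep (d : ι) : M.s d ≤ (torStep M u v).s (inlZ ι d) := fun x hx =>
  mem_torStep.2 (Algebra.subset_adjoin (Or.inl (Or.inl ⟨d, x, hx, rfl⟩)))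

theorem one_torStep : (1 : K) ∈ (torStep M u v).s (0, -1) :=
  mem_torStep.2 (Algebra.subset_adjoin (Or.inl (Or.inr rfl)))

theorem one_torStep_some {j : J} (hj : 0 < v j) :
    (1 : K) ∈ (torStep M u v).s (-(u j), (v j : ℤ)) :=
  mem_torStep.2 (Algebra.subset_adjoin (Or.inr ⟨j, hj, rfl⟩))

/-- A family over `ι × ℤ` which contains the generators contains the toric modification. -/
theorem torStep_le_of {C : Fam k K (ι × ℤ)} (h1 : ∀ d, M.s d ≤ C.s (d, 0))
    (h2 : (1 : K) ∈ C.s (0, -1)) (h3 : ∀ j, 0 < v j → (1 : K) ∈ C.s (-(u j), (v j : ℤ)))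
    (c : ι × ℤ) : (torStep M u v).s c ≤ C.s c := by
  intro x hx
  have h4 : Algebra.adjoin k (tgens M u v) ≤ C.alg := by
    refine Algebra.adjoin_le ?_
    rintro F ((⟨d, x, hx, rfl⟩ | hF) | ⟨j, hj, rfl⟩)
    · exact Fam.single_mem_alg.2 (h1 d hx)
    · rw [Set.mem_singleton_iff] at hF
      rw [hF]
      exact Fam.single_mem_alg.2 h2
    · exact Fam.single_mem_alg.2 (h3 j hj)
  exact Fam.single_mem_alg.1 (h4 (mem_torStep.1 hx))

theorem torStep_le (hsec : ∀ j, (1 : K) ∈ M.s (-(u j))) (c : ι × ℤ) :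
    (torStep M u v).s c ≤ M.s c.1 :=
  torStep_le_of (C := M.comap (AddMonoidHom.fst ι ℤ)) (fun _ => le_refl _) M.one'
    (fun j _ => hsec j) c

/-- The piece of degree `(d, 0)` does not change. -/
theorem torStep_zero (hsec : ∀ j, (1 : K) ∈ M.s (-(u j))) (d : ι) :
    (torStep M u v).s (d, 0) = M.s d :=
  le_antisymm (torStep_le hsec (d, 0)) (le_torStep d)

/-- The sections of the toric modification. -/
theorem torStep_sec (hsec : ∀ j, (1 : K) ∈ M.s (-(u j))) (j : Option J) :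
    (1 : K) ∈ (torStep M u v).s (-(torU u v j)) := by
  cases j with
  | none =>
    have h : -(torU u v none) = ((0, -1) : ι × ℤ) := by
      simp [torU]
    rw [h]
    exact one_torStep
  | some j =>
    have h : -(torU u v (some j)) = ((-(u j), (v j : ℤ)) : ι × ℤ) := by
      simp [torU]
    rw [h]
    rcases Nat.eq_zero_or_pos (v j) with h0 | h0
    · rw [h0, Nat.cast_zero]
      exact le_torStep _ (hsec j)
    · exact one_torStep_some h0

/-- Finitely many generators. -/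
theorem exists_torStep_gens [Finite J] (hfg : M.alg.FG) :
    ∃ (r t : ℕ) (δ : Fin r → ι) (x : Fin r → K) (j : Fin t → J),
      (∀ i, x i ∈ M.s (δ i)) ∧ (∀ i, 0 < v (j i)) ∧
      M.alg = Algebra.adjoin k
        (Set.range fun i => (single (δ i) (x i) : AddMonoidAlgebra K ι)) ∧
      (torStep M u v).alg = Algebra.adjoin k
        ((Set.range fun i => (single (δ i, 0) (x i) : AddMonoidAlgebra K (ι × ℤ))) ∪
        {single (0, -1) 1} ∪
        (Set.range fun i => (single (-(u (j i)), (v (j i) : ℤ)) 1 :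
          AddMonoidAlgebra K (ι × ℤ)))) := by
  classical
  obtain ⟨r, δ, x, hx, hgen⟩ := M.exists_generators hfg
  let σ := {j : J // 0 < v j}
  obtain ⟨t, ⟨e⟩⟩ := Finite.exists_equiv_fin σ
  refine ⟨r, t, δ, x, fun i => (e.symm i).1, hx, fun i => (e.symm i).2, hgen, ?_⟩
  rw [torStep_alg]
  set R := Algebra.adjoin k
      ((Set.range fun i => (single (δ i, 0) (x i) : AddMonoidAlgebra K (ι × ℤ))) ∪
      {single (0, -1) 1} ∪
      (Set.range fun i => (single (-(u (e.symm i).1), (v (e.symm i).1 : ℤ)) 1 :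
        AddMonoidAlgebra K (ι × ℤ)))) with hR
  have hM : ∀ (c : ι) (y : K), y ∈ M.s c → (single (c, 0) y : AddMonoidAlgebra K (ι × ℤ)) ∈ R := by
    intro c y hy
    have h1 : M.alg ≤ ((Fam.ofSub R).comap (inlZ ι)).alg := by
      rw [hgen]
      refine Algebra.adjoin_le ?_
      rintro _ ⟨i, rfl⟩
      refine Fam.single_mem_alg.2 ?_
      change single (δ i, 0) (x i) ∈ R
      exact Algebra.subset_adjoin (Or.inl (Or.inl ⟨i, rfl⟩))
    exact (Fam.single_mem_alg (M := (Fam.ofSub R).comap (inlZ ι))).1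
      (h1 (Fam.single_mem_alg.2 hy))
  refine le_antisymm (Algebra.adjoin_le ?_) (Algebra.adjoin_mono ?_)
  · rintro F ((⟨c, y, hy, rfl⟩ | hF) | ⟨j, hj, rfl⟩)
    · exact hM c y hy
    · exact Algebra.subset_adjoin (Or.inl (Or.inr hF))
    · refine Algebra.subset_adjoin (Or.inr ⟨e ⟨j, hj⟩, ?_⟩)
      change (fun s : σ => (single (-(u s.1), (v s.1 : ℤ)) 1 : AddMonoidAlgebra K (ι × ℤ)))
        (e.symm (e ⟨j, hj⟩)) = _
      rw [e.symm_apply_apply]
  · rintro F ((⟨i, rfl⟩ | hF) | ⟨i, rfl⟩)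
    · exact Or.inl (Or.inl ⟨δ i, x i, hx i, rfl⟩)
    · exact Or.inl (Or.inr hF)
    · exact Or.inr ⟨_, (e.symm i).2, rfl⟩

theorem torStep_fg [Finite J] (hfg : M.alg.FG) : (torStep M u v).alg.FG := by
  classical
  obtain ⟨r, t, δ, x, j, -, -, -, hgen⟩ := exists_torStep_gens (u := u) (v := v) hfg
  rw [hgen]
  exact Subalgebra.fg_def.2 ⟨_, ((Set.finite_range _).union (Set.finite_singleton _)).union
    (Set.finite_range _), rfl⟩

theorem torStep_stab {G : Type} [Group G] (φ : G →* (K ≃ₐ[k] K))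
    (hst : ∀ g d x, x ∈ M.s d → φ g x ∈ M.s d) :
    ∀ g c x, x ∈ (torStep M u v).s c → φ g x ∈ (torStep M u v).s c := by
  intro g c x hx
  let N : Fam k K (ι × ℤ) :=
    { s := fun d => ((torStep M u v).s d).comap (φ g).toLinearMap
      one' := by
        rw [Submodule.mem_comap]
        change φ g 1 ∈ (torStep M u v).s 0
        rw [map_one]
        exact (torStep M u v).one'
      mul' := by
        intro a b x y hx hy
        rw [Submodule.mem_comap] at hx hy ⊢
        change φ g (x * y) ∈ (torStep M u v).s (a + b)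
        rw [map_mul]
        exact (torStep M u v).mul' hx hy }
  have hN : ∀ (d : ι × ℤ) (x : K), x ∈ N.s d ↔ φ g x ∈ (torStep M u v).s d :=
    fun _ _ => Iff.rfl
  refine (hN c x).1 (torStep_le_of (C := N) ?_ ?_ ?_ c hx)
  · intro d y hy
    exact (hN _ _).2 (le_torStep d (hst g d y hy))
  · rw [hN, map_one]
    exact one_torStep
  · intro j hj
    rw [hN, map_one]
    exact one_torStep_some hj

/-- Semistability and interior degrees for the toric modification; at a semistable point one of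
the sections `1` of degree `-(torU u v (some j))`, `v j > 0`, is a unit. -/
theorem torStep_semi [Module.Free ℤ ι] [Module.Finite ℤ ι] [Finite J] (hfg : M.alg.FG)
    (hsec : ∀ j, (1 : K) ∈ M.s (-(u j))) (a : ι) :
    ∃ ρ₀ : ℕ, ∀ ρ : ℕ, ρ₀ ≤ ρ → ∀ (q' : Ideal (torStep M u v).alg) [q'.IsPrime]
      (q : Ideal M.alg) [q.IsPrime], Over M (torStep M u v) (inlZ ι) q q' →
      Semi (torStep M u v) (ρ • a, 1) q' →
      Semi M a q ∧ (∃ j, 0 < v j ∧ (1 : K) ∈ (atP (torStep M u v) q').s (torU u v (some j))) ∧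
      (IntA M a q → IntA (torStep M u v) (ρ • a, 1) q') := by
  obtain ⟨r, t, δ, x, j, hx, hj, hM, hgen⟩ := exists_torStep_gens (u := u) (v := v) hfg
  obtain ⟨ρ₀, hρ₀⟩ := semi_int_rees M a hx hM (d := fun i => -(u (j i))) (b := fun i => v (j i))
    (f := fun _ => 1) (fun i => hj i) (fun i => hsec (j i)) (torStep M u v) hgen
  refine ⟨ρ₀, fun ρ hρ q' hq' q hq hov hs => ?_⟩
  obtain ⟨h1, ⟨i, hi, hi'⟩, h3⟩ := hρ₀ ρ hρ q' q hov hs
  refine ⟨h1, ⟨j i, hj i, _, 1, hi, hi', ?_⟩, h3⟩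
  have h4 : ((-(u (j i)), (v (j i) : ℤ)) : ι × ℤ) + torU u v (some (j i)) = 0 := by
    simp [torU]
  rw [h4, mul_one]
  exact (torStep M u v).one'

/-- For large `ρ` the toric modification has nonzero elements in a positive multiple of the ample
degree. -/
theorem torStep_nontriv (hT : Tor M a u) (hv : ∃ j, 0 < v j) :
    ∃ ρ₀ : ℕ, ∀ ρ : ℕ, ρ₀ ≤ ρ → ∃ n : ℕ, 0 < n ∧ ∃ x ∈ (torStep M u v).s (n • (ρ • a, (1 : ℤ))),
      x ≠ 0 := by
  obtain ⟨j, hj⟩ := hv
  obtain ⟨n₀, hn₀, x, hx, hx0⟩ := hT.nontriv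
  -- a semistable prime
  obtain ⟨q, hq, hxq⟩ : ∃ q : Ideal M.alg, q.IsPrime ∧ M.el hx ∉ q := by
    have h1 : ¬ IsNilpotent (M.el hx) := by
      rintro ⟨m, hm⟩
      rw [Fam.el_pow] at hm
      have h2 := congrArg (Subtype.val : M.alg → AddMonoidAlgebra K ι) hm
      have h3 : (single (m • n₀ • a) (x ^ m) : AddMonoidAlgebra K ι) = 0 := h2
      rw [single_eq_zero] at h3
      exact pow_ne_zero m hx0 h3
    rw [nilpotent_iff_mem_prime] at h1
    push Not at h1
    exact h1
  have hsemi : Semi M a q := ⟨n₀, hn₀, x, hx, hxq⟩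
  obtain ⟨m, -, w, hw, y, hy, hyq⟩ := hT.int q hsemi (u j)
  have hy0 : y ≠ 0 := by
    rintro rfl
    apply hyq
    have : M.el hy = 0 := Subtype.ext (by simp)
    rw [this]
    exact Ideal.zero_mem _
  refine ⟨m, fun ρ hρ => ⟨n₀ * w, Nat.mul_pos hn₀ hw, y ^ n₀ * x ^ (w * (ρ - m)), ?_,
    mul_ne_zero (pow_ne_zero _ hy0) (pow_ne_zero _ hx0)⟩⟩
  -- the element `y` has degree `(w * m * a, w)`
  have h1 : y ∈ (torStep M u v).s ((w * m) • a, (w : ℤ)) := by
    have h2 := (torStep M u v).mul' (le_torStep (M := M) (u := u) (v := v) _ hy)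
      ((torStep M u v).mul' ((torStep M u v).pow' (one_torStep_some (M := M) (u := u) hj) w)
        ((torStep M u v).pow' (one_torStep (M := M) (u := u) (v := v)) (w * v j - w)))
    rw [one_pow, one_pow, mul_one, mul_one] at h2
    convert h2 using 2
    have h3 : ((w * v j - w : ℕ) : ℤ) = w * v j - w := by
      have : w ≤ w * v j := Nat.le_mul_of_pos_right w hj
      push_cast [Nat.cast_sub this]
      ring
    refine Prod.ext ?_ ?_
    · simp only [inlZ_apply, Prod.smul_mk, Prod.mk_add_mk, smul_zero, add_zero, smul_add, smul_neg,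
        mul_smul]
      abel
    · simp only [inlZ_apply, Prod.smul_mk, Prod.mk_add_mk, nsmul_eq_mul, h3, zero_add]
      ring
  have h2 := (torStep M u v).mul' ((torStep M u v).pow' h1 n₀)
    (le_torStep (u := u) (v := v) _ (M.pow' hx (w * (ρ - m))))
  convert h2 using 2
  refine Prod.ext ?_ ?_
  · simp only [inlZ_apply, Prod.smul_mk, Prod.mk_add_mk, smul_smul, ← add_nsmul]
    congr 1
    obtain ⟨s, rfl⟩ := Nat.exists_eq_add_of_le hρ
    rw [Nat.add_sub_cancel_left]
    ring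
  · simp only [inlZ_apply, Prod.smul_mk, Prod.mk_add_mk, nsmul_eq_mul, add_zero, mul_one]
    push_cast
    ring

/-- Exponents and degrees. -/
theorem wdeg_torC [Fintype J] (u : J → ι) (v : J → ℕ) (c : J → ℤ) :
    wdeg (torU u v) (torC v c) = inlZ ι (wdeg u c) := by
  rw [wdeg, Fintype.sum_option, inlZ_apply, wdeg]
  simp only [torU, torC]
  refine Prod.ext ?_ ?_
  · simp only [Prod.fst_add, Prod.smul_mk, smul_zero, Prod.fst_sum, zero_add]
  · simp only [Prod.snd_add, Prod.smul_mk, Prod.snd_sum, smul_eq_mul, mul_one, mul_neg,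
      Finset.sum_neg_distrib]
    rw [← sub_eq_add_neg, sub_eq_zero]
    exact Finset.sum_congr rfl fun j _ => mul_comm _ _

end Pool.Agent.MP_b525bf_ag_P
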