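import Pool.Agent.Lib.MP_b525bf_ag_W.ThmE

/-!
# P4b, auxiliary: one step of the tower (invariants of an automorphism of prime order with
principal augmentation ideal, after inverting an invariant element)
-/

set_option autoImplicit false
set_option linter.style.haveILetI false

open Polynomial

namespace Pool.Agent.MP_b525bf_ag_P

open Pool.Agent.MP_b525bf_ag Pool.Agent.MP_b525bf_ag_W

/-- divisibility of the differences for iterates -/
theorem dvd_iterate_sub {B : Type} [CommRing B] (ρ : B → B) (D : B) (hD : ∀ b, D ∣ ρ b - b)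
    (m : ℕ) (b : B) : D ∣ ρ^[m] b - b := by
  induction m with
  | zero => simp
  | succ m ih =>
    rw [Function.iterate_succ_apply']
    have e : ρ (ρ^[m] b) - b = (ρ (ρ^[m] b) - ρ^[m] b) + (ρ^[m] b - b) := by ring
    rw [e]
    exact dvd_add (hD _) ih

section Step

variable {k S : Type} [Field k] [CommRing S] [IsDomain S] [Algebra k S]

/-- One step: `τ` is an automorphism of `S` of prime order `p`, `A0` its ring of invariants, and
`f ∈ A0` an element such that `S[1/f]` is smooth and the augmentation ideals of the powers of `τ`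
are generated by `τⁱ z - z` in `S[1/f]`. Then `A0[1/f]` is smooth. -/
theorem step_smooth (τ : S →ₐ[k] S) (p : ℕ) (hp : p.Prime) (hord : ∀ x, τ^[p] x = x)
    (A0 : Subalgebra k S) (hA0 : ∀ x, x ∈ A0 ↔ τ x = x) (f : A0) (hf : f ≠ 0) (z : S)
    (hz : τ z ≠ z)
    (hdiv : ∀ i, 0 < i → i < p → ∀ x : S, ∃ n : ℕ, (τ^[i] z - z) ∣ (f : S) ^ n * (τ^[i] x - x))
    (hs : Algebra.FormallySmooth k (Localization.Away (f : S))) :
    Algebra.FormallySmooth k (Localization.Away f) := by
  let R := Localization.Away f
  let B := Localization.Away (algebraMap A0 S f)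
  have hf' : algebraMap A0 S f ≠ 0 := fun e => hf (Subtype.ext e)
  have hτf : τ (algebraMap A0 S f) = algebraMap A0 S f := (hA0 _).1 f.2
  letI : Algebra R B := (IsLocalization.Away.map R B (algebraMap A0 S) f).toAlgebra
  have hmap : ∀ a : A0, algebraMap R B (algebraMap A0 R a) = algebraMap S B (algebraMap A0 S a) := by
    intro a
    exact IsLocalization.map_eq (M := Submonoid.powers f) (S := R)
      (T := Submonoid.powers (algebraMap A0 S f)) (Q := B) (g := algebraMap A0 S)
      (by rintro _ ⟨n, rfl⟩; exact ⟨n, by simp⟩) a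
  haveI : IsScalarTower A0 R B := by
    apply IsScalarTower.of_algebraMap_eq
    intro a
    rw [hmap]
    rfl
  haveI : IsScalarTower k R B := by
    apply IsScalarTower.of_algebraMap_eq
    intro a
    rw [IsScalarTower.algebraMap_apply k A0 R, hmap]
    rfl
  haveI : IsDomain R := IsLocalization.isDomain_localization
    (powers_le_nonZeroDivisors_of_noZeroDivisors hf)
  haveI : IsDomain B := IsLocalization.isDomain_localization
    (powers_le_nonZeroDivisors_of_noZeroDivisors hf')
  haveI : Algebra.FormallySmooth k B := hs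
  have hinj : Function.Injective (algebraMap S B) :=
    IsLocalization.injective B (powers_le_nonZeroDivisors_of_noZeroDivisors hf')
  have hfu : IsUnit (algebraMap S B (f : S)) :=
    IsLocalization.Away.algebraMap_isUnit (S := B) (algebraMap A0 S f)
  have hfR : IsUnit (algebraMap A0 R f) := IsLocalization.Away.algebraMap_isUnit (S := R) f
  -- the automorphism of the localization
  let σ0 : B →+* B := IsLocalization.map B (τ : S →+* S)
    (M := Submonoid.powers (algebraMap A0 S f)) (T := Submonoid.powers (algebraMap A0 S f)) (by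
      rintro _ ⟨n, rfl⟩
      exact ⟨n, by
        show (algebraMap A0 S f) ^ n = τ ((algebraMap A0 S f) ^ n)
        rw [map_pow, hτf]⟩)
  have hσ0 : ∀ a : S, σ0 (algebraMap S B a) = algebraMap S B (τ a) := fun a =>
    IsLocalization.map_eq _ a
  have hsurj : ∀ b : B, ∃ (a : S) (n : ℕ), b * algebraMap S B (f : S) ^ n = algebraMap S B a := by
    intro b
    obtain ⟨⟨a, s⟩, hs⟩ := IsLocalization.surj (Submonoid.powers (algebraMap A0 S f)) b
    obtain ⟨_, m, rfl⟩ := s
    exact ⟨a, m, by simpa using hs⟩
  have hsurjR : ∀ b : R, ∃ (a : A0) (n : ℕ), b * algebraMap A0 R f ^ n = algebraMap A0 R a := by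
    intro b
    obtain ⟨⟨a, s⟩, hs⟩ := IsLocalization.surj (Submonoid.powers f) b
    obtain ⟨_, m, rfl⟩ := s
    exact ⟨a, m, by simpa using hs⟩
  have hσR : ∀ r : R, σ0 (algebraMap R B r) = algebraMap R B r := by
    intro r
    obtain ⟨a, n, ha⟩ := hsurjR r
    have h1 := congrArg (algebraMap R B) ha
    rw [map_mul, map_pow, hmap, hmap] at h1
    have h2 := congrArg σ0 h1
    have h0 : τ (algebraMap A0 S a) = algebraMap A0 S a := (hA0 _).1 a.2
    rw [map_mul, map_pow, hσ0, hσ0, hτf, h0] at h2
    rw [← h1] at h2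
    exact mul_right_cancel₀ (hfu.pow n).ne_zero h2
  let σ : B →ₐ[R] B := { σ0 with commutes' := hσR }
  have hσ : ∀ a : S, σ (algebraMap S B a) = algebraMap S B (τ a) := hσ0
  have hσi : ∀ (j : ℕ) (a : S), σ^[j] (algebraMap S B a) = algebraMap S B (τ^[j] a) := by
    intro j
    induction j with
    | zero => intro a; rfl
    | succ j ih => intro a; rw [Function.iterate_succ_apply', ih, hσ, Function.iterate_succ_apply']
  have hσf : ∀ (n : ℕ), σ (algebraMap S B (f : S) ^ n) = algebraMap S B (f : S) ^ n := by
    intro n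
    rw [map_pow, hσ]
    change algebraMap S B (τ (algebraMap A0 S f)) ^ n = _
    rw [hτf]
    rfl
  have hσfi : ∀ (j : ℕ) (b : B) (n : ℕ), σ^[j] (b * algebraMap S B (f : S) ^ n)
      = σ^[j] b * algebraMap S B (f : S) ^ n := by
    intro j
    induction j with
    | zero => intro b n; rfl
    | succ j ih =>
      intro b n
      rw [Function.iterate_succ_apply', ih, map_mul, hσf, Function.iterate_succ_apply']
  have hdvd : ∀ i, 0 < i → i < p → ∀ b : B, algebraMap S B (τ^[i] z - z) ∣ σ^[i] b - b := by
    intro i hi hip b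
    obtain ⟨a, n, ha⟩ := hsurj b
    obtain ⟨m, c, hc⟩ := hdiv i hi hip a
    rw [← (hfu.pow (m + n)).dvd_mul_left]
    have e1 : σ^[i] b * algebraMap S B (f : S) ^ n = algebraMap S B (τ^[i] a) := by
      rw [← hσfi, ha, hσi]
    refine ⟨algebraMap S B c, ?_⟩
    have h2 := congrArg (algebraMap S B) hc
    rw [map_mul, map_mul, map_pow, map_sub] at h2
    rw [pow_add, ← h2, ← e1, ← ha]
    ring
  have hx0 : algebraMap S B (τ z - z) ≠ 0 := by
    intro h0
    rw [← map_zero (algebraMap S B)] at h0
    exact hz (sub_eq_zero.1 (hinj h0))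
  have hdvd1 : ∀ b : B, algebraMap S B (τ z - z) ∣ σ b - b := by
    intro b
    exact hdvd 1 one_pos hp.one_lt b
  have hordB : ∀ b : B, σ^[p] b = b := by
    intro b
    obtain ⟨a, n, ha⟩ := hsurj b
    have e1 : σ^[p] b * algebraMap S B (f : S) ^ n = algebraMap S B (τ^[p] a) := by
      rw [← hσfi, ha, hσi]
    rw [hord, ← ha] at e1
    exact mul_right_cancel₀ (hfu.pow n).ne_zero e1
  have hM : Pool.Agent.MPb525bf.Mono σ p (algebraMap S B (τ z - z)) (algebraMap S B z) := by
    refine ⟨?_, hp.pos, hordB, ?_, hx0, hdvd1, ?_⟩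
    · rw [injective_iff_map_eq_zero]
      intro r hr
      obtain ⟨a, n, ha⟩ := hsurjR r
      have h1 := congrArg (algebraMap R B) ha
      rw [map_mul, hr, zero_mul, hmap] at h1
      have h2 : algebraMap A0 S a = 0 := by
        apply hinj
        rw [map_zero]
        exact h1.symm
      have h3 : a = 0 := Subtype.ext h2
      rw [h3, map_zero] at ha
      exact (mul_eq_zero.1 ha).resolve_right (hfR.pow n).ne_zero
    · intro b hb
      obtain ⟨a, n, ha⟩ := hsurj b
      have h1 := congrArg σ ha
      rw [map_mul, hσf, hb, hσ, ha] at h1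
      have h2 : a ∈ A0 := (hA0 a).2 (hinj h1).symm
      obtain ⟨v, hv⟩ := (hfR.pow n).exists_right_inv
      refine ⟨algebraMap A0 R ⟨a, h2⟩ * v, ?_⟩
      rw [map_mul, hmap]
      change algebraMap S B a * _ = b
      rw [← ha]
      have h3 := congrArg (algebraMap R B) hv
      rw [map_mul, map_pow, hmap, map_one] at h3
      change algebraMap S B (f : S) ^ n * _ = 1 at h3
      rw [mul_assoc, h3, mul_one]
    · intro i hi hip
      obtain ⟨v, hv⟩ := dvd_iterate_sub σ _ hdvd1 i (algebraMap S B z)
      have hcop : i.Coprime p := by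
        rw [Nat.coprime_comm]
        exact (Nat.Prime.coprime_iff_not_dvd hp).2 fun hd =>
          absurd (Nat.le_of_dvd hi hd) (by omega)
      obtain ⟨m, hm⟩ : ∃ m : ℕ, (i * m) % p = 1 := by
        obtain ⟨m, hm⟩ := Nat.exists_mul_mod_eq_one_of_coprime hcop hp.one_lt
        exact ⟨m, hm.2⟩
      obtain ⟨w, hw⟩ := dvd_iterate_sub (σ^[i]) _ (hdvd i hi hip) m (algebraMap S B z)
      rw [← Function.iterate_mul] at hw
      have hper : σ^[i * m] (algebraMap S B z) = σ (algebraMap S B z) := by
        have h3 : i * m = 1 + p * (i * m / p) := by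
          have := Nat.mod_add_div (i * m) p
          omega
        have h4 : ∀ (j : ℕ) (b : B), σ^[p * j] b = b := by
          intro j
          induction j with
          | zero => intro b; rfl
          | succ j ih =>
            intro b
            rw [Nat.mul_succ, Function.iterate_add_apply, hordB, ih]
        rw [h3, Function.iterate_add_apply, h4]
        rfl
      rw [hper] at hw
      refine ⟨v, w, ?_, hv⟩
      have h5 : algebraMap S B (τ z - z) * (v * w) = algebraMap S B (τ z - z) * 1 := by
        rw [mul_one, ← mul_assoc, ← hv, hσi, ← map_sub]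
        rw [hσ, ← map_sub] at hw
        exact hw.symm
      exact mul_left_cancel₀ hx0 h5
  exact hM.formallySmooth

end Step

end Pool.Agent.MP_b525bf_ag_P
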