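import Pool.Agent.Lib.LU_h30.Intrinsic

/-!
# Smooth blowing ups along all valuations
-/

set_option autoImplicit false

namespace Pool.Agent.MP_b525bf_ag_P

open Pool.Agent.MP_b525bf_ag Pool.Agent.LU_h30

/-- `A` is a domain and for every valuation on `Spec A`, i.e. every injective homomorphism `v` from
`A` to a valuation ring `R`, some blowing up of `Spec A` is smooth over `k` near the center of the
lift of the valuation. -/
def SmoothAlongValuations (k A : Type) [Field k] [CommRing A] [Algebra k A] : Prop :=
  ∃ _ : IsDomain A, ∀ (R : Type) [CommRing R] [IsDomain R] [ValuationRing R] (v : A →+* R),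
    Function.Injective v → HasSmoothBlowup k v

theorem smoothAlongValuations {k A : Type} [Field k] [CommRing A] [IsDomain A] [Algebra k A]
    (h : HasResolution k A) : SmoothAlongValuations k A :=
  ⟨inferInstance, fun _ _ _ _ v hv => hasSmoothBlowup h v hv⟩

end Pool.Agent.MP_b525bf_ag_P
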